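import Pool.Agent.PStar.Basic0

set_option autoImplicit false

namespace PStar

open Finset

variable {V : Type*} [DecidableEq V] {W : Finset V} {m : V → V → ℕ} {f k : V → ℕ} {r : ℕ}

private def ae_d (u v a b : V) : ℕ := if (a = u ∧ b = v) ∨ (a = v ∧ b = u) then 1 else 0
private def ae_e (u v a : V) : ℕ := if a = u ∨ a = v then 1 else 0

private theorem ae_d_eq {u v : V} (huv : u ≠ v) (a b : V) :
    ae_d u v a b = (if a = u then (if b = v then 1 else 0) else 0) +
      (if a = v then (if b = u then 1 else 0) else 0) := by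
  unfold ae_d
  by_cases h1 : a = u
  · subst h1
    simp [huv]
  · by_cases h2 : a = v
    · subst h2
      simp [h1]
    · simp [h1, h2]

private theorem ae_e_eq {u v : V} (huv : u ≠ v) (a : V) :
    ae_e u v a = (if a = u then 1 else 0) + (if a = v then 1 else 0) := by
  unfold ae_e
  by_cases h1 : a = u
  · subst h1
    simp [huv]
  · by_cases h2 : a = v
    · subst h2
      simp [h1]
    · simp [h1, h2]

private theorem ae_d_symm (u v a b : V) : ae_d u v a b = ae_d u v b a := by
  unfold ae_d
  congr 1
  apply propext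
  tauto

private theorem ae_d_self {u v : V} (huv : u ≠ v) (a : V) : ae_d u v a a = 0 := by
  unfold ae_d
  rw [if_neg]
  rintro (⟨h1, h2⟩ | ⟨h1, h2⟩)
  · exact huv (h1.symm.trans h2)
  · exact huv (h2.symm.trans h1)

private theorem ae_sum_d {u v : V} (huv : u ≠ v) (S : Finset V) (a : V) :
    ∑ b ∈ S, ae_d u v a b = (if a = u then (if v ∈ S then 1 else 0) else 0) +
      (if a = v then (if u ∈ S then 1 else 0) else 0) := by
  simp only [ae_d_eq huv, sum_add_distrib]
  congr 1
  · split_ifs with h1 h2 <;> simp_all
  · split_ifs with h1 h2 <;> simp_all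

private theorem ae_sum_dd {u v : V} (huv : u ≠ v) (S T : Finset V) :
    ∑ a ∈ S, ∑ b ∈ T, ae_d u v a b = (if u ∈ S then (if v ∈ T then 1 else 0) else 0) +
      (if v ∈ S then (if u ∈ T then 1 else 0) else 0) := by
  simp only [ae_sum_d huv, sum_add_distrib, sum_ite_eq']

private theorem ae_sum_e {u v : V} (huv : u ≠ v) (S : Finset V) :
    ∑ a ∈ S, ae_e u v a = (if u ∈ S then 1 else 0) + (if v ∈ S then 1 else 0) := by
  simp only [ae_e_eq huv, sum_add_distrib, sum_ite_eq']

private theorem ae_addM (u v a b : V) (m : V → V → ℕ) : addM u v m a b = m a b + ae_d u v a b :=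
  rfl

private theorem ae_subF {u v : V} (hfu : 1 ≤ f u) (hfv : 1 ≤ f v) (a : V) :
    subF u v f a + ae_e u v a = f a := by
  unfold subF ae_e
  by_cases h1 : a = u
  · subst h1
    simp only [true_or, if_true]
    omega
  · by_cases h2 : a = v
    · subst h2
      simp only [or_true, if_true]
      omega
    · simp [h1, h2]

private theorem ae_sum_subF {u v : V} (huv : u ≠ v) (hfu : 1 ≤ f u) (hfv : 1 ≤ f v)
    (S : Finset V) : ∑ a ∈ S, subF u v f a + ((if u ∈ S then 1 else 0) + (if v ∈ S then 1 else 0)) =
      ∑ a ∈ S, f a := by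
  rw [← ae_sum_e huv, ← sum_add_distrib]
  exact sum_congr rfl fun a _ => ae_subF hfu hfv a

/-- Replacing two edges `zu`, `zv` by an edge `uv`. -/
theorem IsZG.add_edge (h : IsZG W m f k r) {u v : V} (hu : u ∈ W) (hv : v ∈ W) (huv : u ≠ v)
    (hfu : 1 ≤ f u) (hfv : 1 ≤ f v)
    (ht : ∀ X ⊆ W, Odd X.card → u ∈ X → v ∈ X → r + 2 ≤ cut W m f X) :
    IsZG W (addM u v m) (subF u v f) k r ∧
      (Dec W (addM u v m) (subF u v f) r → Dec W m f r) ∧
      ∑ x ∈ W, subF u v f x + 2 = ∑ x ∈ W, f x := by
  refine ⟨⟨?_, ?_, ?_, ?_⟩, ?_, ?_⟩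
  · intro a ha b hb
    rw [ae_addM, ae_addM, h.symm a ha b hb, ae_d_symm]
  · intro a ha
    rw [ae_addM, h.loopless a ha, ae_d_self huv]
  · intro a ha
    have h1 := h.degree a ha
    have h2 := ae_subF hfu hfv a
    have h3 := ae_sum_d huv W a
    rw [if_pos hu, if_pos hv, ← ae_e_eq huv] at h3
    simp only [ae_addM, sum_add_distrib]
    omega
  · intro X hX hodd
    have h1 : E (addM u v m) X (W \ X) = E m X (W \ X) +
        ∑ a ∈ X, ∑ b ∈ W \ X, ae_d u v a b := by
      simp only [E, ae_addM, sum_add_distrib]
    have h2 := ae_sum_subF huv hfu hfv X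
    have h3 := h.cuts X hX hodd
    rw [ae_sum_dd huv] at h1
    unfold cut at h3 ⊢
    rw [h1]
    by_cases a1 : u ∈ X <;> by_cases a2 : v ∈ X
    · have h4 := ht X hX hodd a1 a2
      unfold cut at h4
      simp only [a1, a2, if_true, mem_sdiff, not_true_eq_false, and_false, if_false] at h2 ⊢
      omega
    · simp only [a1, a2, hu, hv, if_true, mem_sdiff, not_true_eq_false, not_false_eq_true,
        and_false, and_true, if_false] at h2 ⊢
      omega
    · simp only [a1, a2, hu, hv, if_true, mem_sdiff, not_true_eq_false, not_false_eq_true,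
        and_false, and_true, if_false] at h2 ⊢
      omega
    · simp only [a1, a2, if_false] at h2 ⊢
      omega
  · rintro ⟨J, g, hsym, hJ, hg, hodd⟩
    obtain ⟨c0, hc0⟩ : ∃ c0, 1 ≤ J c0 u v := by
      by_contra hcon
      push Not at hcon
      have h1 := hJ u hu v hv
      rw [sum_eq_zero fun c _ => by have := hcon c; omega, ae_addM] at h1
      have : ae_d u v u v = 1 := by simp [ae_d]
      omega
    have hdle : ∀ a b : V, ae_d u v a b ≤ J c0 a b := by
      intro a b
      unfold ae_d
      split_ifs with h1
      · rcases h1 with ⟨rfl, rfl⟩ | ⟨rfl, rfl⟩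
        · exact hc0
        · rw [hsym c0 _ hv _ hu]
          exact hc0
      · exact Nat.zero_le _
    refine ⟨fun c a b => J c a b - if c = c0 then ae_d u v a b else 0,
      fun c a => g c a + if c = c0 then ae_e u v a else 0, ?_, ?_, ?_, ?_⟩
    · intro c a ha b hb
      simp only [hsym c a ha b hb, ae_d_symm u v a b]
    · intro a ha b hb
      have h1 := hJ a ha b hb
      rw [ae_addM] at h1
      have h2 : ∑ c, (J c a b - if c = c0 then ae_d u v a b else 0) +
          ∑ c, (if c = c0 then ae_d u v a b else 0) = ∑ c, J c a b := by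
        rw [← sum_add_distrib]
        refine sum_congr rfl fun c _ => ?_
        have := hdle a b
        split_ifs with h3
        · subst h3
          omega
        · omega
      rw [sum_ite_eq' univ c0, if_pos (mem_univ _)] at h2
      simp only
      omega
    · intro a ha
      simp only [sum_add_distrib]
      rw [sum_ite_eq' univ c0, if_pos (mem_univ _), hg a ha]
      exact ae_subF hfu hfv a
    · intro c a ha
      by_cases hc : c = c0
      · subst hc
        simp only [if_true]
        have h2 : ∑ b ∈ W, (J c a b - ae_d u v a b) + ∑ b ∈ W, ae_d u v a b =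
            ∑ b ∈ W, J c a b := by
          rw [← sum_add_distrib]
          refine sum_congr rfl fun b _ => ?_
          have := hdle a b
          omega
        have h3 := ae_sum_d huv W a
        rw [if_pos hu, if_pos hv, ← ae_e_eq huv] at h3
        have h4 := hodd c a ha
        have h5 : ∑ b ∈ W, (J c a b - ae_d u v a b) + (g c a + ae_e u v a) =
            ∑ b ∈ W, J c a b + g c a := by omega
        rw [h5]
        exact h4
      · simp only [hc, if_false, Nat.sub_zero, add_zero]
        exact hodd c a ha
  · have := ae_sum_subF huv hfu hfv W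
    rw [if_pos hu, if_pos hv] at this
    exact this

end PStar
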