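import Pool.Agent.PStar.Basic0

set_option autoImplicit false

namespace PStar

open Finset

variable {V : Type*} [DecidableEq V] {W : Finset V} {m : V → V → ℕ} {f k : V → ℕ} {r : ℕ}

/-- Adding one vertex to a set. -/
private theorem basicD_cut_insert (h : IsZG W m f k r) {v : V} {X : Finset V} (hv : v ∈ W)
    (hX : X ⊆ W) (hvX : v ∉ X) :
    cut W m f (insert v X) + 2 * ∑ x ∈ X, m v x = cut W m f X + (r + 2 * k v) := by
  have hdeg := h.degree v hv
  have e1 : W \ X = insert v (W \ insert v X) := by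
    ext u
    simp only [mem_sdiff, mem_insert]
    constructor
    · rintro ⟨h1, h2⟩
      by_cases huv : u = v
      · exact Or.inl huv
      · exact Or.inr ⟨h1, fun h3 => h3.elim huv h2⟩
    · rintro (rfl | ⟨h1, h2⟩)
      · exact ⟨hv, hvX⟩
      · exact ⟨h1, fun h3 => h2 (Or.inr h3)⟩
  have hv2 : v ∉ W \ insert v X := by simp
  have e2 : ∑ u ∈ W, m v u = ∑ x ∈ X, m v x + ∑ u ∈ W \ insert v X, m v u := by
    have h1 := Finset.sum_sdiff (f := fun u => m v u) hX
    rw [← h1, e1, sum_insert hv2, h.loopless v hv]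
    ring
  have e3 : E m X (W \ X) = ∑ x ∈ X, m v x + E m X (W \ insert v X) := by
    unfold E
    rw [← sum_add_distrib]
    refine sum_congr rfl fun x hx => ?_
    rw [e1, sum_insert hv2, h.symm x (hX hx) v hv]
  have e4 : E m (insert v X) (W \ insert v X) =
      ∑ u ∈ W \ insert v X, m v u + E m X (W \ insert v X) := by
    unfold E
    rw [sum_insert hvX]
  unfold cut
  rw [e4, e3, sum_insert hvX]
  omega

private theorem basicD_nb {a : V} {T X : Finset V} (hX : X ⊆ W)
    (hm : ∀ v ∈ W, v ∉ T → m a v = 0) : ∑ x ∈ X, m a x = ∑ x ∈ T ∩ X, m a x := by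
  symm
  refine Finset.sum_subset inter_subset_right fun x hx hx' => hm x (hX hx) fun h => hx' ?_
  exact mem_inter.2 ⟨h, hx⟩

/-- Cut bound at a vertex `a` with only three neighbours, all of degree `r`. -/
theorem IsZG.special_cut (h : IsZG W m f k r) {a : V} {T : Finset V} (ha : a ∈ W) (hT : T ⊆ W)
    (hTc : T.card = 3) (haT : a ∉ T) (hm : ∀ v ∈ W, v ∉ T → m a v = 0) (hfa : f a = 0)
    (hkT : ∀ t ∈ T, k t = 0) {X : Finset V} (hX : X ⊆ W) (hodd : Odd X.card) :
    (a ∉ X → 2 ≤ (T ∩ X).card → r + 2 * k a ≤ cut W m f X) ∧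
    (a ∈ X → (T ∩ X).card ≤ 1 → r + 2 * k a ≤ cut W m f X) := by
  have hdega := h.degree a ha
  rw [hfa, add_zero, basicD_nb (Finset.Subset.refl W) hm, inter_eq_left.2 hT] at hdega
  constructor
  · intro haX hc
    have h1 := basicD_cut_insert h ha hX haX
    have h2 := basicD_nb (T := T) hX hm
    by_cases hTX : T ⊆ X
    · rw [inter_eq_left.2 hTX] at h2
      omega
    · obtain ⟨w, hwT, hwX⟩ := Finset.not_subset.1 hTX
      have hwW := hT hwT
      have haw : w ≠ a := fun h => haT (h ▸ hwT)
      have hZ : insert a X ⊆ W := insert_subset ha hX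
      have hwZ : w ∉ insert a X := by
        rw [mem_insert]
        rintro (h3 | h3)
        exacts [haw h3, hwX h3]
      have h3 := basicD_cut_insert h hwW hZ hwZ
      rw [hkT w hwT, sum_insert haX] at h3
      have h4 := h.cuts (insert w (insert a X)) (insert_subset hwW hZ) (by
        rw [card_insert_of_notMem hwZ, card_insert_of_notMem haX]
        obtain ⟨q, hq⟩ := hodd
        exact ⟨q + 1, by omega⟩)
      have h5 : T ∩ X = T.erase w := by
        refine Finset.eq_of_subset_of_card_le ?_ ?_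
        · intro x hx
          rw [mem_inter] at hx
          exact mem_erase.2 ⟨fun h => hwX (h ▸ hx.2), hx.1⟩
        · rw [card_erase_of_mem hwT, hTc]
          exact hc
      have h6 := Finset.add_sum_erase T (fun x => m a x) hwT
      rw [h5] at h2
      have h7 := h.symm a ha w hwW
      omega
  · intro haX hc
    obtain ⟨X', hX'⟩ : ∃ X', X' = X.erase a := ⟨_, rfl⟩
    have haX' : a ∉ X' := by rw [hX']; exact notMem_erase a X
    have hins : insert a X' = X := by rw [hX']; exact insert_erase haX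
    have hX'W : X' ⊆ W := by rw [hX']; exact (erase_subset a X).trans hX
    have h1 := basicD_cut_insert h ha hX'W haX'
    rw [hins] at h1
    have h2 := basicD_nb (T := T) hX'W hm
    have hTX' : T ∩ X' = T ∩ X := by
      ext x
      rw [mem_inter, mem_inter, hX', mem_erase]
      constructor
      · rintro ⟨h3, -, h4⟩
        exact ⟨h3, h4⟩
      · rintro ⟨h3, h4⟩
        exact ⟨h3, fun h => haT (h ▸ h3), h4⟩
    rw [hTX'] at h2
    rcases Nat.lt_or_ge (T ∩ X).card 1 with h0 | h0
    · have h3 : T ∩ X = ∅ := card_eq_zero.1 (by omega)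
      rw [h3, sum_empty] at h2
      omega
    · obtain ⟨x, hx⟩ := card_eq_one.1 (le_antisymm hc h0)
      have hxTX : x ∈ T ∩ X := by rw [hx]; exact mem_singleton_self x
      rw [mem_inter] at hxTX
      have hxW := hX hxTX.2
      have hxa : x ≠ a := fun h => haT (h ▸ hxTX.1)
      rw [hx, sum_singleton] at h2
      obtain ⟨Y, hY⟩ : ∃ Y, Y = X'.erase x := ⟨_, rfl⟩
      have hxX' : x ∈ X' := by rw [hX', mem_erase]; exact ⟨hxa, hxTX.2⟩
      have hxY : x ∉ Y := by rw [hY]; exact notMem_erase x X'
      have hins2 : insert x Y = X' := by rw [hY]; exact insert_erase hxX'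
      have hYW : Y ⊆ W := by rw [hY]; exact (erase_subset x X').trans hX'W
      have haY : a ∉ Y := by
        rw [hY, mem_erase]
        exact fun h => haX' h.2
      have h3 := basicD_cut_insert h hxW hYW hxY
      rw [hins2, hkT x hxTX.1] at h3
      have c1 : X'.card + 1 = X.card := by rw [← hins, card_insert_of_notMem haX']
      have c2 : Y.card + 1 = X'.card := by rw [← hins2, card_insert_of_notMem hxY]
      have h4 := h.cuts Y hYW (by
        obtain ⟨q, hq⟩ := hodd
        exact ⟨q - 1, by omega⟩)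
      have h5 := h.degree x hxW
      rw [hkT x hxTX.1] at h5
      have h6 : m x a + ∑ y ∈ Y, m x y ≤ ∑ u ∈ W, m x u := by
        rw [← sum_insert (f := fun u => m x u) haY]
        exact Finset.sum_le_sum_of_subset (insert_subset ha hYW)
      have h7 := h.symm a ha x hxW
      omega

/-- Each neighbour of such a vertex is joined to it by at least `k a` edges. -/
theorem IsZG.special_mult (h : IsZG W m f k r) {a : V} {T : Finset V} (ha : a ∈ W) (hT : T ⊆ W)
    (hTc : T.card = 3) (haT : a ∉ T) (hm : ∀ v ∈ W, v ∉ T → m a v = 0) (hfa : f a = 0)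
    (hkT : ∀ t ∈ T, k t = 0) {t : V} (ht : t ∈ T) : k a ≤ m a t := by
  have hdega := h.degree a ha
  rw [hfa, add_zero, basicD_nb (Finset.Subset.refl W) hm, inter_eq_left.2 hT] at hdega
  obtain ⟨t1, t2, h12, hT2⟩ := card_eq_two.1 (show (T.erase t).card = 2 by
    rw [card_erase_of_mem ht, hTc])
  have ht1 : t1 ∈ T := mem_of_mem_erase (by rw [hT2]; simp : t1 ∈ T.erase t)
  have ht2 : t2 ∈ T := mem_of_mem_erase (by rw [hT2]; simp : t2 ∈ T.erase t)
  have h6 := Finset.add_sum_erase T (fun x => m a x) ht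
  rw [hT2, sum_pair h12] at h6
  have ha1 : a ≠ t1 := fun h => haT (h ▸ ht1)
  have ha2 : a ≠ t2 := fun h => haT (h ▸ ht2)
  have k1 := basicD_cut_insert h (hT ht1) (empty_subset W) (notMem_empty t1)
  have c0 : cut W m f ∅ = 0 := by simp [cut, E]
  have hs1 : insert t1 (∅ : Finset V) ⊆ W := insert_subset (hT ht1) (empty_subset W)
  have hn2 : t2 ∉ insert t1 (∅ : Finset V) := by simp [Ne.symm h12]
  have k2 := basicD_cut_insert h (hT ht2) hs1 hn2
  have hs2 : insert t2 (insert t1 (∅ : Finset V)) ⊆ W := insert_subset (hT ht2) hs1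
  have hn3 : a ∉ insert t2 (insert t1 (∅ : Finset V)) := by simp [ha1, ha2]
  have k3 := basicD_cut_insert h ha hs2 hn3
  rw [hkT t1 ht1, c0, sum_empty] at k1
  rw [hkT t2 ht2, sum_insert (notMem_empty t1), sum_empty] at k2
  rw [sum_insert hn2, sum_insert (notMem_empty t1), sum_empty] at k3
  have k4 := h.cuts _ (insert_subset ha hs2) (by
    rw [card_insert_of_notMem hn3, card_insert_of_notMem hn2,
      card_insert_of_notMem (notMem_empty t1), card_empty]
    exact ⟨1, by norm_num⟩)
  omega

end PStar
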