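import Pool.Agent.PStar.BasicC
import Pool.Agent.PStar.BasicD

set_option autoImplicit false

namespace PStar

open Finset

variable {V : Type*} [DecidableEq V] {W : Finset V} {m : V → V → ℕ} {f k : V → ℕ} {r : ℕ}

/-- Cuts by indicator functions. -/
private theorem BC1_cut {P X : Finset V} (M : V → V → ℕ) (F : V → ℕ) (hX : X ⊆ P) :
    cut P M F X = ∑ u ∈ P, (if u ∈ X then ∑ v ∈ P, (if v ∉ X then M u v else 0) else 0) +
      ∑ u ∈ P, (if u ∈ X then F u else 0) := by
  unfold cut E
  congr 1
  · rw [← sum_filter]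
    have h2 : P.filter (fun u => u ∈ X) = X := by
      ext u
      simp only [mem_filter]
      exact ⟨fun h => h.2, fun h => ⟨hX h, h⟩⟩
    rw [h2]
    apply sum_congr rfl
    intro u _
    rw [← sum_filter]
    apply sum_congr
    · ext v
      simp only [mem_filter, mem_sdiff]
    · intros; rfl
  · rw [← sum_filter]
    apply sum_congr
    · ext u
      simp only [mem_filter]
      exact ⟨fun h => ⟨hX h, h⟩, fun h => h.2⟩
    · intros; rfl

private theorem BC1_card {P X : Finset V} :
    (X ∩ P).card = ∑ u ∈ P, (if u ∈ X then 1 else 0) := by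
  rw [card_eq_sum_ones, ← sum_filter]
  apply sum_congr
  · ext u
    simp only [mem_filter, mem_inter]
    exact ⟨fun h => ⟨h.2, h.1⟩, fun h => ⟨h.2, h.1⟩⟩
  · intros; rfl

/-- Cuts and degrees. -/
private theorem BC1_deg {X : Finset V} (hX : X ⊆ W) (m : V → V → ℕ) (f : V → ℕ) :
    cut W m f X + E m X X = ∑ x ∈ X, (∑ u ∈ W, m x u + f x) := by
  unfold cut E
  have h1 : ∀ x ∈ X, ∑ u ∈ W, m x u + f x = (∑ u ∈ W \ X, m x u + ∑ u ∈ X, m x u) + f x := by
    intro x _
    rw [sum_sdiff hX]
  rw [sum_congr rfl h1, sum_add_distrib, sum_add_distrib]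
  ring

/-- Three vertices. -/
private theorem BC1_tri (h : IsZG W m f k r) {p q d : V} (hp : p ∈ W) (hq : q ∈ W) (hd : d ∈ W)
    (hpq : p ≠ q) (hpd : p ≠ d) (hqd : q ≠ d) (kp : k p = 0) (kq : k q = 0)
    (hdeg : m d p + m d q = r) (kd : k d = 0) : cut W m f {p, q, d} ≤ r := by
  have hX : ({p, q, d} : Finset V) ⊆ W := by
    intro u hu
    simp only [mem_insert, mem_singleton] at hu
    rcases hu with rfl | rfl | rfl <;> assumption
  have h1 := BC1_deg hX m f
  have s3 : ∀ g : V → ℕ, ∑ u ∈ ({p, q, d} : Finset V), g u = g p + (g q + g d) := by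
    intro g
    rw [sum_insert (by simp [hpq, hpd]), sum_insert (by simp [hqd]), sum_singleton]
  rw [s3] at h1
  unfold E at h1
  rw [s3, s3, s3, s3, h.degree p hp, h.degree q hq, h.degree d hd, kp, kq, kd] at h1
  have e1 := h.symm p hp d hd
  have e2 := h.symm q hq d hd
  omega

/-- Base configuration with `z` in the central bag. -/
theorem BC1 (h : IsZG W m f k r) {q1 q2 q3 a : V} {D : Finset V}
    (hW : W = insert q1 (insert q2 (insert q3 (insert a D))))
    (h12 : q1 ≠ q2) (h13 : q1 ≠ q3) (h23 : q2 ≠ q3) (h1a : q1 ≠ a) (h2a : q2 ≠ a) (h3a : q3 ≠ a)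
    (h1D : q1 ∉ D) (h2D : q2 ∉ D) (h3D : q3 ∉ D) (haD : a ∉ D)
    (hDD : ∀ d ∈ D, ∀ e ∈ D, m d e = 0) (hmaD : ∀ d ∈ D, m a d = 0) (hfa : f a = 0)
    (hDq : ∀ d ∈ D, m d q1 = 0 ∨ m d q2 = 0 ∨ m d q3 = 0)
    (hk : ∀ v ∈ W, v ≠ a → k v = 0) (hka : k a ≠ 0) : Reducible W m f k r := by
  have q1W : q1 ∈ W := by rw [hW]; simp
  have q2W : q2 ∈ W := by rw [hW]; simp
  have q3W : q3 ∈ W := by rw [hW]; simp
  have aW : a ∈ W := by rw [hW]; simp
  have DW : ∀ d ∈ D, d ∈ W := by
    intro d hd
    rw [hW]
    simp [hd]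
  have d1 : ∀ d ∈ D, d ≠ q1 := fun d hd e => h1D (e ▸ hd)
  have d2 : ∀ d ∈ D, d ≠ q2 := fun d hd e => h2D (e ▸ hd)
  have d3 : ∀ d ∈ D, d ≠ q3 := fun d hd e => h3D (e ▸ hd)
  have da : ∀ d ∈ D, d ≠ a := fun d hd e => haD (e ▸ hd)
  have k1 := hk q1 q1W h1a
  have k2 := hk q2 q2W h2a
  have k3 := hk q3 q3W h3a
  have kd : ∀ d ∈ D, k d = 0 := fun d hd => hk d (DW d hd) (da d hd)
  have hmem : ∀ u ∈ W, u = q1 ∨ u = q2 ∨ u = q3 ∨ u = a ∨ u ∈ D := by
    intro u hu
    rw [hW] at hu
    simpa using hu
  have sumW : ∀ g : V → ℕ, ∑ u ∈ W, g u = g q1 + (g q2 + (g q3 + (g a + ∑ u ∈ D, g u))) := by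
    intro g
    rw [hW, sum_insert, sum_insert, sum_insert, sum_insert haD]
    · simp [h3a, h3D]
    · simp [h23, h2a, h2D]
    · simp [h12, h13, h1a, h1D]
  -- the triangle
  set T : Finset V := {q1, q2, q3} with hTd
  have sumT : ∀ g : V → ℕ, ∑ u ∈ T, g u = g q1 + (g q2 + g q3) := by
    intro g
    rw [hTd, sum_insert (by simp [h12, h13]), sum_insert (by simp [h23]), sum_singleton]
  have hT : T ⊆ W := by
    intro u hu
    simp only [hTd, mem_insert, mem_singleton] at hu
    rcases hu with rfl | rfl | rfl <;> assumption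
  have hTc : T.card = 3 := by
    rw [hTd, card_insert_of_notMem (by simp [h12, h13]), card_insert_of_notMem (by simp [h23]),
      card_singleton]
  have haT : a ∉ T := by
    simp [hTd, h1a.symm, h2a.symm, h3a.symm]
  have hmaT : ∀ v ∈ W, v ∉ T → m a v = 0 := by
    intro v hv hvT
    rcases hmem v hv with e | e | e | e | hvD
    · exact absurd (by rw [e]; simp [hTd]) hvT
    · exact absurd (by rw [e]; simp [hTd]) hvT
    · exact absurd (by rw [e]; simp [hTd]) hvT
    · rw [e]; exact h.loopless a aW
    · exact hmaD v hvD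
  have hkT : ∀ t ∈ T, k t = 0 := by
    intro t ht
    simp only [hTd, mem_insert, mem_singleton] at ht
    rcases ht with rfl | rfl | rfl <;> assumption
  have ka1 : 1 ≤ k a := Nat.one_le_iff_ne_zero.mpr hka
  have ma1 : k a ≤ m a q1 := h.special_mult aW hT hTc haT hmaT hfa hkT (by simp [hTd])
  have ma2 : k a ≤ m a q2 := h.special_mult aW hT hTc haT hmaT hfa hkT (by simp [hTd])
  have ma3 : k a ≤ m a q3 := h.special_mult aW hT hTc haT hmaT hfa hkT (by simp [hTd])
  have sy1 := h.symm a aW q1 q1W
  have sy2 := h.symm a aW q2 q2W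
  have sy3 := h.symm a aW q3 q3W
  have dega : m a q1 + m a q2 + m a q3 = r + 2 * k a := by
    have h1 := h.degree a aW
    rw [sumW, h.loopless a aW, hfa, sum_congr rfl hmaD, sum_const_zero] at h1
    omega
  have hr : 1 ≤ r := by
    have h1 := h.degree q1 q1W
    rw [sumW, k1] at h1
    omega
  obtain ⟨s, rfl⟩ : ∃ s, r = s + 1 := ⟨r - 1, by omega⟩
  -- the vertices of D have edges to z
  have mdD : ∀ d ∈ D, m d a = 0 := by
    intro d hd
    rw [h.symm d (DW d hd) a aW]
    exact hmaD d hd
  have hf : ∀ d ∈ D, 1 ≤ f d := by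
    intro d hd
    by_contra hcon
    have hf0 : f d = 0 := by omega
    have h1 := h.degree d (DW d hd)
    rw [sumW, mdD d hd, kd d hd, hf0] at h1
    have h0 : ∑ u ∈ D, m d u = 0 := sum_eq_zero fun u hu => hDD d hd u hu
    rw [h0] at h1
    -- the three cases
    have main : ∀ p q : V, p ∈ T → q ∈ T → p ≠ q → m d p + m d q = s + 1 → False := by
      intro p q hp hq hpq hdeg
      have pW := hT hp
      have qW := hT hq
      have pD : p ≠ d := by
        rintro rfl
        simp only [hTd, mem_insert, mem_singleton] at hp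
        rcases hp with e | e | e
        · exact d1 p hd e
        · exact d2 p hd e
        · exact d3 p hd e
      have qD : q ≠ d := by
        rintro rfl
        simp only [hTd, mem_insert, mem_singleton] at hq
        rcases hq with e | e | e
        · exact d1 q hd e
        · exact d2 q hd e
        · exact d3 q hd e
      have h2 := BC1_tri h pW qW (DW d hd) hpq pD qD (hkT p hp) (hkT q hq) hdeg (kd d hd)
      have hX : ({p, q, d} : Finset V) ⊆ W := by
        intro u hu
        simp only [mem_insert, mem_singleton] at hu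
        rcases hu with e | e | e
        · rw [e]; exact pW
        · rw [e]; exact qW
        · rw [e]; exact DW d hd
      have hXc : ({p, q, d} : Finset V).card = 3 := by
        rw [card_insert_of_notMem (by simp [hpq, pD]), card_insert_of_notMem (by simp [qD]),
          card_singleton]
      have haX : a ∉ ({p, q, d} : Finset V) := by
        simp only [mem_insert, mem_singleton, not_or]
        exact ⟨fun e => haT (e ▸ hp), fun e => haT (e ▸ hq), fun e => da d hd e.symm⟩
      have hTX : 2 ≤ (T ∩ {p, q, d}).card := by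
        have h3 : ({p, q} : Finset V) ⊆ T ∩ {p, q, d} := by
          intro u hu
          simp only [mem_insert, mem_singleton] at hu
          rcases hu with e | e
          · rw [e]; simp [hp]
          · rw [e]; simp [hq]
        have h4 := card_le_card h3
        rwa [card_pair hpq] at h4
      have h5 := (h.special_cut aW hT hTc haT hmaT hfa hkT hX (by rw [hXc]; decide)).1 haX hTX
      omega
    rcases hDq d hd with e | e | e
    · exact main q2 q3 (by simp [hTd]) (by simp [hTd]) h23 (by omega)
    · exact main q1 q3 (by simp [hTd]) (by simp [hTd]) h13 (by omega)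
    · exact main q1 q2 (by simp [hTd]) (by simp [hTd]) h12 (by omega)
  -- the part
  set J0 : V → V → ℕ := fun u v => if (u = a ∧ v ∈ T) ∨ (v = a ∧ u ∈ T) then 1 else 0 with hJ0
  set g0 : V → ℕ := fun v => if v ∈ D then 1 else 0 with hg0
  set e : V → ℕ := fun v => if v = a then 1 else 0 with he0
  have q1T : q1 ∈ T := by simp [hTd]
  have q2T : q2 ∈ T := by simp [hTd]
  have q3T : q3 ∈ T := by simp [hTd]
  have DT : ∀ d ∈ D, d ∉ T := by
    intro d hd hdT
    simp only [hTd, mem_insert, mem_singleton] at hdT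
    rcases hdT with e | e | e
    · exact d1 d hd e
    · exact d2 d hd e
    · exact d3 d hd e
  have Jaq : ∀ t ∈ T, J0 a t = 1 := by
    intro t ht
    simp [hJ0, ht]
  have Jqa : ∀ t ∈ T, J0 t a = 1 := by
    intro t ht
    simp [hJ0, ht]
  have Jaa : J0 a a = 0 := by
    simp [hJ0, haT]
  have JaD : ∀ d ∈ D, J0 a d = 0 := by
    intro d hd
    simp [hJ0, DT d hd, da d hd]
  have JDu : ∀ d ∈ D, ∀ u, J0 d u = 0 := by
    intro d hd u
    simp [hJ0, DT d hd, da d hd]
  have Jqu : ∀ t ∈ T, ∀ u, u ≠ a → J0 t u = 0 := by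
    intro t ht u hu
    have : t ≠ a := fun e => haT (e ▸ ht)
    simp [hJ0, this, hu]
  have Jsymm : ∀ u v, J0 u v = J0 v u := by
    intro u v
    simp only [hJ0]
    congr 1
    exact propext or_comm
  have Jle : ∀ u ∈ W, ∀ v ∈ W, J0 u v ≤ m u v := by
    intro u hu v hv
    by_cases hc : (u = a ∧ v ∈ T) ∨ (v = a ∧ u ∈ T)
    · have e1 : J0 u v = 1 := by simp only [hJ0]; rw [if_pos hc]
      rw [e1]
      have hT' : ∀ t ∈ T, 1 ≤ m a t := by
        intro t ht
        simp only [hTd, mem_insert, mem_singleton] at ht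
        rcases ht with rfl | rfl | rfl <;> omega
      rcases hc with ⟨e2, e3⟩ | ⟨e2, e3⟩
      · rw [e2]; exact hT' v e3
      · rw [e2, h.symm u hu a aW]; exact hT' u e3
    · have e1 : J0 u v = 0 := by simp only [hJ0]; rw [if_neg hc]
      rw [e1]
      exact Nat.zero_le _
  have gle : ∀ v ∈ W, g0 v ≤ f v := by
    intro v _
    simp only [hg0]
    split_ifs with hv
    · exact hf v hv
    · exact Nat.zero_le _
  have hdegJ : ∀ v ∈ W, ∑ u ∈ W, J0 v u + g0 v = 1 + 2 * e v := by
    intro v hv
    rw [sumW]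
    rcases hmem v hv with e1 | e1 | e1 | e1 | hvD
    · rw [e1, Jqu q1 q1T q1 h1a, Jqu q1 q1T q2 h2a, Jqu q1 q1T q3 h3a, Jqa q1 q1T,
        sum_eq_zero (fun u hu => Jqu q1 q1T u (da u hu))]
      simp [hg0, he0, h1D, h1a]
    · rw [e1, Jqu q2 q2T q1 h1a, Jqu q2 q2T q2 h2a, Jqu q2 q2T q3 h3a, Jqa q2 q2T,
        sum_eq_zero (fun u hu => Jqu q2 q2T u (da u hu))]
      simp [hg0, he0, h2D, h2a]
    · rw [e1, Jqu q3 q3T q1 h1a, Jqu q3 q3T q2 h2a, Jqu q3 q3T q3 h3a, Jqa q3 q3T,
        sum_eq_zero (fun u hu => Jqu q3 q3T u (da u hu))]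
      simp [hg0, he0, h3D, h3a]
    · rw [e1, Jaq q1 q1T, Jaq q2 q2T, Jaq q3 q3T, Jaa, sum_eq_zero JaD]
      simp [hg0, he0, haD]
    · rw [JDu v hvD, JDu v hvD, JDu v hvD, JDu v hvD, sum_eq_zero (fun u _ => JDu v hvD u)]
      simp [hg0, he0, hvD, da v hvD]
  have hek : ∀ v ∈ W, e v ≤ k v := by
    intro v _
    simp only [he0]
    split_ifs with hv
    · rw [hv]; exact ka1
    · exact Nat.zero_le _
  -- the degrees after the removal
  have hdeg' : ∀ v ∈ W, ∑ u ∈ W, (m v u - J0 v u) + (f v - g0 v) + 2 * e v = s + 2 * k v := by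
    intro v hv
    have e1 : ∑ u ∈ W, (m v u - J0 v u) + ∑ u ∈ W, J0 v u = ∑ u ∈ W, m v u := by
      rw [← sum_add_distrib]
      apply sum_congr rfl
      intro u hu
      have := Jle v hv u hu
      omega
    have e2 := h.degree v hv
    have e3 := hdegJ v hv
    have e4 := gle v hv
    omega
  have hcut : ∀ X ⊆ W, Odd X.card → s + cut W J0 g0 X ≤ cut W m f X := by
    intro X hX hodd
    obtain ⟨nD, hnD⟩ : ∃ nD, nD = (X ∩ D).card := ⟨_, rfl⟩
    have hcard : X.card = (if q1 ∈ X then 1 else 0) + ((if q2 ∈ X then 1 else 0) +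
        ((if q3 ∈ X then 1 else 0) + ((if a ∈ X then 1 else 0) + nD))) := by
      have h1 : X ∩ W = X := inter_eq_left.mpr hX
      rw [← h1, BC1_card, sumW, hnD, BC1_card]
      simp only [h1]
    have hTX : (T ∩ X).card = (if q1 ∈ X then 1 else 0) + ((if q2 ∈ X then 1 else 0) +
        (if q3 ∈ X then 1 else 0)) := by
      rw [inter_comm, BC1_card, sumT]
    -- the cut of the part
    have hcJ : cut W J0 g0 X =
        (if q1 ∈ X then (if a ∉ X then 1 else 0) else 0) +
        ((if q2 ∈ X then (if a ∉ X then 1 else 0) else 0) +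
        ((if q3 ∈ X then (if a ∉ X then 1 else 0) else 0) +
        (if a ∈ X then ((if q1 ∉ X then 1 else 0) + ((if q2 ∉ X then 1 else 0) +
          (if q3 ∉ X then 1 else 0))) else 0))) + nD := by
      rw [BC1_cut J0 g0 hX, sumW, sumW (fun u => if u ∈ X then g0 u else 0)]
      have c1 : ∀ t ∈ T, ∑ v ∈ W, (if v ∉ X then J0 t v else 0) = if a ∉ X then 1 else 0 := by
        intro t ht
        rw [sumW, Jqu t ht q1 h1a, Jqu t ht q2 h2a, Jqu t ht q3 h3a, Jqa t ht,
          sum_eq_zero (fun u hu => by rw [Jqu t ht u (da u hu), ite_self])]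
        simp
      have c2 : ∑ v ∈ W, (if v ∉ X then J0 a v else 0) = (if q1 ∉ X then 1 else 0) +
          ((if q2 ∉ X then 1 else 0) + (if q3 ∉ X then 1 else 0)) := by
        rw [sumW, Jaq q1 q1T, Jaq q2 q2T, Jaq q3 q3T, Jaa,
          sum_eq_zero (fun u hu => by rw [JaD u hu, ite_self])]
        simp
      have c3 : ∑ u ∈ D, (if u ∈ X then ∑ v ∈ W, (if v ∉ X then J0 u v else 0) else 0) = 0 := by
        apply sum_eq_zero
        intro u hu
        have : ∑ v ∈ W, (if v ∉ X then J0 u v else 0) = 0 := by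
          apply sum_eq_zero
          intro v _
          rw [JDu u hu v, ite_self]
        rw [this, ite_self]
      have c4 : ∑ u ∈ D, (if u ∈ X then g0 u else 0) = nD := by
        rw [hnD, BC1_card]
        apply sum_congr rfl
        intro u hu
        simp [hg0, hu]
      have g1 : g0 q1 = 0 := by simp [hg0, h1D]
      have g2 : g0 q2 = 0 := by simp [hg0, h2D]
      have g3 : g0 q3 = 0 := by simp [hg0, h3D]
      have ga : g0 a = 0 := by simp [hg0, haD]
      rw [c1 q1 q1T, c1 q2 q2T, c1 q3 q3T, c2, c3, c4, g1, g2, g3, ga]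
      simp only [ite_self, zero_add, add_zero]
    -- the crude bound
    have hcc : cut W (fun u v => m u v - J0 u v) (fun v => f v - g0 v) X + cut W J0 g0 X =
        cut W m f X := by
      unfold cut E
      have e1 : ∑ x ∈ X, ∑ v ∈ W \ X, (m x v - J0 x v) + ∑ x ∈ X, ∑ v ∈ W \ X, J0 x v =
          ∑ x ∈ X, ∑ v ∈ W \ X, m x v := by
        rw [← sum_add_distrib]
        apply sum_congr rfl
        intro u hu
        rw [← sum_add_distrib]
        apply sum_congr rfl
        intro v hv
        have := Jle u (hX hu) v (mem_sdiff.mp hv).1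
        omega
      have e2 : ∑ x ∈ X, (f x - g0 x) + ∑ x ∈ X, g0 x = ∑ x ∈ X, f x := by
        rw [← sum_add_distrib]
        apply sum_congr rfl
        intro u hu
        have := gle u (hX hu)
        omega
      beta_reduce
      omega
    obtain ⟨c', hc'⟩ : ∃ c', c' =
      cut W (fun u v => m u v - J0 u v) (fun v => f v - g0 v) X := ⟨_, rfl⟩
    rw [← hc'] at hcc
    have hsymm' : ∀ u ∈ W, ∀ v ∈ W, m u v - J0 u v = m v u - J0 v u := by
      intro u hu v hv
      rw [h.symm u hu v hv, Jsymm u v]
    have hRsum : ∑ x ∈ X ∩ T, ∑ u ∈ W, (m x u - J0 x u) ≤ (X ∩ T).card * s := by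
      rw [← smul_eq_mul, ← sum_const]
      apply sum_le_sum
      intro x hx
      have hxT := mem_of_mem_inter_right hx
      have e1 := hdeg' x (hT hxT)
      rw [hkT x hxT] at e1
      omega
    have hDsum : ∑ x ∈ X ∩ D, (∑ u ∈ W, (m x u - J0 x u) + (f x - g0 x)) = nD * s := by
      rw [hnD, ← smul_eq_mul, ← sum_const]
      apply sum_congr rfl
      intro x hx
      have hxD := mem_of_mem_inter_right hx
      have e1 := hdeg' x (DW x hxD)
      have e2 : e x = 0 := by simp [he0, da x hxD]
      rw [kd x hxD, e2] at e1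
      omega
    have hXT : (X ∩ T).card = (T ∩ X).card := by rw [inter_comm]
    have hsub1 : X ∩ D ⊆ W := fun u hu => DW u (mem_of_mem_inter_right hu)
    have hsub2 : X ∩ T ⊆ W := fun u hu => hT (mem_of_mem_inter_right hu)
    have hdisj : Disjoint (X ∩ D) (X ∩ T) := by
      rw [disjoint_left]
      intro u hu hu'
      exact DT u (mem_of_mem_inter_right hu) (mem_of_mem_inter_right hu')
    have hind : ∀ u ∈ X ∩ D, ∀ v ∈ X ∩ D, m u v - J0 u v = 0 := by
      intro u hu v hv
      rw [hDD u (mem_of_mem_inter_right hu) v (mem_of_mem_inter_right hv), Nat.zero_sub]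
    have hsp := h.special_cut aW hT hTc haT hmaT hfa hkT hX hodd
    have hcuts := h.cuts X hX hodd
    by_cases haX : a ∈ X
    · -- `a` in `X`
      have hXeq : X = insert a (X ∩ D) ∪ (X ∩ T) := by
        ext u
        simp only [mem_union, mem_insert, mem_inter]
        constructor
        · intro hu
          rcases hmem u (hX hu) with e1 | e1 | e1 | e1 | e1
          · exact Or.inr ⟨hu, by rw [e1]; exact q1T⟩
          · exact Or.inr ⟨hu, by rw [e1]; exact q2T⟩
          · exact Or.inr ⟨hu, by rw [e1]; exact q3T⟩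
          · exact Or.inl (Or.inl e1)
          · exact Or.inl (Or.inr ⟨hu, e1⟩)
        · rintro ((e1 | e1) | e1)
          · rw [e1]; exact haX
          · exact e1.1
          · exact e1.1
      have haXD : a ∉ X ∩ D := fun h1 => haD (mem_of_mem_inter_right h1)
      have hcr := crude_cut (W := W) (m := fun u v => m u v - J0 u v) (f := fun v => f v - g0 v)
        hsymm' (I := insert a (X ∩ D)) (R := X ∩ T)
        (by
          intro u hu
          rcases mem_insert.mp hu with e1 | e1
          · rw [e1]; exact aW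
          · exact hsub1 e1) hsub2
        (by
          rw [disjoint_insert_left]
          exact ⟨fun h1 => haT (mem_of_mem_inter_right h1), hdisj⟩)
        (by
          intro u hu v hv
          rcases mem_insert.mp hu with e1 | e1
          · rcases mem_insert.mp hv with e2 | e2
            · simp only [e1, e2, h.loopless a aW, Nat.zero_sub]
            · simp only [e1, hmaD v (mem_of_mem_inter_right e2), Nat.zero_sub]
          · rcases mem_insert.mp hv with e2 | e2
            · simp only [e2, mdD u (mem_of_mem_inter_right e1), Nat.zero_sub]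
            · exact hind u e1 v e2)
      rw [← hXeq, ← hc', sum_insert haXD, hDsum] at hcr
      have hda := hdeg' a aW
      have hea : e a = 1 := by simp [he0]
      rw [hea] at hda
      have hcr2 : nD * s + s ≤ c' + (T ∩ X).card * s := by
        rw [hXT] at hRsum
        omega
      by_cases hle : (T ∩ X).card ≤ nD
      · have := Nat.mul_le_mul_right s hle
        omega
      · rw [hcard] at hodd
        rw [hcJ]
        rw [hTX] at hle
        rw [Nat.odd_iff] at hodd
        by_cases x1 : q1 ∈ X <;> by_cases x2 : q2 ∈ X <;> by_cases x3 : q3 ∈ X <;>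
          simp only [x1, x2, x3, haX, not_true_eq_false, not_false_eq_true, if_true, if_false]
            at hodd hle ⊢ <;> omega
    · -- `a` not in `X`
      have hXeq : X = (X ∩ D) ∪ (X ∩ T) := by
        ext u
        simp only [mem_union, mem_inter]
        constructor
        · intro hu
          rcases hmem u (hX hu) with e1 | e1 | e1 | e1 | e1
          · exact Or.inr ⟨hu, by rw [e1]; exact q1T⟩
          · exact Or.inr ⟨hu, by rw [e1]; exact q2T⟩
          · exact Or.inr ⟨hu, by rw [e1]; exact q3T⟩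
          · exact absurd (e1 ▸ hu) haX
          · exact Or.inl ⟨hu, e1⟩
        · rintro (e1 | e1)
          · exact e1.1
          · exact e1.1
      have hcr := crude_cut (W := W) (m := fun u v => m u v - J0 u v) (f := fun v => f v - g0 v)
        hsymm' (I := X ∩ D) (R := X ∩ T) hsub1 hsub2 hdisj hind
      rw [← hXeq, ← hc', hDsum] at hcr
      have hcr2 : nD * s ≤ c' + (T ∩ X).card * s := by
        rw [hXT] at hRsum
        omega
      by_cases hle : (T ∩ X).card + 1 ≤ nD
      · have h1 := Nat.mul_le_mul_right s hle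
        have h2 : ((T ∩ X).card + 1) * s = (T ∩ X).card * s + s := by ring
        omega
      · -- the lower bound for the cut if all neighbours of `a` are in `X`
        have hall : q1 ∈ X → q2 ∈ X → q3 ∈ X → s + 1 + 2 * k a + nD ≤ cut W m f X := by
          intro x1 x2 x3
          have e1 : s + 1 + 2 * k a ≤ E m X (W \ X) := by
            unfold E
            have e2 : ∑ x ∈ X, m x a ≤ ∑ x ∈ X, ∑ v ∈ W \ X, m x v := by
              apply sum_le_sum
              intro x _
              exact single_le_sum (f := fun v => m x v) (fun _ _ => Nat.zero_le _)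
                (mem_sdiff.mpr ⟨aW, haX⟩)
            have e3 : ∑ x ∈ T, m x a ≤ ∑ x ∈ X, m x a := by
              apply sum_le_sum_of_subset
              intro t ht
              simp only [hTd, mem_insert, mem_singleton] at ht
              rcases ht with e | e | e
              · rw [e]; exact x1
              · rw [e]; exact x2
              · rw [e]; exact x3
            rw [sumT] at e3
            omega
          have e2 : nD ≤ ∑ x ∈ X, f x := by
            have e3 : ∑ x ∈ X ∩ D, f x ≤ ∑ x ∈ X, f x := sum_le_sum_of_subset inter_subset_left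
            have e4 : ∑ _x ∈ X ∩ D, 1 ≤ ∑ x ∈ X ∩ D, f x :=
              sum_le_sum fun x hx => hf x (mem_of_mem_inter_right hx)
            rw [← card_eq_sum_ones, ← hnD] at e4
            omega
          unfold cut
          omega
        have hsp1 := hsp.1 haX
        rw [hcard] at hodd
        rw [hcJ]
        rw [hTX] at hle hsp1
        rw [Nat.odd_iff] at hodd
        by_cases x1 : q1 ∈ X <;> by_cases x2 : q2 ∈ X <;> by_cases x3 : q3 ∈ X <;>
          simp only [x1, x2, x3, haX, not_true_eq_false, not_false_eq_true, if_true, if_false,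
            forall_true_left, false_imp_iff, true_imp_iff] at hodd hle hsp1 hall ⊢ <;> omega
  refine ⟨s, fun u v => m u v - J0 u v, fun v => f v - g0 v, fun v => k v - e v, rfl,
    fun u v => Nat.sub_le _ _, fun v => Nat.sub_le _ _, fun v => Nat.sub_le _ _,
    h.removal J0 g0 e (fun u _ v _ => Jsymm u v) Jle gle hdegJ hek hcut, ?_⟩
  intro hdec
  refine Dec.of_removal J0 g0 (fun u _ v _ => Jsymm u v) Jle gle ?_ hdec
  intro v hv
  rw [hdegJ v hv, Nat.odd_iff]
  omega

end PStar
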