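import Pool.Agent.PStar.BasicC
import Pool.Agent.PStar.BasicD

set_option autoImplicit false

namespace PStar

open Finset

variable {V : Type*} [DecidableEq V] {W : Finset V} {m : V → V → ℕ} {f k : V → ℕ} {r : ℕ}

/-- the star at `a` with leaves `T` -/
private def bc2St (a : V) (T : Finset V) : V → V → ℕ := fun u v =>
  if (u = a ∧ v ∈ T) ∨ (v = a ∧ u ∈ T) then 1 else 0

private theorem bc2_core (h : IsZG W m f k r) {a : V} {T R : Finset V}
    (hW : W = insert a (T ∪ R)) (haT : a ∉ T) (haR : a ∉ R) (hTR : Disjoint T R)
    (hTc : T.card = 3) (hm : ∀ v ∈ W, v ∉ T → m a v = 0) (hfa : f a = 0)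
    (hkT : ∀ t ∈ T, k t = 0) (hka : k a ≠ 0)
    (J1 : V → V → ℕ) (g1 : V → ℕ) (h1 : ∀ u v, J1 u v = J1 v u)
    (h2 : ∀ u v, J1 u v ≠ 0 → u ∈ R ∧ v ∈ R) (h3 : ∀ u ∈ W, ∀ v ∈ W, J1 u v ≤ m u v)
    (h4 : ∀ v, g1 v ≠ 0 → v ∈ R) (h5 : ∀ v ∈ W, g1 v ≤ f v)
    (h6 : ∀ v ∈ R, ∑ u ∈ W, J1 v u + g1 v = 1)
    (h7 : ∀ X ⊆ W, cut W J1 g1 X = (X ∩ R).card % 2) : Reducible W m f k r := by
  have haW : a ∈ W := by rw [hW]; exact mem_insert_self _ _
  have hTW : T ⊆ W := by
    intro x hx
    rw [hW]
    exact mem_insert_of_mem (mem_union_left _ hx)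
  have hRW : R ⊆ W := by
    intro x hx
    rw [hW]
    exact mem_insert_of_mem (mem_union_right _ hx)
  have hmult : ∀ t ∈ T, 1 ≤ m a t := by
    intro t ht
    have := h.special_mult haW hTW hTc haT hm hfa hkT ht
    omega
  have hJa : ∀ v, J1 a v = 0 := by
    intro v
    by_contra hne
    exact haR (h2 a v hne).1
  have hJT : ∀ t ∈ T, ∀ v, J1 t v = 0 := by
    intro t ht v
    by_contra hne
    exact (Finset.disjoint_left.1 hTR) ht (h2 t v hne).1
  -- `r ≥ 1`
  obtain ⟨t0, ht0⟩ : T.Nonempty := by
    rw [← Finset.card_pos]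
    omega
  have hr : 1 ≤ r := by
    have e1 := h.degree t0 (hTW ht0)
    rw [hkT t0 ht0] at e1
    have e2 : m t0 a ≤ ∑ u ∈ W, m t0 u :=
      Finset.single_le_sum (f := fun u => m t0 u) (fun _ _ => Nat.zero_le _) haW
    have e3 := h.symm t0 (hTW ht0) a haW
    have e4 := hmult t0 ht0
    omega
  obtain ⟨s, rfl⟩ : ∃ s, r = s + 1 := ⟨r - 1, by omega⟩
  let J0 : V → V → ℕ := fun u v => bc2St a T u v + J1 u v
  let e : V → ℕ := fun v => if v = a then 1 else 0
  have hs : ∀ u ∈ W, ∀ v ∈ W, J0 u v = J0 v u := by
    intro u _ v _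
    have : bc2St a T u v = bc2St a T v u := by
      unfold bc2St
      congr 1
      exact propext or_comm
    simp only [J0, this, h1 u v]
  have hJ : ∀ u ∈ W, ∀ v ∈ W, J0 u v ≤ m u v := by
    intro u hu v hv
    simp only [J0, bc2St]
    split_ifs with hc
    · rcases hc with ⟨rfl, hvT⟩ | ⟨rfl, huT⟩
      · rw [hJa v]
        exact hmult v hvT
      · rw [hJT u huT v, h.symm u hu v hv]
        exact hmult u huT
    · rw [zero_add]
      exact h3 u hu v hv
  have he : ∀ v ∈ W, ∑ u ∈ W, J0 v u + g1 v = 1 + 2 * e v := by
    intro v hv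
    simp only [J0, Finset.sum_add_distrib]
    have hv' := hv
    rw [hW, mem_insert, mem_union] at hv'
    rcases hv' with rfl | hvT | hvR
    · have e1 : ∑ u ∈ W, bc2St v T v u = 3 := by
        have : ∀ u ∈ W, bc2St v T v u = if u ∈ T then 1 else 0 := by
          intro u _
          unfold bc2St
          congr 1
          apply propext
          constructor
          · rintro (⟨_, h⟩ | ⟨_, h⟩)
            · exact h
            · exact absurd h haT
          · intro h
            exact Or.inl ⟨rfl, h⟩
        rw [Finset.sum_congr rfl this, Finset.sum_ite_mem, Finset.inter_eq_right.2 hTW]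
        simp [hTc]
      have e2 : ∑ u ∈ W, J1 v u = 0 := Finset.sum_eq_zero (fun u _ => hJa u)
      have e3 : g1 v = 0 := by
        by_contra hne
        exact haR (h4 v hne)
      simp [e1, e2, e3, e]
    · have hva : v ≠ a := fun hh => haT (hh ▸ hvT)
      have e1 : ∑ u ∈ W, bc2St a T v u = 1 := by
        have : ∀ u ∈ W, bc2St a T v u = if u = a then 1 else 0 := by
          intro u _
          unfold bc2St
          congr 1
          apply propext
          constructor
          · rintro (⟨h, _⟩ | ⟨h, _⟩)
            · exact absurd h hva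
            · exact h
          · intro h
            exact Or.inr ⟨h, hvT⟩
        rw [Finset.sum_congr rfl this, Finset.sum_ite_eq' W a]
        simp [haW]
      have e2 : ∑ u ∈ W, J1 v u = 0 := Finset.sum_eq_zero (fun u _ => hJT v hvT u)
      have e3 : g1 v = 0 := by
        by_contra hne
        exact (Finset.disjoint_left.1 hTR) hvT (h4 v hne)
      simp [e1, e2, e3, e, hva]
    · have hva : v ≠ a := fun hh => haR (hh ▸ hvR)
      have hvT : v ∉ T := fun hh => (Finset.disjoint_left.1 hTR) hh hvR
      have e1 : ∑ u ∈ W, bc2St a T v u = 0 := by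
        apply Finset.sum_eq_zero
        intro u _
        unfold bc2St
        rw [if_neg]
        rintro (⟨h, _⟩ | ⟨_, h⟩)
        · exact hva h
        · exact hvT h
      have e2 := h6 v hvR
      simp only [e1, zero_add, e, if_neg hva]
      omega
  have hek : ∀ v ∈ W, e v ≤ k v := by
    intro v _
    simp only [e]
    split_ifs with hv
    · subst hv
      omega
    · exact Nat.zero_le _
  have hcutJ : ∀ X ⊆ W, cut W J0 g1 X =
      (if a ∈ X then 3 - (T ∩ X).card else (T ∩ X).card) + (X ∩ R).card % 2 := by
    intro X hX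
    rw [← h7 X hX]
    have e1 : cut W J0 g1 X = E (bc2St a T) X (W \ X) + cut W J1 g1 X := by
      simp only [cut, E, J0, Finset.sum_add_distrib]
      ring
    rw [e1]
    congr 1
    unfold E
    split_ifs with haX
    · have e2 : ∀ x ∈ X, ∑ y ∈ W \ X, bc2St a T x y =
          if x = a then (T \ X).card else 0 := by
        intro x hx
        split_ifs with hxa
        · subst hxa
          have : ∀ y ∈ W \ X, bc2St x T x y = if y ∈ T then 1 else 0 := by
            intro y _
            unfold bc2St
            congr 1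
            apply propext
            constructor
            · rintro (⟨_, h⟩ | ⟨_, h⟩)
              · exact h
              · exact absurd h haT
            · intro h
              exact Or.inl ⟨rfl, h⟩
          rw [Finset.sum_congr rfl this, Finset.sum_ite_mem]
          simp only [Finset.sum_const, smul_eq_mul, mul_one]
          congr 1
          ext y
          simp only [mem_inter, mem_sdiff]
          constructor
          · rintro ⟨⟨_, h1⟩, h2⟩
            exact ⟨h2, h1⟩
          · rintro ⟨h1, h2⟩
            exact ⟨⟨hTW h1, h2⟩, h1⟩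
        · apply Finset.sum_eq_zero
          intro y hy
          unfold bc2St
          rw [if_neg]
          rintro (⟨h, _⟩ | ⟨h, _⟩)
          · exact hxa h
          · rw [mem_sdiff] at hy
            exact hy.2 (h ▸ haX)
      rw [Finset.sum_congr rfl e2, Finset.sum_ite_eq' X a, if_pos haX]
      have e3 := Finset.card_sdiff_add_card_inter T X
      omega
    · have e2 : ∀ x ∈ X, ∑ y ∈ W \ X, bc2St a T x y = if x ∈ T then 1 else 0 := by
        intro x hx
        have hxa : x ≠ a := fun hh => haX (hh ▸ hx)
        have : ∀ y ∈ W \ X, bc2St a T x y = if y = a then (if x ∈ T then 1 else 0) else 0 := by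
          intro y _
          unfold bc2St
          by_cases hya : y = a
          · by_cases hxT : x ∈ T
            · rw [if_pos (Or.inr ⟨hya, hxT⟩), if_pos hya, if_pos hxT]
            · rw [if_neg, if_pos hya, if_neg hxT]
              rintro (⟨h, _⟩ | ⟨_, h⟩)
              · exact hxa h
              · exact hxT h
          · rw [if_neg, if_neg hya]
            rintro (⟨h, _⟩ | ⟨h, _⟩)
            · exact hxa h
            · exact hya h
        rw [Finset.sum_congr rfl this, Finset.sum_ite_eq' (W \ X) a,
          if_pos (mem_sdiff.2 ⟨haW, haX⟩)]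
      rw [Finset.sum_congr rfl e2, Finset.sum_ite_mem, Finset.inter_comm]
      simp
  have hcardX : ∀ X ⊆ W, X.card = (if a ∈ X then 1 else 0) + (T ∩ X).card + (X ∩ R).card := by
    intro X hX
    have e1 : X = (X ∩ {a}) ∪ (T ∩ X) ∪ (X ∩ R) := by
      ext x
      simp only [mem_union, mem_inter, mem_singleton]
      constructor
      · intro hx
        have := hX hx
        rw [hW, mem_insert, mem_union] at this
        rcases this with h | h | h
        · exact Or.inl (Or.inl ⟨hx, h⟩)
        · exact Or.inl (Or.inr ⟨h, hx⟩)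
        · exact Or.inr ⟨hx, h⟩
      · rintro ((⟨h, _⟩ | ⟨_, h⟩) | ⟨h, _⟩) <;> exact h
    have e2 : Disjoint (X ∩ {a}) (T ∩ X) := by
      rw [Finset.disjoint_left]
      intro x hx hx'
      rw [mem_inter, mem_singleton] at hx
      rw [mem_inter] at hx'
      exact haT (hx.2 ▸ hx'.1)
    have e3 : Disjoint ((X ∩ {a}) ∪ (T ∩ X)) (X ∩ R) := by
      rw [Finset.disjoint_left]
      intro x hx hx'
      rw [mem_union, mem_inter, mem_singleton, mem_inter] at hx
      rw [mem_inter] at hx'
      rcases hx with hx | hx
      · exact haR (hx.2 ▸ hx'.2)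
      · exact (Finset.disjoint_left.1 hTR) hx.1 hx'.2
    have e4 : (X ∩ {a}).card = if a ∈ X then 1 else 0 := by
      split_ifs with haX
      · rw [Finset.inter_singleton_of_mem haX, card_singleton]
      · rw [Finset.inter_singleton_of_notMem haX, card_empty]
    calc X.card = ((X ∩ {a}) ∪ (T ∩ X) ∪ (X ∩ R)).card := by rw [← e1]
      _ = _ := by rw [card_union_of_disjoint e3, card_union_of_disjoint e2, e4]
  have hcut : ∀ X ⊆ W, Odd X.card → s + cut W J0 g1 X ≤ cut W m f X := by
    intro X hX hodd
    obtain ⟨sp1, sp2⟩ := h.special_cut haW hTW hTc haT hm hfa hkT hX hodd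
    have c1 := h.cuts X hX hodd
    have c2 := hcutJ X hX
    have c3 := hcardX X hX
    have c4 : (T ∩ X).card ≤ 3 := by
      rw [← hTc]
      exact card_le_card inter_subset_left
    obtain ⟨n, hn⟩ := hodd
    by_cases haX : a ∈ X
    · rw [if_pos haX] at c2 c3
      by_cases h1 : (T ∩ X).card ≤ 1
      · have := sp2 haX h1
        omega
      · omega
    · rw [if_neg haX] at c2 c3
      by_cases h1 : 2 ≤ (T ∩ X).card
      · have := sp1 haX h1
        omega
      · omega
  refine ⟨s, fun u v => m u v - J0 u v, fun v => f v - g1 v, fun v => k v - e v, rfl,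
    fun u v => Nat.sub_le _ _, fun v => Nat.sub_le _ _, fun v => Nat.sub_le _ _,
    h.removal J0 g1 e hs hJ h5 he hek hcut, ?_⟩
  intro hd
  refine Dec.of_removal J0 g1 hs hJ h5 ?_ hd
  intro v hv
  exact ⟨e v, by rw [he v hv]; ring⟩

/-- Base configuration with `z` outside the central bag `Q`. -/
theorem BC2 (h : IsZG W m f k r) {Q P : Finset V} (hW : W = Q ∪ P) (hd : Disjoint Q P)
    (hQ : Q.card = 4) (hkQ : ∀ q ∈ Q, k q = 0) (hP : ∀ p ∈ P, ∀ p' ∈ P, m p p' = 0)
    (hfP : ∀ p ∈ P, f p = 0) (τ : V → V) (hτ : ∀ p ∈ P, τ p ∈ Q ∧ m p (τ p) = 0)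
    (hinj : ∀ p ∈ P, ∀ p' ∈ P, τ p = τ p' → p = p') (hk : ∃ p ∈ P, k p ≠ 0) :
    Reducible W m f k r := by
  have hQW : Q ⊆ W := by rw [hW]; exact subset_union_left
  have hPW : P ⊆ W := by rw [hW]; exact subset_union_right
  have hPc : P.card ≤ 4 := by
    rw [← hQ]
    exact Finset.card_le_card_of_injOn τ (fun p hp => (hτ p hp).1)
      (fun p hp p' hp' hh => hinj p hp p' hp' hh)
  -- total degree inequality
  have hdeg : ∑ p ∈ P, (r + 2 * k p) + ∑ q ∈ Q, f q ≤ 4 * r := by
    have e1 : ∑ q ∈ Q, (∑ u ∈ W, m q u + f q) = 4 * r := by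
      have : ∀ q ∈ Q, ∑ u ∈ W, m q u + f q = r := by
        intro q hq
        rw [h.degree q (hQW hq), hkQ q hq]
        ring
      rw [Finset.sum_congr rfl this, Finset.sum_const, hQ, smul_eq_mul]
    have e2 : ∀ p ∈ P, r + 2 * k p = ∑ q ∈ Q, m p q := by
      intro p hp
      rw [← h.degree p (hPW hp), hfP p hp, add_zero, hW, Finset.sum_union hd,
        Finset.sum_eq_zero (s := P) (fun u hu => hP p hp u hu), add_zero]
    have e3 : ∑ p ∈ P, (r + 2 * k p) = ∑ q ∈ Q, ∑ p ∈ P, m q p := by
      rw [Finset.sum_congr rfl e2, Finset.sum_comm]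
      apply Finset.sum_congr rfl
      intro q hq
      apply Finset.sum_congr rfl
      intro p hp
      exact h.symm p (hPW hp) q (hQW hq)
    rw [e3, ← e1, ← Finset.sum_add_distrib]
    apply Finset.sum_le_sum
    intro q hq
    apply Nat.add_le_add_right
    exact Finset.sum_le_sum_of_subset hPW
  have hdeg2 : P.card * r + 2 * ∑ p ∈ P, k p + ∑ q ∈ Q, f q ≤ 4 * r := by
    refine le_trans (le_of_eq ?_) hdeg
    rw [Finset.sum_add_distrib, Finset.sum_const, smul_eq_mul, Finset.mul_sum]
  obtain ⟨a, haP, hka⟩ := hk
  have hksum : 1 ≤ ∑ p ∈ P, k p := by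
    have : k a ≤ ∑ p ∈ P, k p := Finset.single_le_sum (f := k) (fun _ _ => Nat.zero_le _) haP
    omega
  have hPpos : 1 ≤ P.card := Finset.card_pos.2 ⟨a, haP⟩
  set s := τ a with hsdef
  have hsQ : s ∈ Q := (hτ a haP).1
  have hmas : m a s = 0 := (hτ a haP).2
  have haQ : a ∉ Q := fun hh => (Finset.disjoint_left.1 hd) hh haP
  have hsP : s ∉ P := fun hh => (Finset.disjoint_left.1 hd) hsQ hh
  have hTc : (Q.erase s).card = 3 := by rw [Finset.card_erase_of_mem hsQ, hQ]
  have hcases : P.card = 1 ∨ P.card = 2 ∨ P.card = 3 ∨ P.card = 4 := by omega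
  have haW : a ∈ W := hPW haP
  rcases hcases with hc | hc | hc | hc
  · -- `|P| = 1`
    have hPa : P = {a} := by
      rw [Finset.card_eq_one] at hc
      obtain ⟨x, hx⟩ := hc
      rw [hx] at haP ⊢
      rw [mem_singleton] at haP
      rw [haP]
    obtain ⟨t0, t1, t2, h01, h02, h12, hT⟩ := Finset.card_eq_three.1 hTc
    have hmT : ∀ t, t ∈ Q.erase s → t ≠ s ∧ t ∈ Q ∧ t ≠ a := by
      intro t ht
      rw [mem_erase] at ht
      exact ⟨ht.1, ht.2, fun hh => haQ (hh ▸ ht.2)⟩
    have m0 := hmT t0 (by rw [hT]; simp)
    have m1 := hmT t1 (by rw [hT]; simp)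
    have m2 := hmT t2 (by rw [hT]; simp)
    have hsa : s ≠ a := fun hh => haQ (hh ▸ hsQ)
    have hWe : W = {a, s, t0, t1, t2} := by
      rw [hW, hPa, ← Finset.insert_erase hsQ, hT]
      ext x
      simp only [mem_union, mem_insert, mem_singleton]
      tauto
    have hsum : ∀ g : V → ℕ, ∑ u ∈ W, g u = g a + (g s + (g t0 + (g t1 + g t2))) := by
      intro g
      rw [hWe, Finset.sum_insert, Finset.sum_insert, Finset.sum_insert, Finset.sum_insert,
        Finset.sum_singleton]
      · simp [h12]
      · simp [h01, h02]
      · simp [m0.1.symm, m1.1.symm, m2.1.symm]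
      · simp [hsa.symm, m0.2.2.symm, m1.2.2.symm, m2.2.2.symm]
    have hsW : s ∈ W := hQW hsQ
    have w0 : t0 ∈ W := hQW m0.2.1
    have w1 : t1 ∈ W := hQW m1.2.1
    have w2 : t2 ∈ W := hQW m2.2.1
    have hWc : W.card = 5 := by
      rw [hW, card_union_of_disjoint hd, hQ, hc]
    have hfs : 1 ≤ f s := by
      have c1 := h.cuts W (le_refl _) ⟨2, by omega⟩
      have c2 : cut W m f W = ∑ x ∈ W, f x := by
        simp [cut, E]
      rw [c2, hsum] at c1
      have d0 := h.degree a haW
      have d1 := h.degree s hsW
      have d2 := h.degree t0 w0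
      have d3 := h.degree t1 w1
      have d4 := h.degree t2 w2
      rw [hsum] at d0 d1 d2 d3 d4
      rw [hkQ s hsQ] at d1
      rw [hkQ t0 m0.2.1] at d2
      rw [hkQ t1 m1.2.1] at d3
      rw [hkQ t2 m2.2.1] at d4
      have l0 := h.loopless a haW
      have l1 := h.loopless s hsW
      have l2 := h.loopless t0 w0
      have l3 := h.loopless t1 w1
      have l4 := h.loopless t2 w2
      have fa := hfP a haP
      have sa := h.symm s hsW a haW
      have s0 := h.symm a haW t0 w0
      have s1 := h.symm a haW t1 w1
      have s2 := h.symm a haW t2 w2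
      have s3 := h.symm s hsW t0 w0
      have s4 := h.symm s hsW t1 w1
      have s5 := h.symm s hsW t2 w2
      have s6 := h.symm t0 w0 t1 w1
      have s7 := h.symm t0 w0 t2 w2
      have s8 := h.symm t1 w1 t2 w2
      omega
    refine bc2_core h (a := a) (T := Q.erase s) (R := {s}) ?_ ?_ ?_ ?_ hTc ?_ (hfP a haP) ?_ hka
      (fun _ _ => 0) (fun v => if v = s then 1 else 0) (fun _ _ => rfl) ?_ ?_ ?_ ?_ ?_ ?_
    · rw [hW, hPa]
      ext x
      simp only [mem_union, mem_insert, mem_singleton, mem_erase]
      constructor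
      · rintro (hx | hx)
        · by_cases hxs : x = s
          · exact Or.inr (Or.inr hxs)
          · exact Or.inr (Or.inl ⟨hxs, hx⟩)
        · exact Or.inl hx
      · rintro (hx | hx | hx)
        · exact Or.inr hx
        · exact Or.inl hx.2
        · exact Or.inl (hx ▸ hsQ)
    · intro hh
      exact haQ (mem_of_mem_erase hh)
    · rw [mem_singleton]
      exact hsa.symm
    · simp
    · intro v hv hvT
      rw [hW, mem_union, hPa, mem_singleton] at hv
      rcases hv with hv | hv
      · have : v = s := by
          by_contra hne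
          exact hvT (mem_erase.2 ⟨hne, hv⟩)
        rw [this]
        exact hmas
      · rw [hv]
        exact h.loopless a haW
    · intro t ht
      exact hkQ t (mem_of_mem_erase ht)
    · intro u v hh
      exact absurd rfl hh
    · intro u _ v _
      exact Nat.zero_le _
    · intro v hv
      rw [mem_singleton]
      by_contra hne
      rw [if_neg hne] at hv
      exact hv rfl
    · intro v _
      split_ifs with hvs
      · rw [hvs]
        exact hfs
      · exact Nat.zero_le _
    · intro v hv
      rw [mem_singleton] at hv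
      simp [hv]
    · intro X hX
      have e1 : cut W (fun _ _ => 0) (fun v => if v = s then 1 else 0) X =
          if s ∈ X then 1 else 0 := by
        simp [cut, E]
      rw [e1]
      by_cases hsX : s ∈ X
      · rw [if_pos hsX, Finset.inter_singleton_of_mem hsX, card_singleton]
      · rw [if_neg hsX, Finset.inter_singleton_of_notMem hsX, card_empty]
  · -- `|P| = 2`
    have hc1 : (P.erase a).card = 1 := by rw [Finset.card_erase_of_mem haP, hc]
    obtain ⟨b, hb⟩ := Finset.card_eq_one.1 hc1
    have hbP' : b ∈ P.erase a := by rw [hb]; simp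
    have hba : b ≠ a := (mem_erase.1 hbP').1
    have hbP : b ∈ P := (mem_erase.1 hbP').2
    have hPab : P = {a, b} := by
      rw [← Finset.insert_erase haP, hb]
    have hbQ : b ∉ Q := fun hh => (Finset.disjoint_left.1 hd) hh hbP
    set t0 := τ b with ht0def
    have ht0Q : t0 ∈ Q := (hτ b hbP).1
    have hmb0 : m b t0 = 0 := (hτ b hbP).2
    have ht0s : t0 ≠ s := fun hh => hba (hinj b hbP a haP hh)
    have ht0T : t0 ∈ Q.erase s := mem_erase.2 ⟨ht0s, ht0Q⟩
    have hc2 : ((Q.erase s).erase t0).card = 2 := by
      rw [Finset.card_erase_of_mem ht0T, hTc]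
    obtain ⟨t1, t2, h12, hT2⟩ := Finset.card_eq_two.1 hc2
    have hT : Q.erase s = {t0, t1, t2} := by
      rw [← Finset.insert_erase ht0T, hT2]
    have hmT : ∀ t, t ∈ (Q.erase s).erase t0 → t ≠ t0 ∧ t ≠ s ∧ t ∈ Q ∧ t ≠ a ∧ t ≠ b := by
      intro t ht
      rw [mem_erase, mem_erase] at ht
      exact ⟨ht.1, ht.2.1, ht.2.2, fun hh => haQ (hh ▸ ht.2.2), fun hh => hbQ (hh ▸ ht.2.2)⟩
    have m1 := hmT t1 (by rw [hT2]; simp)
    have m2 := hmT t2 (by rw [hT2]; simp)
    have h0a : t0 ≠ a := fun hh => haQ (hh ▸ ht0Q)
    have h0b : t0 ≠ b := fun hh => hbQ (hh ▸ ht0Q)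
    have hsa : s ≠ a := fun hh => haQ (hh ▸ hsQ)
    have hsb : s ≠ b := fun hh => hbQ (hh ▸ hsQ)
    have hWe : W = {a, b, s, t0, t1, t2} := by
      rw [hW, hPab, ← Finset.insert_erase hsQ, hT]
      ext x
      simp only [mem_union, mem_insert, mem_singleton]
      tauto
    have hsum : ∀ g : V → ℕ, ∑ u ∈ W, g u =
        g a + (g b + (g s + (g t0 + (g t1 + g t2)))) := by
      intro g
      rw [hWe, Finset.sum_insert, Finset.sum_insert, Finset.sum_insert, Finset.sum_insert,
        Finset.sum_insert, Finset.sum_singleton]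
      · simp [h12]
      · simp [m1.1.symm, m2.1.symm]
      · simp [ht0s.symm, m1.2.1.symm, m2.2.1.symm]
      · simp [hsb.symm, h0b.symm, m1.2.2.2.2.symm, m2.2.2.2.2.symm]
      · simp [hba.symm, hsa.symm, h0a.symm, m1.2.2.2.1.symm, m2.2.2.2.1.symm]
    have hbW : b ∈ W := hPW hbP
    have hsW : s ∈ W := hQW hsQ
    have w0 : t0 ∈ W := hQW ht0Q
    have w1 : t1 ∈ W := hQW m1.2.2.1
    have w2 : t2 ∈ W := hQW m2.2.2.1
    have haT : a ∉ Q.erase s := fun hh => haQ (mem_of_mem_erase hh)
    have hTW : Q.erase s ⊆ W := (Finset.erase_subset _ _).trans hQW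
    have hmaT : ∀ v ∈ W, v ∉ Q.erase s → m a v = 0 := by
      intro v hv hvT
      rw [hW, mem_union] at hv
      rcases hv with hv | hv
      · have : v = s := by
          by_contra hne
          exact hvT (mem_erase.2 ⟨hne, hv⟩)
        rw [this]
        exact hmas
      · exact hP a haP v hv
    have hkT : ∀ t ∈ Q.erase s, k t = 0 := fun t ht => hkQ t (mem_of_mem_erase ht)
    have hmbs : 1 ≤ m b s := by
      have hXW : ({b, t1, t2} : Finset V) ⊆ W := by
        intro x hx
        simp only [mem_insert, mem_singleton] at hx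
        rcases hx with rfl | rfl | rfl
        · exact hbW
        · exact w1
        · exact w2
      have hXc : ({b, t1, t2} : Finset V).card = 3 := by
        rw [Finset.card_eq_three]
        exact ⟨b, t1, t2, m1.2.2.2.2.symm, m2.2.2.2.2.symm, h12, rfl⟩
      have sp := (h.special_cut haW hTW hTc haT hmaT (hfP a haP) hkT hXW
        ⟨1, by omega⟩).1 (by
          simp only [mem_insert, mem_singleton, not_or]
          exact ⟨hba.symm, m1.2.2.2.1.symm, m2.2.2.2.1.symm⟩) (by
          have : ({t1, t2} : Finset V) ⊆ Q.erase s ∩ {b, t1, t2} := by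
            rw [hT]
            intro x hx
            simp only [mem_insert, mem_singleton] at hx
            simp only [mem_inter, mem_insert, mem_singleton]
            tauto
          have h2 := card_le_card this
          rw [Finset.card_pair h12] at h2
          exact h2)
      have hXs : W \ {b, t1, t2} = {a, s, t0} := by
        rw [hWe]
        ext x
        simp only [mem_sdiff, mem_insert, mem_singleton, not_or]
        constructor
        · rintro ⟨h1 | h1 | h1 | h1 | h1 | h1, h2, h3, h4⟩
          · exact Or.inl h1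
          · exact absurd h1 h2
          · exact Or.inr (Or.inl h1)
          · exact Or.inr (Or.inr h1)
          · exact absurd h1 h3
          · exact absurd h1 h4
        · rintro (h1 | h1 | h1)
          · refine ⟨Or.inl h1, ?_, ?_, ?_⟩
            · rw [h1]; exact hba.symm
            · rw [h1]; exact m1.2.2.2.1.symm
            · rw [h1]; exact m2.2.2.2.1.symm
          · refine ⟨Or.inr (Or.inr (Or.inl h1)), ?_, ?_, ?_⟩
            · rw [h1]; exact hsb
            · rw [h1]; exact m1.2.1.symm
            · rw [h1]; exact m2.2.1.symm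
          · refine ⟨Or.inr (Or.inr (Or.inr (Or.inl h1))), ?_, ?_, ?_⟩
            · rw [h1]; exact h0b
            · rw [h1]; exact m1.1.symm
            · rw [h1]; exact m2.1.symm
      have hs3 : ∀ g : V → ℕ, ∑ x ∈ ({b, t1, t2} : Finset V), g x = g b + (g t1 + g t2) := by
        intro g
        rw [Finset.sum_insert, Finset.sum_insert, Finset.sum_singleton]
        · simp [h12]
        · simp [m1.2.2.2.2.symm, m2.2.2.2.2.symm]
      have hs4 : ∀ g : V → ℕ, ∑ x ∈ ({a, s, t0} : Finset V), g x = g a + (g s + g t0) := by
        intro g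
        rw [Finset.sum_insert, Finset.sum_insert, Finset.sum_singleton]
        · simp [ht0s.symm]
        · simp [hsa.symm, h0a.symm]
      unfold cut E at sp
      rw [hXs, hs3, hs3, hs4, hs4, hs4] at sp
      have d1 := h.degree b hbW
      have d3 := h.degree t1 w1
      have d4 := h.degree t2 w2
      rw [hsum] at d1 d3 d4
      rw [hkQ t1 m1.2.2.1] at d3
      rw [hkQ t2 m2.2.2.1] at d4
      have l1 := h.loopless b hbW
      have l3 := h.loopless t1 w1
      have l4 := h.loopless t2 w2
      have fb := hfP b hbP
      have ab := hP b hbP a haP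
      have s4 := h.symm b hbW t1 w1
      have s5 := h.symm b hbW t2 w2
      have s8 := h.symm t1 w1 t2 w2
      omega
    refine bc2_core h (a := a) (T := Q.erase s) (R := {b, s}) ?_ haT ?_ ?_ hTc hmaT (hfP a haP)
      hkT hka (fun u v => if (u = b ∧ v = s) ∨ (u = s ∧ v = b) then 1 else 0) (fun _ => 0)
      ?_ ?_ ?_ ?_ ?_ ?_ ?_
    · rw [hWe, hT]
      ext x
      simp only [mem_union, mem_insert, mem_singleton]
      tauto
    · simp only [mem_insert, mem_singleton, not_or]
      exact ⟨hba.symm, hsa.symm⟩
    · rw [Finset.disjoint_left]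
      intro x hx hx'
      rw [mem_erase] at hx
      simp only [mem_insert, mem_singleton] at hx'
      rcases hx' with h1 | h1
      · exact hbQ (h1 ▸ hx.2)
      · exact hx.1 h1
    · intro u v
      congr 1
      apply propext
      constructor
      · rintro (⟨h1, h2⟩ | ⟨h1, h2⟩)
        · exact Or.inr ⟨h2, h1⟩
        · exact Or.inl ⟨h2, h1⟩
      · rintro (⟨h1, h2⟩ | ⟨h1, h2⟩)
        · exact Or.inr ⟨h2, h1⟩
        · exact Or.inl ⟨h2, h1⟩
    · intro u v hh
      by_cases hc : (u = b ∧ v = s) ∨ (u = s ∧ v = b)
      · simp only [mem_insert, mem_singleton]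
        tauto
      · simp only [if_neg hc] at hh
        exact absurd rfl hh
    · intro u _ v _
      split_ifs with hc
      · rcases hc with ⟨rfl, rfl⟩ | ⟨rfl, rfl⟩
        · exact hmbs
        · rw [h.symm _ hsW _ hbW]
          exact hmbs
      · exact Nat.zero_le _
    · intro v hv
      exact absurd rfl hv
    · intro v _
      exact Nat.zero_le _
    · intro v hv
      rw [add_zero, hsum]
      simp only [mem_insert, mem_singleton] at hv
      rcases hv with rfl | rfl
      · simp [hsb, hsb.symm, hba.symm, hsa.symm, ht0s, m1.2.1, m2.2.1]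
      · simp [hsb, hsb.symm, hba.symm, hsa.symm, h0b, m1.2.2.2.2, m2.2.2.2.2]
    · intro X hX
      have e1 : ∀ x ∈ X, ∀ y ∈ W \ X, (if (x = b ∧ y = s) ∨ (x = s ∧ y = b) then 1 else 0 : ℕ) =
          (if x = b then (if y = s then 1 else 0) else 0) +
          (if x = s then (if y = b then 1 else 0) else 0) := by
        intro x _ y _
        by_cases h1 : x = b
        · subst h1
          by_cases h2 : y = s
          · subst h2
            simp [hsb, hsb.symm]
          · simp [h2, hsb.symm]
        · by_cases h3 : x = s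
          · subst h3
            by_cases h2 : y = b
            · subst h2
              simp [hsb]
            · simp [h2, h1]
          · simp [h1, h3]
      have e2 : cut W (fun u v => if (u = b ∧ v = s) ∨ (u = s ∧ v = b) then 1 else 0)
          (fun _ => 0) X = (if b ∈ X then (if s ∈ X then 0 else 1) else 0) +
            (if s ∈ X then (if b ∈ X then 0 else 1) else 0) := by
        unfold cut E
        rw [Finset.sum_congr rfl (fun x hx => Finset.sum_congr rfl (fun y hy => e1 x hx y hy))]
        simp only [Finset.sum_add_distrib, Finset.sum_const_zero, add_zero]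
        congr 1
        · have : ∀ x ∈ X, ∑ y ∈ W \ X, (if x = b then (if y = s then 1 else 0) else 0 : ℕ) =
              if x = b then (if s ∈ X then 0 else 1) else 0 := by
            intro x _
            by_cases hx : x = b
            · simp only [if_pos hx]
              rw [Finset.sum_ite_eq' (W \ X) s]
              by_cases hs : s ∈ X
              · simp [hs]
              · simp [hs, hsW]
            · simp [hx]
          rw [Finset.sum_congr rfl this, Finset.sum_ite_eq' X b]
        · have : ∀ x ∈ X, ∑ y ∈ W \ X, (if x = s then (if y = b then 1 else 0) else 0 : ℕ) =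
              if x = s then (if b ∈ X then 0 else 1) else 0 := by
            intro x _
            by_cases hx : x = s
            · simp only [if_pos hx]
              rw [Finset.sum_ite_eq' (W \ X) b]
              by_cases hs : b ∈ X
              · simp [hs]
              · simp [hs, hbW]
            · simp [hx]
          rw [Finset.sum_congr rfl this, Finset.sum_ite_eq' X s]
      rw [e2]
      have e3 : (X ∩ {b, s}).card = (if b ∈ X then 1 else 0) + (if s ∈ X then 1 else 0) := by
        by_cases h1 : b ∈ X
        · by_cases h2 : s ∈ X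
          · have : X ∩ {b, s} = {b, s} := by
              ext x
              simp only [mem_inter, mem_insert, mem_singleton]
              constructor
              · exact fun h => h.2
              · rintro (h | h)
                · exact ⟨h ▸ h1, Or.inl h⟩
                · exact ⟨h ▸ h2, Or.inr h⟩
            rw [this, Finset.card_pair hsb.symm, if_pos h1, if_pos h2]
          · have : X ∩ {b, s} = {b} := by
              ext x
              simp only [mem_inter, mem_insert, mem_singleton]
              constructor
              · rintro ⟨h3, h | h⟩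
                · exact h
                · exact absurd (h ▸ h3) h2
              · intro h
                exact ⟨h ▸ h1, Or.inl h⟩
            rw [this, card_singleton, if_pos h1, if_neg h2]
        · by_cases h2 : s ∈ X
          · have : X ∩ {b, s} = {s} := by
              ext x
              simp only [mem_inter, mem_insert, mem_singleton]
              constructor
              · rintro ⟨h3, h | h⟩
                · exact absurd (h ▸ h3) h1
                · exact h
              · intro h
                exact ⟨h ▸ h2, Or.inr h⟩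
            rw [this, card_singleton, if_neg h1, if_pos h2]
          · have : X ∩ {b, s} = ∅ := by
              ext x
              simp only [mem_inter, mem_insert, mem_singleton, notMem_empty, iff_false, not_and,
                not_or]
              intro h3
              exact ⟨fun h => h1 (h ▸ h3), fun h => h2 (h ▸ h3)⟩
            rw [this, card_empty, if_neg h1, if_neg h2]
      rw [e3]
      by_cases h1 : b ∈ X <;> by_cases h2 : s ∈ X <;> simp [h1, h2]
  · -- `|P| = 3`
    exfalso
    have hWc : W.card = 7 := by
      rw [hW, card_union_of_disjoint hd, hQ, hc]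
    have c1 := h.cuts W (le_refl _) ⟨3, by omega⟩
    have c2 : cut W m f W = ∑ x ∈ W, f x := by
      simp [cut, E]
    have c3 : ∑ x ∈ W, f x = ∑ x ∈ Q, f x := by
      rw [hW, Finset.sum_union hd, Finset.sum_eq_zero (s := P) hfP, add_zero]
    rw [c2, c3] at c1
    rw [hc] at hdeg2
    omega
  · -- `|P| = 4`
    exfalso
    rw [hc] at hdeg2
    omega

end PStar
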