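import Pool.Agent.PStar.Basic0

set_option autoImplicit false

namespace PStar

open Finset

variable {V : Type*} [DecidableEq V] {W : Finset V} {m : V → V → ℕ} {f k : V → ℕ} {r : ℕ}

/-- Two vertices attached to the same triple and nothing else: both have `k = 0`. -/
theorem BC3 (h : IsZG W m f k r) {q1 q2 q3 a b : V}
    (hW : W = {q1, q2, q3, a, b}) (hc : W.card = 5) (hm : m a b = 0) (hfa : f a = 0)
    (hfb : f b = 0) (hk1 : k q1 = 0) (hk2 : k q2 = 0) (hk3 : k q3 = 0) : k a = 0 := by
  subst hW
  have hne : q1 ∉ ({q2, q3, a, b} : Finset V) ∧ q2 ∉ ({q3, a, b} : Finset V) ∧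
      q3 ∉ ({a, b} : Finset V) ∧ a ∉ ({b} : Finset V) := by
    have c4 : ({q2, q3, a, b} : Finset V).card ≤ 4 := Finset.card_le_four
    have c3 : ({q3, a, b} : Finset V).card ≤ 3 := Finset.card_le_three
    have c2 : ({a, b} : Finset V).card ≤ 2 := Finset.card_le_two
    have c1 : ({b} : Finset V).card = 1 := Finset.card_singleton b
    refine ⟨?_, ?_, ?_, ?_⟩
    · intro h1
      rw [Finset.insert_eq_of_mem h1] at hc
      omega
    · intro h1
      have := Finset.card_insert_le q1 ({q2, q3, a, b} : Finset V)
      rw [Finset.insert_eq_of_mem h1] at hc this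
      omega
    · intro h1
      have e := Finset.insert_eq_of_mem h1
      rw [e] at hc
      have e1 := Finset.card_insert_le q1 ({q2, a, b} : Finset V)
      have e2 := Finset.card_insert_le q2 ({a, b} : Finset V)
      omega
    · intro h1
      have e := Finset.insert_eq_of_mem h1
      rw [e] at hc
      have e1 := Finset.card_insert_le q1 ({q2, q3, b} : Finset V)
      have e2 := Finset.card_insert_le q2 ({q3, b} : Finset V)
      have e3 := Finset.card_insert_le q3 ({b} : Finset V)
      omega
  obtain ⟨n1, n2, n3, n4⟩ := hne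
  have key : ∀ g : V → ℕ, ∑ u ∈ ({q1, q2, q3, a, b} : Finset V), g u =
      g q1 + (g q2 + (g q3 + (g a + g b))) := by
    intro g
    rw [Finset.sum_insert n1, Finset.sum_insert n2, Finset.sum_insert n3, Finset.sum_insert n4,
      Finset.sum_singleton]
  have m1 : q1 ∈ ({q1, q2, q3, a, b} : Finset V) := by simp
  have m2 : q2 ∈ ({q1, q2, q3, a, b} : Finset V) := by simp
  have m3 : q3 ∈ ({q1, q2, q3, a, b} : Finset V) := by simp
  have ma : a ∈ ({q1, q2, q3, a, b} : Finset V) := by simp
  have mb : b ∈ ({q1, q2, q3, a, b} : Finset V) := by simp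
  have d1 := h.degree q1 m1
  have d2 := h.degree q2 m2
  have d3 := h.degree q3 m3
  have da := h.degree a ma
  have db := h.degree b mb
  have hcut := h.cuts _ (Finset.Subset.refl _) (by rw [hc]; decide)
  unfold cut E at hcut
  rw [Finset.sdiff_self] at hcut
  simp only [Finset.sum_empty, Finset.sum_const_zero, zero_add] at hcut
  rw [key] at d1 d2 d3 da db hcut
  have la := h.loopless a ma
  have lb := h.loopless b mb
  have sa1 := h.symm a ma q1 m1
  have sa2 := h.symm a ma q2 m2
  have sa3 := h.symm a ma q3 m3
  have sb1 := h.symm b mb q1 m1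
  have sb2 := h.symm b mb q2 m2
  have sb3 := h.symm b mb q3 m3
  have sab := h.symm b mb a ma
  omega

end PStar
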