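import Pool.Agent.PStar.Basic0

set_option autoImplicit false

namespace PStar

open Finset

section
open Classical

private theorem FinalCol_deg {V E : Type} [Fintype V] [Fintype E] (φ : E → Sym2 V)
    (hl : ∀ e, ¬ (φ e).IsDiag) (v : V) : ∑ u, mult φ v u = edeg φ v := by
  unfold mult edeg
  rw [← card_biUnion]
  · congr 1
    ext e
    simp only [mem_biUnion, mem_univ, true_and, mem_filter]
    constructor
    · rintro ⟨u, hu⟩
      rw [hu]
      exact Sym2.mem_mk_left v u
    · intro h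
      exact ⟨Sym2.Mem.other h, (Sym2.other_spec h).symm⟩
  · intro a _ b _ hab
    rw [Function.onFun, disjoint_left]
    intro e ha hb
    rw [mem_filter] at ha hb
    have h := ha.2.symm.trans hb.2
    exact hab (Sym2.congr_right.1 h)

theorem coloring_of_dec {V E : Type} [Fintype V] [Fintype E] (φ : E → Sym2 V)
    (hl : ∀ e, ¬ (φ e).IsDiag) (r : ℕ) (f : V → ℕ) (hdeg : ∀ v, edeg φ v + f v = r)
    (hd : Dec (univ : Finset V) (mult φ) f r) :
    ∃ c : E → Fin r, ∀ e₁ e₂ : E, e₁ ≠ e₂ → (∃ v, v ∈ φ e₁ ∧ v ∈ φ e₂) → c e₁ ≠ c e₂ := by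
  obtain ⟨J, g, hs, hJ, hg, hodd⟩ := hd
  have hone : ∀ c v, ∑ u, J c v u + g c v = 1 := by
    intro c v
    refine dec_one (W := univ) (m := mult φ) (f := f) (mem_univ v) ?_
      (fun u _ => hJ v (mem_univ v) u (mem_univ u)) (hg v (mem_univ v))
      (fun c => hodd c v (mem_univ v)) c
    rw [FinalCol_deg φ hl v]
    exact hdeg v
  have hle : ∀ c u v, J c u v ≤ 1 := by
    intro c u v
    have h1 := hone c u
    have h2 : J c u v ≤ ∑ w, J c u w := single_le_sum (f := fun w => J c u w)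
      (fun _ _ => Nat.zero_le _) (mem_univ v)
    omega
  let C : Sym2 V → Finset (Fin r) := fun q =>
    univ.filter (fun c => ∃ u v, q = s(u, v) ∧ J c u v = 1)
  have hC : ∀ u v c, c ∈ C s(u, v) ↔ J c u v = 1 := by
    intro u v c
    rw [mem_filter]
    constructor
    · rintro ⟨-, a, b, hq, h⟩
      rw [Sym2.eq_iff] at hq
      rcases hq with ⟨rfl, rfl⟩ | ⟨rfl, rfl⟩
      · exact h
      · rw [hs c _ (mem_univ _) _ (mem_univ _)]
        exact h
    · intro h
      exact ⟨mem_univ c, u, v, rfl, h⟩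
  have hcard : ∀ q : Sym2 V, Fintype.card {e : E // φ e = q} ≤ Fintype.card {c // c ∈ C q} := by
    intro q
    induction q using Sym2.ind with
    | _ u v =>
      rw [Fintype.card_coe, Fintype.card_subtype]
      have h1 : (C s(u, v)).card = mult φ u v := by
        rw [← hJ u (mem_univ u) v (mem_univ v), card_eq_sum_ones]
        have h2 : C s(u, v) = univ.filter (fun c => J c u v = 1) := by
          ext c
          rw [hC, mem_filter]
          exact ⟨fun h => ⟨mem_univ c, h⟩, fun h => h.2⟩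
        rw [h2, sum_filter]
        refine sum_congr rfl fun c _ => ?_
        have := hle c u v
        split_ifs with h
        · exact h.symm
        · omega
      rw [h1]
      exact le_rfl
  have hemb : ∀ q : Sym2 V, Nonempty ({e : E // φ e = q} ↪ {c // c ∈ C q}) := fun q =>
    Function.Embedding.nonempty_of_card_le (hcard q)
  let em : ∀ q : Sym2 V, {e : E // φ e = q} ↪ {c // c ∈ C q} := fun q => (hemb q).some
  have htr : ∀ (e : E) (q : Sym2 V) (h : φ e = q), (em (φ e) ⟨e, rfl⟩).1 = (em q ⟨e, h⟩).1 := by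
    intro e q h
    subst h
    rfl
  refine ⟨fun e => (em (φ e) ⟨e, rfl⟩).1, ?_⟩
  rintro e₁ e₂ hne ⟨v, hv1, hv2⟩ heq
  obtain ⟨a, ha⟩ := hv1
  obtain ⟨b, hb⟩ := hv2
  have heq' : (em (φ e₁) ⟨e₁, rfl⟩).1 = (em (φ e₂) ⟨e₂, rfl⟩).1 := heq
  rw [htr e₁ _ ha, htr e₂ _ hb] at heq'
  have h1 : J (em s(v, a) ⟨e₁, ha⟩).1 v a = 1 := (hC v a _).1 (em s(v, a) ⟨e₁, ha⟩).2
  have h2 : J (em s(v, b) ⟨e₂, hb⟩).1 v b = 1 := (hC v b _).1 (em s(v, b) ⟨e₂, hb⟩).2
  rw [heq'] at h1
  by_cases hab : a = b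
  · subst hab
    have h3 := (em s(v, a)).injective (Subtype.ext heq')
    exact hne (congrArg Subtype.val h3)
  · have h3 := hone (em s(v, b) ⟨e₂, hb⟩).1 v
    have h4 : J (em s(v, b) ⟨e₂, hb⟩).1 v a + J (em s(v, b) ⟨e₂, hb⟩).1 v b ≤
        ∑ w, J (em s(v, b) ⟨e₂, hb⟩).1 v w := by
      rw [← sum_pair hab (f := fun w => J (em s(v, b) ⟨e₂, hb⟩).1 v w)]
      exact sum_le_sum_of_subset (subset_univ _)
    omega

end

end PStar
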