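import Pool.Agent.PStar.Basic0

set_option autoImplicit false

namespace PStar

open Finset

section
open Classical

private theorem ZD_sum_mult {V E : Type} [Fintype V] [Fintype E] (φ : E → Sym2 V) (v : V) :
    ∑ u, mult φ v u = edeg φ v := by
  unfold mult edeg
  simp only [Finset.card_filter]
  rw [Finset.sum_comm]
  refine Finset.sum_congr rfl fun e _ => ?_
  by_cases h : v ∈ φ e
  · rw [if_pos h]
    obtain ⟨w, hw⟩ := h
    rw [Finset.sum_eq_single w]
    · rw [if_pos hw]
    · intro u _ hu
      rw [if_neg]
      intro h1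
      rw [hw] at h1
      exact hu (Sym2.congr_right.1 h1).symm
    · intro h1
      exact absurd (Finset.mem_univ w) h1
  · rw [if_neg h]
    refine Finset.sum_eq_zero fun u _ => ?_
    rw [if_neg]
    intro h1
    exact h (h1 ▸ Sym2.mem_mk_left v u)

private theorem ZD_E_inner {V E' : Type} [Fintype V] [Fintype E'] (φ : E' → Sym2 V)
    (hl : ∀ e, ¬ (φ e).IsDiag) (X : Finset V) :
    E (mult φ) X X ≤ 2 * (univ.filter (fun e : E' => ∀ v ∈ φ e, v ∈ X)).card := by
  unfold E mult
  rw [← Finset.sum_product']
  simp only [Finset.card_filter]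
  rw [Finset.sum_comm, Finset.mul_sum]
  refine Finset.sum_le_sum fun e _ => ?_
  have hle := hl e
  generalize φ e = s at hle
  induction s using Sym2.ind with
  | _ a b =>
    rw [← Finset.card_filter]
    by_cases h : ∀ v ∈ s(a, b), v ∈ X
    · rw [if_pos h]
      calc (filter (fun x : V × V => s(a, b) = s(x.1, x.2)) (X ×ˢ X)).card
          ≤ ({(a, b), (b, a)} : Finset (V × V)).card := by
            refine Finset.card_le_card fun p hp => ?_
            rw [Finset.mem_filter] at hp
            rcases Sym2.eq_iff.1 hp.2 with ⟨h1, h2⟩ | ⟨h1, h2⟩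
            · rw [Finset.mem_insert]
              left
              exact Prod.ext h1.symm h2.symm
            · rw [Finset.mem_insert, Finset.mem_singleton]
              right
              exact Prod.ext h2.symm h1.symm
        _ ≤ 2 * 1 := by
            have := Finset.card_le_two (a := (a, b)) (b := (b, a))
            omega
    · rw [if_neg h, mul_zero, Nat.le_zero, Finset.card_eq_zero, Finset.filter_eq_empty_iff]
      rintro ⟨x, y⟩ hxy h1
      apply h
      rw [Finset.mem_product] at hxy
      intro v hv
      rw [h1] at hv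
      rcases Sym2.mem_iff.1 hv with rfl | rfl
      · exact hxy.1
      · exact hxy.2

private theorem ZD_edeg_le {V E : Type} [Fintype V] [Fintype E] (φ : E → Sym2 V) (v : V) :
    edeg φ v ≤ bound φ := by
  unfold edeg bound
  exact le_trans (Finset.le_sup (f := fun v : V =>
    (Finset.univ.filter (fun e : E => v ∈ φ e)).card) (Finset.mem_univ v)) (le_max_left _ _)

private theorem ZD_inner_le {V E : Type} [Fintype V] [Fintype E] (φ : E → Sym2 V)
    (hl : ∀ e, ¬ (φ e).IsDiag) (X : Finset V) (hX : Odd X.card) :
    2 * (univ.filter (fun e : E => ∀ v ∈ φ e, v ∈ X)).card ≤ bound φ * (X.card - 1) := by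
  by_cases h3 : 3 ≤ X.card
  · have h1 : ⌈((2 * (Finset.univ.filter (fun e : E => ∀ v ∈ φ e, v ∈ X)).card : ℕ) : ℚ)
        / ((X.card : ℚ) - 1)⌉₊ ≤ bound φ := by
      unfold bound
      refine le_trans (Finset.le_sup (f := fun S : Finset V =>
        ⌈((2 * (Finset.univ.filter (fun e : E => ∀ v ∈ φ e, v ∈ S)).card : ℕ) : ℚ)
          / ((S.card : ℚ) - 1)⌉₊) ?_) (le_max_right _ _)
      exact Finset.mem_filter.2 ⟨Finset.mem_univ _, hX, h3⟩
    have h2 := Nat.ceil_le.1 h1
    have h4 : (0 : ℚ) < (X.card : ℚ) - 1 := by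
      have : (3 : ℚ) ≤ X.card := by exact_mod_cast h3
      linarith
    rw [div_le_iff₀ h4] at h2
    have h5 : ((X.card - 1 : ℕ) : ℚ) = (X.card : ℚ) - 1 := by
      rw [Nat.cast_sub (by omega)]
      simp
    rw [← h5] at h2
    exact_mod_cast h2
  · have h1 : X.card = 1 := by
      obtain ⟨t, ht⟩ := hX
      omega
    obtain ⟨x, rfl⟩ := Finset.card_eq_one.1 h1
    have h2 : (univ.filter (fun e : E => ∀ v ∈ φ e, v ∈ ({x} : Finset V))) = ∅ := by
      rw [Finset.filter_eq_empty_iff]
      intro e _ he
      apply hl e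
      generalize φ e = s at he
      induction s using Sym2.ind with
      | _ a b =>
        have ha := Finset.mem_singleton.1 (he a (Sym2.mem_mk_left a b))
        have hb := Finset.mem_singleton.1 (he b (Sym2.mem_mk_right a b))
        rw [ha, hb]
        simp
    rw [h2]
    simp

theorem isZG_of_graph {V E : Type} [Fintype V] [Fintype E] (φ : E → Sym2 V)
    (hl : ∀ e, ¬ (φ e).IsDiag) :
    IsZG (univ : Finset V) (mult φ) (fun v => bound φ - edeg φ v) (fun _ => 0) (bound φ) := by
  refine ⟨?_, ?_, ?_, ?_⟩
  · intro u _ v _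
    unfold mult
    rw [Sym2.eq_swap]
  · intro v _
    unfold mult
    rw [Finset.card_eq_zero, Finset.filter_eq_empty_iff]
    intro e _ he
    apply hl e
    rw [he]
    simp
  · intro v _
    rw [ZD_sum_mult]
    have := ZD_edeg_le φ v
    omega
  · intro X _ hX
    have h1 := ZD_inner_le φ hl X hX
    have h2 := ZD_E_inner φ hl X
    have h3 : PStar.E (mult φ) X X + PStar.E (mult φ) X (univ \ X) = ∑ x ∈ X, edeg φ x := by
      unfold PStar.E
      rw [← Finset.sum_add_distrib]
      refine Finset.sum_congr rfl fun x _ => ?_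
      rw [← ZD_sum_mult φ x, add_comm]
      exact Finset.sum_sdiff (Finset.subset_univ X)
    have h4 : ∑ x ∈ X, edeg φ x + ∑ x ∈ X, (bound φ - edeg φ x) = bound φ * X.card := by
      rw [← Finset.sum_add_distrib, mul_comm, ← smul_eq_mul, ← Finset.sum_const]
      refine Finset.sum_congr rfl fun x _ => ?_
      have := ZD_edeg_le φ x
      omega
    have h5 : bound φ * X.card = bound φ * (X.card - 1) + bound φ := by
      obtain ⟨t, ht⟩ := hX
      rw [ht]
      simp
      ring
    unfold cut
    simp only []
    omega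

end

end PStar
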