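import Pool.Agent.PStar.Defs

set_option autoImplicit false

namespace PStar

open Finset

/-- Two labellings of `Fin r` with equally large fibres differ by a permutation. -/
theorem exists_perm_of_fiber {r : ℕ} {β : Type*} [DecidableEq β] (s t : Fin r → β)
    (h : ∀ b, (univ.filter (fun c => s c = b)).card = (univ.filter (fun c => t c = b)).card) :
    ∃ σ : Equiv.Perm (Fin r), ∀ c, s (σ c) = t c := by
  have e : ∀ b, Nonempty ({c // t c = b} ≃ {c // s c = b}) := by
    intro b
    refine ⟨Fintype.equivOfCardEq ?_⟩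
    rw [Fintype.card_subtype, Fintype.card_subtype]
    exact (h b).symm
  let e' : ∀ b, ({c // t c = b} ≃ {c // s c = b}) := fun b => Classical.choice (e b)
  refine ⟨(Equiv.sigmaFiberEquiv t).symm.trans
    ((Equiv.sigmaCongrRight e').trans (Equiv.sigmaFiberEquiv s)), fun c => ?_⟩
  exact ((e' (t c)) ⟨c, rfl⟩).2

/-- A labelling with prescribed fibre sizes. -/
theorem exists_labelling {r : ℕ} {ι : Type*} [Fintype ι] [DecidableEq ι] (K : ι → ℕ)
    (h : ∑ i, K i = r) :
    ∃ L : Fin r → ι, ∀ i, (univ.filter (fun c => L c = i)).card = K i := by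
  have hc : Fintype.card (Fin r) = Fintype.card (Σ i, Fin (K i)) := by
    rw [Fintype.card_sigma]
    simp [h]
  let e := Fintype.equivOfCardEq hc
  refine ⟨fun c => (e c).1, fun i => ?_⟩
  have h1 : (univ.filter (fun c => (e c).1 = i)).card
      = (univ.filter (fun x : Σ i, Fin (K i) => x.1 = i)).card := by
    refine Finset.card_equiv e fun c => ?_
    simp
  have h2 : (univ.filter (fun x : Σ i, Fin (K i) => x.1 = i))
      = (univ : Finset (Fin (K i))).map ⟨Sigma.mk i, sigma_mk_injective⟩ := by
    ext x
    simp only [mem_filter, mem_univ, true_and, mem_map, Function.Embedding.coeFn_mk]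
    constructor
    · rintro rfl
      exact ⟨x.2, rfl⟩
    · rintro ⟨y, rfl⟩
      rfl
  rw [h1, h2, card_map, card_univ, Fintype.card_fin]

/-- Coupling of two labellings with prescribed joint fibre sizes. -/
theorem exists_coupling {r : ℕ} {ι κ : Type*} [Fintype ι] [Fintype κ] [DecidableEq ι]
    [DecidableEq κ] (s : Fin r → ι) (t : Fin r → κ) (K : ι → κ → ℕ)
    (hrow : ∀ i, ∑ j, K i j = (univ.filter (fun c => s c = i)).card)
    (hcol : ∀ j, ∑ i, K i j = (univ.filter (fun c => t c = j)).card) :
    ∃ σ : Equiv.Perm (Fin r),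
      ∀ i j, (univ.filter (fun c => s (σ c) = i ∧ t c = j)).card = K i j := by
  have hsum : ∑ p : ι × κ, K p.1 p.2 = r := by
    rw [Fintype.sum_prod_type]
    rw [Finset.sum_congr rfl fun i _ => hrow i]
    have := Finset.card_eq_sum_card_fiberwise (f := s) (s := univ) (t := univ)
      (fun c _ => mem_coe.2 (mem_univ _))
    rw [← this, card_univ, Fintype.card_fin]
  obtain ⟨L, hL⟩ := exists_labelling (fun p : ι × κ => K p.1 p.2) hsum
  have h1 : ∀ i, (univ.filter (fun c => s c = i)).card
      = (univ.filter (fun c => (L c).1 = i)).card := by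
    intro i
    rw [← hrow i, Finset.card_eq_sum_card_fiberwise (f := fun c => (L c).2)
      (s := univ.filter (fun c => (L c).1 = i)) (t := univ) (fun c _ => mem_coe.2 (mem_univ _))]
    refine Finset.sum_congr rfl fun j _ => ?_
    rw [← hL (i, j), filter_filter]
    congr 1
    ext c
    simp [Prod.ext_iff]
  have h2 : ∀ j, (univ.filter (fun c => t c = j)).card
      = (univ.filter (fun c => (L c).2 = j)).card := by
    intro j
    rw [← hcol j, Finset.card_eq_sum_card_fiberwise (f := fun c => (L c).1)
      (s := univ.filter (fun c => (L c).2 = j)) (t := univ) (fun c _ => mem_coe.2 (mem_univ _))]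
    refine Finset.sum_congr rfl fun i _ => ?_
    rw [← hL (i, j), filter_filter]
    congr 1
    ext c
    simp [Prod.ext_iff, and_comm]
  obtain ⟨s1, hs1⟩ := exists_perm_of_fiber s (fun c => (L c).1) h1
  obtain ⟨s2, hs2⟩ := exists_perm_of_fiber t (fun c => (L c).2) h2
  refine ⟨s2.symm.trans s1, fun i j => ?_⟩
  rw [← hL (i, j)]
  refine Finset.card_equiv s2.symm fun c => ?_
  have e1 := hs1 (s2.symm c)
  have e2 := hs2 (s2.symm c)
  rw [Equiv.apply_symm_apply] at e2
  rw [mem_filter, mem_filter]
  simp only [mem_univ, true_and, Equiv.trans_apply, e1, e2, Prod.ext_iff]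

end PStar
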