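import Pool.Agent.PStar.Defs

set_option autoImplicit false

namespace PStar

open Finset

variable {V : Type*} [DecidableEq V] {W : Finset V} {m : V → V → ℕ} {f k : V → ℕ} {r : ℕ}

private theorem Basic0_even_E (m : V → V → ℕ) : ∀ X : Finset V,
    (∀ u ∈ X, ∀ v ∈ X, m u v = m v u) → (∀ v ∈ X, m v v = 0) → E m X X % 2 = 0 := by
  intro X
  induction X using Finset.induction_on with
  | empty => intro _ _; simp [E]
  | insert a X ha ih =>
    intro hs hl
    have ih' := ih (fun u hu v hv => hs u (mem_insert_of_mem hu) v (mem_insert_of_mem hv))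
      (fun v hv => hl v (mem_insert_of_mem hv))
    have h1 : E m (insert a X) (insert a X) = 2 * (∑ y ∈ X, m a y) + E m X X := by
      unfold E
      rw [sum_insert ha, sum_insert ha, hl a (mem_insert_self a X)]
      have h2 : ∑ x ∈ X, ∑ y ∈ insert a X, m x y = ∑ x ∈ X, (m a x + ∑ y ∈ X, m x y) := by
        refine sum_congr rfl (fun x hx => ?_)
        rw [sum_insert ha, hs x (mem_insert_of_mem hx) a (mem_insert_self a X)]
      rw [h2, sum_add_distrib]
      ring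
    rw [h1]
    omega

private theorem Basic0_split (m : V → V → ℕ) {X W : Finset V} (hX : X ⊆ W) (x : V) :
    ∑ u ∈ W, m x u = ∑ u ∈ X, m x u + ∑ u ∈ W \ X, m x u := by
  rw [← sum_sdiff hX, add_comm]

/-- Parity of cuts. -/
theorem IsZG.cut_parity (h : IsZG W m f k r) {X : Finset V} (hX : X ⊆ W) :
    cut W m f X % 2 = (r * X.card) % 2 := by
  have h1 : ∑ x ∈ X, (∑ u ∈ W, m x u + f x) = ∑ x ∈ X, (r + 2 * k x) :=
    sum_congr rfl (fun x hx => h.degree x (hX hx))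
  have h2 : ∑ x ∈ X, (∑ u ∈ W, m x u + f x) = E m X X + cut W m f X := by
    unfold cut E
    rw [sum_add_distrib, sum_congr rfl (fun x _ => Basic0_split m hX x), sum_add_distrib]
    ring
  have h3 : ∑ x ∈ X, (r + 2 * k x) = r * X.card + 2 * ∑ x ∈ X, k x := by
    rw [sum_add_distrib, sum_const, smul_eq_mul, ← mul_sum, mul_comm]
  have h4 := Basic0_even_E m X (fun u hu v hv => h.symm u (hX hu) v (hX hv))
    (fun v hv => h.loopless v (hX hv))
  omega

/-- A vertex with `k v = 0` is met exactly once by each part. -/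
theorem dec_one {J : Fin r → V → V → ℕ} {g : Fin r → V → ℕ} {v : V} (hv : v ∈ W)
    (hdeg : ∑ u ∈ W, m v u + f v = r)
    (hJ : ∀ u ∈ W, ∑ c, J c v u = m v u) (hg : ∑ c, g c v = f v)
    (hodd : ∀ c, Odd (∑ u ∈ W, J c v u + g c v)) (c : Fin r) :
    ∑ u ∈ W, J c v u + g c v = 1 := by
  have _ := hv
  have h1 : ∑ c, (∑ u ∈ W, J c v u + g c v) = r := by
    rw [sum_add_distrib, sum_comm, sum_congr rfl hJ, hg, hdeg]
  have h2 : ∀ c ∈ (univ : Finset (Fin r)), 1 ≤ ∑ u ∈ W, J c v u + g c v := by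
    intro c _
    exact (hodd c).pos
  have h3 : ∑ c : Fin r, 1 = ∑ c, (∑ u ∈ W, J c v u + g c v) := by
    rw [h1]; simp
  exact ((sum_eq_sum_iff_of_le h2).mp h3 c (mem_univ c)).symm

/-- Removing one part. -/
theorem Dec.of_removal {s : ℕ} (J0 : V → V → ℕ) (g0 : V → ℕ)
    (hs : ∀ u ∈ W, ∀ v ∈ W, J0 u v = J0 v u)
    (hJ : ∀ u ∈ W, ∀ v ∈ W, J0 u v ≤ m u v) (hg : ∀ v ∈ W, g0 v ≤ f v)
    (hodd : ∀ v ∈ W, Odd (∑ u ∈ W, J0 v u + g0 v))
    (h : Dec W (fun u v => m u v - J0 u v) (fun v => f v - g0 v) s) : Dec W m f (s + 1) := by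
  obtain ⟨J, g, h1, h2, h3, h4⟩ := h
  refine ⟨Fin.cons J0 J, Fin.cons g0 g, ?_, ?_, ?_, ?_⟩
  · intro c u hu v hv
    refine Fin.cases ?_ (fun i => ?_) c
    · simpa using hs u hu v hv
    · simpa using h1 i u hu v hv
  · intro u hu v hv
    rw [Fin.sum_univ_succ]
    simp only [Fin.cons_zero, Fin.cons_succ]
    have e1 : ∑ c, J c u v = m u v - J0 u v := h2 u hu v hv
    have e2 := hJ u hu v hv
    rw [e1]
    omega
  · intro v hv
    rw [Fin.sum_univ_succ]
    simp only [Fin.cons_zero, Fin.cons_succ]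
    have e1 : ∑ c, g c v = f v - g0 v := h3 v hv
    have e2 := hg v hv
    rw [e1]
    omega
  · intro c v hv
    refine Fin.cases ?_ (fun i => ?_) c
    · simpa using hodd v hv
    · simpa using h4 i v hv

theorem IsZG.removal {s : ℕ} (h : IsZG W m f k (s + 1)) (J0 : V → V → ℕ) (g0 e : V → ℕ)
    (hs : ∀ u ∈ W, ∀ v ∈ W, J0 u v = J0 v u)
    (hJ : ∀ u ∈ W, ∀ v ∈ W, J0 u v ≤ m u v) (hg : ∀ v ∈ W, g0 v ≤ f v)
    (he : ∀ v ∈ W, ∑ u ∈ W, J0 v u + g0 v = 1 + 2 * e v) (hek : ∀ v ∈ W, e v ≤ k v)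
    (hcut : ∀ X ⊆ W, Odd X.card → s + cut W J0 g0 X ≤ cut W m f X) :
    IsZG W (fun u v => m u v - J0 u v) (fun v => f v - g0 v) (fun v => k v - e v) s := by
  refine ⟨?_, ?_, ?_, ?_⟩
  · intro u hu v hv
    show m u v - J0 u v = m v u - J0 v u
    rw [h.symm u hu v hv, hs u hu v hv]
  · intro v hv
    show m v v - J0 v v = 0
    rw [h.loopless v hv, Nat.zero_sub]
  · intro v hv
    show ∑ u ∈ W, (m v u - J0 v u) + (f v - g0 v) = s + 2 * (k v - e v)
    have e1 : ∑ u ∈ W, (m v u - J0 v u) + ∑ u ∈ W, J0 v u = ∑ u ∈ W, m v u := by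
      rw [← sum_add_distrib]
      exact sum_congr rfl (fun u hu => Nat.sub_add_cancel (hJ v hv u hu))
    have e2 := h.degree v hv
    have e3 := he v hv
    have e4 := hek v hv
    have e5 := hg v hv
    omega
  · intro X hX hXo
    have e1 : cut W (fun u v => m u v - J0 u v) (fun v => f v - g0 v) X + cut W J0 g0 X
        = cut W m f X := by
      unfold cut E
      show (∑ x ∈ X, ∑ y ∈ W \ X, (m x y - J0 x y) + ∑ x ∈ X, (f x - g0 x)) +
        (∑ x ∈ X, ∑ y ∈ W \ X, J0 x y + ∑ x ∈ X, g0 x) =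
        ∑ x ∈ X, ∑ y ∈ W \ X, m x y + ∑ x ∈ X, f x
      have a1 : ∑ x ∈ X, ∑ y ∈ W \ X, (m x y - J0 x y) + ∑ x ∈ X, ∑ y ∈ W \ X, J0 x y
          = ∑ x ∈ X, ∑ y ∈ W \ X, m x y := by
        rw [← sum_add_distrib]
        refine sum_congr rfl (fun x hx => ?_)
        rw [← sum_add_distrib]
        exact sum_congr rfl (fun y hy => Nat.sub_add_cancel (hJ x (hX hx) y (mem_sdiff.mp hy).1))
      have a2 : ∑ x ∈ X, (f x - g0 x) + ∑ x ∈ X, g0 x = ∑ x ∈ X, f x := by
        rw [← sum_add_distrib]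
        exact sum_congr rfl (fun x hx => Nat.sub_add_cancel (hg x (hX hx)))
      omega
    have e2 := hcut X hX hXo
    omega

/-- Only the values on `W` matter. -/
theorem Dec.congr {m' : V → V → ℕ} {f' : V → ℕ} (hm : ∀ u ∈ W, ∀ v ∈ W, m u v = m' u v)
    (hf : ∀ v ∈ W, f v = f' v) (h : Dec W m f r) : Dec W m' f' r := by
  obtain ⟨J, g, h1, h2, h3, h4⟩ := h
  exact ⟨J, g, h1, fun u hu v hv => (h2 u hu v hv).trans (hm u hu v hv),
    fun v hv => (h3 v hv).trans (hf v hv), h4⟩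

private theorem Basic0_cut_congr {m' : V → V → ℕ} {f' : V → ℕ}
    (hm : ∀ u ∈ W, ∀ v ∈ W, m u v = m' u v)
    (hf : ∀ v ∈ W, f v = f' v) {X : Finset V} (hX : X ⊆ W) : cut W m f X = cut W m' f' X := by
  unfold cut E
  rw [sum_congr rfl (fun x hx => sum_congr rfl (fun y hy => hm x (hX hx) y (mem_sdiff.mp hy).1)),
    sum_congr rfl (fun x hx => hf x (hX hx))]

theorem IsZG.congr {m' : V → V → ℕ} {f' k' : V → ℕ} (hm : ∀ u ∈ W, ∀ v ∈ W, m u v = m' u v)
    (hf : ∀ v ∈ W, f v = f' v) (hk : ∀ v ∈ W, k v = k' v) (h : IsZG W m f k r) :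
    IsZG W m' f' k' r := by
  refine ⟨?_, ?_, ?_, ?_⟩
  · intro u hu v hv
    rw [← hm u hu v hv, ← hm v hv u hu]
    exact h.symm u hu v hv
  · intro v hv
    rw [← hm v hv v hv]
    exact h.loopless v hv
  · intro v hv
    rw [← hf v hv, ← hk v hv, ← h.degree v hv, sum_congr rfl (fun u hu => hm v hv u hu)]
  · intro X hX hXo
    rw [← Basic0_cut_congr hm hf hX]
    exact h.cuts X hX hXo

theorem Sep2.symm {x y : V} {A B : Finset V} (h : IsZG W m f k r) (hs : Sep2 W m k x y A B) :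
    Sep2 W m k x y B A := by
  have hA : A ⊆ W := by
    rw [hs.hW]
    intro a ha
    simp [ha]
  have hB : B ⊆ W := by
    rw [hs.hW]
    intro b hb
    simp [hb]
  refine ⟨?_, hs.hxy, hs.hxB, hs.hxA, hs.hyB, hs.hyA, hs.hAB.symm, ?_, hs.hkx, hs.hky⟩
  · rw [union_comm B A]
    exact hs.hW
  · intro b hb a ha
    rw [h.symm b (hB hb) a (hA ha)]
    exact hs.hm a ha b hb

end PStar
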