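import Pool.Agent.PStar.Basic0

set_option autoImplicit false

namespace PStar

open Finset

variable {V : Type*} [DecidableEq V] {W : Finset V} {m : V → V → ℕ} {f k : V → ℕ} {r : ℕ}

/-- Gluing along a partition `W = P ∪ B`. -/
theorem Dec.glue {P B : Finset V} (hW : W = P ∪ B) (hd : Disjoint P B)
    (JA JB : Fin r → V → V → ℕ) (gA gB : Fin r → V → ℕ)
    (hsA : ∀ c, ∀ u ∈ P, ∀ v ∈ P, JA c u v = JA c v u)
    (hsB : ∀ c, ∀ u ∈ W, ∀ v ∈ B, JB c u v = JB c v u)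
    (hmA : ∀ u ∈ P, ∀ v ∈ P, ∑ c, JA c u v = m u v)
    (hmB : ∀ u ∈ W, ∀ v ∈ B, ∑ c, JB c u v = m u v)
    (hsymm : ∀ u ∈ W, ∀ v ∈ W, m u v = m v u)
    (hfA : ∀ v ∈ P, ∑ c, gA c v = f v) (hfB : ∀ v ∈ B, ∑ c, gB c v = f v)
    (hoA : ∀ c, ∀ v ∈ P, Odd (∑ u ∈ P, JA c v u + ∑ b ∈ B, JB c v b + gA c v))
    (hoB : ∀ c, ∀ v ∈ B, Odd (∑ u ∈ W, JB c v u + gB c v)) : Dec W m f r := by
  have hPW : ∀ v ∈ P, v ∉ B := fun v hv hb => (Finset.disjoint_left.1 hd) hv hb
  have hWP : ∀ v ∈ W, v ∉ B → v ∈ P := by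
    intro v hv hb
    rw [hW, Finset.mem_union] at hv
    exact hv.resolve_right hb
  refine ⟨fun c u v => if v ∈ B then JB c u v else if u ∈ B then JB c v u else JA c u v,
    fun c v => if v ∈ B then gB c v else gA c v, ?_, ?_, ?_, ?_⟩
  · intro c u hu v hv
    by_cases h1 : v ∈ B <;> by_cases h2 : u ∈ B <;> simp only [h1, h2, if_true, if_false]
    · exact hsB c u hu v h1
    · exact hsA c u (hWP u hu h2) v (hWP v hv h1)
  · intro u hu v hv
    by_cases h1 : v ∈ B <;> by_cases h2 : u ∈ B <;> simp only [h1, h2, if_true, if_false]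
    · exact hmB u hu v h1
    · exact hmB u hu v h1
    · rw [hmB v hv u h2]; exact hsymm v hv u hu
    · exact hmA u (hWP u hu h2) v (hWP v hv h1)
  · intro v hv
    by_cases h1 : v ∈ B <;> simp only [h1, if_true, if_false]
    · exact hfB v h1
    · exact hfA v (hWP v hv h1)
  · intro c v hv
    by_cases h1 : v ∈ B
    · simp only [h1, if_true]
      have : ∑ u ∈ W, (if u ∈ B then JB c v u else JB c u v) = ∑ u ∈ W, JB c v u := by
        refine Finset.sum_congr rfl fun u hu => ?_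
        split_ifs
        · rfl
        · exact hsB c u hu v h1
      rw [this]
      exact hoB c v h1
    · simp only [h1, if_false]
      have : ∑ u ∈ W, (if u ∈ B then JB c v u else JA c v u)
          = ∑ u ∈ P, JA c v u + ∑ b ∈ B, JB c v b := by
        rw [hW, Finset.sum_union hd]
        congr 1
        · exact Finset.sum_congr rfl fun u hu => if_neg (hPW u hu)
        · exact Finset.sum_congr rfl fun u hu => if_pos hu
      rw [this]
      exact hoA c v (hWP v hv h1)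

/-- Crude bound: an independent part of `X` beats the degrees of the rest. -/
theorem crude_cut (hsymm : ∀ u ∈ W, ∀ v ∈ W, m u v = m v u) {I R : Finset V} (hI : I ⊆ W)
    (hR : R ⊆ W) (hIR : Disjoint I R) (hind : ∀ u ∈ I, ∀ v ∈ I, m u v = 0) :
    ∑ i ∈ I, (∑ u ∈ W, m i u + f i) ≤
      cut W m f (I ∪ R) + ∑ x ∈ R, ∑ u ∈ W, m x u := by
  have hIRW : I ∪ R ⊆ W := Finset.union_subset hI hR
  have h1 : ∀ i ∈ I, ∑ u ∈ W, m i u = ∑ u ∈ R, m i u + ∑ u ∈ W \ (I ∪ R), m i u := by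
    intro i hi
    rw [← Finset.sum_sdiff hIRW, Finset.sum_union hIR,
      Finset.sum_eq_zero (s := I) fun u hu => hind i hi u hu]
    omega
  have h2 : ∑ i ∈ I, ∑ u ∈ R, m i u ≤ ∑ x ∈ R, ∑ u ∈ W, m x u := by
    rw [Finset.sum_comm]
    refine Finset.sum_le_sum fun x hx => ?_
    have : ∑ i ∈ I, m i x = ∑ i ∈ I, m x i :=
      Finset.sum_congr rfl fun i hi => hsymm i (hI hi) x (hR hx)
    rw [this]
    exact Finset.sum_le_sum_of_subset hI
  have h3 : ∑ i ∈ I, ∑ u ∈ W \ (I ∪ R), m i u ≤ E m (I ∪ R) (W \ (I ∪ R)) :=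
    Finset.sum_le_sum_of_subset (f := fun i => ∑ u ∈ W \ (I ∪ R), m i u)
      Finset.subset_union_left
  have h4 : ∑ i ∈ I, f i ≤ ∑ x ∈ I ∪ R, f x :=
    Finset.sum_le_sum_of_subset Finset.subset_union_left
  have h5 : ∑ i ∈ I, (∑ u ∈ W, m i u + f i)
      = ∑ i ∈ I, ∑ u ∈ R, m i u + ∑ i ∈ I, ∑ u ∈ W \ (I ∪ R), m i u + ∑ i ∈ I, f i := by
    rw [Finset.sum_add_distrib, Finset.sum_congr rfl h1, Finset.sum_add_distrib]
  rw [h5, cut]
  omega

end PStar
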