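import Pool.Agent.PStar.Basic0

set_option autoImplicit false

namespace PStar

open Finset

variable {V : Type*} [DecidableEq V] {W : Finset V} {m : V → V → ℕ} {f k : V → ℕ} {r : ℕ}

private theorem conM_bb (B : Finset V) (b : V) : conM B b m b b = 0 := by
  simp [conM]

private theorem conM_b (B : Finset V) {b v : V} (hv : v ≠ b) :
    conM B b m b v = ∑ x ∈ B, m x v := by
  simp [conM, hv]

private theorem conM_b' (B : Finset V) {b u : V} (hu : u ≠ b) :
    conM B b m u b = ∑ x ∈ B, m u x := by
  simp [conM, hu]

private theorem conM_o (B : Finset V) {b u v : V} (hu : u ≠ b) (hv : v ≠ b) :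
    conM B b m u v = m u v := by
  simp [conM, hu, hv]

/-- splitting a sum over `W` along `B` -/
private theorem sum_split {B : Finset V} (hB : B ⊆ W) (g : V → ℕ) :
    ∑ u ∈ W, g u = ∑ u ∈ B, g u + ∑ u ∈ W \ B, g u := by
  rw [add_comm, Finset.sum_sdiff hB]

/-- Contracting a set `B` of odd size to a vertex `b` (used for tight sets and for the `A`-side of
a 3-separation). -/
theorem IsZG.contract (h : IsZG W m f k r) {B : Finset V} {b : V} (hB : B ⊆ W) (hb : b ∈ B)
    (hodd : Odd B.card) (l : ℕ) (hl : cut W m f B = r + 2 * l) :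
    IsZG (insert b (W \ B)) (conM B b m) (conF B b f) (conK b l k) r := by
  have hbn : b ∉ W \ B := fun h1 => (Finset.mem_sdiff.1 h1).2 hb
  have hne : ∀ {v}, v ∈ W \ B → v ≠ b := by
    rintro v hv rfl
    exact hbn hv
  have hW : ∀ {v}, v ∈ W \ B → v ∈ W := fun hv => (Finset.mem_sdiff.1 hv).1
  refine ⟨?_, ?_, ?_, ?_⟩
  · intro u hu v hv
    rcases Finset.mem_insert.1 hu with hu1 | hu1
    · rcases Finset.mem_insert.1 hv with hv1 | hv1
      · rw [hu1, hv1]
      · rw [hu1, conM_b B (hne hv1), conM_b' B (hne hv1)]
        exact Finset.sum_congr rfl fun x hx => h.symm x (hB hx) v (hW hv1)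
    · rcases Finset.mem_insert.1 hv with hv1 | hv1
      · rw [hv1, conM_b B (hne hu1), conM_b' B (hne hu1)]
        exact Finset.sum_congr rfl fun x hx => h.symm u (hW hu1) x (hB hx)
      · rw [conM_o B (hne hu1) (hne hv1), conM_o B (hne hv1) (hne hu1)]
        exact h.symm u (hW hu1) v (hW hv1)
  · intro v hv
    rcases Finset.mem_insert.1 hv with rfl | hv
    · exact conM_bb B v
    · rw [conM_o B (hne hv) (hne hv)]
      exact h.loopless v (hW hv)
  · intro v hv
    rw [Finset.sum_insert hbn]
    rcases Finset.mem_insert.1 hv with rfl | hv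
    · rw [conM_bb]
      have h1 : ∑ u ∈ W \ B, conM B v m v u = ∑ u ∈ W \ B, ∑ x ∈ B, m x u :=
        Finset.sum_congr rfl fun u hu => conM_b B (hne hu)
      have h2 : conF B v f v = ∑ x ∈ B, f x := by simp [conF]
      have h3 : conK v l k v = l := by simp [conK]
      rw [h1, h2, h3, Finset.sum_comm]
      unfold cut E at hl
      omega
    · have h1 : ∑ u ∈ W \ B, conM B b m v u = ∑ u ∈ W \ B, m v u :=
        Finset.sum_congr rfl fun u hu => conM_o B (hne hv) (hne hu)
      have h2 : conF B b f v = f v := by simp [conF, hne hv]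
      have h3 : conK b l k v = k v := by simp [conK, hne hv]
      rw [h1, h2, h3, conM_b' B (hne hv)]
      have h4 := h.degree v (hW hv)
      rw [sum_split hB] at h4
      omega
  · intro X hX ho
    by_cases hbX : b ∈ X
    · -- the set X \ {b} ∪ B
      have hX0 : X.erase b ⊆ W \ B := by
        intro x hx
        obtain ⟨h1, h2⟩ := Finset.mem_erase.1 hx
        exact (Finset.mem_insert.1 (hX h2)).resolve_left h1
      have hdis : Disjoint (X.erase b) B := by
        rw [Finset.disjoint_left]
        intro x hx h1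
        exact (Finset.mem_sdiff.1 (hX0 hx)).2 h1
      have hYW : X.erase b ∪ B ⊆ W := by
        intro x hx
        rcases Finset.mem_union.1 hx with h1 | h1
        · exact hW (hX0 h1)
        · exact hB h1
      have hYodd : Odd (X.erase b ∪ B).card := by
        rw [Finset.card_union_of_disjoint hdis, Finset.card_erase_of_mem hbX]
        have h1 := Nat.odd_iff.1 ho
        have h2 := Nat.odd_iff.1 hodd
        rw [Nat.odd_iff]
        omega
      have h1 := h.cuts _ hYW hYodd
      have hcomp : insert b (W \ B) \ X = W \ (X.erase b ∪ B) := by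
        ext y
        simp only [Finset.mem_sdiff, Finset.mem_insert, Finset.mem_union, Finset.mem_erase,
          not_or, not_and]
        constructor
        · rintro ⟨h2 | h2, h3⟩
          · subst h2
            exact absurd hbX h3
          · exact ⟨h2.1, fun _ => h3, h2.2⟩
        · rintro ⟨h2, h3, h4⟩
          have h5 : y ≠ b := by
            rintro rfl
            exact h4 hb
          exact ⟨Or.inr ⟨h2, h4⟩, h3 h5⟩
      have hcne : ∀ {y}, y ∈ W \ (X.erase b ∪ B) → y ≠ b := by
        rintro y hy rfl
        exact (Finset.mem_sdiff.1 hy).2 (Finset.mem_union_right _ hb)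
      have h2 : cut (insert b (W \ B)) (conM B b m) (conF B b f) X =
          cut W m f (X.erase b ∪ B) := by
        unfold cut E
        rw [hcomp, ← Finset.add_sum_erase X _ hbX, ← Finset.add_sum_erase X _ hbX,
          Finset.sum_union hdis, Finset.sum_union hdis]
        have h3 : ∑ y ∈ W \ (X.erase b ∪ B), conM B b m b y =
            ∑ x ∈ B, ∑ y ∈ W \ (X.erase b ∪ B), m x y := by
          rw [Finset.sum_comm]
          exact Finset.sum_congr rfl fun y hy => conM_b B (hcne hy)
        have h4 : ∑ x ∈ X.erase b, ∑ y ∈ W \ (X.erase b ∪ B), conM B b m x y =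
            ∑ x ∈ X.erase b, ∑ y ∈ W \ (X.erase b ∪ B), m x y :=
          Finset.sum_congr rfl fun x hx => Finset.sum_congr rfl fun y hy =>
            conM_o B (hne (hX0 hx)) (hcne hy)
        have h5 : conF B b f b = ∑ x ∈ B, f x := by simp [conF]
        have h6 : ∑ x ∈ X.erase b, conF B b f x = ∑ x ∈ X.erase b, f x :=
          Finset.sum_congr rfl fun x hx => by simp [conF, hne (hX0 hx)]
        rw [h3, h4, h5, h6]
        omega
      rw [h2]
      exact h1
    · have hX0 : X ⊆ W \ B := by
        intro x hx
        refine (Finset.mem_insert.1 (hX hx)).resolve_left ?_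
        rintro rfl
        exact hbX hx
      have h1 := h.cuts X (fun x hx => hW (hX0 hx)) ho
      have hcomp : insert b (W \ B) \ X = insert b ((W \ B) \ X) := by
        ext y
        simp only [Finset.mem_sdiff, Finset.mem_insert]
        constructor
        · rintro ⟨h2 | h2, h3⟩
          · exact Or.inl h2
          · exact Or.inr ⟨h2, h3⟩
        · rintro (h2 | ⟨h2, h3⟩)
          · subst h2
            exact ⟨Or.inl rfl, hbX⟩
          · exact ⟨Or.inr h2, h3⟩
      have hbn' : b ∉ (W \ B) \ X := fun h2 => hbn (Finset.mem_sdiff.1 h2).1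
      have hBX : B ⊆ W \ X := by
        intro y hy
        exact Finset.mem_sdiff.2 ⟨hB hy, fun h2 => (Finset.mem_sdiff.1 (hX0 h2)).2 hy⟩
      have hWX : (W \ X) \ B = (W \ B) \ X := by
        ext y
        simp only [Finset.mem_sdiff]
        tauto
      have h2 : cut (insert b (W \ B)) (conM B b m) (conF B b f) X = cut W m f X := by
        unfold cut E
        rw [hcomp]
        congr 1
        · refine Finset.sum_congr rfl fun x hx => ?_
          rw [Finset.sum_insert hbn', conM_b' B (hne (hX0 hx)), sum_split hBX (m x), hWX]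
          congr 1
          exact Finset.sum_congr rfl fun y hy =>
            conM_o B (hne (hX0 hx)) (hne (Finset.mem_sdiff.1 hy).1)
        · exact Finset.sum_congr rfl fun x hx => by simp [conF, hne (hX0 hx)]
      rw [h2]
      exact h1

/-- The inside of a tight odd set. -/
theorem IsZG.inside (h : IsZG W m f k r) {X : Finset V} (hX : X ⊆ W) :
    IsZG X m (fun x => f x + ∑ u ∈ W \ X, m x u) k r := by
  refine ⟨fun u hu v hv => h.symm u (hX hu) v (hX hv), fun v hv => h.loopless v (hX hv),
    fun v hv => ?_, fun Y hY ho => ?_⟩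
  · have h1 := h.degree v (hX hv)
    rw [sum_split hX] at h1
    show ∑ u ∈ X, m v u + (f v + ∑ u ∈ W \ X, m v u) = r + 2 * k v
    omega
  · have h1 := h.cuts Y (hY.trans hX) ho
    have hXY : X \ Y ⊆ W \ Y := Finset.sdiff_subset_sdiff hX (le_refl _)
    have hWY : (W \ Y) \ (X \ Y) = W \ X := by
      ext y
      simp only [Finset.mem_sdiff, not_and, not_not]
      constructor
      · rintro ⟨⟨h2, h3⟩, h4⟩
        exact ⟨h2, fun h5 => h3 (h4 h5)⟩
      · rintro ⟨h2, h3⟩
        exact ⟨⟨h2, fun h4 => h3 (hY h4)⟩, fun h4 => absurd h4 h3⟩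
    have h2 : cut X m (fun x => f x + ∑ u ∈ W \ X, m x u) Y = cut W m f Y := by
      unfold cut E
      rw [Finset.sum_add_distrib]
      have h3 : ∑ x ∈ Y, ∑ y ∈ W \ Y, m x y =
          ∑ x ∈ Y, ∑ y ∈ X \ Y, m x y + ∑ x ∈ Y, ∑ y ∈ W \ X, m x y := by
        rw [← Finset.sum_add_distrib]
        refine Finset.sum_congr rfl fun x _ => ?_
        rw [sum_split hXY, hWY]
      rw [h3]
      omega
    rw [h2]
    exact h1

end PStar
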