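import Mathlib

set_option autoImplicit false

/-!
# Packing matchings in graphs with an apex vertex of arbitrary degree (z-graphs)

A *z-graph* on a finset `W` of vertices: a symmetric, loopless multiplicity function `m` on `W`
and a function `f` (`f v` = number of edges joining `v` to a further vertex `z`).  For a parameter
`r` every vertex `v` has total degree `r + 2 * k v`, and every odd set `X ⊆ W` has at least `r`
edges leaving it (edges to `z` included).
-/

namespace PStar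

open Finset

variable {V : Type*} [DecidableEq V]

/-- Number of edges between `X` and `Y` (sum of multiplicities over ordered pairs). -/
def E (m : V → V → ℕ) (X Y : Finset V) : ℕ := ∑ x ∈ X, ∑ y ∈ Y, m x y

/-- Number of edges leaving `X ⊆ W`, edges to `z` included. -/
def cut (W : Finset V) (m : V → V → ℕ) (f : V → ℕ) (X : Finset V) : ℕ :=
  E m X (W \ X) + ∑ x ∈ X, f x

structure IsZG (W : Finset V) (m : V → V → ℕ) (f k : V → ℕ) (r : ℕ) : Prop where
  symm : ∀ u ∈ W, ∀ v ∈ W, m u v = m v u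
  loopless : ∀ v ∈ W, m v v = 0
  degree : ∀ v ∈ W, ∑ u ∈ W, m v u + f v = r + 2 * k v
  cuts : ∀ X ⊆ W, Odd X.card → r ≤ cut W m f X

/-- The edge multiset decomposes into `r` parts, each of which meets every vertex of `W` an odd
number of times (so exactly once if the degree is `r`). -/
def Dec (W : Finset V) (m : V → V → ℕ) (f : V → ℕ) (r : ℕ) : Prop :=
  ∃ (J : Fin r → V → V → ℕ) (g : Fin r → V → ℕ),
    (∀ c, ∀ u ∈ W, ∀ v ∈ W, J c u v = J c v u) ∧
    (∀ u ∈ W, ∀ v ∈ W, ∑ c, J c u v = m u v) ∧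
    (∀ v ∈ W, ∑ c, g c v = f v) ∧
    (∀ c, ∀ v ∈ W, Odd (∑ u ∈ W, J c v u + g c v))

/-! ### Contractions -/

/-- Multiplicities after contracting `X` to the single vertex `x0`. -/
def conM (X : Finset V) (x0 : V) (m : V → V → ℕ) : V → V → ℕ := fun u v =>
  if u = x0 then (if v = x0 then 0 else ∑ x ∈ X, m x v)
  else if v = x0 then ∑ x ∈ X, m u x else m u v

/-- Edges to `z` after contracting `X` to `x0`. -/
def conF (X : Finset V) (x0 : V) (f : V → ℕ) : V → ℕ := fun v =>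
  if v = x0 then ∑ x ∈ X, f x else f v

/-- `k` after contracting `X` to a vertex `x0` with `k x0 = l`. -/
def conK (x0 : V) (l : ℕ) (k : V → ℕ) : V → ℕ := fun v => if v = x0 then l else k v

/-- add one edge `uv` -/
def addM (u v : V) (m : V → V → ℕ) : V → V → ℕ := fun a b =>
  m a b + if (a = u ∧ b = v) ∨ (a = v ∧ b = u) then 1 else 0

/-- delete one edge `zu` and one edge `zv` -/
def subF (u v : V) (f : V → ℕ) : V → ℕ := fun a => f a - if a = u ∨ a = v then 1 else 0

/-! ### Separations `{x, y, z}` -/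

/-- `W = {x,y} ∪ A ∪ B`, no edge between `A` and `B`, and `x`, `y` have degree exactly `r`. -/
structure Sep2 (W : Finset V) (m : V → V → ℕ) (k : V → ℕ) (x y : V) (A B : Finset V) : Prop where
  hW : W = insert x (insert y (A ∪ B))
  hxy : x ≠ y
  hxA : x ∉ A
  hxB : x ∉ B
  hyA : y ∉ A
  hyB : y ∉ B
  hAB : Disjoint A B
  hm : ∀ a ∈ A, ∀ b ∈ B, m a b = 0
  hkx : k x = 0
  hky : k y = 0

/-- number of edges from `x` to `B` -/
def bet (m : V → V → ℕ) (B : Finset V) (x : V) : ℕ := ∑ b ∈ B, m x b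

/-- `B`-edges leaving `{x,y} ∪ X'` (`X' ⊆ B`) inside `B ∪ {x,y,z}`, not counting edges of
`{x, y, z}`. -/
def cutB (m : V → V → ℕ) (f : V → ℕ) (x y : V) (B X' : Finset V) : ℕ :=
  E m X' (B \ X') + ∑ v ∈ X', f v + ∑ b ∈ B \ X', (m x b + m y b)

/-- `t` is an admissible number of colours covering both `x` and `y` inside `B`. -/
structure Rng (m : V → V → ℕ) (f : V → ℕ) (r : ℕ) (x y : V) (B : Finset V) (t : ℕ) : Prop where
  lex : t ≤ bet m B x
  ley : t ≤ bet m B y
  ge : bet m B x + bet m B y ≤ r + t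
  up : ∀ X' ⊆ B, Odd X'.card → 2 * t + r ≤ cutB m f x y B X' + bet m B x + bet m B y
  low : ∀ Y' ⊆ B, Even Y'.card → bet m B x + bet m B y ≤ cutB m f x y B Y' + 2 * t

/-- The piece on `B ∪ {x, y, a}`: `j` edges `xy`, `p` edges `xa`, `q` edges `ya`. -/
def p1M (x y a : V) (j p q : ℕ) (m : V → V → ℕ) : V → V → ℕ := fun u v =>
  if (u = x ∧ v = y) ∨ (u = y ∧ v = x) then j
  else if (u = x ∧ v = a) ∨ (u = a ∧ v = x) then p
  else if (u = y ∧ v = a) ∨ (u = a ∧ v = y) then q
  else if u = a ∨ v = a then 0 else m u v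

def p1F (x y a : V) (s : ℕ) (f : V → ℕ) : V → ℕ := fun u =>
  if u = a then s else if u = x ∨ u = y then 0 else f u

def p1K (a : V) (k : V → ℕ) : V → ℕ := fun u => if u = a then 0 else k u

/-- vertex set of the piece -/
def p1W (x y a : V) (B : Finset V) : Finset V := insert a (insert x (insert y B))

/-- the multiplicities of the piece for the parameter `t` -/
def pieceM (m : V → V → ℕ) (r : ℕ) (x y a : V) (B : Finset V) (t : ℕ) : V → V → ℕ :=
  p1M x y a (r + t - bet m B x - bet m B y) (bet m B y - t) (bet m B x - t) m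

def pieceF (m : V → V → ℕ) (f : V → ℕ) (r : ℕ) (x y a : V) (B : Finset V) (t : ℕ) : V → ℕ :=
  p1F x y a (r + 2 * t - bet m B x - bet m B y) f

/-! ### Separations `{x, y, w}` not containing `z`, with `z` on the side of `A` -/

structure Sep3 (W : Finset V) (m : V → V → ℕ) (f k : V → ℕ) (x y w : V) (A B : Finset V) :
    Prop where
  hW : W = insert x (insert y (insert w (A ∪ B)))
  hxy : x ≠ y
  hxw : x ≠ w
  hyw : y ≠ w
  hxA : x ∉ A
  hxB : x ∉ B
  hyA : y ∉ A
  hyB : y ∉ B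
  hwA : w ∉ A
  hwB : w ∉ B
  hAB : Disjoint A B
  hm : ∀ a ∈ A, ∀ b ∈ B, m a b = 0
  hf : ∀ b ∈ B, f b = 0
  hkx : k x = 0
  hky : k y = 0
  hkw : k w = 0

/-- The `B`-side of a `Sep3`: keep only the edges with an end in `B`; the other edges at
`x, y, w` become edges to `z`. -/
def q3M (B : Finset V) (m : V → V → ℕ) : V → V → ℕ := fun u v =>
  if u ∈ B ∨ v ∈ B then m u v else 0

def q3F (B : Finset V) (m : V → V → ℕ) (r : ℕ) : V → ℕ := fun u =>
  if u ∈ B then 0 else r - bet m B u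

/-- The `A`-side of a `Sep3` with `|B|` even: `B` is replaced by a triangle. -/
def triM (x y w : V) (B : Finset V) (m : V → V → ℕ) : V → V → ℕ := fun u v =>
  m u v +
    (if (u = x ∧ v = y) ∨ (u = y ∧ v = x) then (bet m B x + bet m B y - bet m B w) / 2 else 0) +
    (if (u = x ∧ v = w) ∨ (u = w ∧ v = x) then (bet m B x + bet m B w - bet m B y) / 2 else 0) +
    (if (u = y ∧ v = w) ∨ (u = w ∧ v = y) then (bet m B y + bet m B w - bet m B x) / 2 else 0)

/-! ### 3-trees -/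

variable {Ω : Type*} [DecidableEq Ω]

/-- `T3 F U`: the graph `F` induces a 3-tree on `U`. -/
inductive T3 (F : SimpleGraph Ω) : Finset Ω → Prop
  | base (Q : Finset Ω) (hcard : Q.card = 4)
      (hc : ∀ a ∈ Q, ∀ b ∈ Q, a ≠ b → F.Adj a b) : T3 F Q
  | add (U : Finset Ω) (v : Ω) (P : Finset Ω) (hv : v ∉ U) (hP : P ⊆ U) (hcard : P.card = 3)
      (hc : ∀ a ∈ P, ∀ b ∈ P, a ≠ b → F.Adj a b) (hadj : ∀ u ∈ U, F.Adj v u ↔ u ∈ P)
      (h : T3 F U) : T3 F (insert v U)

/-- `F` with the neighbourhood of `a` replaced by `S`. -/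
def modF (F : SimpleGraph Ω) (a : Ω) (S : Finset Ω) : SimpleGraph Ω where
  Adj u v := (u ≠ a ∧ v ≠ a ∧ F.Adj u v) ∨ (u = a ∧ v ∈ S ∧ v ≠ a) ∨ (v = a ∧ u ∈ S ∧ u ≠ a)
  symm := ⟨by
    intro u v h
    rcases h with ⟨h1, h2, h3⟩ | ⟨h1, h2, h3⟩ | ⟨h1, h2, h3⟩
    · exact Or.inl ⟨h2, h1, h3.symm⟩
    · exact Or.inr (Or.inr ⟨h1, h2, h3⟩)
    · exact Or.inr (Or.inl ⟨h1, h2, h3⟩)⟩
  loopless := ⟨by
    intro u h
    rcases h with ⟨_, _, h3⟩ | ⟨h1, _, h3⟩ | ⟨h1, _, h3⟩
    · exact F.loopless.irrefl u h3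
    · exact h3 h1
    · exact h3 h1⟩

/-- z-graph supported on a 3-tree containing `z = none`; vertices with `k ≠ 0` (special ones) are
leaves of the 3-tree, not adjacent to `z`, and have only non-special neighbours. -/
structure Good (W : Finset V) (m : V → V → ℕ) (f k : V → ℕ) (r : ℕ)
    (F : SimpleGraph (Option V)) : Prop where
  zg : IsZG W m f k r
  t3 : T3 F (Finset.insertNone W)
  madj : ∀ u ∈ W, ∀ v ∈ W, m u v ≠ 0 → F.Adj (some u) (some v)
  fadj : ∀ u ∈ W, f u ≠ 0 → F.Adj none (some u)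
  sp : ∀ u ∈ W, k u ≠ 0 → ¬ F.Adj none (some u) ∧
    ∃ T ⊆ W, T.card = 3 ∧ (∀ v ∈ W, F.Adj (some u) (some v) ↔ v ∈ T) ∧ ∀ v ∈ T, k v = 0

/-- One part can be removed. -/
def Reducible (W : Finset V) (m : V → V → ℕ) (f k : V → ℕ) (r : ℕ) : Prop :=
  ∃ (s : ℕ) (m' : V → V → ℕ) (f' k' : V → ℕ), r = s + 1 ∧ (∀ u v, m' u v ≤ m u v) ∧
    (∀ v, f' v ≤ f v) ∧ (∀ v, k' v ≤ k v) ∧ IsZG W m' f' k' s ∧
    (Dec W m' f' s → Dec W m f r)

/-- `r` partial colourings of the side `B` of a `Sep2`: every vertex of `B` is met an odd number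
of times, `x` and `y` at most once, and exactly `t` parts meet both. -/
structure SideCol (m : V → V → ℕ) (f : V → ℕ) (r : ℕ) (x y : V) (B : Finset V) (t : ℕ)
    (J : Fin r → V → V → ℕ) (g : Fin r → V → ℕ) : Prop where
  symm : ∀ c, ∀ u ∈ insert x (insert y B), ∀ v ∈ insert x (insert y B), J c u v = J c v u
  sum : ∀ u ∈ insert x (insert y B), ∀ v ∈ B, ∑ c, J c u v = m u v
  gsum : ∀ v ∈ B, ∑ c, g c v = f v
  odd : ∀ c, ∀ v ∈ B, Odd (∑ u ∈ insert x (insert y B), J c v u + g c v)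
  x1 : ∀ c, bet (J c) B x ≤ 1
  y1 : ∀ c, bet (J c) B y ≤ 1
  xy : (univ.filter (fun c => bet (J c) B x = 1 ∧ bet (J c) B y = 1)).card = t

/-- A decomposition of the `B`-side of a `Sep3`: each part meets each of `x, y, w` at most once
inside `B`, and the number of these meetings has the parity of `|B|`. -/
structure SideCol3 (m : V → V → ℕ) (r : ℕ) (x y w : V) (B : Finset V)
    (J : Fin r → V → V → ℕ) : Prop where
  symm : ∀ c, ∀ u ∈ insert x (insert y (insert w B)), ∀ v ∈ B, J c u v = J c v u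
  sum : ∀ u ∈ insert x (insert y (insert w B)), ∀ v ∈ B, ∑ c, J c u v = m u v
  odd : ∀ c, ∀ v ∈ B, Odd (∑ u ∈ insert x (insert y (insert w B)), J c v u)
  x1 : ∀ c, bet (J c) B x ≤ 1
  y1 : ∀ c, bet (J c) B y ≤ 1
  w1 : ∀ c, bet (J c) B w ≤ 1
  par : ∀ c, (bet (J c) B x + bet (J c) B y + bet (J c) B w) % 2 = B.card % 2

/-- `Elim F U`: the vertices of `U` can be added one at a time, each joined to a clique of at
most three earlier ones. -/
inductive Elim (F : SimpleGraph Ω) : Finset Ω → Prop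
  | empty : Elim F ∅
  | add (U : Finset Ω) (v : Ω) (P : Finset Ω) (hv : v ∉ U) (hP : P ⊆ U) (hcard : P.card ≤ 3)
      (hc : ∀ a ∈ P, ∀ b ∈ P, a ≠ b → F.Adj a b) (hadj : ∀ u ∈ U, F.Adj v u ↔ u ∈ P)
      (h : Elim F U) : Elim F (insert v U)

/-- Treewidth at most `k`, by tree decompositions. -/
def TreewidthLE {Ω : Type} (G : SimpleGraph Ω) (k : ℕ) : Prop :=
  ∃ (ι : Type) (_ : Fintype ι) (T : SimpleGraph ι) (bag : ι → Finset Ω), T.IsTree ∧
    (∀ v, ∃ i, v ∈ bag i) ∧ (∀ u v, G.Adj u v → ∃ i, u ∈ bag i ∧ v ∈ bag i) ∧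
    (∀ v, (T.induce {i | v ∈ bag i}).Preconnected) ∧ ∀ i, (bag i).card ≤ k + 1

section
open Classical

/-- multiplicity function of a multigraph -/
noncomputable def mult {V E : Type} [Fintype E] (φ : E → Sym2 V) (u v : V) : ℕ :=
  (univ.filter (fun e : E => φ e = s(u, v))).card

/-- degree -/
noncomputable def edeg {V E : Type} [Fintype E] (φ : E → Sym2 V) (v : V) : ℕ :=
  (univ.filter (fun e : E => v ∈ φ e)).card

/-- `max(Δ, w)` exactly as in the frozen statement S08823 -/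
noncomputable def bound {V E : Type} [Fintype V] [Fintype E] (f : E → Sym2 V) : ℕ :=
  max (Finset.univ.sup (fun v : V => (Finset.univ.filter (fun e : E => v ∈ f e)).card))
    ((Finset.univ.filter (fun S : Finset V => Odd S.card ∧ 3 ≤ S.card)).sup
      (fun S => ⌈((2 * (Finset.univ.filter (fun e : E => ∀ v ∈ f e, v ∈ S)).card : ℕ) : ℚ)
                        / ((S.card : ℚ) - 1)⌉₊))

end

end PStar
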