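import Pool.Agent.PStar.Tree0

set_option autoImplicit false

namespace PStar

open Finset

section
open Classical

private theorem TreeDec_walk' {ι : Type} (T : SimpleGraph ι) (R : Set ι) (x y : R)
    (p : (T.induce R).Walk x y) : ∃ q : T.Walk x.1 y.1, ∀ z ∈ q.support, z ∈ R := by
  induction p with
  | nil =>
    refine ⟨SimpleGraph.Walk.nil, ?_⟩
    intro z hz
    rw [SimpleGraph.Walk.support_nil, List.mem_singleton] at hz
    rw [hz]
    exact Subtype.property _
  | cons h _ ih =>
    obtain ⟨q, hq⟩ := ih
    refine ⟨SimpleGraph.Walk.cons (SimpleGraph.induce_adj.1 h) q, ?_⟩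
    intro z hz
    rw [SimpleGraph.Walk.support_cons, List.mem_cons] at hz
    rcases hz with hz | hz
    · rw [hz]
      exact Subtype.property _
    · exact hq z hz

private theorem TreeDec_walk {ι : Type} (T : SimpleGraph ι) (R : Set ι)
    (h : (T.induce R).Preconnected) (x y : ι) (hx : x ∈ R) (hy : y ∈ R) :
    ∃ p : T.Walk x y, ∀ z ∈ p.support, z ∈ R := by
  obtain ⟨p⟩ := h ⟨x, hx⟩ ⟨y, hy⟩
  exact TreeDec_walk' T R _ _ p

/-- The graph of a tree decomposition. -/
private def TreeDec_F {Ω ι : Type} (bag : ι → Finset Ω) : SimpleGraph Ω where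
  Adj u v := u ≠ v ∧ ∃ i, u ∈ bag i ∧ v ∈ bag i
  symm := ⟨fun _ _ h => ⟨h.1.symm, h.2.imp fun _ hi => ⟨hi.2, hi.1⟩⟩⟩
  loopless := ⟨fun _ h => h.1 rfl⟩

/-- Adding the vertices of one bag. -/
private theorem TreeDec_add {Ω ι : Type} [DecidableEq Ω] (bag : ι → Finset Ω)
    (hb : ∀ i, (bag i).card ≤ 3 + 1) (U : Finset Ω) (a : ι)
    (hU : ∀ u ∈ U, ∀ v ∉ U, v ∈ bag a → (TreeDec_F bag).Adj v u → u ∈ bag a)
    (hE : Elim (TreeDec_F bag) U) : Elim (TreeDec_F bag) (U ∪ bag a) := by
  have key : ∀ Q : Finset Ω, Q ⊆ bag a → Elim (TreeDec_F bag) (U ∪ Q) := by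
    intro Q
    induction Q using Finset.induction_on with
    | empty => intro _; simpa using hE
    | insert v Q hv ih =>
      intro hQ
      have hva : v ∈ bag a := hQ (mem_insert_self v Q)
      have hQa : Q ⊆ bag a := fun u hu => hQ (mem_insert_of_mem hu)
      have ih' := ih hQa
      by_cases hvU : v ∈ U
      · have : U ∪ insert v Q = U ∪ Q := by
          rw [union_insert, insert_eq_of_mem (mem_union_left _ hvU)]
        rw [this]
        exact ih'
      · have hvUQ : v ∉ U ∪ Q := by
          rw [mem_union]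
          rintro (h | h)
          · exact hvU h
          · exact hv h
        rw [union_insert]
        refine Elim.add (U ∪ Q) v (bag a ∩ (U ∪ Q)) hvUQ inter_subset_right ?_ ?_ ?_ ih'
        · have h1 : bag a ∩ (U ∪ Q) ⊆ (bag a).erase v := by
            intro u hu
            rw [mem_inter] at hu
            rw [mem_erase]
            refine ⟨?_, hu.1⟩
            rintro rfl
            exact hvUQ hu.2
          have h2 := card_le_card h1
          rw [card_erase_of_mem hva] at h2
          have h3 := hb a
          omega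
        · intro x hx y hy hxy
          rw [mem_inter] at hx hy
          exact ⟨hxy, a, hx.1, hy.1⟩
        · intro u hu
          rw [mem_inter]
          constructor
          · intro h
            refine ⟨?_, hu⟩
            rw [mem_union] at hu
            rcases hu with hu | hu
            · exact hU u hu v hvU hva h
            · exact hQa hu
          · rintro ⟨h, -⟩
            refine ⟨?_, a, hva, h⟩
            rintro rfl
            exact hvUQ hu
  exact key _ (Finset.Subset.refl _)

theorem elim_of_treewidth {Ω : Type} [Fintype Ω] [DecidableEq Ω] (G : SimpleGraph Ω)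
    (h : TreewidthLE G 3) :
    ∃ F : SimpleGraph Ω, (∀ u v, G.Adj u v → F.Adj u v) ∧ Elim F univ := by
  obtain ⟨ι, _, T, bag, hT, hcov, hadj, hconn, hcard⟩ := h
  refine ⟨TreeDec_F bag, fun u v huv => ⟨huv.ne, hadj u v huv⟩, ?_⟩
  -- the good sets of nodes
  let P : Finset ι → Prop := fun S => S.Nonempty ∧
    (∀ x ∈ S, ∀ y ∈ S, ∃ p : T.Walk x y, ∀ z ∈ p.support, z ∈ S) ∧
    Elim (TreeDec_F bag) (S.biUnion bag)
  have hstart : ∃ S, P S := by
    obtain ⟨i0⟩ := hT.connected.nonempty
    refine ⟨{i0}, singleton_nonempty i0, ?_, ?_⟩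
    · intro x hx y hy
      rw [mem_singleton] at hx hy
      subst hx
      subst hy
      refine ⟨SimpleGraph.Walk.nil, ?_⟩
      intro z hz
      rw [SimpleGraph.Walk.support_nil, List.mem_singleton] at hz
      rw [hz]
      exact mem_singleton_self _
    · have h1 := TreeDec_add bag hcard ∅ i0 (fun u hu => absurd hu (notMem_empty u)) Elim.empty
      rw [empty_union] at h1
      rw [singleton_biUnion]
      exact h1
  have hstep : ∀ S, P S → S ≠ univ → ∃ a, a ∉ S ∧ P (insert a S) := by
    rintro S ⟨hne, hw, hE⟩ hS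
    -- an edge leaving S
    have hedge : ∃ j ∈ S, ∃ a, a ∉ S ∧ T.Adj a j := by
      obtain ⟨x, hx⟩ := hne
      obtain ⟨y, hy⟩ : ∃ y, y ∉ S := by
        by_contra hcon
        push Not at hcon
        exact hS (eq_univ_iff_forall.2 hcon)
      obtain ⟨p⟩ := hT.connected.preconnected x y
      obtain ⟨d, hd, hd1, hd2⟩ := p.exists_boundary_dart (S : Set ι) (mem_coe.2 hx)
        (fun h => hy (mem_coe.1 h))
      exact ⟨d.fst, mem_coe.1 hd1, d.snd, fun h => hd2 (mem_coe.2 h), d.adj.symm⟩
    obtain ⟨j, hj, a, ha, haj⟩ := hedge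
    refine ⟨a, ha, insert_nonempty a S, ?_, ?_⟩
    · have h1 : ∀ x ∈ S, ∃ p : T.Walk x a, ∀ z ∈ p.support, z ∈ insert a S := by
        intro x hx
        obtain ⟨p, hp⟩ := hw x hx j hj
        refine ⟨p.concat haj.symm, ?_⟩
        intro z hz
        rw [SimpleGraph.Walk.support_concat, List.mem_append] at hz
        rcases hz with hz | hz
        · exact mem_insert_of_mem (hp z hz)
        · rw [List.mem_singleton] at hz
          rw [hz]
          exact mem_insert_self a S
      intro x hx y hy
      rcases mem_insert.1 hx with rfl | hx'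
      · rcases mem_insert.1 hy with rfl | hy'
        · refine ⟨SimpleGraph.Walk.nil, ?_⟩
          intro z hz
          rw [SimpleGraph.Walk.support_nil, List.mem_singleton] at hz
          rw [hz]
          exact hx
        · obtain ⟨p, hp⟩ := h1 y hy'
          refine ⟨p.reverse, ?_⟩
          intro z hz
          rw [SimpleGraph.Walk.support_reverse, List.mem_reverse] at hz
          exact hp z hz
      · rcases mem_insert.1 hy with rfl | hy'
        · exact h1 x hx'
        · obtain ⟨p, hp⟩ := hw x hx' y hy'
          exact ⟨p, fun z hz => mem_insert_of_mem (hp z hz)⟩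
    · have h1 := TreeDec_add bag hcard (S.biUnion bag) a ?_ hE
      · rw [biUnion_insert, union_comm]
        exact h1
      · intro u hu v hv hva hvu
        by_contra hua
        rw [mem_biUnion] at hu
        obtain ⟨m, hmS, hum⟩ := hu
        obtain ⟨-, l, hvl, hul⟩ := hvu
        obtain ⟨p1, hp1⟩ := TreeDec_walk T _ (hconn v) a l hva hvl
        obtain ⟨p2, hp2⟩ := TreeDec_walk T _ (hconn u) l m hul hum
        obtain ⟨p3, hp3⟩ := hw m hmS j hj
        have hbr := SimpleGraph.isAcyclic_iff_forall_adj_isBridge.1 hT.isAcyclic haj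
        rw [SimpleGraph.isBridge_iff_forall_walk_mem_edges] at hbr
        have h2 := hbr (p1.append (p2.append p3))
        rw [SimpleGraph.Walk.edges_append, SimpleGraph.Walk.edges_append, List.mem_append,
          List.mem_append] at h2
        rcases h2 with h2 | h2 | h2
        · have h3 := p1.snd_mem_support_of_mem_edges h2
          have h4 : v ∈ bag j := hp1 j h3
          exact hv (mem_biUnion.2 ⟨j, hj, h4⟩)
        · have h3 := p2.fst_mem_support_of_mem_edges h2
          exact hua (hp2 a h3)
        · have h3 := p3.fst_mem_support_of_mem_edges h2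
          exact ha (hp3 a h3)
  -- a maximal good set
  obtain ⟨S, hS, hmax⟩ : ∃ S, P S ∧ ∀ S', P S' → S'.card ≤ S.card := by
    obtain ⟨S, hS, hmax⟩ := Finset.exists_max_image (univ.filter P) Finset.card
      ⟨hstart.choose, mem_filter.2 ⟨mem_univ _, hstart.choose_spec⟩⟩
    exact ⟨S, (mem_filter.1 hS).2, fun S' h' => hmax S' (mem_filter.2 ⟨mem_univ _, h'⟩)⟩
  have hSu : S = univ := by
    by_contra hne
    obtain ⟨a, ha, hP⟩ := hstep S hS hne
    have h1 := hmax _ hP
    rw [card_insert_of_notMem ha] at h1
    omega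
  have h1 := hS.2.2
  rw [hSu] at h1
  have h2 : (univ : Finset ι).biUnion bag = univ := by
    rw [eq_univ_iff_forall]
    intro v
    obtain ⟨i, hi⟩ := hcov v
    exact mem_biUnion.2 ⟨i, mem_univ i, hi⟩
  rw [h2] at h1
  exact h1

end

end PStar
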