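import Pool.Agent.PStar.Tree0

set_option autoImplicit false

namespace PStar

open Finset

variable {Ω : Type*} [DecidableEq Ω] {F F' : SimpleGraph Ω} {U : Finset Ω}

/-- Completion of a chordal graph without `K_5` to a 3-tree on the same vertices. -/
theorem Elim.exists_T3 (h : Elim F U) (hU : 4 ≤ U.card) :
    ∃ F' : SimpleGraph Ω, (∀ u ∈ U, ∀ v ∈ U, F.Adj u v → F'.Adj u v) ∧ T3 F' U := by
  induction h with
  | empty => simp at hU
  | add U v P hv hP hcard hc hadj h ih =>
    by_cases h4 : 4 ≤ U.card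
    · obtain ⟨F', hF', hT⟩ := ih h4
      have hcl : ∀ a ∈ P, ∀ b ∈ P, a ≠ b → F'.Adj a b := fun a ha b hb hab =>
        hF' a (hP ha) b (hP hb) (hc a ha b hb hab)
      obtain ⟨Q, hQU, hPQ, hQ4, hQcl⟩ := hT.extend P hP hcard hcl
      obtain ⟨P', hPP', hP'Q, hP'3⟩ := Finset.exists_subsuperset_card_eq hPQ hcard (by omega)
      have hP'U : P' ⊆ U := hP'Q.trans hQU
      have hne : ∀ u ∈ U, u ≠ v := fun u hu h0 => hv (h0 ▸ hu)
      have hmod : ∀ u ∈ U, ∀ w ∈ U, F'.Adj u w ↔ (modF F' v P').Adj u w := by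
        intro u hu w hw
        constructor
        · intro h1; exact Or.inl ⟨hne u hu, hne w hw, h1⟩
        · rintro (⟨_, _, h1⟩ | ⟨h1, _, _⟩ | ⟨h1, _, _⟩)
          · exact h1
          · exact absurd h1 (hne u hu)
          · exact absurd h1 (hne w hw)
      refine ⟨modF F' v P', ?_, ?_⟩
      · intro u hu w hw huw
        rw [Finset.mem_insert] at hu hw
        rcases hu with rfl | hu
        · rcases hw with rfl | hw
          · exact absurd huw (F.loopless.irrefl _)
          · exact Or.inr (Or.inl ⟨rfl, hPP' ((hadj w hw).1 huw), hne w hw⟩)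
        · rcases hw with rfl | hw
          · exact Or.inr (Or.inr ⟨rfl, hPP' ((hadj u hu).1 huw.symm), hne u hu⟩)
          · exact (hmod u hu w hw).1 (hF' u hu w hw huw)
      · refine T3.add U v P' hv hP'U hP'3 ?_ ?_ (hT.congr hmod)
        · intro a ha b hb hab
          exact (hmod a (hP'U ha) b (hP'U hb)).1 (hQcl a (hP'Q ha) b (hP'Q hb) hab)
        · intro u hu
          constructor
          · rintro (⟨h1, _, _⟩ | ⟨_, h1, _⟩ | ⟨h1, _, _⟩)
            · exact absurd rfl h1
            · exact h1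
            · exact absurd h1 (hne u hu)
          · intro h1; exact Or.inr (Or.inl ⟨rfl, h1, hne u hu⟩)
    · refine ⟨⊤, fun u _ w _ huw => (SimpleGraph.top_adj u w).2 huw.ne, ?_⟩
      refine T3.base _ ?_ fun a _ b _ hab => (SimpleGraph.top_adj a b).2 hab
      rw [Finset.card_insert_of_notMem hv] at hU ⊢
      omega

end PStar
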