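import Pool.Agent.PStar.MainC
import Pool.Agent.PStar.TreeElim
import Pool.Agent.PStar.TreeDec
import Pool.Agent.PStar.FinalZG
import Pool.Agent.PStar.FinalCol

set_option autoImplicit false

namespace PStar

open Finset

section
open Classical

theorem edeg_le_bound {V E : Type} [Fintype V] [Fintype E] (φ : E → Sym2 V) (v : V) :
    edeg φ v ≤ bound φ := by
  unfold edeg bound
  exact le_max_of_le_left
    (Finset.le_sup (f := fun v : V => (Finset.univ.filter (fun e : E => v ∈ φ e)).card)
      (Finset.mem_univ v))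

theorem exact_of_elim {V E : Type} [Fintype V] [Fintype E] (φ : E → Sym2 V)
    (hl : ∀ e, ¬ (φ e).IsDiag) (F : SimpleGraph (Option V))
    (hF1 : ∀ e, ∀ u v : V, φ e = s(u, v) → F.Adj (some u) (some v))
    (hF2 : ∀ v : V, edeg φ v < bound φ → F.Adj none (some v))
    (hE : Elim F (univ : Finset (Option V))) :
    ∃ c : E → Fin (bound φ),
      ∀ e₁ e₂ : E, e₁ ≠ e₂ → (∃ v, v ∈ φ e₁ ∧ v ∈ φ e₂) → c e₁ ≠ c e₂ := by
  have hz := isZG_of_graph φ hl
  have hdeg : ∀ v, edeg φ v + (bound φ - edeg φ v) = bound φ := fun v => by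
    have := edeg_le_bound φ v; omega
  apply coloring_of_dec φ hl (bound φ) (fun v => bound φ - edeg φ v) hdeg
  by_cases hc : (univ : Finset V).card ≤ 8
  · exact hz.small hc
  · have hU : 4 ≤ (univ : Finset (Option V)).card := by
      rw [Finset.card_univ, Fintype.card_option]
      rw [Finset.card_univ] at hc
      omega
    obtain ⟨F', hF', hT⟩ := hE.exists_T3 hU
    have hins : Finset.insertNone (univ : Finset V) = (univ : Finset (Option V)) := by
      ext x
      rcases x with _ | x <;> simp
    refine Good.dec (F := F') ⟨hz, by rw [hins]; exact hT, ?_, ?_, ?_⟩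
    · intro u _ v _ huv
      apply hF' _ (Finset.mem_univ _) _ (Finset.mem_univ _)
      unfold mult at huv
      obtain ⟨e, he⟩ := Finset.card_pos.mp (Nat.pos_of_ne_zero huv)
      exact hF1 e u v (Finset.mem_filter.mp he).2
    · intro u _ hu
      apply hF' _ (Finset.mem_univ _) _ (Finset.mem_univ _)
      apply hF2
      have := edeg_le_bound φ u
      simp only [ne_eq] at hu
      omega
    · intro u _ hu
      exact absurd rfl hu

/-- The multigraph together with a vertex `z = none` joined to all vertices of degree less than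
`bound`. -/
noncomputable def apexGraph {V E : Type} [Fintype V] [Fintype E] (φ : E → Sym2 V) :
    SimpleGraph (Option V) :=
  SimpleGraph.fromRel (fun a b =>
    (∃ u v : V, a = some u ∧ b = some v ∧ ∃ e, φ e = s(u, v)) ∨
    (a = none ∧ ∃ v : V, b = some v ∧ edeg φ v < bound φ))

theorem exact_of_treewidth {V E : Type} [Fintype V] [Fintype E] (φ : E → Sym2 V)
    (hl : ∀ e, ¬ (φ e).IsDiag) (h : TreewidthLE (apexGraph φ) 3) :
    ∃ c : E → Fin (bound φ),
      ∀ e₁ e₂ : E, e₁ ≠ e₂ → (∃ v, v ∈ φ e₁ ∧ v ∈ φ e₂) → c e₁ ≠ c e₂ := by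
  obtain ⟨F, hF, hE⟩ := elim_of_treewidth (apexGraph φ) h
  apply exact_of_elim φ hl F _ _ hE
  · intro e u v huv
    apply hF
    unfold apexGraph
    rw [SimpleGraph.fromRel_adj]
    refine ⟨?_, Or.inl (Or.inl ⟨u, v, rfl, rfl, e, huv⟩)⟩
    intro hh
    have : u = v := Option.some_injective _ hh
    subst this
    apply hl e
    rw [huv]
    simp
  · intro v hv
    apply hF
    unfold apexGraph
    rw [SimpleGraph.fromRel_adj]
    exact ⟨by simp, Or.inl (Or.inr ⟨rfl, v, rfl, hv⟩)⟩

end

end PStar
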