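import Pool.Agent.PStar.Tree0

set_option autoImplicit false

namespace PStar

open Finset

variable {Ω : Type*} [DecidableEq Ω] {F F' : SimpleGraph Ω} {U : Finset Ω}

/-- The sides of a triangle separator are 3-trees. -/
theorem T3.piece (h : T3 F U) {S A B : Finset Ω} (hU : U = S ∪ (A ∪ B)) (hSc : S.card = 3)
    (hcl : ∀ a ∈ S, ∀ b ∈ S, a ≠ b → F.Adj a b) (hSA : Disjoint S A) (hSB : Disjoint S B)
    (hAB : Disjoint A B) (hB : B.Nonempty) (hno : ∀ a ∈ A, ∀ b ∈ B, ¬ F.Adj a b) :
    T3 F (S ∪ B) := by
  induction h generalizing S A B with
  | base Q hcard hc =>
    have h1 : Q.card = S.card + (A.card + B.card) := by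
      rw [hU, card_union_of_disjoint, card_union_of_disjoint hAB]
      exact disjoint_union_right.mpr ⟨hSA, hSB⟩
    have h2 : 1 ≤ B.card := card_pos.mpr hB
    have h3 : A = ∅ := card_eq_zero.mp (by omega)
    have h4 : S ∪ B = Q := by
      rw [hU, h3, empty_union]
    rw [h4]
    exact T3.base Q hcard hc
  | add U v P hv hP hcard hc hadj hT ih =>
    have hmem : ∀ u, (u = v ∨ u ∈ U) ↔ (u ∈ S ∨ u ∈ A ∨ u ∈ B) := by
      intro u
      have := Finset.ext_iff.mp hU u
      simpa only [mem_insert, mem_union] using this
    have dSA : ∀ u, u ∈ S → u ∉ A := fun u h1 h2 => disjoint_left.mp hSA h1 h2
    have dSB : ∀ u, u ∈ S → u ∉ B := fun u h1 h2 => disjoint_left.mp hSB h1 h2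
    have dAB : ∀ u, u ∈ A → u ∉ B := fun u h1 h2 => disjoint_left.mp hAB h1 h2
    have hvm := (hmem v).mp (Or.inl rfl)
    rcases hvm with hvS | hvA | hvB
    · -- `v` in the separator
      have hsub : S.erase v ⊆ P := by
        intro s hs
        rw [mem_erase] at hs
        have hsU : s ∈ U := by
          rcases (hmem s).mpr (Or.inl hs.2) with h1 | h1
          · exact absurd h1 hs.1
          · exact h1
        exact (hadj s hsU).mp (hcl v hvS s hs.2 (Ne.symm hs.1))
      have hc2 : (S.erase v).card = 2 := by
        rw [card_erase_of_mem hvS, hSc]
      obtain ⟨p, hpP, hpS⟩ : ∃ p ∈ P, p ∉ S.erase v := by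
        by_contra hcon
        push Not at hcon
        have := card_le_card (show P ⊆ S.erase v from hcon)
        omega
      have hPeq : P = insert p (S.erase v) := by
        symm
        apply eq_of_subset_of_card_le
        · intro u hu
          rcases mem_insert.mp hu with rfl | hu
          · exact hpP
          · exact hsub hu
        · rw [card_insert_of_notMem hpS, hc2, hcard]
      have hpv : p ≠ v := fun h1 => hv (h1 ▸ hP hpP)
      have hpS' : p ∉ S := fun h1 => hpS (mem_erase.mpr ⟨hpv, h1⟩)
      have hpU : p ∈ U := hP hpP
      have hpadj : F.Adj v p := (hadj p hpU).mpr hpP
      rcases (hmem p).mp (Or.inr hpU) with h1 | hpA | hpB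
      · exact absurd h1 hpS'
      · -- no neighbour in `B`
        exfalso
        obtain ⟨a, ha, b, hb, hab⟩ := hT.conn (C := S.erase v) (A := A) (B := B) (by
          ext u
          simp only [mem_union, mem_erase]
          have := hmem u
          by_cases huv : u = v
          · subst huv
            have h2 := dSA u hvS
            have h3 := dSB u hvS
            tauto
          · tauto) (by omega) ⟨p, hpA⟩ hB hAB
          (disjoint_of_subset_left (erase_subset _ _) hSA)
          (disjoint_of_subset_left (erase_subset _ _) hSB)
        exact hno a ha b hb hab
      · -- `p` in `B`
        have hvB : v ∉ B := dSB v hvS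
        have hvA : v ∉ A := dSA v hvS
        by_cases hB' : (B.erase p).Nonempty
        · have h2 := ih (S := P) (A := A) (B := B.erase p) (by
            rw [hPeq]
            ext u
            simp only [mem_union, mem_erase, mem_insert]
            have := hmem u
            by_cases huv : u = v
            · subst huv
              tauto
            · by_cases hup : u = p
              · subst hup
                tauto
              · tauto) hcard hc (by
            rw [hPeq, disjoint_left]
            intro u hu
            rcases mem_insert.mp hu with rfl | hu
            · exact fun h3 => dAB _ h3 hpB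
            · exact dSA _ (mem_of_mem_erase hu)) (by
            rw [hPeq, disjoint_left]
            intro u hu
            rcases mem_insert.mp hu with rfl | hu
            · exact fun h3 => (mem_erase.mp h3).1 rfl
            · exact fun h3 => dSB _ (mem_of_mem_erase hu) (mem_of_mem_erase h3))
            (disjoint_of_subset_right (erase_subset _ _) hAB) hB'
            (fun a ha b hb => hno a ha b (mem_of_mem_erase hb))
          have h3 : S ∪ B = insert v (P ∪ B.erase p) := by
            rw [hPeq]
            ext u
            simp only [mem_union, mem_erase, mem_insert]
            by_cases huv : u = v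
            · subst huv
              tauto
            · by_cases hup : u = p
              · subst hup
                tauto
              · tauto
          rw [h3]
          have h4 : P ∪ B.erase p ⊆ U := by
            intro u hu
            rcases mem_union.mp hu with hu | hu
            · exact hP hu
            · have h5 := mem_of_mem_erase hu
              rcases (hmem u).mpr (Or.inr (Or.inr h5)) with h6 | h6
              · exact absurd (h6 ▸ h5) hvB
              · exact h6
          exact T3.add _ v P (fun h5 => hv (h4 h5)) subset_union_left hcard hc
            (fun u hu => hadj u (h4 hu)) h2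
        · have hBp : B = {p} := by
            rw [not_nonempty_iff_eq_empty] at hB'
            apply eq_singleton_iff_unique_mem.mpr
            refine ⟨hpB, fun u hu => ?_⟩
            by_contra hup
            have : u ∈ B.erase p := mem_erase.mpr ⟨hup, hu⟩
            rw [hB'] at this
            exact absurd this (notMem_empty _)
          refine T3.base _ ?_ ?_
          · rw [card_union_of_disjoint hSB, hSc, hBp, card_singleton]
          · have hpadj2 : ∀ s ∈ S, F.Adj p s := by
              intro s hs
              by_cases hsv : s = v
              · rw [hsv]
                exact hpadj.symm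
              · exact hc p hpP s (hsub (mem_erase.mpr ⟨hsv, hs⟩)) (fun h5 => hpS' (h5 ▸ hs))
            intro a ha b hb hab
            rw [hBp] at ha hb
            rcases mem_union.mp ha with ha | ha
            · rcases mem_union.mp hb with hb | hb
              · exact hcl a ha b hb hab
              · rw [mem_singleton.mp hb]
                exact (hpadj2 a ha).symm
            · rcases mem_union.mp hb with hb | hb
              · rw [mem_singleton.mp ha]
                exact hpadj2 b hb
              · exact absurd ((mem_singleton.mp ha).trans (mem_singleton.mp hb).symm) hab
    · -- `v` in `A`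
      have hvS : v ∉ S := fun h1 => dSA v h1 hvA
      have hvB : v ∉ B := dAB v hvA
      refine ih (S := S) (A := A.erase v) (B := B) ?_ hSc hcl
        (disjoint_of_subset_right (erase_subset _ _) hSA) hSB
        (disjoint_of_subset_left (erase_subset _ _) hAB) hB
        (fun a ha b hb => hno a (mem_of_mem_erase ha) b hb)
      ext u
      simp only [mem_union, mem_erase]
      have := hmem u
      by_cases huv : u = v
      · subst huv
        tauto
      · tauto
    · -- `v` in `B`
      have hvS : v ∉ S := fun h1 => dSB v h1 hvB
      have hvA : v ∉ A := fun h1 => dAB v h1 hvB
      have hPS : P ⊆ S ∪ B.erase v := by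
        intro u hu
        have huU := hP hu
        have huv : u ≠ v := fun h1 => hv (h1 ▸ huU)
        rcases (hmem u).mp (Or.inr huU) with h1 | h1 | h1
        · exact mem_union_left _ h1
        · exact absurd ((hadj u huU).mpr hu).symm (hno u h1 v hvB)
        · exact mem_union_right _ (mem_erase.mpr ⟨huv, h1⟩)
      by_cases hB' : (B.erase v).Nonempty
      · have h2 := ih (S := S) (A := A) (B := B.erase v) (by
          ext u
          simp only [mem_union, mem_erase]
          have := hmem u
          by_cases huv : u = v
          · subst huv
            tauto
          · tauto) hSc hcl hSA (disjoint_of_subset_right (erase_subset _ _) hSB)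
          (disjoint_of_subset_right (erase_subset _ _) hAB) hB'
          (fun a ha b hb => hno a ha b (mem_of_mem_erase hb))
        have h3 : S ∪ B = insert v (S ∪ B.erase v) := by
          ext u
          simp only [mem_union, mem_erase, mem_insert]
          by_cases huv : u = v
          · subst huv
            tauto
          · tauto
        rw [h3]
        have h4 : S ∪ B.erase v ⊆ U := by
          intro u hu
          have h5 : u ≠ v := by
            rintro rfl
            rcases mem_union.mp hu with h6 | h6
            · exact hvS h6
            · exact (mem_erase.mp h6).1 rfl
          have h6 : u ∈ S ∨ u ∈ A ∨ u ∈ B := by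
            rcases mem_union.mp hu with h6 | h6
            · exact Or.inl h6
            · exact Or.inr (Or.inr (mem_of_mem_erase h6))
          rcases (hmem u).mpr h6 with h7 | h7
          · exact absurd h7 h5
          · exact h7
        exact T3.add _ v P (fun h5 => hv (h4 h5)) hPS hcard hc
          (fun u hu => hadj u (h4 hu)) h2
      · have hBv : B = {v} := by
          rw [not_nonempty_iff_eq_empty] at hB'
          apply eq_singleton_iff_unique_mem.mpr
          refine ⟨hvB, fun u hu => ?_⟩
          by_contra hup
          have : u ∈ B.erase v := mem_erase.mpr ⟨hup, hu⟩
          rw [hB'] at this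
          exact absurd this (notMem_empty _)
        have hPSeq : P = S := by
          apply eq_of_subset_of_card_le
          · intro u hu
            rcases mem_union.mp (hPS hu) with h1 | h1
            · exact h1
            · exact absurd ⟨u, h1⟩ hB'
          · rw [hSc, hcard]
        have hvadj : ∀ s ∈ S, F.Adj v s := by
          intro s hs
          rw [← hPSeq] at hs
          exact (hadj s (hP hs)).mpr hs
        refine T3.base _ ?_ ?_
        · rw [card_union_of_disjoint hSB, hSc, hBv, card_singleton]
        · intro a ha b hb hab
          rw [hBv] at ha hb
          rcases mem_union.mp ha with ha | ha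
          · rcases mem_union.mp hb with hb | hb
            · exact hcl a ha b hb hab
            · rw [mem_singleton.mp hb]
              exact (hvadj a ha).symm
          · rcases mem_union.mp hb with hb | hb
            · rw [mem_singleton.mp ha]
              exact hvadj b hb
            · exact absurd ((mem_singleton.mp ha).trans (mem_singleton.mp hb).symm) hab

end PStar
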