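import Pool.Agent.PStar.R1Piece
import Pool.Agent.PStar.TreePiece

set_option autoImplicit false

namespace PStar

open Finset

variable {V : Type*} [DecidableEq V] {W : Finset V} {m : V → V → ℕ} {f k : V → ℕ} {r : ℕ}
  {x y w : V} {A B : Finset V} {F : SimpleGraph (Option V)}

private theorem Good1_modF_ne {a : V} {S : Finset (Option V)} {u v : Option V} (hu : u ≠ some a)
    (hv : v ≠ some a) : (modF F (some a) S).Adj u v ↔ F.Adj u v := by
  constructor
  · rintro (⟨-, -, h⟩ | ⟨h, -, -⟩ | ⟨h, -, -⟩)
    · exact h
    · exact absurd h hu
    · exact absurd h hv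
  · intro h
    exact Or.inl ⟨hu, hv, h⟩

private theorem Good1_modF_eq {a : V} {S : Finset (Option V)} {v : Option V}
    (hv : v ≠ some a) : (modF F (some a) S).Adj (some a) v ↔ v ∈ S := by
  constructor
  · rintro (⟨h, -, -⟩ | ⟨-, h, -⟩ | ⟨h, -, -⟩)
    · exact absurd rfl h
    · exact h
    · exact absurd h hv
  · intro h
    exact Or.inr (Or.inl ⟨rfl, h, hv⟩)

theorem Good.piece1 (h : Good W m f k r F) (hs : Sep2 W m k x y A B)
    (hzx : F.Adj none (some x)) (hzy : F.Adj none (some y)) (hxy : F.Adj (some x) (some y))
    (hno : ∀ a ∈ A, ∀ b ∈ B, ¬ F.Adj (some a) (some b)) (hB : B.Nonempty) {t : ℕ}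
    (ht : Rng m f r x y B t) {a : V} (ha : a ∈ A) :
    Good (p1W x y a B) (pieceM m r x y a B t) (pieceF m f r x y a B t) (p1K a k) r
      (modF F (some a) {none, some x, some y}) := by
  have hax : a ≠ x := by
    rintro rfl
    exact hs.hxA ha
  have hay : a ≠ y := by
    rintro rfl
    exact hs.hyA ha
  have haB : a ∉ B := fun hb => disjoint_left.1 hs.hAB ha hb
  have hxW : x ∈ W := by
    rw [hs.hW]
    exact mem_insert_self _ _
  have hyW : y ∈ W := by
    rw [hs.hW]
    exact mem_insert_of_mem (mem_insert_self _ _)
  have hBW : ∀ b ∈ B, b ∈ W := by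
    intro b hb
    rw [hs.hW]
    exact mem_insert_of_mem (mem_insert_of_mem (mem_union_right _ hb))
  have hAW : ∀ b ∈ A, b ∈ W := by
    intro b hb
    rw [hs.hW]
    exact mem_insert_of_mem (mem_insert_of_mem (mem_union_left _ hb))
  have hmemp : ∀ u, u ∈ p1W x y a B ↔ u = a ∨ u = x ∨ u = y ∨ u ∈ B := by
    intro u
    simp only [p1W, mem_insert]
  have hpW : ∀ u ∈ p1W x y a B, u ∈ W := by
    intro u hu
    rcases (hmemp u).1 hu with rfl | rfl | rfl | hu
    · exact hAW _ ha
    · exact hxW
    · exact hyW
    · exact hBW u hu
  have hsa : ∀ u : V, u ≠ a → (some u : Option V) ≠ some a := fun u hu h => hu (Option.some.inj h)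
  have hna : (none : Option V) ≠ some a := by simp
  have hS : ∀ u : V, (some u : Option V) ∈ ({none, some x, some y} : Finset (Option V)) ↔
      u = x ∨ u = y := by
    intro u
    simp
  refine ⟨R1_piece h.zg hs ht ?_, ?_, ?_, ?_, ?_⟩
  · simp only [mem_insert]
    rintro (h1 | h1 | h1)
    · exact hax h1
    · exact hay h1
    · exact haB h1
  · -- the 3-tree
    have hU : Finset.insertNone W = ({none, some x, some y} : Finset (Option V)) ∪
        (A.map Function.Embedding.some ∪ B.map Function.Embedding.some) := by
      ext u
      cases u with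
      | none => simp
      | some u =>
        rw [Finset.some_mem_insertNone, mem_union, mem_union, hS, hs.hW]
        simp only [mem_insert, mem_union, mem_map, Function.Embedding.some_apply,
          Option.some.injEq, exists_eq_right]
        tauto
    have hSc : ({none, some x, some y} : Finset (Option V)).card = 3 := by
      rw [card_insert_of_notMem, card_pair]
      · intro h1
        exact hs.hxy (Option.some.inj h1)
      · simp
    have hcl : ∀ u ∈ ({none, some x, some y} : Finset (Option V)),
        ∀ v ∈ ({none, some x, some y} : Finset (Option V)), u ≠ v → F.Adj u v := by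
      intro u hu v hv huv
      simp only [mem_insert, mem_singleton] at hu hv
      rcases hu with rfl | rfl | rfl <;> rcases hv with rfl | rfl | rfl
      · exact absurd rfl huv
      · exact hzx
      · exact hzy
      · exact hzx.symm
      · exact absurd rfl huv
      · exact hxy
      · exact hzy.symm
      · exact hxy.symm
      · exact absurd rfl huv
    have hdis : ∀ C : Finset V, x ∉ C → y ∉ C →
        Disjoint ({none, some x, some y} : Finset (Option V)) (C.map Function.Embedding.some) := by
      intro C hx hy
      rw [disjoint_left]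
      intro u hu hv
      rw [mem_map] at hv
      obtain ⟨v, hv, rfl⟩ := hv
      rw [Function.Embedding.some_apply, hS] at hu
      rcases hu with rfl | rfl
      · exact hx hv
      · exact hy hv
    have hABd : Disjoint (A.map Function.Embedding.some) (B.map Function.Embedding.some) :=
      (Finset.disjoint_map _).2 hs.hAB
    have h1 : T3 F (({none, some x, some y} : Finset (Option V)) ∪
        B.map Function.Embedding.some) := by
      refine T3.piece h.t3 hU hSc hcl (hdis A hs.hxA hs.hyA) (hdis B hs.hxB hs.hyB) hABd
        (hB.map) ?_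
      intro u hu v hv
      rw [mem_map] at hu hv
      obtain ⟨u, hu, rfl⟩ := hu
      obtain ⟨v, hv, rfl⟩ := hv
      exact hno u hu v hv
    have hnotin : (some a : Option V) ∉ ({none, some x, some y} : Finset (Option V)) ∪
        B.map Function.Embedding.some := by
      rw [mem_union, hS, mem_map]
      rintro ((h2 | h2) | ⟨b, hb, h2⟩)
      · exact hax h2
      · exact hay h2
      · rw [Function.Embedding.some_apply] at h2
        exact haB ((Option.some.inj h2) ▸ hb)
    have hne : ∀ u ∈ ({none, some x, some y} : Finset (Option V)) ∪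
        B.map Function.Embedding.some, u ≠ some a := by
      rintro u hu rfl
      exact hnotin hu
    have h2 : T3 (modF F (some a) {none, some x, some y})
        (({none, some x, some y} : Finset (Option V)) ∪ B.map Function.Embedding.some) := by
      refine T3.congr h1 ?_
      intro u hu v hv
      exact (Good1_modF_ne (hne u hu) (hne v hv)).symm
    have h3 : Finset.insertNone (p1W x y a B) = insert (some a)
        (({none, some x, some y} : Finset (Option V)) ∪ B.map Function.Embedding.some) := by
      ext u
      cases u with
      | none => simp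
      | some u =>
        rw [Finset.some_mem_insertNone, hmemp, mem_insert, mem_union, hS]
        simp only [mem_map, Function.Embedding.some_apply, Option.some.injEq, exists_eq_right]
        tauto
    rw [h3]
    refine T3.add _ _ {none, some x, some y} hnotin subset_union_left hSc ?_ ?_ h2
    · intro u hu v hv huv
      rw [Good1_modF_ne (hne u (mem_union_left _ hu)) (hne v (mem_union_left _ hv))]
      exact hcl u hu v hv huv
    · intro u hu
      exact Good1_modF_eq (hne u hu)
  · -- madj
    intro u hu v hv huv
    rw [pieceM, p1M] at huv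
    split_ifs at huv with c1 c2 c3 c4
    · rcases c1 with ⟨rfl, rfl⟩ | ⟨rfl, rfl⟩
      · exact (Good1_modF_ne (hsa _ hax.symm) (hsa _ hay.symm)).2 hxy
      · exact (Good1_modF_ne (hsa _ hay.symm) (hsa _ hax.symm)).2 hxy.symm
    · rcases c2 with ⟨rfl, rfl⟩ | ⟨rfl, rfl⟩
      · exact ((Good1_modF_eq (hsa _ hax.symm)).2 ((hS _).2 (Or.inl rfl))).symm
      · exact (Good1_modF_eq (hsa _ hax.symm)).2 ((hS _).2 (Or.inl rfl))
    · rcases c3 with ⟨rfl, rfl⟩ | ⟨rfl, rfl⟩
      · exact ((Good1_modF_eq (hsa _ hay.symm)).2 ((hS _).2 (Or.inr rfl))).symm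
      · exact (Good1_modF_eq (hsa _ hay.symm)).2 ((hS _).2 (Or.inr rfl))
    · exact absurd rfl huv
    · push Not at c4
      exact (Good1_modF_ne (hsa _ c4.1) (hsa _ c4.2)).2 (h.madj u (hpW u hu) v (hpW v hv) huv)
  · -- fadj
    intro u hu huf
    rw [pieceF, p1F] at huf
    split_ifs at huf with c1 c2
    · rw [c1]
      exact ((Good1_modF_eq hna).2 (by simp)).symm
    · exact absurd rfl huf
    · exact (Good1_modF_ne hna (hsa _ c1)).2 (h.fadj u (hpW u hu) huf)
  · -- special vertices
    intro u hu huk
    rw [p1K] at huk
    split_ifs at huk with c1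
    · exact absurd rfl huk
    have hux : u ≠ x := by
      rintro rfl
      exact huk hs.hkx
    have huy : u ≠ y := by
      rintro rfl
      exact huk hs.hky
    have huB : u ∈ B := by
      rcases (hmemp u).1 hu with h1 | h1 | h1 | h1
      · exact absurd h1 c1
      · exact absurd h1 hux
      · exact absurd h1 huy
      · exact h1
    obtain ⟨h1, T, hTW, hT3, hTadj, hTk⟩ := h.sp u (hpW u hu) huk
    have hTA : ∀ v ∈ T, v ∉ A := by
      intro v hv hvA
      exact hno v hvA u huB ((hTadj v (hTW hv)).2 hv).symm
    refine ⟨fun h2 => h1 ((Good1_modF_ne hna (hsa _ c1)).1 h2), T, ?_, hT3, ?_, ?_⟩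
    · intro v hv
      have h2 := hTW hv
      have h3 := hTA v hv
      rw [hs.hW] at h2
      simp only [mem_insert, mem_union] at h2
      rw [hmemp]
      tauto
    · intro v hv
      by_cases hva : v = a
      · subst hva
        constructor
        · intro h2
          have h3 := (Good1_modF_eq (hsa _ c1)).1 h2.symm
          rw [hS] at h3
          rcases h3 with h3 | h3
          · exact absurd h3 hux
          · exact absurd h3 huy
        · intro h2
          exact absurd ha (hTA _ h2)
      · rw [Good1_modF_ne (hsa _ c1) (hsa _ hva)]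
        exact hTadj v (hpW v hv)
    · intro v hv
      rw [p1K]
      split_ifs
      · rfl
      · exact hTk v hv

end PStar
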