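import Pool.Agent.PStar.R2Arith
import Pool.Agent.PStar.TreePiece

set_option autoImplicit false

namespace PStar

open Finset

variable {V : Type*} [DecidableEq V] {W : Finset V} {m : V → V → ℕ} {f k : V → ℕ} {r : ℕ}
  {x y w : V} {A B : Finset V} {F : SimpleGraph (Option V)}

private theorem Good2_modF_ne {z : Option V} {S : Finset (Option V)} {u v : Option V} (hu : u ≠ z)
    (hv : v ≠ z) : (modF F z S).Adj u v ↔ F.Adj u v := by
  constructor
  · rintro (⟨-, -, h⟩ | ⟨h, -, -⟩ | ⟨h, -, -⟩)
    · exact h
    · exact absurd h hu
    · exact absurd h hv
  · intro h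
    exact Or.inl ⟨hu, hv, h⟩

private theorem Good2_modF_eq {z : Option V} {S : Finset (Option V)} {v : Option V}
    (hv : v ≠ z) : (modF F z S).Adj z v ↔ v ∈ S := by
  constructor
  · rintro (⟨h, -, -⟩ | ⟨-, h, -⟩ | ⟨h, -, -⟩)
    · exact absurd rfl h
    · exact h
    · exact absurd h hv
  · intro h
    exact Or.inr (Or.inl ⟨rfl, h, hv⟩)

theorem Good.sideB3 (h : Good W m f k r F) (hs : Sep3 W m f k x y w A B)
    (hxy : F.Adj (some x) (some y)) (hxw : F.Adj (some x) (some w))
    (hyw : F.Adj (some y) (some w)) (hno : ∀ a ∈ A, ∀ b ∈ B, ¬ F.Adj (some a) (some b))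
    (hnz : ∀ b ∈ B, ¬ F.Adj none (some b)) (hB : B.Nonempty) :
    Good (insert x (insert y (insert w B))) (q3M B m) (q3F B m r) k r
      (modF F none {some x, some y, some w}) := by
  have hWm : ∀ u, u ∈ W ↔ u = x ∨ u = y ∨ u = w ∨ u ∈ A ∨ u ∈ B := by
    intro u
    rw [hs.hW]
    simp only [mem_insert, mem_union]
  have hmemp : ∀ u, u ∈ insert x (insert y (insert w B)) ↔ u = x ∨ u = y ∨ u = w ∨ u ∈ B := by
    intro u
    simp only [mem_insert]
  have hpW : ∀ u ∈ insert x (insert y (insert w B)), u ∈ W := by
    intro u hu
    rw [hmemp] at hu
    rw [hWm]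
    tauto
  have hsn : ∀ u : V, (some u : Option V) ≠ none := fun u => by simp
  have hS : ∀ u : V, (some u : Option V) ∈ ({some x, some y, some w} : Finset (Option V)) ↔
      u = x ∨ u = y ∨ u = w := by
    intro u
    simp
  have hSn : (none : Option V) ∉ ({some x, some y, some w} : Finset (Option V)) := by simp
  refine ⟨R2_q3 h.zg hs, ?_, ?_, ?_, ?_⟩
  · -- the 3-tree
    have hU : Finset.insertNone W = ({some x, some y, some w} : Finset (Option V)) ∪
        (Finset.insertNone A ∪ B.map Function.Embedding.some) := by
      ext u
      cases u with
      | none => simp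
      | some u =>
        rw [Finset.some_mem_insertNone, mem_union, mem_union, hS, hWm,
          Finset.some_mem_insertNone]
        simp only [mem_map, Function.Embedding.some_apply, Option.some.injEq, exists_eq_right]
        tauto
    have hSc : ({some x, some y, some w} : Finset (Option V)).card = 3 := by
      rw [card_insert_of_notMem, card_pair]
      · intro h1
        exact hs.hyw (Option.some.inj h1)
      · rw [mem_insert, mem_singleton]
        rintro (h1 | h1)
        · exact hs.hxy (Option.some.inj h1)
        · exact hs.hxw (Option.some.inj h1)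
    have hcl : ∀ u ∈ ({some x, some y, some w} : Finset (Option V)),
        ∀ v ∈ ({some x, some y, some w} : Finset (Option V)), u ≠ v → F.Adj u v := by
      intro u hu v hv huv
      simp only [mem_insert, mem_singleton] at hu hv
      rcases hu with rfl | rfl | rfl <;> rcases hv with rfl | rfl | rfl
      · exact absurd rfl huv
      · exact hxy
      · exact hxw
      · exact hxy.symm
      · exact absurd rfl huv
      · exact hyw
      · exact hxw.symm
      · exact hyw.symm
      · exact absurd rfl huv
    have hSA : Disjoint ({some x, some y, some w} : Finset (Option V)) (Finset.insertNone A) := by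
      rw [disjoint_left]
      intro u hu hv
      cases u with
      | none => exact hSn hu
      | some u =>
        rw [hS] at hu
        rw [Finset.some_mem_insertNone] at hv
        rcases hu with rfl | rfl | rfl
        · exact hs.hxA hv
        · exact hs.hyA hv
        · exact hs.hwA hv
    have hSB : Disjoint ({some x, some y, some w} : Finset (Option V))
        (B.map Function.Embedding.some) := by
      rw [disjoint_left]
      intro u hu hv
      rw [mem_map] at hv
      obtain ⟨v, hv, rfl⟩ := hv
      rw [Function.Embedding.some_apply, hS] at hu
      rcases hu with rfl | rfl | rfl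
      · exact hs.hxB hv
      · exact hs.hyB hv
      · exact hs.hwB hv
    have hABd : Disjoint (Finset.insertNone A) (B.map Function.Embedding.some) := by
      rw [disjoint_left]
      intro u hu hv
      rw [mem_map] at hv
      obtain ⟨v, hv, rfl⟩ := hv
      rw [Function.Embedding.some_apply, Finset.some_mem_insertNone] at hu
      exact disjoint_left.1 hs.hAB hu hv
    have h1 : T3 F (({some x, some y, some w} : Finset (Option V)) ∪
        B.map Function.Embedding.some) := by
      refine T3.piece h.t3 hU hSc hcl hSA hSB hABd (hB.map) ?_
      intro u hu v hv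
      rw [mem_map] at hv
      obtain ⟨v, hv, rfl⟩ := hv
      cases u with
      | none => exact hnz v hv
      | some u =>
        rw [Finset.some_mem_insertNone] at hu
        exact hno u hu v hv
    have hnotin : (none : Option V) ∉ ({some x, some y, some w} : Finset (Option V)) ∪
        B.map Function.Embedding.some := by
      rw [mem_union, mem_map]
      rintro (h2 | ⟨b, hb, h2⟩)
      · exact hSn h2
      · exact hsn b h2
    have hne : ∀ u ∈ ({some x, some y, some w} : Finset (Option V)) ∪
        B.map Function.Embedding.some, u ≠ none := by
      rintro u hu rfl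
      exact hnotin hu
    have h2 : T3 (modF F none {some x, some y, some w})
        (({some x, some y, some w} : Finset (Option V)) ∪ B.map Function.Embedding.some) := by
      refine T3.congr h1 ?_
      intro u hu v hv
      exact (Good2_modF_ne (hne u hu) (hne v hv)).symm
    have h3 : Finset.insertNone (insert x (insert y (insert w B))) = insert none
        (({some x, some y, some w} : Finset (Option V)) ∪ B.map Function.Embedding.some) := by
      ext u
      cases u with
      | none => simp
      | some u =>
        rw [Finset.some_mem_insertNone, hmemp, mem_insert, mem_union, hS]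
        simp only [mem_map, Function.Embedding.some_apply, Option.some.injEq, exists_eq_right]
        have := hsn u
        tauto
    rw [h3]
    refine T3.add _ _ {some x, some y, some w} hnotin subset_union_left hSc ?_ ?_ h2
    · intro u hu v hv huv
      rw [Good2_modF_ne (hne u (mem_union_left _ hu)) (hne v (mem_union_left _ hv))]
      exact hcl u hu v hv huv
    · intro u hu
      exact Good2_modF_eq (hne u hu)
  · -- madj
    intro u hu v hv huv
    rw [q3M] at huv
    split_ifs at huv with c1
    · exact (Good2_modF_ne (hsn u) (hsn v)).2 (h.madj u (hpW u hu) v (hpW v hv) huv)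
    · exact absurd rfl huv
  · -- fadj
    intro u hu huf
    rw [q3F] at huf
    split_ifs at huf with c1
    · exact absurd rfl huf
    · refine (Good2_modF_eq (hsn u)).2 ((hS u).2 ?_)
      rw [hmemp] at hu
      tauto
  · -- special vertices
    intro u hu huk
    have hux : u ≠ x := by
      rintro rfl
      exact huk hs.hkx
    have huy : u ≠ y := by
      rintro rfl
      exact huk hs.hky
    have huw : u ≠ w := by
      rintro rfl
      exact huk hs.hkw
    have huB : u ∈ B := by
      rw [hmemp] at hu
      tauto
    obtain ⟨-, T, hTW, hT3, hTadj, hTk⟩ := h.sp u (hpW u hu) huk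
    have hTA : ∀ v ∈ T, v ∉ A := by
      intro v hv hvA
      exact hno v hvA u huB ((hTadj v (hTW hv)).2 hv).symm
    refine ⟨?_, T, ?_, hT3, ?_, hTk⟩
    · intro h2
      have h3 := (Good2_modF_eq (hsn u)).1 h2
      rw [hS] at h3
      tauto
    · intro v hv
      have h2 := (hWm v).1 (hTW hv)
      have h3 := hTA v hv
      rw [hmemp]
      tauto
    · intro v hv
      rw [Good2_modF_ne (hsn u) (hsn v)]
      exact hTadj v (hpW v hv)

end PStar
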