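import Pool.Agent.PStar.R2Arith
import Pool.Agent.PStar.Contract
import Pool.Agent.PStar.TreePiece

set_option autoImplicit false

namespace PStar

open Finset

variable {V : Type*} [DecidableEq V] {W : Finset V} {m : V → V → ℕ} {f k : V → ℕ} {r : ℕ}
  {x y w : V} {A B : Finset V} {F : SimpleGraph (Option V)}

private theorem good3_sdiff (hs : Sep3 W m f k x y w A B) :
    W \ B = insert x (insert y (insert w A)) := by
  rw [hs.hW]
  ext v
  simp only [mem_sdiff, mem_insert, mem_union]
  constructor
  · rintro ⟨h1 | h1 | h1 | h1 | h1, h2⟩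
    · exact Or.inl h1
    · exact Or.inr (Or.inl h1)
    · exact Or.inr (Or.inr (Or.inl h1))
    · exact Or.inr (Or.inr (Or.inr h1))
    · exact absurd h1 h2
  · rintro (rfl | rfl | rfl | h1)
    · exact ⟨Or.inl rfl, hs.hxB⟩
    · exact ⟨Or.inr (Or.inl rfl), hs.hyB⟩
    · exact ⟨Or.inr (Or.inr (Or.inl rfl)), hs.hwB⟩
    · exact ⟨Or.inr (Or.inr (Or.inr (Or.inl h1))), disjoint_left.1 hs.hAB h1⟩

private theorem good3_card (hs : Sep3 W m f k x y w A B) :
    ({some x, some y, some w} : Finset (Option V)).card = 3 := by
  rw [card_insert_of_notMem, card_insert_of_notMem, card_singleton]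
  · simpa using hs.hyw
  · simpa using ⟨hs.hxy, hs.hxw⟩

private theorem good3_card' (hs : Sep3 W m f k x y w A B) :
    ({x, y, w} : Finset V).card = 3 := by
  rw [card_insert_of_notMem, card_insert_of_notMem, card_singleton]
  · simpa using hs.hyw
  · simpa using ⟨hs.hxy, hs.hxw⟩

private theorem good3_clique (hxy : F.Adj (some x) (some y)) (hxw : F.Adj (some x) (some w))
    (hyw : F.Adj (some y) (some w)) :
    ∀ a ∈ ({some x, some y, some w} : Finset (Option V)),
      ∀ b ∈ ({some x, some y, some w} : Finset (Option V)), a ≠ b → F.Adj a b := by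
  intro a ha b hb hab
  simp only [mem_insert, mem_singleton] at ha hb
  rcases ha with rfl | rfl | rfl <;> rcases hb with rfl | rfl | rfl
  · exact absurd rfl hab
  · exact hxy
  · exact hxw
  · exact hxy.symm
  · exact absurd rfl hab
  · exact hyw
  · exact hxw.symm
  · exact hyw.symm
  · exact absurd rfl hab

private theorem good3_t3 (h : Good W m f k r F) (hs : Sep3 W m f k x y w A B)
    (hxy : F.Adj (some x) (some y)) (hxw : F.Adj (some x) (some w))
    (hyw : F.Adj (some y) (some w)) (hno : ∀ a ∈ A, ∀ b ∈ B, ¬ F.Adj (some a) (some b))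
    (hnz : ∀ b ∈ B, ¬ F.Adj none (some b)) :
    T3 F (insertNone (insert x (insert y (insert w A)))) := by
  have hp := T3.piece h.t3 (S := {some x, some y, some w}) (A := B.image some)
    (B := insert none (A.image some))
    (by
      ext o
      rcases o with _ | v
      · simp
      · rw [some_mem_insertNone, hs.hW]
        simp only [mem_insert, mem_union, mem_singleton, mem_image, Option.some.injEq,
          exists_eq_right, reduceCtorEq, false_or]
        tauto)
    (good3_card hs) (good3_clique hxy hxw hyw)
    (by
      rw [disjoint_left]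
      intro o ho ho'
      simp only [mem_insert, mem_singleton] at ho
      rw [mem_image] at ho'
      obtain ⟨v, hv, rfl⟩ := ho'
      rcases ho with ho | ho | ho
      · exact hs.hxB (by rw [← Option.some.inj ho]; exact hv)
      · exact hs.hyB (by rw [← Option.some.inj ho]; exact hv)
      · exact hs.hwB (by rw [← Option.some.inj ho]; exact hv))
    (by
      rw [disjoint_left]
      intro o ho ho'
      simp only [mem_insert, mem_singleton] at ho
      rw [mem_insert, mem_image] at ho'
      rcases ho' with rfl | ⟨v, hv, rfl⟩
      · simp at ho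
      · rcases ho with ho | ho | ho
        · exact hs.hxA (by rw [← Option.some.inj ho]; exact hv)
        · exact hs.hyA (by rw [← Option.some.inj ho]; exact hv)
        · exact hs.hwA (by rw [← Option.some.inj ho]; exact hv))
    (by
      rw [disjoint_left]
      intro o ho ho'
      rw [mem_image] at ho
      rw [mem_insert, mem_image] at ho'
      obtain ⟨v, hv, rfl⟩ := ho
      rcases ho' with ho' | ⟨v', hv', ho'⟩
      · exact absurd ho' (by simp)
      · rw [Option.some.inj ho'] at hv'
        exact disjoint_left.1 hs.hAB hv' hv)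
    ⟨none, mem_insert_self _ _⟩
    (by
      intro a ha b hb hadj
      rw [mem_image] at ha
      rw [mem_insert, mem_image] at hb
      obtain ⟨v, hv, rfl⟩ := ha
      rcases hb with rfl | ⟨v', hv', rfl⟩
      · exact hnz v hv hadj.symm
      · exact hno v' hv' v hv hadj.symm)
  have heq : ({some x, some y, some w} : Finset (Option V)) ∪ insert none (A.image some) =
      insertNone (insert x (insert y (insert w A))) := by
    ext o
    rcases o with _ | v
    · simp
    · rw [some_mem_insertNone]
      simp only [mem_insert, mem_union, mem_singleton, mem_image, Option.some.injEq,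
        exists_eq_right, reduceCtorEq, false_or]
      tauto
  rw [heq] at hp
  exact hp

/-- the special vertices of `W \ B` lie in `A` and keep their neighbours -/
private theorem good3_sp (h : Good W m f k r F) (hs : Sep3 W m f k x y w A B)
    (hno : ∀ a ∈ A, ∀ b ∈ B, ¬ F.Adj (some a) (some b)) {u : V}
    (hu : u ∈ insert x (insert y (insert w A))) (hk : k u ≠ 0) :
    u ∈ A ∧ ¬ F.Adj none (some u) ∧ ∃ T ⊆ insert x (insert y (insert w A)), T.card = 3 ∧
      (∀ v ∈ insert x (insert y (insert w A)), F.Adj (some u) (some v) ↔ v ∈ T) ∧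
      ∀ v ∈ T, k v = 0 := by
  have huA : u ∈ A := by
    simp only [mem_insert] at hu
    rcases hu with rfl | rfl | rfl | hu
    · exact absurd hs.hkx hk
    · exact absurd hs.hky hk
    · exact absurd hs.hkw hk
    · exact hu
  have hsub : insert x (insert y (insert w A)) ⊆ W := by
    rw [← good3_sdiff hs]
    exact sdiff_subset
  obtain ⟨h1, T, hT, h2, h3, h4⟩ := h.sp u (hsub hu) hk
  refine ⟨huA, h1, T, ?_, h2, fun v hv => h3 v (hsub hv), h4⟩
  intro v hv
  rw [← good3_sdiff hs, mem_sdiff]
  refine ⟨hT hv, fun hvB => ?_⟩
  exact hno u huA v hvB ((h3 v (hT hv)).2 hv)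

omit [DecidableEq V] in
private theorem good3_modF {a : Option V} {S : Finset (Option V)} {u v : Option V} (hu : u ≠ a)
    (hv : v ≠ a) : (modF F a S).Adj u v ↔ F.Adj u v := by
  constructor
  · rintro (⟨_, _, h3⟩ | ⟨h1, _, _⟩ | ⟨h1, _, _⟩)
    · exact h3
    · exact absurd h1 hu
    · exact absurd h1 hv
  · intro h3
    exact Or.inl ⟨hu, hv, h3⟩

omit [DecidableEq V] in
private theorem good3_modF_left {a : Option V} {S : Finset (Option V)} {v : Option V}
    (hv : v ≠ a) : (modF F a S).Adj a v ↔ v ∈ S := by
  constructor
  · rintro (⟨h1, _, _⟩ | ⟨_, h2, _⟩ | ⟨h1, _, _⟩)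
    · exact absurd rfl h1
    · exact h2
    · exact absurd h1 hv
  · intro h3
    exact Or.inr (Or.inl ⟨rfl, h3, hv⟩)

theorem Good.sideA3_odd (h : Good W m f k r F) (hs : Sep3 W m f k x y w A B)
    (hxy : F.Adj (some x) (some y)) (hxw : F.Adj (some x) (some w))
    (hyw : F.Adj (some y) (some w)) (hno : ∀ a ∈ A, ∀ b ∈ B, ¬ F.Adj (some a) (some b))
    (hnz : ∀ b ∈ B, ¬ F.Adj none (some b)) (ho : Odd B.card) {b : V} (hb : b ∈ B) :
    Good (insert b (W \ B)) (conM B b m) (conF B b f)
      (conK b ((bet m B x + bet m B y + bet m B w - r) / 2) k) r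
      (modF F (some b) {some x, some y, some w}) := by
  have hBW : B ⊆ W := by
    rw [hs.hW]
    intro v hv
    simp only [mem_insert, mem_union]
    exact Or.inr (Or.inr (Or.inr (Or.inr hv)))
  have hsd := good3_sdiff hs
  have hxb : x ≠ b := fun h0 => hs.hxB (h0 ▸ hb)
  have hyb : y ≠ b := fun h0 => hs.hyB (h0 ▸ hb)
  have hwb : w ≠ b := fun h0 => hs.hwB (h0 ▸ hb)
  have hAb : ∀ a ∈ A, a ≠ b := fun a ha h0 => disjoint_left.1 hs.hAB ha (h0 ▸ hb)
  have hne : ∀ v ∈ W \ B, v ≠ b := by
    intro v hv h0
    rw [mem_sdiff] at hv
    exact hv.2 (h0 ▸ hb)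
  have hsymm := h.zg.symm
  -- an edge from `B` to `W \ B` ends in `{x, y, w}`
  have hout : ∀ b' ∈ B, ∀ v ∈ W \ B, m b' v ≠ 0 →
      some v ∈ ({some x, some y, some w} : Finset (Option V)) := by
    intro b' hb' v hv hm0
    have hvW : v ∈ W := (mem_sdiff.1 hv).1
    rw [hsd] at hv
    simp only [mem_insert] at hv
    rcases hv with rfl | rfl | rfl | hv
    · simp
    · simp
    · simp
    · exact absurd (by rw [hsymm b' (hBW hb') v hvW]; exact hs.hm v hv b' hb') hm0
  refine ⟨?_, ?_, ?_, ?_, ?_⟩
  · refine h.zg.contract hBW hb ho _ ?_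
    obtain ⟨h1, h2, h3, _⟩ := R2_arith h.zg hs
    have h4 := h3 ho
    obtain ⟨j, hj⟩ := ho
    have h5 : (r * B.card) % 2 = r % 2 := by
      rw [hj, Nat.mul_mod]
      have : (2 * j + 1) % 2 = 1 := by omega
      rw [this]
      omega
    rw [h5] at h2
    rw [h1]
    omega
  · have h1 := good3_t3 h hs hxy hxw hyw hno hnz
    have hbn : some b ∉ insertNone (insert x (insert y (insert w A))) := by
      rw [some_mem_insertNone, ← hsd, mem_sdiff]
      exact fun h0 => h0.2 hb
    have hneU : ∀ u ∈ insertNone (insert x (insert y (insert w A))), u ≠ some b :=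
      fun u hu h0 => hbn (h0 ▸ hu)
    have hSU : ({some x, some y, some w} : Finset (Option V)) ⊆
        insertNone (insert x (insert y (insert w A))) := by
      intro o ho'
      simp only [mem_insert, mem_singleton] at ho'
      rcases ho' with rfl | rfl | rfl <;> rw [some_mem_insertNone] <;> simp
    have h2 : T3 (modF F (some b) {some x, some y, some w})
        (insertNone (insert x (insert y (insert w A)))) :=
      h1.congr fun u hu v hv => (good3_modF (hneU u hu) (hneU v hv)).symm
    have h3 := T3.add (F := modF F (some b) {some x, some y, some w}) _ (some b)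
      {some x, some y, some w} hbn hSU (good3_card hs)
      (fun a ha b' hb' hab => (good3_modF (hneU a (hSU ha)) (hneU b' (hSU hb'))).2
        (good3_clique hxy hxw hyw a ha b' hb' hab))
      (fun u hu => good3_modF_left (hneU u hu)) h2
    have heq : insert (some b) (insertNone (insert x (insert y (insert w A)))) =
        insertNone (insert b (W \ B)) := by
      rw [hsd]
      ext o
      rcases o with _ | v
      · simp
      · rw [some_mem_insertNone]
        simp only [mem_insert, some_mem_insertNone, Option.some.injEq]
    rw [heq] at h3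
    exact h3
  · intro u hu v hv huv
    rw [mem_insert] at hu hv
    by_cases hub : u = b
    · by_cases hvb : v = b
      · rw [conM, if_pos hub, if_pos hvb] at huv
        exact absurd rfl huv
      · rw [conM, if_pos hub, if_neg hvb] at huv
        obtain ⟨b', hb', h1⟩ := exists_ne_zero_of_sum_ne_zero huv
        have hv' : v ∈ W \ B := hv.resolve_left hvb
        rw [hub]
        exact (good3_modF_left (by simpa using hvb)).2 (hout b' hb' v hv' h1)
    · have hu' : u ∈ W \ B := hu.resolve_left hub
      by_cases hvb : v = b
      · rw [conM, if_neg hub, if_pos hvb] at huv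
        obtain ⟨b', hb', h1⟩ := exists_ne_zero_of_sum_ne_zero huv
        rw [hsymm u (mem_sdiff.1 hu').1 b' (hBW hb')] at h1
        rw [hvb]
        exact ((good3_modF_left (by simpa using hub)).2 (hout b' hb' u hu' h1)).symm
      · rw [conM, if_neg hub, if_neg hvb] at huv
        have hv' : v ∈ W \ B := hv.resolve_left hvb
        exact (good3_modF (by simpa using hub) (by simpa using hvb)).2
          (h.madj u (mem_sdiff.1 hu').1 v (mem_sdiff.1 hv').1 huv)
  · intro u hu huf
    rw [mem_insert] at hu
    by_cases hub : u = b
    · rw [conF, if_pos hub] at huf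
      exact absurd (sum_eq_zero fun v hv => hs.hf v hv) huf
    · rw [conF, if_neg hub] at huf
      have hu' : u ∈ W \ B := hu.resolve_left hub
      exact (good3_modF (by simp) (by simpa using hub)).2 (h.fadj u (mem_sdiff.1 hu').1 huf)
  · intro u hu huk
    rw [mem_insert] at hu
    by_cases hub : u = b
    · subst hub
      refine ⟨fun h0 => ?_, {x, y, w}, ?_, good3_card' hs, ?_, ?_⟩
      · have h1 := (good3_modF_left (F := F) (a := some u)
          (S := {some x, some y, some w}) (v := none) (by simp)).1 h0.symm
        simp at h1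
      · intro v hv
        rw [mem_insert, hsd]
        right
        simp only [mem_insert, mem_singleton] at hv ⊢
        tauto
      · intro v hv
        by_cases hvb : v = u
        · rw [hvb]
          constructor
          · intro h0
            exact absurd rfl h0.ne
          · intro h0
            simp only [mem_insert, mem_singleton] at h0
            rcases h0 with h0 | h0 | h0
            · exact absurd h0.symm hxb
            · exact absurd h0.symm hyb
            · exact absurd h0.symm hwb
        · rw [good3_modF_left (by simpa using hvb)]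
          simp
      · intro v hv
        simp only [mem_insert, mem_singleton] at hv
        rcases hv with rfl | rfl | rfl
        · rw [conK, if_neg hxb]; exact hs.hkx
        · rw [conK, if_neg hyb]; exact hs.hky
        · rw [conK, if_neg hwb]; exact hs.hkw
    · rw [conK, if_neg hub] at huk
      have hu' : u ∈ W \ B := hu.resolve_left hub
      have hu'' := hu'
      rw [hsd] at hu''
      obtain ⟨huA, h1, T, hT, h2, h3, h4⟩ := good3_sp h hs hno hu'' huk
      have hTb : b ∉ T := by
        intro h0
        have := hT h0
        rw [← hsd, mem_sdiff] at this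
        exact this.2 hb
      refine ⟨fun h0 => ?_, T, ?_, h2, ?_, ?_⟩
      · exact h1 ((good3_modF (by simp) (by simpa using hub)).1 h0)
      · intro v hv
        rw [mem_insert, hsd]
        exact Or.inr (hT hv)
      · intro v hv
        by_cases hvb : v = b
        · rw [hvb]
          constructor
          · intro h0
            have h5 := (good3_modF_left (F := F) (a := some b)
              (S := {some x, some y, some w}) (v := some u) (by simpa using hub)).1 h0.symm
            simp only [mem_insert, mem_singleton, Option.some.injEq] at h5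
            rcases h5 with h5 | h5 | h5
            · exact absurd huA (h5 ▸ hs.hxA)
            · exact absurd huA (h5 ▸ hs.hyA)
            · exact absurd huA (h5 ▸ hs.hwA)
          · intro h0
            exact absurd h0 hTb
        · rw [good3_modF (by simpa using hub) (by simpa using hvb)]
          rw [mem_insert] at hv
          have hv' := hv.resolve_left hvb
          rw [hsd] at hv'
          exact h3 v hv'
      · intro v hv
        rw [conK, if_neg (fun h0 : v = b => hTb (h0 ▸ hv))]
        exact h4 v hv

theorem Good.sideA3_even (h : Good W m f k r F) (hs : Sep3 W m f k x y w A B)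
    (hxy : F.Adj (some x) (some y)) (hxw : F.Adj (some x) (some w))
    (hyw : F.Adj (some y) (some w)) (hno : ∀ a ∈ A, ∀ b ∈ B, ¬ F.Adj (some a) (some b))
    (hnz : ∀ b ∈ B, ¬ F.Adj none (some b)) (he : Even B.card) :
    Good (insert x (insert y (insert w A))) (triM x y w B m) f k r F := by
  have hsub : insert x (insert y (insert w A)) ⊆ W := by
    rw [← good3_sdiff hs]
    exact sdiff_subset
  refine ⟨R2_tri h.zg hs he, good3_t3 h hs hxy hxw hyw hno hnz, ?_,
    fun u hu huf => h.fadj u (hsub hu) huf, fun u hu huk => (good3_sp h hs hno hu huk).2⟩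
  intro u hu v hv huv
  by_cases hm0 : m u v = 0
  · unfold triM at huv
    rw [hm0] at huv
    by_cases h1 : (u = x ∧ v = y) ∨ (u = y ∧ v = x)
    · rcases h1 with ⟨rfl, rfl⟩ | ⟨rfl, rfl⟩
      · exact hxy
      · exact hxy.symm
    · by_cases h2 : (u = x ∧ v = w) ∨ (u = w ∧ v = x)
      · rcases h2 with ⟨rfl, rfl⟩ | ⟨rfl, rfl⟩
        · exact hxw
        · exact hxw.symm
      · by_cases h3 : (u = y ∧ v = w) ∨ (u = w ∧ v = y)
        · rcases h3 with ⟨rfl, rfl⟩ | ⟨rfl, rfl⟩
          · exact hyw
          · exact hyw.symm
        · rw [if_neg h1, if_neg h2, if_neg h3] at huv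
          exact absurd rfl huv
  · exact h.madj u (hsub hu) v (hsub hv) hm0

end PStar
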