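import Pool.Agent.PStar.Basic0

set_option autoImplicit false

namespace PStar

open Finset

variable {V : Type*} [DecidableEq V] {W : Finset V} {m : V → V → ℕ} {f k : V → ℕ} {r : ℕ}
  {x y : V} {A B : Finset V}

private theorem r1_sumW (hs : Sep2 W m k x y A B) (g : V → ℕ) :
    ∑ u ∈ W, g u = g x + g y + ∑ a ∈ A, g a + ∑ b ∈ B, g b := by
  have h1 : x ∉ insert y (A ∪ B) := by
    simp only [mem_insert, mem_union, not_or]
    exact ⟨hs.hxy, hs.hxA, hs.hxB⟩
  have h2 : y ∉ A ∪ B := by
    simp only [mem_union, not_or]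
    exact ⟨hs.hyA, hs.hyB⟩
  rw [hs.hW, sum_insert h1, sum_insert h2, sum_union hs.hAB]
  ring

private theorem r1_memW (hs : Sep2 W m k x y A B) (v : V) :
    v ∈ W ↔ v = x ∨ v = y ∨ v ∈ A ∨ v ∈ B := by
  rw [hs.hW]
  simp only [mem_insert, mem_union]

private theorem r1_sd1 (hs : Sep2 W m k x y A B) {X : Finset V} (hX : X ⊆ B) (g : V → ℕ) :
    ∑ u ∈ W \ X, g u = g x + g y + ∑ a ∈ A, g a + ∑ b ∈ B \ X, g b := by
  have h0 : X ⊆ W := fun v hv => (r1_memW hs v).2 (Or.inr (Or.inr (Or.inr (hX hv))))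
  have h1 := sum_sdiff (f := g) h0
  have h2 := sum_sdiff (f := g) hX
  have h3 := r1_sumW hs g
  omega

private theorem r1_sd2 (hs : Sep2 W m k x y A B) {X Y : Finset V} (hX : X ⊆ A) (hY : Y ⊆ B)
    (g : V → ℕ) :
    ∑ u ∈ W \ insert x (insert y (X ∪ Y)), g u = ∑ a ∈ A \ X, g a + ∑ b ∈ B \ Y, g b := by
  have h1 : x ∉ insert y (X ∪ Y) := by
    simp only [mem_insert, mem_union, not_or]
    exact ⟨hs.hxy, fun h => hs.hxA (hX h), fun h => hs.hxB (hY h)⟩
  have h2 : y ∉ X ∪ Y := by
    simp only [mem_union, not_or]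
    exact ⟨fun h => hs.hyA (hX h), fun h => hs.hyB (hY h)⟩
  have hd : Disjoint X Y := Finset.disjoint_of_subset_left hX
    (Finset.disjoint_of_subset_right hY hs.hAB)
  have h0 : insert x (insert y (X ∪ Y)) ⊆ W := by
    intro v hv
    rw [r1_memW hs]
    simp only [mem_insert, mem_union] at hv
    rcases hv with hv | hv | hv | hv
    · exact Or.inl hv
    · exact Or.inr (Or.inl hv)
    · exact Or.inr (Or.inr (Or.inl (hX hv)))
    · exact Or.inr (Or.inr (Or.inr (hY hv)))
  have h3 := sum_sdiff (f := g) h0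
  rw [sum_insert h1, sum_insert h2, sum_union hd] at h3
  have h4 := sum_sdiff (f := g) hX
  have h5 := sum_sdiff (f := g) hY
  have h6 := r1_sumW hs g
  omega

private theorem r1_sd3 (hs : Sep2 W m k x y A B) {Y : Finset V} (hY : Y ⊆ B) (g : V → ℕ) :
    ∑ u ∈ W \ insert y Y, g u = g x + ∑ a ∈ A, g a + ∑ b ∈ B \ Y, g b := by
  have h2 : y ∉ Y := fun h => hs.hyB (hY h)
  have h0 : insert y Y ⊆ W := by
    intro v hv
    rw [r1_memW hs]
    simp only [mem_insert] at hv
    rcases hv with hv | hv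
    · exact Or.inr (Or.inl hv)
    · exact Or.inr (Or.inr (Or.inr (hY hv)))
  have h3 := sum_sdiff (f := g) h0
  rw [sum_insert h2] at h3
  have h5 := sum_sdiff (f := g) hY
  have h6 := r1_sumW hs g
  omega

private theorem r1_swap (hs : Sep2 W m k x y A B) : Sep2 W m k y x A B where
  hW := by rw [hs.hW, Finset.insert_comm]
  hxy := hs.hxy.symm
  hxA := hs.hyA
  hxB := hs.hyB
  hyA := hs.hxA
  hyB := hs.hxB
  hAB := hs.hAB
  hm := hs.hm
  hkx := hs.hky
  hky := hs.hkx

private theorem r1_cutB_swap (X : Finset V) : cutB m f x y B X = cutB m f y x B X := by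
  unfold cutB
  simp only [add_comm (m x _) (m y _)]

private theorem r1_degx (h : IsZG W m f k r) (hs : Sep2 W m k x y A B) :
    m x y + bet m A x + bet m B x + f x = r := by
  have hx : x ∈ W := (r1_memW hs x).2 (Or.inl rfl)
  have h1 := h.degree x hx
  rw [r1_sumW hs, h.loopless x hx, hs.hkx] at h1
  unfold bet
  omega

private theorem r1_degy (h : IsZG W m f k r) (hs : Sep2 W m k x y A B) :
    m x y + bet m A y + bet m B y + f y = r := by
  have h1 := r1_degx h (r1_swap hs)
  rw [h.symm y ((r1_memW hs y).2 (Or.inr (Or.inl rfl))) x ((r1_memW hs x).2 (Or.inl rfl))] at h1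
  exact h1

private theorem r1_bet_split {X : Finset V} (hX : X ⊆ B) (v : V) :
    bet m B v = ∑ b ∈ B \ X, m v b + ∑ b ∈ X, m v b := (sum_sdiff hX).symm

/-- F1 -/
private theorem r1_F1 (h : IsZG W m f k r) (hs : Sep2 W m k x y A B) {X : Finset V}
    (hX : X ⊆ B) :
    cutB m f x y B X + 2 * ∑ v ∈ X, (m x v + m y v) =
      cut W m f X + bet m B x + bet m B y := by
  have hx : x ∈ W := (r1_memW hs x).2 (Or.inl rfl)
  have hy : y ∈ W := (r1_memW hs y).2 (Or.inr (Or.inl rfl))
  have h1 : E m X (W \ X) = ∑ v ∈ X, (m x v + m y v) + E m X (B \ X) := by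
    unfold E
    rw [← sum_add_distrib]
    refine sum_congr rfl fun v hv => ?_
    have hvW : v ∈ W := (r1_memW hs v).2 (Or.inr (Or.inr (Or.inr (hX hv))))
    have hA0 : ∑ a ∈ A, m v a = 0 := by
      refine sum_eq_zero fun a ha => ?_
      rw [h.symm v hvW a ((r1_memW hs a).2 (Or.inr (Or.inr (Or.inl ha))))]
      exact hs.hm a ha v (hX hv)
    rw [r1_sd1 hs hX, hA0, h.symm v hvW x hx, h.symm v hvW y hy, add_zero]
  unfold cut cutB
  rw [h1, r1_bet_split hX x, r1_bet_split hX y, sum_add_distrib, sum_add_distrib]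
  ring

/-- F5 -/
private theorem r1_F5 (h : IsZG W m f k r) (hs : Sep2 W m k x y A B) {X Y : Finset V}
    (hX : X ⊆ A) (hY : Y ⊆ B) :
    cut W m f (insert x (insert y (X ∪ Y))) + 2 * m x y + bet m A x + bet m A y + bet m B x +
      bet m B y = cutB m f x y A X + cutB m f x y B Y + 2 * r := by
  have h1 : x ∉ insert y (X ∪ Y) := by
    simp only [mem_insert, mem_union, not_or]
    exact ⟨hs.hxy, fun h => hs.hxA (hX h), fun h => hs.hxB (hY h)⟩
  have h2 : y ∉ X ∪ Y := by
    simp only [mem_union, not_or]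
    exact ⟨fun h => hs.hyA (hX h), fun h => hs.hyB (hY h)⟩
  have hd : Disjoint X Y := Finset.disjoint_of_subset_left hX
    (Finset.disjoint_of_subset_right hY hs.hAB)
  have hXY : ∀ v ∈ X, ∑ b ∈ B \ Y, m v b = 0 := by
    intro v hv
    refine sum_eq_zero fun b hb => hs.hm v (hX hv) b (mem_sdiff.1 hb).1
  have hYX : ∀ v ∈ Y, ∑ a ∈ A \ X, m v a = 0 := by
    intro v hv
    refine sum_eq_zero fun a ha => ?_
    have ha' := (mem_sdiff.1 ha).1
    rw [h.symm v ((r1_memW hs v).2 (Or.inr (Or.inr (Or.inr (hY hv))))) a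
      ((r1_memW hs a).2 (Or.inr (Or.inr (Or.inl ha'))))]
    exact hs.hm a ha' v (hY hv)
  have hEX : ∑ v ∈ X, (∑ a ∈ A \ X, m v a + ∑ b ∈ B \ Y, m v b) = E m X (A \ X) := by
    unfold E
    exact sum_congr rfl fun v hv => by rw [hXY v hv, add_zero]
  have hEY : ∑ v ∈ Y, (∑ a ∈ A \ X, m v a + ∑ b ∈ B \ Y, m v b) = E m Y (B \ Y) := by
    unfold E
    exact sum_congr rfl fun v hv => by rw [hYX v hv, zero_add]
  have h3 : cut W m f (insert x (insert y (X ∪ Y))) =
      (∑ a ∈ A \ X, m x a + ∑ b ∈ B \ Y, m x b) + ((∑ a ∈ A \ X, m y a + ∑ b ∈ B \ Y, m y b) +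
      (E m X (A \ X) + E m Y (B \ Y))) + (f x + (f y + (∑ v ∈ X, f v + ∑ v ∈ Y, f v))) := by
    unfold cut
    rw [sum_insert h1, sum_insert h2, sum_union hd, ← hEX, ← hEY]
    unfold E
    simp only [r1_sd2 hs hX hY]
    rw [sum_insert h1, sum_insert h2, sum_union hd]
  have h4 := r1_degx h hs
  have h5 := r1_degy h hs
  rw [h3]
  unfold cutB
  rw [sum_add_distrib, sum_add_distrib]
  omega

/-- F3 -/
private theorem r1_F3 (h : IsZG W m f k r) (hs : Sep2 W m k x y A B) {Y : Finset V}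
    (hY : Y ⊆ B) :
    cut W m f (insert y Y) + bet m B y + 2 * ∑ b ∈ B \ Y, m x b =
      cutB m f x y B Y + bet m B x + r := by
  have hx : x ∈ W := (r1_memW hs x).2 (Or.inl rfl)
  have hy : y ∈ W := (r1_memW hs y).2 (Or.inr (Or.inl rfl))
  have h2 : y ∉ Y := fun h => hs.hyB (hY h)
  have h1 : ∑ v ∈ Y, (m v x + ∑ a ∈ A, m v a + ∑ b ∈ B \ Y, m v b) =
      ∑ v ∈ Y, m x v + E m Y (B \ Y) := by
    unfold E
    rw [← sum_add_distrib]
    refine sum_congr rfl fun v hv => ?_
    have hvW : v ∈ W := (r1_memW hs v).2 (Or.inr (Or.inr (Or.inr (hY hv))))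
    have hA0 : ∑ a ∈ A, m v a = 0 := by
      refine sum_eq_zero fun a ha => ?_
      rw [h.symm v hvW a ((r1_memW hs a).2 (Or.inr (Or.inr (Or.inl ha))))]
      exact hs.hm a ha v (hY hv)
    rw [hA0, h.symm v hvW x hx, add_zero]
  have h3 : cut W m f (insert y Y) =
      (m x y + ∑ a ∈ A, m y a + ∑ b ∈ B \ Y, m y b) + (∑ v ∈ Y, m x v + E m Y (B \ Y)) +
      (f y + ∑ v ∈ Y, f v) := by
    unfold cut
    rw [sum_insert h2, ← h1, h.symm x hx y hy]
    unfold E
    simp only [r1_sd3 hs hY]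
    rw [sum_insert h2]
  have h5 := r1_degy h hs
  have h6 := r1_bet_split (m := m) hY x
  rw [h3]
  unfold cutB
  rw [sum_add_distrib]
  have h7 : bet m A y = ∑ a ∈ A, m y a := rfl
  omega

private theorem r1_odd_cases {X Y : Finset V} (hX : Odd X.card) (hY : Even Y.card) :
    Odd (X \ Y).card ∨ Odd (Y \ X).card := by
  have h1 := card_sdiff_add_card_inter X Y
  have h2 := card_sdiff_add_card_inter Y X
  rw [inter_comm Y X] at h2
  rw [Nat.odd_iff] at hX ⊢
  rw [Nat.even_iff] at hY
  rw [Nat.odd_iff]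
  omega

private theorem r1_Ecomm (h : IsZG W m f k r) {X Y : Finset V} (hX : X ⊆ W) (hY : Y ⊆ W) :
    E m X Y = E m Y X := by
  unfold E
  rw [sum_comm]
  exact sum_congr rfl fun u hu => sum_congr rfl fun v hv => h.symm v (hX hv) u (hY hu)

/-- (1) -/
private theorem r1_one (h : IsZG W m f k r) (hs : Sep2 W m k x y A B) {X Y : Finset V}
    (hX : X ⊆ B) (hY : Y ⊆ B) (hXo : Odd X.card) (hYe : Even Y.card) :
    r ≤ cutB m f x y B X + cutB m f x y B Y := by
  have hBW : B ⊆ W := fun v hv => (r1_memW hs v).2 (Or.inr (Or.inr (Or.inr hv)))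
  -- the four atoms
  have key : cut W m f (X \ Y) + cut W m f (Y \ X) ≤ cutB m f x y B X + cutB m f x y B Y := by
    have hXY : X \ Y ⊆ B := sdiff_subset.trans hX
    have hYX : Y \ X ⊆ B := sdiff_subset.trans hY
    have e3 := r1_F1 h hs hXY
    have e4 := r1_F1 h hs hYX
    have hP : X ∩ Y ⊆ B := inter_subset_left.trans hX
    have hXYB : X ∪ Y ⊆ B := union_subset hX hY
    have gX : ∀ g : V → ℕ, ∑ v ∈ X, g v = ∑ v ∈ X ∩ Y, g v + ∑ v ∈ X \ Y, g v := fun g =>
      (sum_inter_add_sum_sdiff X Y g).symm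
    have gY : ∀ g : V → ℕ, ∑ v ∈ Y, g v = ∑ v ∈ X ∩ Y, g v + ∑ v ∈ Y \ X, g v := fun g => by
      rw [inter_comm]
      exact (sum_inter_add_sum_sdiff Y X g).symm
    have gU : ∀ g : V → ℕ, ∑ v ∈ X ∪ Y, g v =
        ∑ v ∈ X ∩ Y, g v + ∑ v ∈ X \ Y, g v + ∑ v ∈ Y \ X, g v := fun g => by
      have h1 := sum_union_inter (s₁ := X) (s₂ := Y) (f := g)
      rw [gX g, gY g] at h1
      omega
    have gB : ∀ g : V → ℕ, ∑ v ∈ B, g v = ∑ v ∈ B \ (X ∪ Y), g v + ∑ v ∈ X ∪ Y, g v := fun g =>
      (sum_sdiff hXYB).symm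
    have gBX : ∀ g : V → ℕ, ∑ v ∈ B \ X, g v = ∑ v ∈ B \ (X ∪ Y), g v + ∑ v ∈ Y \ X, g v := by
      intro g
      have h1 := sum_sdiff (f := g) hX
      rw [gB g, gU g, gX g] at h1
      omega
    have gBY : ∀ g : V → ℕ, ∑ v ∈ B \ Y, g v = ∑ v ∈ B \ (X ∪ Y), g v + ∑ v ∈ X \ Y, g v := by
      intro g
      have h1 := sum_sdiff (f := g) hY
      rw [gB g, gU g, gY g] at h1
      omega
    have gBQ : ∀ g : V → ℕ, ∑ v ∈ B \ (X \ Y), g v =
        ∑ v ∈ B \ (X ∪ Y), g v + ∑ v ∈ Y \ X, g v + ∑ v ∈ X ∩ Y, g v := by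
      intro g
      have h1 := sum_sdiff (f := g) hXY
      rw [gB g, gU g] at h1
      omega
    have gBR : ∀ g : V → ℕ, ∑ v ∈ B \ (Y \ X), g v =
        ∑ v ∈ B \ (X ∪ Y), g v + ∑ v ∈ X \ Y, g v + ∑ v ∈ X ∩ Y, g v := by
      intro g
      have h1 := sum_sdiff (f := g) hYX
      rw [gB g, gU g] at h1
      omega
    have c1 := r1_Ecomm h (hXY.trans hBW) (hP.trans hBW)
    have c2 := r1_Ecomm h (hYX.trans hBW) (hP.trans hBW)
    have E1 : E m X (B \ X) = E m (X ∩ Y) (B \ (X ∪ Y)) + E m (X ∩ Y) (Y \ X) +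
        (E m (X \ Y) (B \ (X ∪ Y)) + E m (X \ Y) (Y \ X)) := by
      unfold E
      simp only [gBX]
      rw [gX]
      simp only [sum_add_distrib]
    have E2 : E m Y (B \ Y) = E m (X ∩ Y) (B \ (X ∪ Y)) + E m (X ∩ Y) (X \ Y) +
        (E m (Y \ X) (B \ (X ∪ Y)) + E m (Y \ X) (X \ Y)) := by
      unfold E
      simp only [gBY]
      rw [gY]
      simp only [sum_add_distrib]
    have E3 : E m (X \ Y) (B \ (X \ Y)) = E m (X \ Y) (B \ (X ∪ Y)) + E m (X \ Y) (Y \ X) +
        E m (X \ Y) (X ∩ Y) := by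
      unfold E
      simp only [gBQ, sum_add_distrib]
    have E4 : E m (Y \ X) (B \ (Y \ X)) = E m (Y \ X) (B \ (X ∪ Y)) + E m (Y \ X) (X \ Y) +
        E m (Y \ X) (X ∩ Y) := by
      unfold E
      simp only [gBR, sum_add_distrib]
    have hb : bet m B x + bet m B y = ∑ v ∈ B \ (X ∪ Y), (m x v + m y v) +
        (∑ v ∈ X ∩ Y, (m x v + m y v) + ∑ v ∈ X \ Y, (m x v + m y v) +
          ∑ v ∈ Y \ X, (m x v + m y v)) := by
      rw [← gU, ← gB]
      unfold bet
      rw [sum_add_distrib]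
    have f1 := gX f
    have f2 := gY f
    have x1 := gBX (fun v => m x v + m y v)
    have x2 := gBY (fun v => m x v + m y v)
    have x3 := gBQ (fun v => m x v + m y v)
    have x4 := gBR (fun v => m x v + m y v)
    have u3 : cutB m f x y B (X \ Y) = E m (X \ Y) (B \ (X \ Y)) + ∑ v ∈ X \ Y, f v +
        ∑ b ∈ B \ (X \ Y), (m x b + m y b) := rfl
    have u4 : cutB m f x y B (Y \ X) = E m (Y \ X) (B \ (Y \ X)) + ∑ v ∈ Y \ X, f v +
        ∑ b ∈ B \ (Y \ X), (m x b + m y b) := rfl
    have u1 : cutB m f x y B X = E m X (B \ X) + ∑ v ∈ X, f v +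
        ∑ b ∈ B \ X, (m x b + m y b) := rfl
    have u2 : cutB m f x y B Y = E m Y (B \ Y) + ∑ v ∈ Y, f v +
        ∑ b ∈ B \ Y, (m x b + m y b) := rfl
    omega
  rcases r1_odd_cases hXo hYe with ho | ho
  · have := h.cuts _ ((sdiff_subset.trans hX).trans hBW) ho
    omega
  · have := h.cuts _ ((sdiff_subset.trans hY).trans hBW) ho
    omega

/-- (2) -/
private theorem r1_two (h : IsZG W m f k r) (hs : Sep2 W m k x y A B) {X Y : Finset V}
    (hX : X ⊆ A) (hY : Y ⊆ B) (ho : Odd (X ∪ Y).card) :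
    2 * m x y + bet m A x + bet m A y + bet m B x + bet m B y ≤
      cutB m f x y A X + cutB m f x y B Y + r := by
  have h1 : x ∉ insert y (X ∪ Y) := by
    simp only [mem_insert, mem_union, not_or]
    exact ⟨hs.hxy, fun h => hs.hxA (hX h), fun h => hs.hxB (hY h)⟩
  have h2 : y ∉ X ∪ Y := by
    simp only [mem_union, not_or]
    exact ⟨fun h => hs.hyA (hX h), fun h => hs.hyB (hY h)⟩
  have h0 : insert x (insert y (X ∪ Y)) ⊆ W := by
    intro v hv
    rw [r1_memW hs]
    simp only [mem_insert, mem_union] at hv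
    rcases hv with hv | hv | hv | hv
    · exact Or.inl hv
    · exact Or.inr (Or.inl hv)
    · exact Or.inr (Or.inr (Or.inl (hX hv)))
    · exact Or.inr (Or.inr (Or.inr (hY hv)))
  have h3 : Odd (insert x (insert y (X ∪ Y))).card := by
    rw [card_insert_of_notMem h1, card_insert_of_notMem h2]
    rw [Nat.odd_iff] at ho ⊢
    omega
  have h4 := h.cuts _ h0 h3
  have h5 := r1_F5 h hs hX hY
  omega

private theorem r1_cutB_empty : cutB m f x y B ∅ = bet m B x + bet m B y := by
  unfold cutB E bet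
  simp [sum_add_distrib]

/-- (2) for one side -/
private theorem r1_twoB (h : IsZG W m f k r) (hs : Sep2 W m k x y A B) {Y : Finset V}
    (hY : Y ⊆ B) (ho : Odd Y.card) :
    2 * m x y + bet m B x + bet m B y ≤ cutB m f x y B Y + r := by
  have h1 := r1_two h hs (empty_subset A) hY (by rwa [empty_union])
  rw [r1_cutB_empty] at h1
  omega

/-- (3) -/
private theorem r1_three (h : IsZG W m f k r) (hs : Sep2 W m k x y A B) {Y : Finset V}
    (hY : Y ⊆ B) (he : Even Y.card) : bet m B y ≤ cutB m f x y B Y + bet m B x := by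
  have h2 : y ∉ Y := fun h => hs.hyB (hY h)
  have h0 : insert y Y ⊆ W := by
    intro v hv
    rw [r1_memW hs]
    simp only [mem_insert] at hv
    rcases hv with hv | hv
    · exact Or.inr (Or.inl hv)
    · exact Or.inr (Or.inr (Or.inr (hY hv)))
  have h3 : Odd (insert y Y).card := by
    rw [card_insert_of_notMem h2]
    rw [Nat.odd_iff]
    rw [Nat.even_iff] at he
    omega
  have h4 := h.cuts _ h0 h3
  have h5 := r1_F3 h hs hY
  omega

private theorem r1_three' (h : IsZG W m f k r) (hs : Sep2 W m k x y A B) {Y : Finset V}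
    (hY : Y ⊆ B) (he : Even Y.card) : bet m B x ≤ cutB m f x y B Y + bet m B y := by
  have h1 := r1_three h (r1_swap hs) hY he
  rwa [← r1_cutB_swap] at h1

private theorem r1_par (h : IsZG W m f k r) (hs : Sep2 W m k x y A B) {X : Finset V}
    (hX : X ⊆ B) :
    cutB m f x y B X % 2 = (r * X.card + bet m B x + bet m B y) % 2 := by
  have hBW : B ⊆ W := fun v hv => (r1_memW hs v).2 (Or.inr (Or.inr (Or.inr hv)))
  have h1 := r1_F1 h hs hX
  have h2 := h.cut_parity (hX.trans hBW)
  omega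

/-- lower bound of the cuts of odd sets -/
private theorem r1_four (h : IsZG W m f k r) (hs : Sep2 W m k x y A B) {X : Finset V}
    (hX : X ⊆ B) (ho : Odd X.card) : r ≤ cutB m f x y B X + bet m B x + bet m B y := by
  have hBW : B ⊆ W := fun v hv => (r1_memW hs v).2 (Or.inr (Or.inr (Or.inr hv)))
  have h1 := r1_F1 h hs hX
  have h2 := h.cuts _ (hX.trans hBW) ho
  have h3 := r1_bet_split (m := m) hX x
  have h4 := r1_bet_split (m := m) hX y
  rw [sum_add_distrib] at h1
  omega

/-- the lower bound for `t` -/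
private theorem r1_low (h : IsZG W m f k r) (hs : Sep2 W m k x y A B) :
    ∃ l : ℕ, (∀ t, l ≤ t → bet m B x + bet m B y ≤ r + t ∧
      ∀ Y ⊆ B, Even Y.card → bet m B x + bet m B y ≤ cutB m f x y B Y + 2 * t) ∧
      (l + r = bet m B x + bet m B y ∨
        ∃ Y ⊆ B, Even Y.card ∧ cutB m f x y B Y + 2 * l = bet m B x + bet m B y) := by
  classical
  have hex : ∃ l : ℕ, bet m B x + bet m B y ≤ r + l ∧
      ∀ Y ⊆ B, Even Y.card → bet m B x + bet m B y ≤ cutB m f x y B Y + 2 * l :=
    ⟨bet m B x + bet m B y, by omega, fun Y _ _ => by omega⟩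
  have hsp := Nat.find_spec hex
  have hmin := @Nat.find_min _ _ hex
  generalize Nat.find hex = l at hsp hmin
  refine ⟨l, fun t ht => ⟨by omega, fun Y hY he => ?_⟩, ?_⟩
  · have := hsp.2 Y hY he
    omega
  · rcases Nat.eq_zero_or_pos l with hl | hl
    · right
      refine ⟨∅, empty_subset B, by simp, ?_⟩
      rw [r1_cutB_empty, hl]
      rfl
    · have h1 := hmin (m := l - 1) (by omega)
      rw [not_and_or] at h1
      rcases h1 with h1 | h1
      · left
        omega
      · right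
        push Not at h1
        obtain ⟨Y, hY, he, h1⟩ := h1
        refine ⟨Y, hY, he, ?_⟩
        have h2 := hsp.2 Y hY he
        have h3 := r1_par h hs hY
        have h4 : (r * Y.card + bet m B x + bet m B y) % 2 = (bet m B x + bet m B y) % 2 := by
          obtain ⟨a, ha⟩ := he
          have : r * Y.card + bet m B x + bet m B y = 2 * (r * a) + (bet m B x + bet m B y) := by
            rw [ha]
            ring
          rw [this]
          omega
        omega

/-- the upper bound for `t` -/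
private theorem r1_up (h : IsZG W m f k r) (hs : Sep2 W m k x y A B) :
    ∃ u : ℕ, (∀ t, t ≤ u → t ≤ bet m B x ∧ t ≤ bet m B y ∧
      ∀ X ⊆ B, Odd X.card → 2 * t + r ≤ cutB m f x y B X + bet m B x + bet m B y) ∧
      (u = bet m B x ∨ u = bet m B y ∨
        ∃ X ⊆ B, Odd X.card ∧ 2 * u + r = cutB m f x y B X + bet m B x + bet m B y) := by
  classical
  -- the smallest failure is `u + 1`
  have hex : ∃ l : ℕ, ¬ (l ≤ bet m B x ∧ l ≤ bet m B y ∧
      ∀ X ⊆ B, Odd X.card → 2 * l + r ≤ cutB m f x y B X + bet m B x + bet m B y) :=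
    ⟨bet m B x + 1, fun h => by omega⟩
  have hsp := Nat.find_spec hex
  have hmin := @Nat.find_min _ _ hex
  generalize Nat.find hex = l at hsp hmin
  have hl : 0 < l := by
    rcases Nat.eq_zero_or_pos l with hl | hl
    · exfalso
      apply hsp
      refine ⟨by omega, by omega, fun X hX ho => ?_⟩
      have := r1_four h hs hX ho
      omega
    · exact hl
  refine ⟨l - 1, fun t ht => ?_, ?_⟩
  · have := hmin (m := t) (by omega)
    rwa [not_not] at this
  · have h0 := hmin (m := l - 1) (by omega)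
    rw [not_not] at h0
    obtain ⟨h01, h02, h03⟩ := h0
    rw [not_and_or, not_and_or] at hsp
    rcases hsp with h1 | h1 | h1
    · left
      omega
    · right
      left
      omega
    · right
      right
      push Not at h1
      obtain ⟨X, hX, ho, h1⟩ := h1
      refine ⟨X, hX, ho, ?_⟩
      have h2 := h03 X hX ho
      have h3 := r1_par h hs hX
      have h4 : (r * X.card + bet m B x + bet m B y) % 2 =
          (r + bet m B x + bet m B y) % 2 := by
        obtain ⟨a, ha⟩ := ho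
        have : r * X.card + bet m B x + bet m B y =
            2 * (r * a) + (r + bet m B x + bet m B y) := by
          rw [ha]
          ring
        rw [this]
        omega
      omega

/-- lower bounds are at most upper bounds -/
private theorem r1_lu (h : IsZG W m f k r) (hs : Sep2 W m k x y A B) {l u : ℕ}
    (hl : l + r = bet m B x + bet m B y ∨
        ∃ Y ⊆ B, Even Y.card ∧ cutB m f x y B Y + 2 * l = bet m B x + bet m B y)
    (hu : u = bet m B x ∨ u = bet m B y ∨
        ∃ X ⊆ B, Odd X.card ∧ 2 * u + r = cutB m f x y B X + bet m B x + bet m B y) :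
    l ≤ u := by
  have hx := r1_degx h hs
  have hy := r1_degy h hs
  rcases hl with hl | ⟨Y, hY, he, hl⟩
  · rcases hu with hu | hu | ⟨X, hX, ho, hu⟩
    · omega
    · omega
    · have := r1_twoB h hs hX ho
      omega
  · have h3 := r1_three h hs hY he
    have h3' := r1_three' h hs hY he
    rcases hu with hu | hu | ⟨X, hX, ho, hu⟩
    · omega
    · omega
    · have := r1_one h hs hX hY ho he
      omega

/-- cross bounds -/
private theorem r1_cross (h : IsZG W m f k r) (hs : Sep2 W m k x y A B)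
    (hs' : Sep2 W m k x y B A) {l u : ℕ}
    (hl : l + r = bet m B x + bet m B y ∨
        ∃ Y ⊆ B, Even Y.card ∧ cutB m f x y B Y + 2 * l = bet m B x + bet m B y)
    (hu : u = bet m A x ∨ u = bet m A y ∨
        ∃ X ⊆ A, Odd X.card ∧ 2 * u + r = cutB m f x y A X + bet m A x + bet m A y) :
    l + bet m A x + bet m A y + m x y ≤ u + r := by
  have hx := r1_degx h hs
  have hy := r1_degy h hs
  rcases hl with hl | ⟨Y, hY, he, hl⟩
  · rcases hu with hu | hu | ⟨X, hX, ho, hu⟩
    · omega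
    · omega
    · have := r1_four h hs' hX ho
      omega
  · have h3 := r1_three h hs hY he
    have h3' := r1_three' h hs hY he
    rcases hu with hu | hu | ⟨X, hX, ho, hu⟩
    · omega
    · omega
    · have hd : Disjoint X Y := Finset.disjoint_of_subset_left hX
        (Finset.disjoint_of_subset_right hY hs.hAB)
      have h5 := r1_two h hs hX hY (by
        rw [card_union_of_disjoint hd]
        rw [Nat.odd_iff] at ho ⊢
        rw [Nat.even_iff] at he
        omega)
      omega

/-- Compatible admissible parameters for the two sides exist. -/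
theorem R1_arith (h : IsZG W m f k r) (hs : Sep2 W m k x y A B) :
    ∃ tA tB : ℕ, Rng m f r x y A tA ∧ Rng m f r x y B tB ∧
      bet m A x + bet m A y + m x y + tB ≤ r + tA ∧
      bet m B x + bet m B y + m x y + tA ≤ r + tB := by
  have hs' : Sep2 W m k x y B A := Sep2.symm h hs
  obtain ⟨lB, hlB, clB⟩ := r1_low h hs
  obtain ⟨uB, huB, cuB⟩ := r1_up h hs
  obtain ⟨lA, hlA, clA⟩ := r1_low h hs'
  obtain ⟨uA, huA, cuA⟩ := r1_up h hs'
  have k1 := r1_lu h hs clB cuB
  have k2 := r1_lu h hs' clA cuA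
  have k3 := r1_cross h hs hs' clB cuA
  have k4 := r1_cross h hs' hs clA cuB
  have hx := r1_degx h hs
  have hy := r1_degy h hs
  have hex : ∃ tA tB : ℕ, lA ≤ tA ∧ tA ≤ uA ∧ lB ≤ tB ∧ tB ≤ uB ∧
      bet m A x + bet m A y + m x y + tB ≤ r + tA ∧
      bet m B x + bet m B y + m x y + tA ≤ r + tB := by
    rcases le_total lB (lA + m x y + bet m B x + bet m B y - r) with hc | hc
    · rcases le_total lA (lA + m x y + bet m B x + bet m B y - r +
        (bet m A x + bet m A y + m x y) - r) with hd | hd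
      · exact ⟨lA + m x y + bet m B x + bet m B y - r + (bet m A x + bet m A y + m x y) - r,
          lA + m x y + bet m B x + bet m B y - r, by omega, by omega, by omega, by omega,
          by omega, by omega⟩
      · exact ⟨lA, lA + m x y + bet m B x + bet m B y - r, by omega, by omega, by omega, by omega,
          by omega, by omega⟩
    · rcases le_total lA (lB + (bet m A x + bet m A y + m x y) - r) with hd | hd
      · exact ⟨lB + (bet m A x + bet m A y + m x y) - r,
          lB, by omega, by omega, by omega, by omega, by omega, by omega⟩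
      · exact ⟨lA, lB, by omega, by omega, by omega, by omega, by omega, by omega⟩
  obtain ⟨tA, tB, a1, a2, b1, b2, c1, c2⟩ := hex
  refine ⟨tA, tB, ?_, ?_, c1, c2⟩
  · exact ⟨(huA tA a2).1, (huA tA a2).2.1, (hlA tA a1).1, (huA tA a2).2.2, (hlA tA a1).2⟩
  · exact ⟨(huB tB b2).1, (huB tB b2).2.1, (hlB tB b1).1, (huB tB b2).2.2, (hlB tB b1).2⟩

end PStar
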