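import Pool.Agent.PStar.BasicC
import Pool.Agent.PStar.Perm

set_option autoImplicit false

namespace PStar

open Finset

variable {V : Type*} [DecidableEq V] {W : Finset V} {m : V → V → ℕ} {f k : V → ℕ} {r : ℕ}
  {x y : V} {A B : Finset V}

/-- the type of a colour on one side -/
private def ty (J : Fin r → V → V → ℕ) (B : Finset V) (x y : V) (c : Fin r) : Bool × Bool :=
  (decide (bet (J c) B x = 1), decide (bet (J c) B y = 1))

/-- number of colours of a given type -/
private def cnt (J : Fin r → V → V → ℕ) (B : Finset V) (x y : V) (p : Bool × Bool) : ℕ :=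
  (univ.filter (fun c => ty J B x y c = p)).card

private lemma sum_le_one_eq_card {r : ℕ} (F : Fin r → ℕ) (h : ∀ c, F c ≤ 1) :
    ∑ c, F c = (univ.filter (fun c => F c = 1)).card := by
  rw [Finset.card_filter]
  refine Finset.sum_congr rfl fun c _ => ?_
  have := h c
  split_ifs <;> omega

private lemma card_split {r : ℕ} (P Q : Fin r → Prop) [DecidablePred P] [DecidablePred Q] :
    (univ.filter (fun c => P c)).card =
      (univ.filter (fun c => P c ∧ Q c)).card + (univ.filter (fun c => P c ∧ ¬ Q c)).card := by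
  rw [← Finset.card_filter_add_card_filter_not (s := univ.filter (fun c => P c)) Q,
    Finset.filter_filter, Finset.filter_filter]

private lemma side_counts {t : ℕ} {J : Fin r → V → V → ℕ} {g : Fin r → V → ℕ}
    (hS : SideCol m f r x y B t J g) :
    cnt J B x y (true, true) = t ∧
    cnt J B x y (true, true) + cnt J B x y (true, false) = bet m B x ∧
    cnt J B x y (true, true) + cnt J B x y (false, true) = bet m B y ∧
    cnt J B x y (true, true) + cnt J B x y (true, false) + cnt J B x y (false, true)
      + cnt J B x y (false, false) = r := by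
  have hx : ∑ c, bet (J c) B x = bet m B x := by
    unfold bet
    rw [Finset.sum_comm]
    exact Finset.sum_congr rfl fun b hb => hS.sum x (by simp) b hb
  have hy : ∑ c, bet (J c) B y = bet m B y := by
    unfold bet
    rw [Finset.sum_comm]
    exact Finset.sum_congr rfl fun b hb => hS.sum y (by simp) b hb
  rw [sum_le_one_eq_card _ hS.x1] at hx
  rw [sum_le_one_eq_card _ hS.y1] at hy
  have e11 : cnt J B x y (true, true) =
      (univ.filter (fun c => bet (J c) B x = 1 ∧ bet (J c) B y = 1)).card := by
    unfold cnt ty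
    congr 1
    ext c
    simp
  have e10 : cnt J B x y (true, false) =
      (univ.filter (fun c => bet (J c) B x = 1 ∧ ¬ bet (J c) B y = 1)).card := by
    unfold cnt ty
    congr 1
    ext c
    simp
  have e01 : cnt J B x y (false, true) =
      (univ.filter (fun c => bet (J c) B y = 1 ∧ ¬ bet (J c) B x = 1)).card := by
    unfold cnt ty
    congr 1
    ext c
    simp [and_comm]
  have e00 : cnt J B x y (false, false) =
      (univ.filter (fun c => ¬ bet (J c) B x = 1 ∧ ¬ bet (J c) B y = 1)).card := by
    unfold cnt ty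
    congr 1
    ext c
    simp
  have s1 := card_split (fun c => bet (J c) B x = 1) (fun c => bet (J c) B y = 1)
  have s2 := card_split (fun c => bet (J c) B y = 1) (fun c => bet (J c) B x = 1)
  have s3 := card_split (fun c => ¬ bet (J c) B x = 1) (fun c => bet (J c) B y = 1)
  have s4 := Finset.card_filter_add_card_filter_not (s := (univ : Finset (Fin r)))
    (fun c => bet (J c) B x = 1)
  rw [Finset.card_univ, Fintype.card_fin] at s4
  have s5 : (univ.filter (fun c => bet (J c) B y = 1 ∧ bet (J c) B x = 1)).card =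
      (univ.filter (fun c => bet (J c) B x = 1 ∧ bet (J c) B y = 1)).card := by
    congr 1
    ext c
    simp [and_comm]
  have s6 : (univ.filter (fun c => ¬ bet (J c) B x = 1 ∧ bet (J c) B y = 1)).card =
      (univ.filter (fun c => bet (J c) B y = 1 ∧ ¬ bet (J c) B x = 1)).card := by
    congr 1
    ext c
    simp [and_comm]
  have hxy := hS.xy
  rw [e11, e10, e01, e00]
  refine ⟨hxy, ?_, ?_, ?_⟩ <;> omega

/-- the coupling matrix -/
private def KK (tA tB ax ay bx by' u v r : ℕ) : Bool × Bool → Bool × Bool → ℕ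
  | (true, true), (false, false) => tA
  | (false, false), (true, true) => tB
  | (true, false), (false, true) => u
  | (false, true), (true, false) => v
  | (true, false), (false, false) => ax - tA - u
  | (false, true), (false, false) => ay - tA - v
  | (false, false), (false, true) => by' - tB - u
  | (false, false), (true, false) => bx - tB - v
  | (false, false), (false, false) => r + tA + tB + u + v - ax - ay - bx - by'
  | (true, true), (true, true) => 0
  | (true, true), (true, false) => 0
  | (true, true), (false, true) => 0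
  | (true, false), (true, true) => 0
  | (true, false), (true, false) => 0
  | (false, true), (true, true) => 0
  | (false, true), (false, true) => 0

private lemma coupling {tA tB ax ay bx by' mu r : ℕ} (s t : Fin r → Bool × Bool)
    (a11 : (univ.filter (fun c => s c = (true, true))).card = tA)
    (a10 : tA + (univ.filter (fun c => s c = (true, false))).card = ax)
    (a01 : tA + (univ.filter (fun c => s c = (false, true))).card = ay)
    (a00 : tA + (univ.filter (fun c => s c = (true, false))).card +
      (univ.filter (fun c => s c = (false, true))).card +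
      (univ.filter (fun c => s c = (false, false))).card = r)
    (b11 : (univ.filter (fun c => t c = (true, true))).card = tB)
    (b10 : tB + (univ.filter (fun c => t c = (true, false))).card = bx)
    (b01 : tB + (univ.filter (fun c => t c = (false, true))).card = by')
    (b00 : tB + (univ.filter (fun c => t c = (true, false))).card +
      (univ.filter (fun c => t c = (false, true))).card +
      (univ.filter (fun c => t c = (false, false))).card = r)
    (hx : ax + bx + mu ≤ r) (hy : ay + by' + mu ≤ r)
    (h1 : ax + ay + mu + tB ≤ r + tA)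
    (h2 : bx + by' + mu + tA ≤ r + tB) :
    ∃ σ : Equiv.Perm (Fin r), (∀ c, ¬ ((s (σ c)).1 = true ∧ (t c).1 = true)) ∧
      (∀ c, ¬ ((s (σ c)).2 = true ∧ (t c).2 = true)) ∧
      mu ≤ (univ.filter (fun c => s (σ c) = (false, false) ∧ t c = (false, false))).card := by
  classical
  obtain ⟨σ, hσ⟩ := exists_coupling s t
    (KK tA tB ax ay bx by' (min (ax - tA) (by' - tB)) (min (ay - tA) (bx - tB)) r)
    (by
      rintro ⟨p, q⟩
      rw [Fintype.sum_prod_type]
      simp only [Fintype.sum_bool]
      cases p <;> cases q <;> simp only [KK] <;> omega)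
    (by
      rintro ⟨p, q⟩
      rw [Fintype.sum_prod_type]
      simp only [Fintype.sum_bool]
      cases p <;> cases q <;> simp only [KK] <;> omega)
  have key : ∀ c, 0 < KK tA tB ax ay bx by' (min (ax - tA) (by' - tB))
      (min (ay - tA) (bx - tB)) r (s (σ c)) (t c) := by
    intro c
    rw [← hσ]
    exact Finset.card_pos.2 ⟨c, by simp⟩
  refine ⟨σ, ?_, ?_, ?_⟩
  · intro c
    have := key c
    rcases hs : s (σ c) with ⟨p, q⟩
    rcases ht : t c with ⟨p', q'⟩
    rw [hs, ht] at this
    rintro ⟨e1, e2⟩
    simp only at e1 e2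
    subst e1 e2
    cases q <;> cases q' <;> simp [KK] at this
  · intro c
    have := key c
    rcases hs : s (σ c) with ⟨p, q⟩
    rcases ht : t c with ⟨p', q'⟩
    rw [hs, ht] at this
    rintro ⟨e1, e2⟩
    simp only at e1 e2
    subst e1 e2
    cases p <;> cases p' <;> simp [KK] at this
  · rw [hσ]
    simp only [KK]
    omega

/-- Gluing the two sides. -/
theorem R1_glue (h : IsZG W m f k r) (hs : Sep2 W m k x y A B) {tA tB : ℕ}
    (h1 : bet m A x + bet m A y + m x y + tB ≤ r + tA)
    (h2 : bet m B x + bet m B y + m x y + tA ≤ r + tB)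
    {JA JB : Fin r → V → V → ℕ} {gA gB : Fin r → V → ℕ}
    (hA : SideCol m f r x y A tA JA gA) (hB : SideCol m f r x y B tB JB gB) :
    Dec W m f r := by
  classical
  obtain ⟨hW, hxy, hxA, hxB, hyA, hyB, hAB, hm, hkx, hky⟩ := hs
  -- sums over W
  have hsumW : ∀ F : V → ℕ, ∑ u ∈ W, F u = F x + F y + ∑ a ∈ A, F a + ∑ b ∈ B, F b := by
    intro F
    rw [hW, Finset.sum_insert, Finset.sum_insert, Finset.sum_union hAB]
    · ring
    · simp [hyA, hyB]
    · simp [hxy, hxA, hxB]
  have hsumA : ∀ F : V → ℕ, ∑ u ∈ insert x (insert y A), F u = F x + F y + ∑ a ∈ A, F a := by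
    intro F
    rw [Finset.sum_insert, Finset.sum_insert]
    · ring
    · simp [hyA]
    · simp [hxy, hxA]
  have hsumB : ∀ F : V → ℕ, ∑ u ∈ insert x (insert y B), F u = F x + F y + ∑ a ∈ B, F a := by
    intro F
    rw [Finset.sum_insert, Finset.sum_insert]
    · ring
    · simp [hyB]
    · simp [hxy, hxB]
  have hxW : x ∈ W := by rw [hW]; simp
  have hyW : y ∈ W := by rw [hW]; simp
  have hmemW : ∀ u, u ∈ W ↔ u = x ∨ u = y ∨ u ∈ A ∨ u ∈ B := by
    intro u; rw [hW]; simp
  -- degrees at x and y
  have dx : m x y + bet m A x + bet m B x + f x = r := by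
    have := h.degree x hxW
    rw [hsumW, h.loopless x hxW, hkx] at this
    unfold bet
    omega
  have dy : m x y + bet m A y + bet m B y + f y = r := by
    have := h.degree y hyW
    rw [hsumW, h.loopless y hyW, hky, h.symm y hyW x hxW] at this
    unfold bet
    omega
  obtain ⟨a11, a10, a01, a00⟩ := side_counts hA
  obtain ⟨b11, b10, b01, b00⟩ := side_counts hB
  rw [a11] at a10 a01 a00
  rw [b11] at b10 b01 b00
  obtain ⟨σ, hσ1, hσ2, hσ3⟩ := coupling (ty JA A x y) (ty JB B x y) a11 a10 a01 a00
    b11 b10 b01 b00 (mu := m x y) (by omega) (by omega) h1 h2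
  obtain ⟨M, hM1, hM2⟩ := Finset.exists_subset_card_eq hσ3
  have hMx : ∀ c ∈ M, bet (JA (σ c)) A x = 0 ∧ bet (JA (σ c)) A y = 0 ∧ bet (JB c) B x = 0 ∧
      bet (JB c) B y = 0 := by
    intro c hc
    have := hM1 hc
    simp only [ty, Finset.mem_filter, Finset.mem_univ, true_and, Prod.mk.injEq,
      decide_eq_false_iff_not] at this
    have q1 := hA.x1 (σ c)
    have q2 := hA.y1 (σ c)
    have q3 := hB.x1 c
    have q4 := hB.y1 c
    omega
  have hxx : ∀ c, bet (JA (σ c)) A x + bet (JB c) B x ≤ 1 := by
    intro c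
    have := hσ1 c
    simp only [ty, decide_eq_true_eq] at this
    have q1 := hA.x1 (σ c)
    have q3 := hB.x1 c
    omega
  have hyy : ∀ c, bet (JA (σ c)) A y + bet (JB c) B y ≤ 1 := by
    intro c
    have := hσ2 c
    simp only [ty, decide_eq_true_eq] at this
    have q1 := hA.y1 (σ c)
    have q3 := hB.y1 c
    omega
  have hMsum : ∑ c : Fin r, (if c ∈ M then 1 else 0) = m x y := by
    rw [← hM2, Finset.sum_ite_mem]
    simp
  -- the decomposition
  let J : Fin r → V → V → ℕ := fun c u v =>
    if (u ∈ A ∧ v ∈ B) ∨ (u ∈ B ∧ v ∈ A) then 0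
    else if u ∈ A ∨ v ∈ A then JA (σ c) u v
    else if u ∈ B ∨ v ∈ B then JB c u v
    else if (u = x ∧ v = y) ∨ (u = y ∧ v = x) then (if c ∈ M then 1 else 0) else 0
  let g : Fin r → V → ℕ := fun c v =>
    if v ∈ A then gA (σ c) v else if v ∈ B then gB c v
    else if v = x then 1 - bet (JA (σ c)) A x - bet (JB c) B x - (if c ∈ M then 1 else 0)
    else if v = y then 1 - bet (JA (σ c)) A y - bet (JB c) B y - (if c ∈ M then 1 else 0)
    else 0
  have hdAB : ∀ u, u ∈ A → u ∉ B := fun u hu hu' => Finset.disjoint_left.1 hAB hu hu'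
  have hdBA : ∀ u, u ∈ B → u ∉ A := fun u hu hu' => Finset.disjoint_left.1 hAB hu' hu
  -- values of J
  have JAB : ∀ c, ∀ u ∈ A, ∀ v ∈ B, J c u v = 0 := by
    intro c u hu v hv; simp [J, hu, hv]
  have JBA : ∀ c, ∀ u ∈ B, ∀ v ∈ A, J c u v = 0 := by
    intro c u hu v hv; simp [J, hu, hv]
  have JAl : ∀ c, ∀ u ∈ A, ∀ v, v ∉ B → J c u v = JA (σ c) u v := by
    intro c u hu v hv; simp [J, hu, hv, hdAB u hu]
  have JAr : ∀ c, ∀ u, u ∉ B → ∀ v ∈ A, J c u v = JA (σ c) u v := by
    intro c u hu v hv; simp [J, hu, hv, hdAB v hv]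
  have JBl : ∀ c, ∀ u ∈ B, ∀ v, v ∉ A → J c u v = JB c u v := by
    intro c u hu v hv; simp [J, hu, hv, hdBA u hu]
  have JBr : ∀ c, ∀ u, u ∉ A → ∀ v ∈ B, J c u v = JB c u v := by
    intro c u hu v hv; simp [J, hu, hv, hdBA v hv]
  have Jxx : ∀ c, J c x x = 0 := by
    intro c; simp [J, hxA, hxB, hxy]
  have Jyy : ∀ c, J c y y = 0 := by
    intro c; simp [J, hyA, hyB, hxy.symm]
  have Jxy : ∀ c, J c x y = if c ∈ M then 1 else 0 := by
    intro c; simp [J, hxA, hxB, hyA, hyB]
  have Jyx : ∀ c, J c y x = if c ∈ M then 1 else 0 := by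
    intro c; simp [J, hxA, hxB, hyA, hyB]
  have gvx : ∀ c, g c x = 1 - bet (JA (σ c)) A x - bet (JB c) B x - (if c ∈ M then 1 else 0) := by
    intro c; simp [g, hxA, hxB]
  have gvy : ∀ c, g c y = 1 - bet (JA (σ c)) A y - bet (JB c) B y - (if c ∈ M then 1 else 0) := by
    intro c; simp [g, hyA, hyB, hxy.symm]
  have gvA : ∀ c, ∀ v ∈ A, g c v = gA (σ c) v := by
    intro c v hv; simp [g, hv]
  have gvB : ∀ c, ∀ v ∈ B, g c v = gB c v := by
    intro c v hv; simp [g, hv, hdBA v hv]
  have totx : ∀ c, bet (JA (σ c)) A x + bet (JB c) B x + (if c ∈ M then 1 else 0) + g c x = 1 := by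
    intro c
    rw [gvx]
    have := hxx c
    split_ifs with hc
    · have := hMx c hc
      omega
    · omega
  have toty : ∀ c, bet (JA (σ c)) A y + bet (JB c) B y + (if c ∈ M then 1 else 0) + g c y = 1 := by
    intro c
    rw [gvy]
    have := hyy c
    split_ifs with hc
    · have := hMx c hc
      omega
    · omega
  have sumAx : ∀ v, v = x ∨ v = y → ∑ c, bet (JA (σ c)) A v = bet m A v := by
    intro v hv
    rw [Equiv.sum_comp σ (fun c => bet (JA c) A v)]
    unfold bet
    rw [Finset.sum_comm]
    refine Finset.sum_congr rfl fun b hb => hA.sum v ?_ b hb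
    rcases hv with rfl | rfl <;> simp
  have sumBx : ∀ v, v = x ∨ v = y → ∑ c, bet (JB c) B v = bet m B v := by
    intro v hv
    unfold bet
    rw [Finset.sum_comm]
    refine Finset.sum_congr rfl fun b hb => hB.sum v ?_ b hb
    rcases hv with rfl | rfl <;> simp
  have hsymJ : ∀ c, ∀ u ∈ W, ∀ v ∈ W, J c u v = J c v u := by
    intro c u hu v hv
    rw [hmemW] at hu hv
    rcases hu with rfl | rfl | hu | hu
    · rcases hv with rfl | rfl | hv | hv
      · rfl
      · rw [Jxy, Jyx]
      · rw [JAr c _ hxB v hv, JAl c v hv _ hxB]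
        exact hA.symm _ _ (by simp) _ (by simp [hv])
      · rw [JBr c _ hxA v hv, JBl c v hv _ hxA]
        exact hB.symm _ _ (by simp) _ (by simp [hv])
    · rcases hv with rfl | rfl | hv | hv
      · rw [Jxy, Jyx]
      · rfl
      · rw [JAr c _ hyB v hv, JAl c v hv _ hyB]
        exact hA.symm _ _ (by simp) _ (by simp [hv])
      · rw [JBr c _ hyA v hv, JBl c v hv _ hyA]
        exact hB.symm _ _ (by simp) _ (by simp [hv])
    · rcases hv with rfl | rfl | hv | hv
      · rw [JAl c u hu _ hxB, JAr c _ hxB u hu]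
        exact hA.symm _ _ (by simp [hu]) _ (by simp)
      · rw [JAl c u hu _ hyB, JAr c _ hyB u hu]
        exact hA.symm _ _ (by simp [hu]) _ (by simp)
      · rw [JAl c u hu _ (hdAB v hv), JAl c v hv _ (hdAB u hu)]
        exact hA.symm _ _ (by simp [hu]) _ (by simp [hv])
      · rw [JAB c u hu v hv, JBA c v hv u hu]
    · rcases hv with rfl | rfl | hv | hv
      · rw [JBl c u hu _ hxA, JBr c _ hxA u hu]
        exact hB.symm _ _ (by simp [hu]) _ (by simp)
      · rw [JBl c u hu _ hyA, JBr c _ hyA u hu]
        exact hB.symm _ _ (by simp [hu]) _ (by simp)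
      · rw [JBA c u hu v hv, JAB c v hv u hu]
      · rw [JBl c u hu _ (hdBA v hv), JBl c v hv _ (hdBA u hu)]
        exact hB.symm _ _ (by simp [hu]) _ (by simp [hv])
  have hsumJr : ∀ u ∈ W, ∀ v, v ∈ A ∨ v ∈ B → ∑ c, J c u v = m u v := by
    intro u hu v hv
    rw [hmemW] at hu
    rcases hv with hv | hv
    · by_cases huB : u ∈ B
      · have : m u v = 0 := by
          rw [h.symm u (by rw [hmemW]; tauto) v (by rw [hmemW]; tauto)]
          exact hm v hv u huB
        rw [this]
        exact Finset.sum_eq_zero fun c _ => JBA c u huB v hv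
      · have e : ∑ c, J c u v = ∑ c, JA (σ c) u v :=
          Finset.sum_congr rfl fun c _ => JAr c u huB v hv
        rw [e, Equiv.sum_comp σ (fun c => JA c u v)]
        refine hA.sum u ?_ v hv
        simp only [Finset.mem_insert]
        tauto
    · by_cases huA : u ∈ A
      · rw [hm u huA v hv]
        exact Finset.sum_eq_zero fun c _ => JAB c u huA v hv
      · have e : ∑ c, J c u v = ∑ c, JB c u v :=
          Finset.sum_congr rfl fun c _ => JBr c u huA v hv
        rw [e]
        refine hB.sum u ?_ v hv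
        simp only [Finset.mem_insert]
        tauto
  have hsumJ : ∀ u ∈ W, ∀ v ∈ W, ∑ c, J c u v = m u v := by
    intro u hu v hv
    have hv' := (hmemW v).1 hv
    have hu' := (hmemW u).1 hu
    by_cases h3 : v ∈ A ∨ v ∈ B
    · exact hsumJr u hu v h3
    by_cases h4 : u ∈ A ∨ u ∈ B
    · rw [h.symm u hu v hv, ← hsumJr v hv u h4]
      exact Finset.sum_congr rfl fun c _ => hsymJ c u hu v hv
    have hv2 : v = x ∨ v = y := by tauto
    have hu2 : u = x ∨ u = y := by tauto
    rcases hu2 with rfl | rfl
    · rcases hv2 with rfl | rfl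
      · rw [h.loopless _ hxW]
        exact Finset.sum_eq_zero fun c _ => Jxx c
      · rw [Finset.sum_congr rfl fun c _ => Jxy c]
        exact hMsum
    · rcases hv2 with rfl | rfl
      · rw [Finset.sum_congr rfl fun c _ => Jyx c, h.symm _ hyW _ hxW]
        exact hMsum
      · rw [h.loopless _ hyW]
        exact Finset.sum_eq_zero fun c _ => Jyy c
  refine ⟨J, g, hsymJ, hsumJ, ?_, ?_⟩
  · intro v hv
    rw [hmemW] at hv
    rcases hv with rfl | rfl | hv | hv
    · have := Finset.sum_congr (rfl : (univ : Finset (Fin r)) = univ) fun c _ => totx c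
      rw [Finset.sum_add_distrib, Finset.sum_add_distrib, Finset.sum_add_distrib,
        sumAx _ (Or.inl rfl), sumBx _ (Or.inl rfl), hMsum] at this
      simp only [Finset.sum_const, Finset.card_univ, Fintype.card_fin, smul_eq_mul,
        mul_one] at this
      omega
    · have := Finset.sum_congr (rfl : (univ : Finset (Fin r)) = univ) fun c _ => toty c
      rw [Finset.sum_add_distrib, Finset.sum_add_distrib, Finset.sum_add_distrib,
        sumAx _ (Or.inr rfl), sumBx _ (Or.inr rfl), hMsum] at this
      simp only [Finset.sum_const, Finset.card_univ, Fintype.card_fin, smul_eq_mul,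
        mul_one] at this
      omega
    · rw [Finset.sum_congr rfl fun c _ => gvA c v hv,
        Equiv.sum_comp σ (fun c => gA c v)]
      exact hA.gsum v hv
    · rw [Finset.sum_congr rfl fun c _ => gvB c v hv]
      exact hB.gsum v hv
  · intro c v hv
    rw [hmemW] at hv
    rw [hsumW]
    rcases hv with rfl | rfl | hv | hv
    · have e1 : ∑ a ∈ A, J c v a = bet (JA (σ c)) A v :=
        Finset.sum_congr rfl fun a ha => JAr c v hxB a ha
      have e2 : ∑ b ∈ B, J c v b = bet (JB c) B v :=
        Finset.sum_congr rfl fun a ha => JBr c v hxA a ha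
      rw [e1, e2, Jxx, Jxy]
      have := totx c
      have e : 0 + (if c ∈ M then 1 else 0) + bet (JA (σ c)) A v + bet (JB c) B v + g c v = 1 := by
        omega
      rw [e]
      exact odd_one
    · have e1 : ∑ a ∈ A, J c v a = bet (JA (σ c)) A v :=
        Finset.sum_congr rfl fun a ha => JAr c v hyB a ha
      have e2 : ∑ b ∈ B, J c v b = bet (JB c) B v :=
        Finset.sum_congr rfl fun a ha => JBr c v hyA a ha
      rw [e1, e2, Jyy, Jyx]
      have := toty c
      have e : (if c ∈ M then 1 else 0) + 0 + bet (JA (σ c)) A v + bet (JB c) B v + g c v = 1 := by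
        omega
      rw [e]
      exact odd_one
    · have e0 : ∑ b ∈ B, J c v b = 0 := Finset.sum_eq_zero fun b hb => JAB c v hv b hb
      have e1 : ∑ a ∈ A, J c v a = ∑ a ∈ A, JA (σ c) v a :=
        Finset.sum_congr rfl fun a ha => JAl c v hv a (hdAB a ha)
      rw [e0, e1, JAl c v hv x hxB, JAl c v hv y hyB, gvA c v hv]
      have := hA.odd (σ c) v hv
      rw [hsumA] at this
      exact this
    · have e0 : ∑ b ∈ A, J c v b = 0 := Finset.sum_eq_zero fun b hb => JBA c v hv b hb
      have e1 : ∑ a ∈ B, J c v a = ∑ a ∈ B, JB c v a :=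
        Finset.sum_congr rfl fun a ha => JBl c v hv a (hdBA a ha)
      rw [e0, e1, JBl c v hv x hxA, JBl c v hv y hyA, gvB c v hv]
      have := hB.odd c v hv
      rw [hsumB] at this
      exact this

end PStar
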