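import Pool.Agent.PStar.Basic0

set_option autoImplicit false

namespace PStar

open Finset

variable {V : Type*} [DecidableEq V] {W : Finset V} {m : V → V → ℕ} {f k : V → ℕ} {r : ℕ}
  {x y : V} {A B : Finset V}

/-- The sum over the vertices of the piece. -/
private theorem R1Side_sum {a : V} (hxy : x ≠ y) (hxB : x ∉ B) (hyB : y ∉ B)
    (ha : a ∉ insert x (insert y B)) (h : V → ℕ) :
    ∑ u ∈ p1W x y a B, h u = h a + (h x + (h y + ∑ u ∈ B, h u)) := by
  have h1 : x ∉ insert y B := by
    rw [mem_insert]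
    push Not
    exact ⟨hxy, hxB⟩
  unfold p1W
  rw [sum_insert ha, sum_insert h1, sum_insert hyB]

/-- A decomposition of the piece gives a family of partial colourings of the side `B`. -/
theorem R1_side (h : IsZG W m f k r) (hs : Sep2 W m k x y A B) {t : ℕ}
    (ht : Rng m f r x y B t) {a : V} (ha : a ∉ insert x (insert y B))
    (hd : Dec (p1W x y a B) (pieceM m r x y a B t) (pieceF m f r x y a B t) r) :
    ∃ J g, SideCol m f r x y B t J g := by
  classical
  obtain ⟨J, g, hJs, hJm, hgf, hodd⟩ := hd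
  have hxy := hs.hxy
  have hxB := hs.hxB
  have hyB := hs.hyB
  have hax : a ≠ x := fun h0 => ha (by rw [h0]; exact mem_insert_self _ _)
  have hay : a ≠ y := fun h0 => ha (by rw [h0]; simp)
  have haB : a ∉ B := fun h0 => ha (by simp [h0])
  have hxW : x ∈ W := by rw [hs.hW]; simp
  have hyW : y ∈ W := by rw [hs.hW]; simp
  have hxx : m x x = 0 := h.loopless x hxW
  have hyy : m y y = 0 := h.loopless y hyW
  have hPx : x ∈ p1W x y a B := by simp [p1W]
  have hPy : y ∈ p1W x y a B := by simp [p1W]
  have hPa : a ∈ p1W x y a B := by simp [p1W]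
  have hPB : ∀ v ∈ B, v ∈ p1W x y a B := fun v hv => by simp [p1W, hv]
  have hPs : ∀ v ∈ insert x (insert y B), v ∈ p1W x y a B := fun v hv => by
    unfold p1W
    exact mem_insert_of_mem hv
  have hBx : ∀ v ∈ B, v ≠ x := fun v hv h0 => hxB (h0 ▸ hv)
  have hBy : ∀ v ∈ B, v ≠ y := fun v hv h0 => hyB (h0 ▸ hv)
  have hBa : ∀ v ∈ B, v ≠ a := fun v hv h0 => haB (h0 ▸ hv)
  have lex := ht.lex
  have ley := ht.ley
  have hge := ht.ge
  -- the values of the multiplicities
  have Mxx : pieceM m r x y a B t x x = 0 := by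
    simp [pieceM, p1M, hxy, hax.symm, hxx]
  have Myy : pieceM m r x y a B t y y = 0 := by
    simp [pieceM, p1M, hxy.symm, hay.symm, hyy]
  have Maa : pieceM m r x y a B t a a = 0 := by
    simp [pieceM, p1M, hax, hay]
  have Mxy : pieceM m r x y a B t x y = r + t - bet m B x - bet m B y := by
    simp [pieceM, p1M]
  have Myx : pieceM m r x y a B t y x = r + t - bet m B x - bet m B y := by
    simp [pieceM, p1M]
  have Mxa : pieceM m r x y a B t x a = bet m B y - t := by
    simp [pieceM, p1M, hay, hxy]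
  have Max : pieceM m r x y a B t a x = bet m B y - t := by
    simp [pieceM, p1M, hax, hay]
  have Mya : pieceM m r x y a B t y a = bet m B x - t := by
    simp [pieceM, p1M, hax, hxy.symm, hay.symm]
  have May : pieceM m r x y a B t a y = bet m B x - t := by
    simp [pieceM, p1M, hax, hay, hay.symm, hxy.symm]
  have MxB : ∀ v ∈ B, pieceM m r x y a B t x v = m x v := fun v hv => by
    simp [pieceM, p1M, hBx v hv, hBy v hv, hBa v hv, hxy, hax.symm]
  have MyB : ∀ v ∈ B, pieceM m r x y a B t y v = m y v := fun v hv => by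
    simp [pieceM, p1M, hBx v hv, hBy v hv, hBa v hv, hxy.symm, hay.symm]
  have MaB : ∀ v ∈ B, pieceM m r x y a B t a v = 0 := fun v hv => by
    simp [pieceM, p1M, hBx v hv, hBy v hv, hax, hay]
  have MBa : ∀ v ∈ B, pieceM m r x y a B t v a = 0 := fun v hv => by
    simp [pieceM, p1M, hBx v hv, hBy v hv, hBa v hv, hax, hay]
  have MBB : ∀ u ∈ B, ∀ v ∈ B, pieceM m r x y a B t u v = m u v := fun u hu v hv => by
    simp [pieceM, p1M, hBx v hv, hBy v hv, hBa v hv, hBx u hu, hBy u hu, hBa u hu]
  have Fx : pieceF m f r x y a B t x = 0 := by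
    simp [pieceF, p1F, hax.symm]
  have Fy : pieceF m f r x y a B t y = 0 := by
    simp [pieceF, p1F, hay.symm]
  have Fa : pieceF m f r x y a B t a = r + 2 * t - bet m B x - bet m B y := by
    simp [pieceF, p1F]
  have FB : ∀ v ∈ B, pieceF m f r x y a B t v = f v := fun v hv => by
    simp [pieceF, p1F, hBx v hv, hBy v hv, hBa v hv]
  -- sums over the colours which vanish
  have zero : ∀ (F : Fin r → ℕ), ∑ c, F c = 0 → ∀ c, F c = 0 := fun F hF c =>
    (Finset.sum_eq_zero_iff.1 hF) c (mem_univ c)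
  have Jxx : ∀ c, J c x x = 0 := zero _ (by rw [hJm x hPx x hPx, Mxx])
  have Jyy : ∀ c, J c y y = 0 := zero _ (by rw [hJm y hPy y hPy, Myy])
  have gx : ∀ c, g c x = 0 := zero _ (by rw [hgf x hPx, Fx])
  have gy : ∀ c, g c y = 0 := zero _ (by rw [hgf y hPy, Fy])
  have JBa : ∀ v ∈ B, ∀ c, J c v a = 0 := fun v hv => zero _ (by rw [hJm v (hPB v hv) a hPa, MBa v hv])
  -- the degrees
  have dx : ∑ u ∈ p1W x y a B, pieceM m r x y a B t x u + pieceF m f r x y a B t x = r := by
    rw [R1Side_sum hxy hxB hyB ha, Mxa, Mxx, Mxy, Fx, sum_congr rfl MxB]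
    change bet m B y - t + (0 + (r + t - bet m B x - bet m B y + bet m B x)) + 0 = r
    omega
  have dy : ∑ u ∈ p1W x y a B, pieceM m r x y a B t y u + pieceF m f r x y a B t y = r := by
    rw [R1Side_sum hxy hxB hyB ha, Mya, Myx, Myy, Fy, sum_congr rfl MyB]
    change bet m B x - t + (r + t - bet m B x - bet m B y + (0 + bet m B y)) + 0 = r
    omega
  have da : ∑ u ∈ p1W x y a B, pieceM m r x y a B t a u + pieceF m f r x y a B t a = r := by
    rw [R1Side_sum hxy hxB hyB ha, Maa, Max, May, Fa, sum_congr rfl MaB]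
    simp only [sum_const_zero]
    omega
  have ox : ∀ c, J c x a + (J c x y + bet (J c) B x) = 1 := fun c => by
    have h1 := dec_one hPx dx (fun u hu => hJm x hPx u hu) (hgf x hPx) (fun c => hodd c x hPx) c
    rw [R1Side_sum hxy hxB hyB ha, Jxx, gx] at h1
    unfold bet
    omega
  have oy : ∀ c, J c y a + (J c x y + bet (J c) B y) = 1 := fun c => by
    have h1 := dec_one hPy dy (fun u hu => hJm y hPy u hu) (hgf y hPy) (fun c => hodd c y hPy) c
    rw [R1Side_sum hxy hxB hyB ha, Jyy, gy, hJs c y hPy x hPx] at h1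
    unfold bet
    omega
  have oa : ∀ c, J c x a + J c y a ≤ 1 := fun c => by
    have h1 := dec_one hPa da (fun u hu => hJm a hPa u hu) (hgf a hPa) (fun c => hodd c a hPa) c
    rw [R1Side_sum hxy hxB hyB ha, hJs c a hPa x hPx, hJs c a hPa y hPy] at h1
    omega
  refine ⟨J, g, ?_, ?_, ?_, ?_, ?_, ?_, ?_⟩
  · intro c u hu v hv
    exact hJs c u (hPs u hu) v (hPs v hv)
  · intro u hu v hv
    rw [hJm u (hPs u hu) v (hPB v hv)]
    simp only [mem_insert] at hu
    rcases hu with rfl | rfl | hu
    · exact MxB v hv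
    · exact MyB v hv
    · exact MBB u hu v hv
  · intro v hv
    rw [hgf v (hPB v hv), FB v hv]
  · intro c v hv
    have h1 := hodd c v (hPB v hv)
    have h2 : ∑ u ∈ p1W x y a B, J c v u = J c v a + ∑ u ∈ insert x (insert y B), J c v u := by
      unfold p1W
      rw [sum_insert ha]
    rw [h2, JBa v hv c, zero_add] at h1
    exact h1
  · intro c
    have := ox c
    omega
  · intro c
    have := oy c
    omega
  · -- the number of colours
    have hc : ∀ c : Fin r, (if bet (J c) B x = 1 ∧ bet (J c) B y = 1 then 1 else 0) +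
        (J c x a + (J c y a + J c x y)) = 1 := by
      intro c
      have h1 := ox c
      have h2 := oy c
      have h3 := oa c
      split_ifs with h4
      · omega
      · omega
    have h1 : ∑ c : Fin r, ((if bet (J c) B x = 1 ∧ bet (J c) B y = 1 then 1 else 0) +
        (J c x a + (J c y a + J c x y))) = r := by
      rw [sum_congr rfl (fun c _ => hc c)]
      simp
    rw [sum_add_distrib, sum_add_distrib, sum_add_distrib, hJm x hPx a hPa, hJm y hPy a hPa,
      hJm x hPx y hPy, Mxa, Mya, Mxy, ← card_filter] at h1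
    omega

end PStar
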