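import Pool.Agent.PStar.R2Arith
import Pool.Agent.PStar.BasicC
import Pool.Agent.PStar.Perm

set_option autoImplicit false

namespace PStar

open Finset

variable {V : Type*} [DecidableEq V] {W : Finset V} {m : V → V → ℕ} {f k : V → ℕ} {r : ℕ}
  {x y w : V} {A B : Finset V}

/-- the type of a triple of bits -/
private def ty (a b c : ℕ) : Fin 4 :=
  if a = 1 ∧ b = 1 then 1 else if a = 1 ∧ c = 1 then 2 else if b = 1 ∧ c = 1 then 3 else 0

/-- the virtual edge of a colour of type `i` -/
private def vir (x y w : V) (i : Fin 4) : V → V → ℕ := fun u v =>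
    (if (u = x ∧ v = y) ∨ (u = y ∧ v = x) then (if i = 1 then 1 else 0) else 0) +
    (if (u = x ∧ v = w) ∨ (u = w ∧ v = x) then (if i = 2 then 1 else 0) else 0) +
    (if (u = y ∧ v = w) ∨ (u = w ∧ v = y) then (if i = 3 then 1 else 0) else 0)

private lemma sum_vir (x y w : V) (t : Fin r → Fin 4) (u v : V) :
    ∑ c, vir x y w (t c) u v =
    (if (u = x ∧ v = y) ∨ (u = y ∧ v = x) then (univ.filter (fun c => t c = 1)).card else 0) +
    (if (u = x ∧ v = w) ∨ (u = w ∧ v = x) then (univ.filter (fun c => t c = 2)).card else 0) +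
    (if (u = y ∧ v = w) ∨ (u = w ∧ v = y) then (univ.filter (fun c => t c = 3)).card else 0) := by
  unfold vir
  rw [sum_add_distrib, sum_add_distrib]
  congr 1
  · congr 1
    · split_ifs <;> simp
    · split_ifs <;> simp
  · split_ifs <;> simp

private lemma vir_comm (x y w : V) (i : Fin 4) (u v : V) :
    vir x y w i u v = vir x y w i v u := by
  unfold vir
  congr 1
  · congr 1
    · congr 1; simp only [eq_iff_iff]; tauto
    · congr 1; simp only [eq_iff_iff]; tauto
  · congr 1; simp only [eq_iff_iff]; tauto

private lemma vir_le (x y w : V) (i : Fin 4) (u v : V) (N : ℕ)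
    (h1 : i = 1 → ((u = x ∧ v = y) ∨ (u = y ∧ v = x)) → 1 ≤ N)
    (h2 : i = 2 → ((u = x ∧ v = w) ∨ (u = w ∧ v = x)) → 1 ≤ N)
    (h3 : i = 3 → ((u = y ∧ v = w) ∨ (u = w ∧ v = y)) → 1 ≤ N) : vir x y w i u v ≤ N := by
  unfold vir
  fin_cases i
  · simp
  · by_cases q : (u = x ∧ v = y) ∨ (u = y ∧ v = x)
    · have := h1 rfl q
      simpa [q] using this
    · simp [q]
  · by_cases q : (u = x ∧ v = w) ∨ (u = w ∧ v = x)
    · have := h2 rfl q
      simpa [q] using this
    · simp [q]
  · by_cases q : (u = y ∧ v = w) ∨ (u = w ∧ v = y)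
    · have := h3 rfl q
      simpa [q] using this
    · simp [q]

private lemma card_eq_sum_of_le_one (a : Fin r → ℕ) (h : ∀ c, a c ≤ 1) :
    (univ.filter (fun c => a c = 1)).card = ∑ c, a c := by
  rw [Finset.card_filter]
  refine Finset.sum_congr rfl fun c _ => ?_
  have := h c
  split_ifs with h1
  · exact h1.symm
  · omega

private lemma fiber_zero (s t : Fin r → Fin 4)
    (h : ∀ i : Fin 4, i ≠ 0 → (univ.filter (fun c => s c = i)).card =
      (univ.filter (fun c => t c = i)).card) (i : Fin 4) :
    (univ.filter (fun c => s c = i)).card = (univ.filter (fun c => t c = i)).card := by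
  by_cases hi : i = 0
  · subst hi
    have e1 : ∀ q : Fin r → Fin 4, ∑ i, (univ.filter (fun c => q c = i)).card = r := by
      intro q
      have := Finset.card_eq_sum_card_fiberwise (f := q) (s := univ) (t := univ)
        (fun _ _ => by simp)
      simpa using this.symm
    have h1 := e1 s
    have h2 := e1 t
    rw [Fin.sum_univ_four] at h1 h2
    have a1 := h 1 (by decide)
    have a2 := h 2 (by decide)
    have a3 := h 3 (by decide)
    omega
  · exact h i hi

private lemma ty_facts {a b c : ℕ} (ha : a ≤ 1) (hb : b ≤ 1) (hc : c ≤ 1)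
    (hp : (a + b + c) % 2 = 0) :
    2 * (if ty a b c = 1 then 1 else 0) + c = a + b ∧
    2 * (if ty a b c = 2 then 1 else 0) + b = a + c ∧
    2 * (if ty a b c = 3 then 1 else 0) + a = b + c := by
  interval_cases a <;> interval_cases b <;> interval_cases c <;> simp_all [ty]

/-- Gluing, `|B|` even. -/
theorem R2_glue_even (h : IsZG W m f k r) (hs : Sep3 W m f k x y w A B) (he : Even B.card)
    {J : Fin r → V → V → ℕ} (hJ : SideCol3 m r x y w B J)
    (hd : Dec (insert x (insert y (insert w A))) (triM x y w B m) f r) : Dec W m f r := by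
  obtain ⟨hcutB, hpar, -, htri⟩ := R2_arith h hs
  obtain ⟨ht1, ht2, ht3⟩ := htri he
  have htz := R2_tri h hs he
  obtain ⟨J0, g0, hsym, hsum, hgsum, hodd⟩ := hd
  have hxy := hs.hxy
  have hxw := hs.hxw
  have hyw := hs.hyw
  have hxA := hs.hxA
  have hyA := hs.hyA
  have hwA := hs.hwA
  have hxB := hs.hxB
  have hyB := hs.hyB
  have hwB := hs.hwB
  have hxP : x ∈ insert x (insert y (insert w A)) := by simp
  have hyP : y ∈ insert x (insert y (insert w A)) := by simp
  have hwP : w ∈ insert x (insert y (insert w A)) := by simp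
  have hpar2 : (bet m B x + bet m B y + bet m B w) % 2 = 0 := by
    rw [hpar, Nat.mul_mod, Nat.even_iff.mp he]; simp
  have hone : ∀ v ∈ insert x (insert y (insert w A)), k v = 0 → ∀ c,
      ∑ u ∈ insert x (insert y (insert w A)), J0 c v u + g0 c v = 1 := by
    intro v hv hk c
    exact dec_one hv (by have := htz.degree v hv; rw [hk] at this; simpa using this)
      (fun u hu => hsum v hv u hu) (hgsum v hv) (fun c => hodd c v hv) c
  -- expansion of sums over P
  have hexp : ∀ F : V → ℕ, ∑ u ∈ insert x (insert y (insert w A)), F u =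
      F x + F y + F w + ∑ u ∈ A, F u := by
    intro F
    rw [sum_insert (by simp [hxy, hxw, hxA]), sum_insert (by simp [hyw, hyA]),
      sum_insert hwA]
    ring
  have o1 : ∀ c, J0 c x y + J0 c x w ≤ 1 := by
    intro c
    have := hone x hxP hs.hkx c
    rw [hexp] at this; omega
  have o2 : ∀ c, J0 c y x + J0 c y w ≤ 1 := by
    intro c
    have := hone y hyP hs.hky c
    rw [hexp] at this; omega
  have o3 : ∀ c, J0 c w x + J0 c w y ≤ 1 := by
    intro c
    have := hone w hwP hs.hkw c
    rw [hexp] at this; omega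
  have sxy : ∀ c, J0 c y x = J0 c x y := fun c => hsym c y hyP x hxP
  have sxw : ∀ c, J0 c w x = J0 c x w := fun c => hsym c w hwP x hxP
  have syw : ∀ c, J0 c w y = J0 c y w := fun c => hsym c w hwP y hyP
  have o2' : ∀ c, J0 c x y + J0 c y w ≤ 1 := fun c => by have := o2 c; rw [sxy] at this; exact this
  have o3' : ∀ c, J0 c x w + J0 c y w ≤ 1 := fun c => by
    have := o3 c; rw [sxw, syw] at this; exact this
  -- the colours using the triangle edges
  have c1 : (univ.filter (fun c => J0 c x y = 1)).card =
      m x y + (bet m B x + bet m B y - bet m B w) / 2 := by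
    rw [card_eq_sum_of_le_one _ (fun c => by have := o1 c; omega), hsum x hxP y hyP]
    simp [triM, hxy, hxw, hyw, hxy.symm, hxw.symm, hyw.symm]
  have c2 : (univ.filter (fun c => J0 c x w = 1)).card =
      m x w + (bet m B x + bet m B w - bet m B y) / 2 := by
    rw [card_eq_sum_of_le_one _ (fun c => by have := o1 c; omega), hsum x hxP w hwP]
    simp [triM, hxy, hxw, hyw, hxy.symm, hxw.symm, hyw.symm]
  have c3 : (univ.filter (fun c => J0 c y w = 1)).card =
      m y w + (bet m B y + bet m B w - bet m B x) / 2 := by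
    rw [card_eq_sum_of_le_one _ (fun c => by have := o2 c; omega), hsum y hyP w hwP]
    simp [triM, hxy, hxw, hyw, hxy.symm, hxw.symm, hyw.symm]
  obtain ⟨V1, hV1, hV1c⟩ := Finset.exists_subset_card_eq
    (s := univ.filter (fun c => J0 c x y = 1)) (n := (bet m B x + bet m B y - bet m B w) / 2)
    (by rw [c1]; omega)
  obtain ⟨V2, hV2, hV2c⟩ := Finset.exists_subset_card_eq
    (s := univ.filter (fun c => J0 c x w = 1)) (n := (bet m B x + bet m B w - bet m B y) / 2)
    (by rw [c2]; omega)
  obtain ⟨V3, hV3, hV3c⟩ := Finset.exists_subset_card_eq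
    (s := univ.filter (fun c => J0 c y w = 1)) (n := (bet m B y + bet m B w - bet m B x) / 2)
    (by rw [c3]; omega)
  have m1 : ∀ c ∈ V1, J0 c x y = 1 := fun c hc => by simpa using hV1 hc
  have m2 : ∀ c ∈ V2, J0 c x w = 1 := fun c hc => by simpa using hV2 hc
  have m3 : ∀ c ∈ V3, J0 c y w = 1 := fun c hc => by simpa using hV3 hc
  have n21 : ∀ c ∈ V2, c ∉ V1 := fun c hc h1 => by
    have := m1 c h1; have := m2 c hc; have := o1 c; omega
  have n31 : ∀ c ∈ V3, c ∉ V1 := fun c hc h1 => by
    have := m1 c h1; have := m3 c hc; have := o2' c; omega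
  have n32 : ∀ c ∈ V3, c ∉ V2 := fun c hc h1 => by
    have := m2 c h1; have := m3 c hc; have := o3' c; omega
  let s : Fin r → Fin 4 := fun c => if c ∈ V1 then 1 else if c ∈ V2 then 2 else
    if c ∈ V3 then 3 else 0
  have hs_def : ∀ c, s c = if c ∈ V1 then 1 else if c ∈ V2 then 2 else
    if c ∈ V3 then 3 else 0 := fun c => rfl
  have s1 : ∀ c, s c = 1 ↔ c ∈ V1 := by
    intro c
    rw [hs_def]
    split_ifs with a b d
    · simp [a]
    · simp [a]
    · simp [a]
    · simp [a]
  have s2 : ∀ c, s c = 2 ↔ c ∈ V2 := by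
    intro c
    rw [hs_def]
    split_ifs with a b d
    · simp only [show ((1 : Fin 4) = 2) = False by decide, false_iff]
      intro hb; exact n21 c hb a
    · simp [b]
    · simp [b]
    · simp [b]
  have s3 : ∀ c, s c = 3 ↔ c ∈ V3 := by
    intro c
    rw [hs_def]
    split_ifs with a b d
    · simp only [show ((1 : Fin 4) = 3) = False by decide, false_iff]
      intro hb; exact n31 c hb a
    · simp only [show ((2 : Fin 4) = 3) = False by decide, false_iff]
      intro hb; exact n32 c hb b
    · simp [d]
    · simp [d]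
  -- the types on the side of `B`
  let t : Fin r → Fin 4 := fun c => ty (bet (J c) B x) (bet (J c) B y) (bet (J c) B w)
  have ht_def : ∀ c, t c = ty (bet (J c) B x) (bet (J c) B y) (bet (J c) B w) := fun c => rfl
  have tf : ∀ c, 2 * (if t c = 1 then 1 else 0) + bet (J c) B w = bet (J c) B x + bet (J c) B y ∧
      2 * (if t c = 2 then 1 else 0) + bet (J c) B y = bet (J c) B x + bet (J c) B w ∧
      2 * (if t c = 3 then 1 else 0) + bet (J c) B x = bet (J c) B y + bet (J c) B w := by
    intro c
    exact ty_facts (hJ.x1 c) (hJ.y1 c) (hJ.w1 c) (by rw [hJ.par c]; exact Nat.even_iff.mp he)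
  have bsum : ∀ u ∈ insert x (insert y (insert w B)), ∑ c, bet (J c) B u = bet m B u := by
    intro u hu
    unfold bet
    rw [sum_comm]
    exact sum_congr rfl fun v hv => hJ.sum u hu v hv
  have bx := bsum x (by simp)
  have by' := bsum y (by simp)
  have bw := bsum w (by simp)
  have T1 : (univ.filter (fun c => t c = 1)).card = (bet m B x + bet m B y - bet m B w) / 2 := by
    have e : ∑ c, (2 * (if t c = 1 then 1 else 0) + bet (J c) B w) =
        ∑ c, (bet (J c) B x + bet (J c) B y) := sum_congr rfl fun c _ => (tf c).1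
    rw [sum_add_distrib, sum_add_distrib, ← mul_sum, bx, by', bw, ← card_filter] at e
    omega
  have T2 : (univ.filter (fun c => t c = 2)).card = (bet m B x + bet m B w - bet m B y) / 2 := by
    have e : ∑ c, (2 * (if t c = 2 then 1 else 0) + bet (J c) B y) =
        ∑ c, (bet (J c) B x + bet (J c) B w) := sum_congr rfl fun c _ => (tf c).2.1
    rw [sum_add_distrib, sum_add_distrib, ← mul_sum, bx, by', bw, ← card_filter] at e
    omega
  have T3 : (univ.filter (fun c => t c = 3)).card = (bet m B y + bet m B w - bet m B x) / 2 := by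
    have e : ∑ c, (2 * (if t c = 3 then 1 else 0) + bet (J c) B x) =
        ∑ c, (bet (J c) B y + bet (J c) B w) := sum_congr rfl fun c _ => (tf c).2.2
    rw [sum_add_distrib, sum_add_distrib, ← mul_sum, bx, by', bw, ← card_filter] at e
    omega
  obtain ⟨σ, hσ⟩ := exists_perm_of_fiber s t (fiber_zero s t (by
    intro i hi
    fin_cases i
    · exact absurd rfl hi
    · change (univ.filter (fun c => s c = 1)).card = (univ.filter (fun c => t c = 1)).card
      rw [T1, ← hV1c]; congr 1; ext c; simp [s1]
    · change (univ.filter (fun c => s c = 2)).card = (univ.filter (fun c => t c = 2)).card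
      rw [T2, ← hV2c]; congr 1; ext c; simp [s2]
    · change (univ.filter (fun c => s c = 3)).card = (univ.filter (fun c => t c = 3)).card
      rw [T3, ← hV3c]; congr 1; ext c; simp [s3]))
  -- the virtual edge is present
  have hvle : ∀ c, ∀ u ∈ insert x (insert y (insert w A)),
      ∀ v ∈ insert x (insert y (insert w A)), vir x y w (t c) u v ≤ J0 (σ c) u v := by
    intro c u hu v hv
    have d1 : t c = 1 → J0 (σ c) x y = 1 := fun hh => m1 _ ((s1 _).1 (by rw [hσ, hh]))
    have d2 : t c = 2 → J0 (σ c) x w = 1 := fun hh => m2 _ ((s2 _).1 (by rw [hσ, hh]))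
    have d3 : t c = 3 → J0 (σ c) y w = 1 := fun hh => m3 _ ((s3 _).1 (by rw [hσ, hh]))
    refine vir_le _ _ _ _ _ _ _ ?_ ?_ ?_
    · rintro hh (⟨rfl, rfl⟩ | ⟨rfl, rfl⟩)
      · exact (d1 hh).ge
      · rw [sxy]; exact (d1 hh).ge
    · rintro hh (⟨rfl, rfl⟩ | ⟨rfl, rfl⟩)
      · exact (d2 hh).ge
      · rw [sxw]; exact (d2 hh).ge
    · rintro hh (⟨rfl, rfl⟩ | ⟨rfl, rfl⟩)
      · exact (d3 hh).ge
      · rw [syw]; exact (d3 hh).ge
  -- row sums of the virtual edges
  have vA : ∀ i, ∀ u ∈ A, ∀ v, vir x y w i u v = 0 := by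
    intro i u hu v
    have a1 : u ≠ x := fun e => hxA (e ▸ hu)
    have a2 : u ≠ y := fun e => hyA (e ▸ hu)
    have a3 : u ≠ w := fun e => hwA (e ▸ hu)
    simp [vir, a1, a2, a3]
  have vA' : ∀ i v, ∑ u ∈ A, vir x y w i v u = 0 := by
    intro i v
    exact sum_eq_zero fun u hu => by rw [vir_comm]; exact vA i u hu v
  have rx : ∀ c, ∑ u ∈ insert x (insert y (insert w A)), vir x y w (t c) x u =
      bet (J c) B x := by
    intro c
    rw [hexp, vA']
    have := tf c
    have h3 := (tf c).2.2
    simp only [vir, hxy, hxw, hyw, hxy.symm, hxw.symm, hyw.symm, and_true, true_and, and_false,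
      false_and, or_false, false_or, or_true, true_or, if_true, if_false, eq_self_iff_true]
    omega
  have ry : ∀ c, ∑ u ∈ insert x (insert y (insert w A)), vir x y w (t c) y u =
      bet (J c) B y := by
    intro c
    rw [hexp, vA']
    have := tf c
    simp only [vir, hxy, hxw, hyw, hxy.symm, hxw.symm, hyw.symm, and_true, true_and, and_false,
      false_and, or_false, false_or, or_true, true_or, if_true, if_false, eq_self_iff_true]
    omega
  have rw' : ∀ c, ∑ u ∈ insert x (insert y (insert w A)), vir x y w (t c) w u =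
      bet (J c) B w := by
    intro c
    rw [hexp, vA']
    have := tf c
    simp only [vir, hxy, hxw, hyw, hxy.symm, hxw.symm, hyw.symm, and_true, true_and, and_false,
      false_and, or_false, false_or, or_true, true_or, if_true, if_false, eq_self_iff_true]
    omega
  have hWP : W = insert x (insert y (insert w A)) ∪ B := by
    rw [hs.hW]; ext u; simp only [mem_insert, mem_union]; tauto
  have hPB : Disjoint (insert x (insert y (insert w A))) B := by
    rw [disjoint_left]
    intro u hu hb
    simp only [mem_insert] at hu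
    rcases hu with rfl | rfl | rfl | hu
    · exact hxB hb
    · exact hyB hb
    · exact hwB hb
    · exact disjoint_left.mp hs.hAB hu hb
  have hPW : insert x (insert y (insert w A)) ⊆ W := by rw [hWP]; exact subset_union_left
  have hBW : B ⊆ W := by rw [hWP]; exact subset_union_right
  have hnA : ∀ v ∈ B, v ∉ A := fun v hv ha => disjoint_left.mp hs.hAB ha hv
  have memW : ∀ u ∈ W, u ∉ A → u ∈ insert x (insert y (insert w B)) := by
    intro u hu hA
    rw [hWP] at hu
    simp only [mem_union, mem_insert] at hu ⊢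
    tauto
  refine Dec.glue hWP hPB (fun c u v => J0 (σ c) u v - vir x y w (t c) u v)
    (fun c u v => if u ∈ A ∨ v ∈ A then 0 else J c u v) (fun c v => g0 (σ c) v) (fun _ _ => 0)
    ?_ ?_ ?_ ?_ h.symm ?_ ?_ ?_ ?_
  · intro c u hu v hv
    change J0 (σ c) u v - _ = J0 (σ c) v u - _
    rw [hsym _ u hu v hv, vir_comm]
  · intro c u hu v hv
    change (if u ∈ A ∨ v ∈ A then 0 else J c u v) = if v ∈ A ∨ u ∈ A then 0 else J c v u
    by_cases hu' : u ∈ A
    · simp [hu']
    · simp only [hu', hnA v hv, or_self, if_false]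
      exact hJ.symm c u (memW u hu hu') v hv
  · intro u hu v hv
    change ∑ c, (J0 (σ c) u v - vir x y w (t c) u v) = m u v
    have e1 : ∑ c, (J0 (σ c) u v - vir x y w (t c) u v) + ∑ c, vir x y w (t c) u v =
        ∑ c, J0 (σ c) u v := by
      rw [← sum_add_distrib]
      exact sum_congr rfl fun c _ => Nat.sub_add_cancel (hvle c u hu v hv)
    have e2 : ∑ c, J0 (σ c) u v = triM x y w B m u v := by
      rw [Equiv.sum_comp σ (fun c => J0 c u v)]
      exact hsum u hu v hv
    rw [e2, sum_vir, T1, T2, T3] at e1
    unfold triM at e1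
    omega
  · intro u hu v hv
    change ∑ c, (if u ∈ A ∨ v ∈ A then 0 else J c u v) = m u v
    by_cases hu' : u ∈ A
    · simp only [hu', true_or, if_true, sum_const_zero]
      exact (hs.hm u hu' v hv).symm
    · simp only [hu', hnA v hv, or_self, if_false]
      exact hJ.sum u (memW u hu hu') v hv
  · intro v hv
    change ∑ c, g0 (σ c) v = f v
    rw [Equiv.sum_comp σ (fun c => g0 c v)]
    exact hgsum v hv
  · intro v hv
    simp [hs.hf v hv]
  · intro c v hv
    change Odd (∑ u ∈ insert x (insert y (insert w A)), (J0 (σ c) v u - vir x y w (t c) v u) +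
      ∑ b ∈ B, (if v ∈ A ∨ b ∈ A then 0 else J c v b) + g0 (σ c) v)
    have e1 : ∑ u ∈ insert x (insert y (insert w A)), (J0 (σ c) v u - vir x y w (t c) v u) +
        ∑ u ∈ insert x (insert y (insert w A)), vir x y w (t c) v u =
        ∑ u ∈ insert x (insert y (insert w A)), J0 (σ c) v u := by
      rw [← sum_add_distrib]
      exact sum_congr rfl fun u hu => Nat.sub_add_cancel (hvle c v hv u hu)
    have e2 : ∑ b ∈ B, (if v ∈ A ∨ b ∈ A then 0 else J c v b) =
        ∑ u ∈ insert x (insert y (insert w A)), vir x y w (t c) v u := by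
      by_cases hv' : v ∈ A
      · simp only [hv', true_or, if_true, sum_const_zero]
        exact (sum_eq_zero fun u _ => vA _ v hv' u).symm
      · have e3 : ∑ b ∈ B, (if v ∈ A ∨ b ∈ A then 0 else J c v b) = bet (J c) B v := by
          unfold bet
          exact sum_congr rfl fun b hb => by simp [hv', hnA b hb]
        rw [e3]
        simp only [mem_insert, hv', or_false] at hv
        rcases hv with rfl | rfl | rfl
        · exact (rx c).symm
        · exact (ry c).symm
        · exact (rw' c).symm
    rw [e2, e1]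
    exact hodd (σ c) v hv
  · intro c v hv
    change Odd (∑ u ∈ W, (if v ∈ A ∨ u ∈ A then 0 else J c v u) + 0)
    have e1 : ∑ u ∈ W, (if v ∈ A ∨ u ∈ A then 0 else J c v u) =
        ∑ u ∈ insert x (insert y (insert w B)), J c v u := by
      symm
      have hsub : insert x (insert y (insert w B)) ⊆ W := by
        intro u hu
        rw [hWP]
        simp only [mem_union, mem_insert] at hu ⊢
        tauto
      rw [← sum_subset hsub]
      · refine sum_congr rfl fun u hu => ?_
        have : u ∉ A := by
          simp only [mem_insert] at hu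
          rcases hu with rfl | rfl | rfl | hu
          · exact hxA
          · exact hyA
          · exact hwA
          · exact hnA u hu
        simp [this, hnA v hv]
      · intro u hu hn
        have : u ∈ A := by
          by_contra hA
          exact hn (memW u hu hA)
        simp [this]
    rw [e1, add_zero]
    exact hJ.odd c v hv

end PStar
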