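import Pool.Agent.PStar.R2Arith
import Pool.Agent.PStar.BasicC
import Pool.Agent.PStar.Perm
import Pool.Agent.PStar.Contract

set_option autoImplicit false

namespace PStar

open Finset

variable {V : Type*} [DecidableEq V] {W : Finset V} {m : V → V → ℕ} {f k : V → ℕ} {r : ℕ}
  {x y w : V} {A B : Finset V}

/-- The numbers of the four types. -/
private theorem R2GlueOdd_count (s : Fin r → ℕ × ℕ × ℕ) (h1 : ∀ c, (s c).1 ≤ 1)
    (h2 : ∀ c, (s c).2.1 ≤ 1) (h3 : ∀ c, (s c).2.2 ≤ 1)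
    (ho : ∀ c, ((s c).1 + (s c).2.1 + (s c).2.2) % 2 = 1) :
    (univ.filter (fun c => s c = (1, 0, 0))).card + (univ.filter (fun c => s c = (1, 1, 1))).card =
      ∑ c, (s c).1 ∧
    (univ.filter (fun c => s c = (0, 1, 0))).card + (univ.filter (fun c => s c = (1, 1, 1))).card =
      ∑ c, (s c).2.1 ∧
    (univ.filter (fun c => s c = (0, 0, 1))).card + (univ.filter (fun c => s c = (1, 1, 1))).card =
      ∑ c, (s c).2.2 ∧
    (univ.filter (fun c => s c = (1, 0, 0))).card + (univ.filter (fun c => s c = (0, 1, 0))).card +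
      (univ.filter (fun c => s c = (0, 0, 1))).card +
      (univ.filter (fun c => s c = (1, 1, 1))).card = r ∧
    ∀ b, b ≠ (1, 0, 0) → b ≠ (0, 1, 0) → b ≠ (0, 0, 1) → b ≠ (1, 1, 1) →
      (univ.filter (fun c => s c = b)).card = 0 := by
  have key : ∀ c, s c = (1, 0, 0) ∨ s c = (0, 1, 0) ∨ s c = (0, 0, 1) ∨ s c = (1, 1, 1) := by
    intro c
    have e1 := h1 c
    have e2 := h2 c
    have e3 := h3 c
    have e4 := ho c
    rcases hsc : s c with ⟨u, v, z⟩
    rw [hsc] at e1 e2 e3 e4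
    simp only at e1 e2 e3 e4
    simp only [Prod.mk.injEq]
    omega
  refine ⟨?_, ?_, ?_, ?_, ?_⟩
  · rw [card_filter, card_filter, ← sum_add_distrib]
    apply sum_congr rfl
    intro c _
    rcases key c with e | e | e | e <;> rw [e] <;> simp
  · rw [card_filter, card_filter, ← sum_add_distrib]
    apply sum_congr rfl
    intro c _
    rcases key c with e | e | e | e <;> rw [e] <;> simp
  · rw [card_filter, card_filter, ← sum_add_distrib]
    apply sum_congr rfl
    intro c _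
    rcases key c with e | e | e | e <;> rw [e] <;> simp
  · rw [card_filter, card_filter, card_filter, card_filter, ← sum_add_distrib,
      ← sum_add_distrib, ← sum_add_distrib]
    have : ∑ _c : Fin r, 1 = r := by simp
    conv_rhs => rw [← this]
    apply sum_congr rfl
    intro c _
    rcases key c with e | e | e | e <;> rw [e] <;> simp
  · intro b b1 b2 b3 b4
    rw [card_eq_zero, filter_eq_empty_iff]
    intro c _ hc
    rcases key c with e | e | e | e
    · exact b1 (hc.symm.trans e)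
    · exact b2 (hc.symm.trans e)
    · exact b3 (hc.symm.trans e)
    · exact b4 (hc.symm.trans e)

private theorem R2GlueOdd_fiber (s t : Fin r → ℕ × ℕ × ℕ) (h1 : ∀ c, (s c).1 ≤ 1)
    (h2 : ∀ c, (s c).2.1 ≤ 1) (h3 : ∀ c, (s c).2.2 ≤ 1)
    (ho : ∀ c, ((s c).1 + (s c).2.1 + (s c).2.2) % 2 = 1) (h1' : ∀ c, (t c).1 ≤ 1)
    (h2' : ∀ c, (t c).2.1 ≤ 1) (h3' : ∀ c, (t c).2.2 ≤ 1)
    (ho' : ∀ c, ((t c).1 + (t c).2.1 + (t c).2.2) % 2 = 1)
    (e1 : ∑ c, (s c).1 = ∑ c, (t c).1) (e2 : ∑ c, (s c).2.1 = ∑ c, (t c).2.1)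
    (e3 : ∑ c, (s c).2.2 = ∑ c, (t c).2.2) (b : ℕ × ℕ × ℕ) :
    (univ.filter (fun c => s c = b)).card = (univ.filter (fun c => t c = b)).card := by
  obtain ⟨p1, p2, p3, p4, p5⟩ := R2GlueOdd_count s h1 h2 h3 ho
  obtain ⟨q1, q2, q3, q4, q5⟩ := R2GlueOdd_count t h1' h2' h3' ho'
  by_cases b1 : b = (1, 0, 0)
  · rw [b1]; omega
  by_cases b2 : b = (0, 1, 0)
  · rw [b2]; omega
  by_cases b3 : b = (0, 0, 1)
  · rw [b3]; omega
  by_cases b4 : b = (1, 1, 1)
  · rw [b4]; omega
  rw [p5 b b1 b2 b3 b4, q5 b b1 b2 b3 b4]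

private theorem R2GlueOdd_zero {g : Fin r → ℕ} (h : ∑ c, g c = 0) (c : Fin r) : g c = 0 :=
  (sum_eq_zero_iff.mp h) c (mem_univ c)

/-- Gluing, `|B|` odd. -/
theorem R2_glue_odd (h : IsZG W m f k r) (hs : Sep3 W m f k x y w A B) (ho : Odd B.card)
    {b : V} (hb : b ∈ B) {J : Fin r → V → V → ℕ} (hJ : SideCol3 m r x y w B J)
    (hd : Dec (insert b (W \ B)) (conM B b m) (conF B b f) r) : Dec W m f r := by
  obtain ⟨JA, gA, hsA, hmA, hgA, hoA⟩ := hd
  have hxW : x ∈ W := by rw [hs.hW]; simp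
  have hyW : y ∈ W := by rw [hs.hW]; simp
  have hwW : w ∈ W := by rw [hs.hW]; simp
  have hBW : ∀ v ∈ B, v ∈ W := by
    intro v hv
    rw [hs.hW]
    simp [hv]
  have hAW : ∀ v ∈ A, v ∈ W := by
    intro v hv
    rw [hs.hW]
    simp [hv]
  have hAB : ∀ v ∈ A, v ∉ B := fun v hv h1 => disjoint_left.mp hs.hAB hv h1
  have hxP : x ∈ W \ B := mem_sdiff.mpr ⟨hxW, hs.hxB⟩
  have hyP : y ∈ W \ B := mem_sdiff.mpr ⟨hyW, hs.hyB⟩
  have hwP : w ∈ W \ B := mem_sdiff.mpr ⟨hwW, hs.hwB⟩
  have hbP : b ∉ W \ B := fun h1 => (mem_sdiff.mp h1).2 hb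
  have hne : ∀ v ∈ W \ B, v ≠ b := fun v hv h1 => hbP (h1 ▸ hv)
  have hPeq : W \ B = insert x (insert y (insert w A)) := by
    rw [hs.hW]
    ext v
    simp only [mem_sdiff, mem_insert, mem_union]
    have e1 := hs.hxB
    have e2 := hs.hyB
    have e3 := hs.hwB
    have e4 := hAB v
    constructor
    · rintro ⟨h1, h2⟩
      tauto
    · rintro (rfl | rfl | rfl | h1)
      · exact ⟨Or.inl rfl, e1⟩
      · exact ⟨Or.inr (Or.inl rfl), e2⟩
      · exact ⟨Or.inr (Or.inr (Or.inl rfl)), e3⟩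
      · exact ⟨Or.inr (Or.inr (Or.inr (Or.inl h1))), e4 h1⟩
  have hcases : ∀ v ∈ W \ B, v = x ∨ v = y ∨ v = w ∨ v ∈ A := by
    intro v hv
    rw [hPeq] at hv
    simpa using hv
  have sumP : ∀ g : V → ℕ, ∑ u ∈ W \ B, g u = g x + (g y + (g w + ∑ u ∈ A, g u)) := by
    intro g
    rw [hPeq, sum_insert, sum_insert, sum_insert hs.hwA]
    · simp [hs.hyw, hs.hyA]
    · simp [hs.hxy, hs.hxw, hs.hxA]
  have hWPB : W = (W \ B) ∪ B := by
    rw [sdiff_union_self_eq_union]
    ext v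
    simp only [mem_union]
    constructor
    · intro h1; exact Or.inl h1
    · rintro (h1 | h1)
      · exact h1
      · exact hBW v h1
  have hdPB : Disjoint (W \ B) B := sdiff_disjoint
  have sumW : ∀ g : V → ℕ, ∑ u ∈ W, g u = ∑ u ∈ W \ B, g u + ∑ u ∈ B, g u := by
    intro g
    conv_lhs => rw [hWPB]
    rw [sum_union hdPB]
  have sumQ : ∀ g : V → ℕ, ∑ u ∈ insert x (insert y (insert w B)), g u =
      g x + (g y + (g w + ∑ u ∈ B, g u)) := by
    intro g
    rw [sum_insert, sum_insert, sum_insert hs.hwB]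
    · simp [hs.hyw, hs.hyB]
    · simp [hs.hxy, hs.hxw, hs.hxB]
  have hbi : b ∈ insert b (W \ B) := mem_insert_self _ _
  have hPi : ∀ v ∈ W \ B, v ∈ insert b (W \ B) := fun v hv => mem_insert_of_mem hv
  -- the values of the contraction
  have cvb : ∀ v ∈ W \ B, conM B b m v b = bet m B v := by
    intro v hv
    unfold conM bet
    rw [if_neg (hne v hv), if_pos rfl]
  have cbv : ∀ v ∈ W \ B, conM B b m b v = bet m B v := by
    intro v hv
    unfold conM bet
    rw [if_pos rfl, if_neg (hne v hv)]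
    apply sum_congr rfl
    intro u hu
    exact h.symm u (hBW u hu) v (mem_sdiff.mp hv).1
  have cvv : ∀ u ∈ W \ B, ∀ v ∈ W \ B, conM B b m u v = m u v := by
    intro u hu v hv
    unfold conM
    rw [if_neg (hne u hu), if_neg (hne v hv)]
  have betA : ∀ v ∈ A, bet m B v = 0 := by
    intro v hv
    unfold bet
    exact sum_eq_zero fun u hu => hs.hm v hv u hu
  have hAP : ∀ v ∈ A, v ∈ W \ B := fun v hv => mem_sdiff.mpr ⟨hAW v hv, hAB v hv⟩
  -- the values at b
  have JAb : ∀ c, ∀ v ∈ A, JA c v b = 0 := by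
    intro c v hv
    have h1 := hmA v (hPi v (hAP v hv)) b hbi
    rw [cvb v (hAP v hv), betA v hv] at h1
    exact R2GlueOdd_zero h1 c
  have JAb' : ∀ c, ∀ v ∈ A, JA c b v = 0 := by
    intro c v hv
    rw [hsA c b hbi v (hPi v (hAP v hv))]
    exact JAb c v hv
  have JAbb : ∀ c, JA c b b = 0 := by
    intro c
    have h1 := hmA b hbi b hbi
    have h2 : conM B b m b b = 0 := by simp [conM]
    rw [h2] at h1
    exact R2GlueOdd_zero h1 c
  have gAb : ∀ c, gA c b = 0 := by
    intro c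
    have h1 := hgA b hbi
    have h2 : conF B b f b = 0 := by
      unfold conF
      rw [if_pos rfl]
      exact sum_eq_zero fun u hu => hs.hf u hu
    rw [h2] at h1
    exact R2GlueOdd_zero h1 c
  -- x, y, w are met once
  have hle : ∀ v ∈ W \ B, k v = 0 → ∀ c, JA c v b ≤ 1 := by
    intro v hv hkv c
    have h1 := dec_one (W := insert b (W \ B)) (m := conM B b m) (f := conF B b f) (J := JA)
      (g := gA) (hPi v hv) (by
        rw [sum_insert hbP, cvb v hv]
        have h2 := h.degree v (mem_sdiff.mp hv).1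
        rw [sumW, hkv] at h2
        have h3 : ∑ u ∈ W \ B, conM B b m v u = ∑ u ∈ W \ B, m v u :=
          sum_congr rfl fun u hu => cvv v hv u hu
        have h4 : conF B b f v = f v := by
          unfold conF
          rw [if_neg (hne v hv)]
        rw [h3, h4]
        unfold bet
        omega) (fun u hu => hmA v (hPi v hv) u hu) (hgA v (hPi v hv))
      (fun c => hoA c v (hPi v hv)) c
    rw [sum_insert hbP] at h1
    omega
  -- the types
  set s : Fin r → ℕ × ℕ × ℕ := fun c => (JA c x b, JA c y b, JA c w b) with hsd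
  set t : Fin r → ℕ × ℕ × ℕ := fun c => (bet (J c) B x, bet (J c) B y, bet (J c) B w) with htd
  have hsodd : ∀ c, ((s c).1 + (s c).2.1 + (s c).2.2) % 2 = 1 := by
    intro c
    have h1 := hoA c b hbi
    rw [sum_insert hbP, sumP, JAbb, gAb, sum_eq_zero (fun v hv => JAb' c v hv),
      hsA c b hbi x (hPi x hxP), hsA c b hbi y (hPi y hyP), hsA c b hbi w (hPi w hwP),
      Nat.odd_iff] at h1
    simp only [hsd]
    omega
  have htodd : ∀ c, ((t c).1 + (t c).2.1 + (t c).2.2) % 2 = 1 := by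
    intro c
    have h1 := hJ.par c
    rw [Nat.odd_iff.mp ho] at h1
    exact h1
  have hsum : ∀ v ∈ insert x (insert y (insert w B)), ∑ c, bet (J c) B v = bet m B v := by
    intro v hv
    unfold bet
    rw [sum_comm]
    exact sum_congr rfl fun u hu => hJ.sum v hv u hu
  obtain ⟨σ, hσ⟩ := exists_perm_of_fiber s t (R2GlueOdd_fiber s t
    (fun c => hle x hxP hs.hkx c) (fun c => hle y hyP hs.hky c) (fun c => hle w hwP hs.hkw c)
    hsodd (fun c => hJ.x1 c) (fun c => hJ.y1 c) (fun c => hJ.w1 c) htodd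
    (by
      simp only [hsd, htd]
      rw [hmA x (hPi x hxP) b hbi, cvb x hxP, hsum x (by simp)])
    (by
      simp only [hsd, htd]
      rw [hmA y (hPi y hyP) b hbi, cvb y hyP, hsum y (by simp)])
    (by
      simp only [hsd, htd]
      rw [hmA w (hPi w hwP) b hbi, cvb w hwP, hsum w (by simp)]))
  have hσx : ∀ c, JA (σ c) x b = bet (J c) B x := fun c => congrArg (fun z => z.1) (hσ c)
  have hσy : ∀ c, JA (σ c) y b = bet (J c) B y := fun c => congrArg (fun z => z.2.1) (hσ c)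
  have hσw : ∀ c, JA (σ c) w b = bet (J c) B w := fun c => congrArg (fun z => z.2.2) (hσ c)
  -- the other side
  set JB : Fin r → V → V → ℕ := fun c u v => if u ∈ A ∨ v ∈ A then 0 else J c u v with hJBd
  have JBA : ∀ c, ∀ u ∈ A, ∀ v, JB c u v = 0 := by
    intro c u hu v
    simp [hJBd, hu]
  have JBA' : ∀ c, ∀ u ∈ A, ∀ v, JB c v u = 0 := by
    intro c u hu v
    simp [hJBd, hu]
  have JBn : ∀ c, ∀ u, u ∉ A → ∀ v, v ∉ A → JB c u v = J c u v := by
    intro c u hu v hv
    simp [hJBd, hu, hv]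
  have hBA : ∀ v ∈ B, v ∉ A := fun v hv h1 => hAB v h1 hv
  have hWc : ∀ u ∈ W, u ∈ A ∨ (u ∉ A ∧ u ∈ insert x (insert y (insert w B))) := by
    intro u hu
    by_cases huA : u ∈ A
    · exact Or.inl huA
    · refine Or.inr ⟨huA, ?_⟩
      rw [hs.hW] at hu
      simp only [mem_insert, mem_union] at hu ⊢
      tauto
  refine Dec.glue hWPB hdPB (fun c => JA (σ c)) JB (fun c => gA (σ c)) (fun _ _ => 0)
    ?_ ?_ ?_ ?_ h.symm ?_ ?_ ?_ ?_
  · intro c u hu v hv
    exact hsA (σ c) u (hPi u hu) v (hPi v hv)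
  · intro c u hu v hv
    rcases hWc u hu with huA | ⟨huA, hu'⟩
    · rw [JBA c u huA, JBA' c u huA]
    · rw [JBn c u huA v (hBA v hv), JBn c v (hBA v hv) u huA]
      exact hJ.symm c u hu' v hv
  · intro u hu v hv
    rw [Equiv.sum_comp σ (fun c => JA c u v), hmA u (hPi u hu) v (hPi v hv), cvv u hu v hv]
  · intro u hu v hv
    rcases hWc u hu with huA | ⟨huA, hu'⟩
    · rw [hs.hm u huA v hv]
      exact sum_eq_zero fun c _ => JBA c u huA v
    · rw [← hJ.sum u hu' v hv]
      exact sum_congr rfl fun c _ => JBn c u huA v (hBA v hv)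
  · intro v hv
    rw [Equiv.sum_comp σ (fun c => gA c v), hgA v (hPi v hv)]
    unfold conF
    rw [if_neg (hne v hv)]
  · intro v hv
    rw [hs.hf v hv]
    simp
  · intro c v hv
    have h1 := hoA (σ c) v (hPi v hv)
    rw [sum_insert hbP] at h1
    have h2 : ∑ u ∈ B, JB c v u = JA (σ c) v b := by
      rcases hcases v hv with e | e | e | hvA
      · rw [e, hσx]
        exact sum_congr rfl fun u hu => JBn c x hs.hxA u (hBA u hu)
      · rw [e, hσy]
        exact sum_congr rfl fun u hu => JBn c y hs.hyA u (hBA u hu)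
      · rw [e, hσw]
        exact sum_congr rfl fun u hu => JBn c w hs.hwA u (hBA u hu)
      · rw [JAb (σ c) v hvA]
        exact sum_eq_zero fun u _ => JBA c v hvA u
    rw [h2, add_comm (∑ u ∈ W \ B, JA (σ c) v u)]
    exact h1
  · intro c v hv
    have h1 := hJ.odd c v hv
    rw [sumQ] at h1
    have h2 : ∑ u ∈ B, JB c v u = ∑ u ∈ B, J c v u :=
      sum_congr rfl fun u hu => JBn c v (hBA v hv) u (hBA u hu)
    rw [sumW, sumP, JBn c v (hBA v hv) x hs.hxA, JBn c v (hBA v hv) y hs.hyA,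
      JBn c v (hBA v hv) w hs.hwA, sum_eq_zero (fun u hu => JBA' c u hu v), h2]
    rw [Nat.odd_iff] at h1 ⊢
    omega

end PStar
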