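import Pool.Agent.PStar.R2Arith

set_option autoImplicit false

namespace PStar

open Finset

variable {V : Type*} [DecidableEq V] {W : Finset V} {m : V → V → ℕ} {f k : V → ℕ} {r : ℕ}
  {x y w : V} {A B : Finset V}

/-- a symmetric function with zero diagonal has an even sum -/
private theorem R2Side_even (j : V → V → ℕ) (B : Finset V)
    (hs : ∀ u ∈ B, ∀ v ∈ B, j u v = j v u) (h0 : ∀ v ∈ B, j v v = 0) :
    Even (∑ u ∈ B, ∑ v ∈ B, j u v) := by
  induction B using Finset.induction_on with
  | empty => simp
  | insert b B hb ih =>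
    have ih' := ih (fun u hu v hv => hs u (mem_insert_of_mem hu) v (mem_insert_of_mem hv))
      (fun v hv => h0 v (mem_insert_of_mem hv))
    have e1 : ∑ u ∈ insert b B, ∑ v ∈ insert b B, j u v
        = (j b b + ∑ v ∈ B, j b v) + (∑ u ∈ B, j u b + ∑ u ∈ B, ∑ v ∈ B, j u v) := by
      rw [sum_insert hb, sum_insert hb, ← sum_add_distrib]
      congr 1
      apply sum_congr rfl
      intro u _
      rw [sum_insert hb]
    have e2 : ∑ u ∈ B, j u b = ∑ v ∈ B, j b v :=
      sum_congr rfl (fun u hu => hs u (mem_insert_of_mem hu) b (mem_insert_self b B))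
    have e3 : j b b = 0 := h0 b (mem_insert_self b B)
    rw [e1, e2, e3]
    obtain ⟨q, hq⟩ := ih'
    exact ⟨∑ v ∈ B, j b v + q, by omega⟩

/-- a sum of odd numbers -/
private theorem R2Side_odd (a : V → ℕ) (B : Finset V) (h : ∀ v ∈ B, Odd (a v)) :
    (∑ v ∈ B, a v) % 2 = B.card % 2 := by
  induction B using Finset.induction_on with
  | empty => simp
  | insert b B hb ih =>
    have ih' := ih (fun v hv => h v (mem_insert_of_mem hv))
    have h1 := h b (mem_insert_self b B)
    rw [Nat.odd_iff] at h1
    rw [sum_insert hb, card_insert_of_notMem hb]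
    omega

theorem R2_side (h : IsZG W m f k r) (hs : Sep3 W m f k x y w A B)
    (hd : Dec (insert x (insert y (insert w B))) (q3M B m) (q3F B m r) r) :
    ∃ J, SideCol3 m r x y w B J := by
  obtain ⟨J, g, hJs, hJm, hg, hodd⟩ := hd
  have hq := R2_q3 h hs
  have hxW : x ∈ insert x (insert y (insert w B)) := mem_insert_self _ _
  have hyW : y ∈ insert x (insert y (insert w B)) :=
    mem_insert_of_mem (mem_insert_self _ _)
  have hwW : w ∈ insert x (insert y (insert w B)) :=
    mem_insert_of_mem (mem_insert_of_mem (mem_insert_self _ _))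
  have hBW : B ⊆ insert x (insert y (insert w B)) := fun b hb =>
    mem_insert_of_mem (mem_insert_of_mem (mem_insert_of_mem hb))
  have hBW' : ∀ b ∈ B, b ∈ W := by
    intro b hb
    rw [hs.hW]
    exact mem_insert_of_mem (mem_insert_of_mem (mem_insert_of_mem (mem_union_right _ hb)))
  -- the vertices of `B` have no edges to `z`
  have hg0 : ∀ c, ∀ v ∈ B, g c v = 0 := by
    intro c v hv
    have h1 := hg v (hBW hv)
    have h2 : q3F B m r v = 0 := by
      unfold q3F
      rw [if_pos hv]
    rw [h2] at h1
    exact (sum_eq_zero_iff.1 h1) c (mem_univ c)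
  have hJ1 : ∀ u ∈ insert x (insert y (insert w B)), ∀ v ∈ B, ∑ c, J c u v = m u v := by
    intro u hu v hv
    rw [hJm u hu v (hBW hv)]
    unfold q3M
    rw [if_pos (Or.inr hv)]
  have hJ0 : ∀ c, ∀ v ∈ B, J c v v = 0 := by
    intro c v hv
    have h1 := hJ1 v (hBW hv) v hv
    rw [h.loopless v (hBW' v hv)] at h1
    exact (sum_eq_zero_iff.1 h1) c (mem_univ c)
  have hone : ∀ u ∈ insert x (insert y (insert w B)), k u = 0 → ∀ c, bet (J c) B u ≤ 1 := by
    intro u hu hk c
    have hdeg := hq.degree u hu
    rw [hk] at hdeg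
    have h1 := dec_one (J := J) (g := g) (m := q3M B m) (f := q3F B m r) hu (by omega)
      (fun v hv => hJm u hu v hv) (hg u hu) (fun c => hodd c u hu) c
    have h2 : bet (J c) B u ≤ ∑ v ∈ insert x (insert y (insert w B)), J c u v := by
      unfold bet
      exact sum_le_sum_of_subset hBW
    omega
  refine ⟨J, ?_, ?_, ?_, ?_, ?_, ?_, ?_⟩
  · intro c u hu v hv
    exact hJs c u hu v (hBW hv)
  · exact hJ1
  · intro c v hv
    have h1 := hodd c v (hBW hv)
    rw [hg0 c v hv, add_zero] at h1
    exact h1
  · exact hone x hxW hs.hkx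
  · exact hone y hyW hs.hky
  · exact hone w hwW hs.hkw
  · intro c
    have h1 : ∀ v ∈ B, Odd (∑ u ∈ insert x (insert y (insert w B)), J c v u) := by
      intro v hv
      have h1 := hodd c v (hBW hv)
      rw [hg0 c v hv, add_zero] at h1
      exact h1
    have h2 := R2Side_odd (fun v => ∑ u ∈ insert x (insert y (insert w B)), J c v u) B h1
    have hx1 : x ∉ insert y (insert w B) := by
      rw [mem_insert, mem_insert]
      rintro (h3 | h3 | h3)
      · exact hs.hxy h3
      · exact hs.hxw h3
      · exact hs.hxB h3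
    have hy1 : y ∉ insert w B := by
      rw [mem_insert]
      rintro (h3 | h3)
      · exact hs.hyw h3
      · exact hs.hyB h3
    have h3 : ∑ v ∈ B, ∑ u ∈ insert x (insert y (insert w B)), J c v u
        = bet (J c) B x + bet (J c) B y + bet (J c) B w + ∑ v ∈ B, ∑ u ∈ B, J c v u := by
      unfold bet
      rw [← sum_add_distrib, ← sum_add_distrib, ← sum_add_distrib]
      apply sum_congr rfl
      intro v hv
      rw [sum_insert hx1, sum_insert hy1, sum_insert hs.hwB, hJs c x hxW v (hBW hv),
        hJs c y hyW v (hBW hv), hJs c w hwW v (hBW hv)]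
      ring
    have h4 := R2Side_even (J c) B (fun u hu v hv => hJs c u (hBW hu) v (hBW hv)) (hJ0 c)
    rw [Nat.even_iff] at h4
    have h5 : (∑ v ∈ B, ∑ u ∈ insert x (insert y (insert w B)), J c v u) % 2 = B.card % 2 := h2
    rw [h3] at h5
    omega

end PStar
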