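import Pool.Agent.PStar.Tree0

set_option autoImplicit false

namespace PStar

open Finset

variable {Ω : Type*} [DecidableEq Ω] {F F' : SimpleGraph Ω} {U : Finset Ω}

/-- Branches at a clique with four vertices. -/
theorem T3.branch (h : T3 F U) (Q : Finset Ω) (hQ : Q ⊆ U) (hQc : Q.card = 4)
    (hcl : ∀ a ∈ Q, ∀ b ∈ Q, a ≠ b → F.Adj a b) :
    ∃ br : Ω → Ω, (∀ u ∈ U, u ∉ Q → br u ∈ Q ∧ ¬ F.Adj u (br u)) ∧
      (∀ u ∈ U, ∀ v ∈ U, u ∉ Q → v ∉ Q → F.Adj u v → br u = br v) ∧
      (∀ u ∈ U, u ∉ Q → ∃ v ∈ U, v ∉ Q ∧ br v = br u ∧ ∀ q ∈ Q, q ≠ br u → F.Adj v q) := by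
  classical
  induction h generalizing Q with
  | base Q0 hcard hc =>
    have hQ0 : Q = Q0 := eq_of_subset_of_card_le hQ (by omega)
    subst hQ0
    exact ⟨id, fun u hu hu' => absurd hu hu', fun u hu _ _ hu' => absurd hu hu',
      fun u hu hu' => absurd hu hu'⟩
  | add U v P hv hP hcard hc hadj hT ih =>
    by_cases hvQ : v ∈ Q
    · -- `v` is a vertex of the clique
      have hPQ : Q.erase v = P := by
        refine eq_of_subset_of_card_le ?_ (by rw [card_erase_of_mem hvQ]; omega)
        intro q hq
        have hqv := ne_of_mem_erase hq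
        have hqQ := mem_of_mem_erase hq
        have hqU : q ∈ U := by
          rcases mem_insert.mp (hQ hqQ) with h | h
          · exact absurd h hqv
          · exact h
        exact (hadj q hqU).mp (hcl v hvQ q hqQ (fun e => hqv e.symm))
      refine ⟨fun _ => v, ?_, fun _ _ _ _ _ _ _ => rfl, ?_⟩
      · intro u hu huQ
        refine ⟨hvQ, fun hadj' => huQ ?_⟩
        have huU : u ∈ U := by
          rcases mem_insert.mp hu with h | h
          · exact absurd (h ▸ hvQ) huQ
          · exact h
        have huP := (hadj u huU).mp hadj'.symm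
        rw [← hPQ] at huP
        exact mem_of_mem_erase huP
      · intro u _ _
        obtain ⟨Q', hQ'U, hPQ', hQ'c, hQ'cl⟩ := hT.extend P hP (by omega) hc
        obtain ⟨w, hw⟩ : (Q' \ P).Nonempty := by
          rw [← card_pos, card_sdiff_of_subset hPQ']
          omega
        obtain ⟨hwQ', hwP⟩ := mem_sdiff.mp hw
        have hwv : w ≠ v := fun e => hv (e ▸ hQ'U hwQ')
        refine ⟨w, mem_insert_of_mem (hQ'U hwQ'), ?_, rfl, ?_⟩
        · intro hwQ
          apply hwP
          rw [← hPQ]
          exact mem_erase.mpr ⟨hwv, hwQ⟩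
        · intro q hqQ hqv
          have hqP : q ∈ P := by
            rw [← hPQ]
            exact mem_erase.mpr ⟨hqv, hqQ⟩
          exact hQ'cl w hwQ' q (hPQ' hqP) (fun e => hwP (e ▸ hqP))
    · have hQU : Q ⊆ U := by
        intro q hq
        rcases mem_insert.mp (hQ hq) with h | h
        · exact absurd (h ▸ hq) hvQ
        · exact h
      obtain ⟨br, h1, h2, h3⟩ := ih Q hQU hQc hcl
      -- the branch of `v`
      obtain ⟨β, b1, b2, b3, b4⟩ : ∃ β, β ∈ Q ∧ β ∉ P ∧ (∀ w ∈ P, w ∉ Q → br w = β) ∧
          ((∀ q ∈ Q, q ≠ β → q ∈ P) ∨ ∃ w ∈ U, w ∉ Q ∧ br w = β) := by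
        by_cases hPQ : P ⊆ Q
        · obtain ⟨q0, hq0⟩ : (Q \ P).Nonempty := by
            rw [← card_pos, card_sdiff_of_subset hPQ]
            omega
          obtain ⟨hq0Q, hq0P⟩ := mem_sdiff.mp hq0
          refine ⟨q0, hq0Q, hq0P, fun w hw hw' => absurd (hPQ hw) hw', Or.inl ?_⟩
          intro q hq hqq
          have hins : insert q0 P = Q := by
            refine eq_of_subset_of_card_le (insert_subset hq0Q hPQ) ?_
            rw [card_insert_of_notMem hq0P]
            omega
          rw [← hins] at hq
          rcases mem_insert.mp hq with h | h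
          · exact absurd h hqq
          · exact h
        · obtain ⟨p, hpP, hpQ⟩ := not_subset.mp hPQ
          obtain ⟨c1, c2⟩ := h1 p (hP hpP) hpQ
          refine ⟨br p, c1, ?_, ?_, Or.inr ⟨p, hP hpP, hpQ, rfl⟩⟩
          · intro hbP
            exact c2 (hc p hpP (br p) hbP (fun e => hpQ (e ▸ c1)))
          · intro w hwP hwQ
            by_cases hwp : w = p
            · rw [hwp]
            · exact h2 w (hP hwP) p (hP hpP) hwQ hpQ (hc w hwP p hpP hwp)
      have hbr : ∀ u ∈ U, Function.update br v β u = br u := fun u hu =>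
        Function.update_of_ne (fun e : u = v => hv (e ▸ hu)) _ _
      have hbv : Function.update br v β v = β := Function.update_self _ _ _
      refine ⟨Function.update br v β, ?_, ?_, ?_⟩
      · intro u hu huQ
        rcases mem_insert.mp hu with h | h
        · subst h
          rw [hbv]
          exact ⟨b1, fun hadj' => b2 ((hadj β (hQU b1)).mp hadj')⟩
        · rw [hbr u h]
          exact h1 u h huQ
      · intro u hu w hw huQ hwQ huw
        rcases mem_insert.mp hu with h | h
        · rcases mem_insert.mp hw with h' | h'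
          · rw [h, h']
          · rw [h] at huw ⊢
            rw [hbv, hbr w h']
            exact (b3 w ((hadj w h').mp huw) hwQ).symm
        · rcases mem_insert.mp hw with h' | h'
          · rw [h'] at huw ⊢
            rw [hbv, hbr u h]
            exact b3 u ((hadj u h).mp huw.symm) huQ
          · rw [hbr u h, hbr w h']
            exact h2 u h w h' huQ hwQ huw
      · have key : ∀ u ∈ U, u ∉ Q → ∃ w ∈ insert v U, w ∉ Q ∧
            Function.update br v β w = br u ∧ ∀ q ∈ Q, q ≠ br u → F.Adj w q := by
          intro u hu huQ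
          obtain ⟨w, hw, hwQ, hwb, hwa⟩ := h3 u hu huQ
          exact ⟨w, mem_insert_of_mem hw, hwQ, by rw [hbr w hw, hwb], hwa⟩
        intro u hu huQ
        rcases mem_insert.mp hu with h | h
        · subst h
          rw [hbv]
          rcases b4 with b4 | ⟨w, hw, hwQ, hwb⟩
          · exact ⟨u, mem_insert_self _ _, hvQ, hbv, fun q hq hqb =>
              (hadj q (hQU hq)).mpr (b4 q hq hqb)⟩
          · obtain ⟨w', h4, h5, h6, h7⟩ := key w hw hwQ
            rw [hwb] at h6 h7
            exact ⟨w', h4, h5, h6, h7⟩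
        · rw [hbr u h]
          exact key u h huQ

end PStar
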