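import Pool.Agent.PStar.Small
import Pool.Agent.PStar.BC1
import Pool.Agent.PStar.BC2
import Pool.Agent.PStar.BC3
import Pool.Agent.PStar.R1Arith
import Pool.Agent.PStar.R1Side
import Pool.Agent.PStar.R1Glue
import Pool.Agent.PStar.R2Side
import Pool.Agent.PStar.R2GlueOdd
import Pool.Agent.PStar.R2GlueEven
import Pool.Agent.PStar.TreeBranch
import Pool.Agent.PStar.Good1
import Pool.Agent.PStar.Good2
import Pool.Agent.PStar.Good3

set_option autoImplicit false

namespace PStar

open Finset

variable {V : Type*} [DecidableEq V] {W : Finset V} {m : V → V → ℕ} {f k : V → ℕ} {r : ℕ}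
  {F : SimpleGraph (Option V)}

/-- induction hypothesis: smaller vertex sets, same `r` -/
def IHW (W : Finset V) (r : ℕ) : Prop :=
  ∀ (W' : Finset V) (m' : V → V → ℕ) (f' k' : V → ℕ) (F' : SimpleGraph (Option V)),
    W'.card < W.card → Good W' m' f' k' r F' → Dec W' m' f' r

/-- induction hypothesis: same vertex set, smaller `r` -/
def IHr (W : Finset V) (r : ℕ) : Prop :=
  ∀ (s : ℕ) (m' : V → V → ℕ) (f' k' : V → ℕ) (F' : SimpleGraph (Option V)),
    s < r → Good W m' f' k' s F' → Dec W m' f' s

theorem Good.k_eq_zero (h : Good W m f k r F) {x : V} (hx : x ∈ W) (hz : F.Adj none (some x)) :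
    k x = 0 := by
  by_contra hk
  exact (h.sp x hx hk).1 hz

theorem Good.of_le (h : Good W m f k r F) {s : ℕ} {m' : V → V → ℕ} {f' k' : V → ℕ}
    (hm : ∀ u v, m' u v ≤ m u v) (hf : ∀ v, f' v ≤ f v) (hk : ∀ v, k' v ≤ k v)
    (hz : IsZG W m' f' k' s) : Good W m' f' k' s F := by
  refine ⟨hz, h.t3, ?_, ?_, ?_⟩
  · intro u hu v hv huv
    exact h.madj u hu v hv (by have := hm u v; omega)
  · intro u hu hfu
    exact h.fadj u hu (by have := hf u; omega)
  · intro u hu hku
    obtain ⟨h1, T, hT, hTc, hTa, hTk⟩ := h.sp u hu (by have := hk u; omega)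
    exact ⟨h1, T, hT, hTc, hTa, fun v hv => by have := hk v; have := hTk v hv; omega⟩

theorem Good.dec_of_reducible (h : Good W m f k r F) (hred : Reducible W m f k r)
    (IH : IHr W r) : Dec W m f r := by
  obtain ⟨s, m', f', k', hr, hm, hf, hk, hz, hd⟩ := hred
  exact hd (IH s m' f' k' F (by omega) (h.of_le hm hf hk hz))

theorem Good.dec_small (h : Good W m f k r F) (hc : W.card ≤ 8) (hk : ∀ v ∈ W, k v = 0) :
    Dec W m f r := by
  have hz : IsZG W m f (fun _ => 0) r :=
    h.zg.congr (fun _ _ _ _ => rfl) (fun _ _ => rfl) (fun v hv => hk v hv)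
  exact hz.small hc

theorem Good.reduce1 (h : Good W m f k r F) {x y : V} {A B : Finset V}
    (hs : Sep2 W m k x y A B)
    (hzx : F.Adj none (some x)) (hzy : F.Adj none (some y)) (hxy : F.Adj (some x) (some y))
    (hno : ∀ a ∈ A, ∀ b ∈ B, ¬ F.Adj (some a) (some b)) (hA : 2 ≤ A.card) (hB : 2 ≤ B.card)
    (IH : IHW W r) : Dec W m f r := by
  obtain ⟨tA, tB, htA, htB, h1, h2⟩ := R1_arith h.zg hs
  obtain ⟨a, ha⟩ : A.Nonempty := Finset.card_pos.mp (by omega)
  obtain ⟨b, hb⟩ : B.Nonempty := Finset.card_pos.mp (by omega)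
  have hs' : Sep2 W m k x y B A := hs.symm h.zg
  have hWc : W.card = A.card + B.card + 2 := by
    rw [hs.hW, Finset.card_insert_of_notMem, Finset.card_insert_of_notMem,
      Finset.card_union_of_disjoint hs.hAB]
    · rw [Finset.mem_union]; exact fun hh => hh.elim hs.hyA hs.hyB
    · rw [Finset.mem_insert, Finset.mem_union]
      rintro (hh | hh | hh)
      · exact hs.hxy hh
      · exact hs.hxA hh
      · exact hs.hxB hh
  have haB : a ∉ insert x (insert y B) := by
    rw [Finset.mem_insert, Finset.mem_insert]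
    rintro (hh | hh | hh)
    · exact hs.hxA (hh ▸ ha)
    · exact hs.hyA (hh ▸ ha)
    · exact Finset.disjoint_left.mp hs.hAB ha hh
  have hbA : b ∉ insert x (insert y A) := by
    rw [Finset.mem_insert, Finset.mem_insert]
    rintro (hh | hh | hh)
    · exact hs.hxB (hh ▸ hb)
    · exact hs.hyB (hh ▸ hb)
    · exact Finset.disjoint_left.mp hs.hAB hh hb
  have hcard : ∀ (a : V) (B : Finset V), (p1W x y a B).card ≤ B.card + 3 := by
    intro a B
    unfold p1W
    have h1 := Finset.card_insert_le a (insert x (insert y B))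
    have h2 := Finset.card_insert_le x (insert y B)
    have h3 := Finset.card_insert_le y B
    omega
  have gB := h.piece1 hs hzx hzy hxy hno ⟨b, hb⟩ htB ha
  have gA := h.piece1 hs' hzx hzy hxy (fun b hb a ha hh => hno a ha b hb hh.symm) ⟨a, ha⟩ htA hb
  have dB := IH _ _ _ _ _ (by have := hcard a B; omega) gB
  have dA := IH _ _ _ _ _ (by have := hcard b A; omega) gA
  obtain ⟨JB, gB', hJB⟩ := R1_side h.zg hs htB haB dB
  obtain ⟨JA, gA', hJA⟩ := R1_side h.zg hs' htA hbA dA
  exact R1_glue h.zg hs h1 h2 hJA hJB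

theorem Good.reduce2 (h : Good W m f k r F) {x y w : V} {A B : Finset V}
    (hs : Sep3 W m f k x y w A B)
    (hxy : F.Adj (some x) (some y)) (hxw : F.Adj (some x) (some w))
    (hyw : F.Adj (some y) (some w)) (hno : ∀ a ∈ A, ∀ b ∈ B, ¬ F.Adj (some a) (some b))
    (hnz : ∀ b ∈ B, ¬ F.Adj none (some b)) (hA : A.Nonempty) (hB : 2 ≤ B.card)
    (IH : IHW W r) : Dec W m f r := by
  obtain ⟨b, hb⟩ : B.Nonempty := Finset.card_pos.mp (by omega)
  have hApos : 0 < A.card := Finset.card_pos.mpr hA
  have hWc : W.card = A.card + B.card + 3 := by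
    rw [hs.hW, Finset.card_insert_of_notMem, Finset.card_insert_of_notMem,
      Finset.card_insert_of_notMem, Finset.card_union_of_disjoint hs.hAB]
    · rw [Finset.mem_union]; exact fun hh => hh.elim hs.hwA hs.hwB
    · rw [Finset.mem_insert, Finset.mem_union]
      rintro (hh | hh | hh)
      · exact hs.hyw hh
      · exact hs.hyA hh
      · exact hs.hyB hh
    · rw [Finset.mem_insert, Finset.mem_insert, Finset.mem_union]
      rintro (hh | hh | hh | hh)
      · exact hs.hxy hh
      · exact hs.hxw hh
      · exact hs.hxA hh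
      · exact hs.hxB hh
  have hcard : ∀ (B : Finset V), (insert x (insert y (insert w B))).card ≤ B.card + 3 := by
    intro B
    have h1 := Finset.card_insert_le x (insert y (insert w B))
    have h2 := Finset.card_insert_le y (insert w B)
    have h3 := Finset.card_insert_le w B
    omega
  have gB := h.sideB3 hs hxy hxw hyw hno hnz ⟨b, hb⟩
  have dB := IH _ _ _ _ _ (by have := hcard B; omega) gB
  obtain ⟨J, hJ⟩ := R2_side h.zg hs dB
  have hBW : B ⊆ W := by
    intro v hv
    rw [hs.hW]
    simp only [Finset.mem_insert, Finset.mem_union]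
    tauto
  rcases Nat.even_or_odd B.card with he | ho
  · have gA := h.sideA3_even hs hxy hxw hyw hno hnz he
    have dA := IH _ _ _ _ _ (by have := hcard A; omega) gA
    exact R2_glue_even h.zg hs he hJ dA
  · have gA := h.sideA3_odd hs hxy hxw hyw hno hnz ho hb
    have dA := IH _ _ _ _ _ (by
      have h1 := Finset.card_insert_le b (W \ B)
      have h2 := Finset.card_sdiff_of_subset hBW
      omega) gA
    exact R2_glue_odd h.zg hs ho hb hJ dA

/-- Reduction at a triangle `{z, x, y}`. -/
theorem Good.red_z (h : Good W m f k r F) {x y : V} (hx : x ∈ W) (hy : y ∈ W) (hne : x ≠ y)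
    (hzx : F.Adj none (some x)) (hzy : F.Adj none (some y)) (hxy : F.Adj (some x) (some y))
    {B : Finset V} (hBW : B ⊆ W) (hxB : x ∉ B) (hyB : y ∉ B)
    (hno : ∀ b ∈ B, ∀ v ∈ W, v ∉ B → v ≠ x → v ≠ y → ¬ F.Adj (some b) (some v))
    (hB : 2 ≤ B.card) (hc : B.card + 4 ≤ W.card) (IH : IHW W r) : Dec W m f r := by
  have hsub : insert x (insert y B) ⊆ W := by
    intro v hv
    simp only [Finset.mem_insert] at hv
    rcases hv with rfl | rfl | hv
    · exact hx
    · exact hy
    · exact hBW hv
  have hno' : ∀ a ∈ W \ insert x (insert y B), ∀ b ∈ B, ¬ F.Adj (some a) (some b) := by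
    intro a ha b hb hab
    simp only [Finset.mem_sdiff, Finset.mem_insert, not_or] at ha
    exact hno b hb a ha.1 ha.2.2.2 ha.2.1 ha.2.2.1 hab.symm
  have hs : Sep2 W m k x y (W \ insert x (insert y B)) B := by
    refine ⟨?_, hne, ?_, hxB, ?_, hyB, ?_, ?_, h.k_eq_zero hx hzx, h.k_eq_zero hy hzy⟩
    · ext v
      simp only [Finset.mem_insert, Finset.mem_union, Finset.mem_sdiff, not_or]
      constructor
      · intro hv
        by_cases h1 : v = x
        · exact Or.inl h1
        · by_cases h2 : v = y
          · exact Or.inr (Or.inl h2)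
          · by_cases h3 : v ∈ B
            · exact Or.inr (Or.inr (Or.inr h3))
            · exact Or.inr (Or.inr (Or.inl ⟨hv, h1, h2, h3⟩))
      · rintro (rfl | rfl | hv | hv)
        · exact hx
        · exact hy
        · exact hv.1
        · exact hBW hv
    · simp
    · simp
    · rw [Finset.disjoint_left]
      intro v hv hvB
      simp only [Finset.mem_sdiff, Finset.mem_insert, not_or] at hv
      exact hv.2.2.2 hvB
    · intro a ha b hb
      by_contra hne0
      exact hno' a ha b hb (h.madj a (Finset.mem_sdiff.mp ha).1 b (hBW hb) hne0)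
  refine h.reduce1 hs hzx hzy hxy hno' ?_ hB IH
  have h1 := Finset.card_sdiff_of_subset hsub
  have h2 := Finset.card_insert_le x (insert y B)
  have h3 := Finset.card_insert_le y B
  omega

/-- Reduction at a triangle not containing `z`. -/
theorem Good.red_nz (h : Good W m f k r F) {x y w : V} (hx : x ∈ W) (hy : y ∈ W) (hw : w ∈ W)
    (hxy : F.Adj (some x) (some y)) (hxw : F.Adj (some x) (some w))
    (hyw : F.Adj (some y) (some w)) (hkx : k x = 0) (hky : k y = 0) (hkw : k w = 0)
    {B : Finset V} (hBW : B ⊆ W) (hxB : x ∉ B) (hyB : y ∉ B) (hwB : w ∉ B)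
    (hno : ∀ b ∈ B, ∀ v ∈ W, v ∉ B → v ≠ x → v ≠ y → v ≠ w → ¬ F.Adj (some b) (some v))
    (hnz : ∀ b ∈ B, ¬ F.Adj none (some b))
    (hB : 2 ≤ B.card) (hc : B.card + 3 < W.card) (IH : IHW W r) : Dec W m f r := by
  have hxy' : x ≠ y := fun hh => hxy.ne (by rw [hh])
  have hxw' : x ≠ w := fun hh => hxw.ne (by rw [hh])
  have hyw' : y ≠ w := fun hh => hyw.ne (by rw [hh])
  have hsub : insert x (insert y (insert w B)) ⊆ W := by
    intro v hv
    simp only [Finset.mem_insert] at hv
    rcases hv with rfl | rfl | rfl | hv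
    · exact hx
    · exact hy
    · exact hw
    · exact hBW hv
  have hno' : ∀ a ∈ W \ insert x (insert y (insert w B)), ∀ b ∈ B,
      ¬ F.Adj (some a) (some b) := by
    intro a ha b hb hab
    simp only [Finset.mem_sdiff, Finset.mem_insert, not_or] at ha
    exact hno b hb a ha.1 ha.2.2.2.2 ha.2.1 ha.2.2.1 ha.2.2.2.1 hab.symm
  have hs : Sep3 W m f k x y w (W \ insert x (insert y (insert w B))) B := by
    refine ⟨?_, hxy', hxw', hyw', ?_, hxB, ?_, hyB, ?_, hwB, ?_, ?_, ?_, hkx, hky, hkw⟩
    · ext v
      simp only [Finset.mem_insert, Finset.mem_union, Finset.mem_sdiff, not_or]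
      constructor
      · intro hv
        by_cases h1 : v = x
        · exact Or.inl h1
        · by_cases h2 : v = y
          · exact Or.inr (Or.inl h2)
          · by_cases h4 : v = w
            · exact Or.inr (Or.inr (Or.inl h4))
            · by_cases h3 : v ∈ B
              · exact Or.inr (Or.inr (Or.inr (Or.inr h3)))
              · exact Or.inr (Or.inr (Or.inr (Or.inl ⟨hv, h1, h2, h4, h3⟩)))
      · rintro (rfl | rfl | rfl | hv | hv)
        · exact hx
        · exact hy
        · exact hw
        · exact hv.1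
        · exact hBW hv
    · simp
    · simp
    · simp
    · rw [Finset.disjoint_left]
      intro v hv hvB
      simp only [Finset.mem_sdiff, Finset.mem_insert, not_or] at hv
      exact hv.2.2.2.2 hvB
    · intro a ha b hb
      by_contra hne0
      exact hno' a ha b hb (h.madj a (Finset.mem_sdiff.mp ha).1 b (hBW hb) hne0)
    · intro b hb
      by_contra hne0
      exact hnz b hb (h.fadj b (hBW hb) hne0)
  refine h.reduce2 hs hxy hxw hyw hno' hnz ?_ hB IH
  rw [← Finset.card_pos]
  have h1 := Finset.card_sdiff_of_subset hsub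
  have h2 := Finset.card_insert_le x (insert y (insert w B))
  have h3 := Finset.card_insert_le y (insert w B)
  have h4 := Finset.card_insert_le w B
  omega

end PStar
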