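import Pool.Agent.PStar.MainA

set_option autoImplicit false

namespace PStar

open Finset

variable {V : Type*} [DecidableEq V] {W : Finset V} {m : V → V → ℕ} {f k : V → ℕ} {r : ℕ}
  {F : SimpleGraph (Option V)}

/-- Branch data at the 4-clique `{z, q1, q2, q3}`. -/
structure Br3 (F : SimpleGraph (Option V)) (W : Finset V) (q1 q2 q3 : V) (β : V → Option V) :
    Prop where
  m1 : q1 ∈ W
  m2 : q2 ∈ W
  m3 : q3 ∈ W
  z1 : F.Adj none (some q1)
  z2 : F.Adj none (some q2)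
  z3 : F.Adj none (some q3)
  a12 : F.Adj (some q1) (some q2)
  a13 : F.Adj (some q1) (some q3)
  a23 : F.Adj (some q2) (some q3)
  q : ∀ v ∈ W, v ≠ q1 → v ≠ q2 → v ≠ q3 →
    β v = none ∨ β v = some q1 ∨ β v = some q2 ∨ β v = some q3
  n : ∀ v ∈ W, v ≠ q1 → v ≠ q2 → v ≠ q3 → ¬ F.Adj (some v) (β v)
  e : ∀ u ∈ W, u ≠ q1 → u ≠ q2 → u ≠ q3 → ∀ v ∈ W, v ≠ q1 → v ≠ q2 → v ≠ q3 →
    F.Adj (some u) (some v) → β u = β v
  w : ∀ u ∈ W, u ≠ q1 → u ≠ q2 → u ≠ q3 → ∃ v ∈ W, v ≠ q1 ∧ v ≠ q2 ∧ v ≠ q3 ∧ β v = β u ∧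
    (none ≠ β u → F.Adj (some v) none) ∧ (some q1 ≠ β u → F.Adj (some v) (some q1)) ∧
    (some q2 ≠ β u → F.Adj (some v) (some q2)) ∧ (some q3 ≠ β u → F.Adj (some v) (some q3))

theorem adj_ne {x y : V} (h : F.Adj (some x) (some y)) : x ≠ y := fun hh => h.ne (by rw [hh])

theorem exists_Br3 (h : T3 F (Finset.insertNone W)) {q1 q2 q3 : V} (m1 : q1 ∈ W) (m2 : q2 ∈ W)
    (m3 : q3 ∈ W) (z1 : F.Adj none (some q1)) (z2 : F.Adj none (some q2))
    (z3 : F.Adj none (some q3)) (a12 : F.Adj (some q1) (some q2))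
    (a13 : F.Adj (some q1) (some q3)) (a23 : F.Adj (some q2) (some q3)) :
    ∃ β : V → Option V, Br3 F W q1 q2 q3 β := by
  have h12 := adj_ne a12
  have h13 := adj_ne a13
  have h23 := adj_ne a23
  have hmem : ∀ v : V, some v ∉ ({none, some q1, some q2, some q3} : Finset (Option V)) ↔
      (v ≠ q1 ∧ v ≠ q2 ∧ v ≠ q3) := by
    intro v; simp
  obtain ⟨br, hb1, hb2, hb3⟩ := h.branch ({none, some q1, some q2, some q3} : Finset (Option V))
    (by
      intro v hv
      simp only [Finset.mem_insert, Finset.mem_singleton] at hv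
      rcases hv with rfl | rfl | rfl | rfl
      · exact Finset.none_mem_insertNone
      · exact Finset.some_mem_insertNone.mpr m1
      · exact Finset.some_mem_insertNone.mpr m2
      · exact Finset.some_mem_insertNone.mpr m3)
    (by
      rw [Finset.card_insert_of_notMem, Finset.card_insert_of_notMem,
        Finset.card_insert_of_notMem, Finset.card_singleton] <;> simp [h12, h13, h23])
    (by
      intro a ha b hb hab
      simp only [Finset.mem_insert, Finset.mem_singleton] at ha hb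
      rcases ha with rfl | rfl | rfl | rfl <;> rcases hb with rfl | rfl | rfl | rfl <;>
        first
          | exact absurd rfl hab
          | assumption
          | (apply F.symm.symm; assumption))
  refine ⟨fun v => br (some v), ⟨m1, m2, m3, z1, z2, z3, a12, a13, a23, ?_, ?_, ?_, ?_⟩⟩
  · intro v hv h1 h2 h3
    have := (hb1 (some v) (Finset.some_mem_insertNone.mpr hv) ((hmem v).mpr ⟨h1, h2, h3⟩)).1
    simpa only [Finset.mem_insert, Finset.mem_singleton] using this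
  · intro v hv h1 h2 h3
    exact (hb1 (some v) (Finset.some_mem_insertNone.mpr hv) ((hmem v).mpr ⟨h1, h2, h3⟩)).2
  · intro u hu h1 h2 h3 v hv h1' h2' h3' huv
    exact hb2 (some u) (Finset.some_mem_insertNone.mpr hu) (some v)
      (Finset.some_mem_insertNone.mpr hv) ((hmem u).mpr ⟨h1, h2, h3⟩)
      ((hmem v).mpr ⟨h1', h2', h3'⟩) huv
  · intro u hu h1 h2 h3
    obtain ⟨v, hv, hvQ, hvb, hva⟩ := hb3 (some u) (Finset.some_mem_insertNone.mpr hu)
      ((hmem u).mpr ⟨h1, h2, h3⟩)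
    rcases v with _ | v
    · simp at hvQ
    · have hvQ' := (hmem v).mp hvQ
      refine ⟨v, Finset.some_mem_insertNone.mp hv, hvQ'.1, hvQ'.2.1, hvQ'.2.2, hvb, ?_, ?_, ?_, ?_⟩
      · intro hh; exact hva none (by simp) hh
      · intro hh; exact hva (some q1) (by simp) hh
      · intro hh; exact hva (some q2) (by simp) hh
      · intro hh; exact hva (some q3) (by simp) hh

theorem Br3.swap12 {q1 q2 q3 : V} {β : V → Option V} (h : Br3 F W q1 q2 q3 β) :
    Br3 F W q2 q1 q3 β := by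
  refine ⟨h.m2, h.m1, h.m3, h.z2, h.z1, h.z3, h.a12.symm, h.a23, h.a13, ?_, ?_, ?_, ?_⟩
  · intro v hv h1 h2 h3
    rcases h.q v hv h2 h1 h3 with hh | hh | hh | hh <;> tauto
  · intro v hv h1 h2 h3; exact h.n v hv h2 h1 h3
  · intro u hu h1 h2 h3 v hv h1' h2' h3'
    exact h.e u hu h2 h1 h3 v hv h2' h1' h3'
  · intro u hu h1 h2 h3
    obtain ⟨v, hv, g1, g2, g3, g4, g5, g6, g7, g8⟩ := h.w u hu h2 h1 h3
    exact ⟨v, hv, g2, g1, g3, g4, g5, g7, g6, g8⟩

theorem Br3.swap23 {q1 q2 q3 : V} {β : V → Option V} (h : Br3 F W q1 q2 q3 β) :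
    Br3 F W q1 q3 q2 β := by
  refine ⟨h.m1, h.m3, h.m2, h.z1, h.z3, h.z2, h.a13, h.a12, h.a23.symm, ?_, ?_, ?_, ?_⟩
  · intro v hv h1 h2 h3
    rcases h.q v hv h1 h3 h2 with hh | hh | hh | hh <;> tauto
  · intro v hv h1 h2 h3; exact h.n v hv h1 h3 h2
  · intro u hu h1 h2 h3 v hv h1' h2' h3'
    exact h.e u hu h1 h3 h2 v hv h1' h3' h2'
  · intro u hu h1 h2 h3
    obtain ⟨v, hv, g1, g2, g3, g4, g5, g6, g7, g8⟩ := h.w u hu h1 h3 h2
    exact ⟨v, hv, g1, g3, g2, g4, g5, g6, g8, g7⟩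

/-- branch set -/
def bset (W : Finset V) (q1 q2 q3 : V) (β : V → Option V) (q : Option V) : Finset V :=
  W.filter (fun v => v ≠ q1 ∧ v ≠ q2 ∧ v ≠ q3 ∧ β v = q)

theorem mem_bset {q1 q2 q3 : V} {β : V → Option V} {q : Option V} {v : V} :
    v ∈ bset W q1 q2 q3 β q ↔ v ∈ W ∧ v ≠ q1 ∧ v ≠ q2 ∧ v ≠ q3 ∧ β v = q := by
  simp [bset]

theorem bset_swap12 {q1 q2 q3 : V} {β : V → Option V} {q : Option V} :
    bset W q2 q1 q3 β q = bset W q1 q2 q3 β q := by
  ext v; simp only [mem_bset]; tauto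

theorem bset_swap23 {q1 q2 q3 : V} {β : V → Option V} {q : Option V} :
    bset W q1 q3 q2 β q = bset W q1 q2 q3 β q := by
  ext v; simp only [mem_bset]; tauto

theorem Br3.card {q1 q2 q3 : V} {β : V → Option V} (h : Br3 F W q1 q2 q3 β) :
    W.card = 3 + ((bset W q1 q2 q3 β none).card + (bset W q1 q2 q3 β (some q1)).card +
      (bset W q1 q2 q3 β (some q2)).card + (bset W q1 q2 q3 β (some q3)).card) := by
  have h12 := adj_ne h.a12
  have h13 := adj_ne h.a13
  have h23 := adj_ne h.a23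
  have hsub : ({q1, q2, q3} : Finset V) ⊆ W := by
    intro v hv
    simp only [Finset.mem_insert, Finset.mem_singleton] at hv
    rcases hv with rfl | rfl | rfl
    · exact h.m1
    · exact h.m2
    · exact h.m3
  have hc3 : ({q1, q2, q3} : Finset V).card = 3 := by
    rw [Finset.card_insert_of_notMem, Finset.card_insert_of_notMem, Finset.card_singleton] <;>
      simp [h12, h13, h23]
  have hmem : ∀ v, v ∈ W \ {q1, q2, q3} ↔ v ∈ W ∧ v ≠ q1 ∧ v ≠ q2 ∧ v ≠ q3 := by
    intro v; simp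
  have hfib := Finset.card_eq_sum_card_fiberwise (f := β) (s := W \ {q1, q2, q3})
    (t := ({none, some q1, some q2, some q3} : Finset (Option V))) (by
      intro v hv
      have hv' := (hmem v).mp hv
      have := h.q v hv'.1 hv'.2.1 hv'.2.2.1 hv'.2.2.2
      simp only [Finset.coe_insert, Finset.coe_singleton, Set.mem_insert_iff,
        Set.mem_singleton_iff]
      exact this)
  have hbs : ∀ q : Option V, (W \ {q1, q2, q3}).filter (fun v => β v = q) =
      bset W q1 q2 q3 β q := by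
    intro q
    ext v
    simp only [Finset.mem_filter, hmem, mem_bset]
    tauto
  rw [Finset.sum_insert, Finset.sum_insert, Finset.sum_insert, Finset.sum_singleton] at hfib
  · simp only [hbs] at hfib
    have := Finset.card_sdiff_of_subset hsub
    have := Finset.card_le_card hsub
    omega
  · simp [h23]
  · simp [h12, h13]
  · simp

theorem Br3.red1 (h : Good W m f k r F) {q1 q2 q3 : V} {β : V → Option V}
    (hb : Br3 F W q1 q2 q3 β) (hB : 2 ≤ (bset W q1 q2 q3 β (some q1)).card)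
    (hc : (bset W q1 q2 q3 β (some q1)).card + 4 ≤ W.card) (IH : IHW W r) : Dec W m f r := by
  refine h.red_z (B := bset W q1 q2 q3 β (some q1)) hb.m2 hb.m3 (adj_ne hb.a23) hb.z2 hb.z3 hb.a23
    (Finset.filter_subset _ _) (fun hh => (mem_bset.mp hh).2.2.1 rfl)
    (fun hh => (mem_bset.mp hh).2.2.2.1 rfl) ?_ hB hc IH
  intro b hbB v hv hvB hv2 hv3 hbv
  obtain ⟨g0, g1, g2, g3, g4⟩ := mem_bset.mp hbB
  by_cases hv1 : v = q1
  · subst hv1
    have := hb.n b g0 g1 g2 g3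
    rw [g4] at this
    exact this hbv
  · apply hvB
    exact mem_bset.mpr ⟨hv, hv1, hv2, hv3, by
      rw [← g4]; exact (hb.e b g0 g1 g2 g3 v hv hv1 hv2 hv3 hbv).symm⟩

theorem Br3.redz (h : Good W m f k r F) {q1 q2 q3 : V} {β : V → Option V}
    (hb : Br3 F W q1 q2 q3 β) (hB : 2 ≤ (bset W q1 q2 q3 β none).card)
    (hc : (bset W q1 q2 q3 β none).card + 3 < W.card) (IH : IHW W r) : Dec W m f r := by
  refine h.red_nz (B := bset W q1 q2 q3 β none) hb.m1 hb.m2 hb.m3 hb.a12 hb.a13 hb.a23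
    (h.k_eq_zero hb.m1 hb.z1) (h.k_eq_zero hb.m2 hb.z2) (h.k_eq_zero hb.m3 hb.z3)
    (Finset.filter_subset _ _) (fun hh => (mem_bset.mp hh).2.1 rfl)
    (fun hh => (mem_bset.mp hh).2.2.1 rfl) (fun hh => (mem_bset.mp hh).2.2.2.1 rfl) ?_ ?_ hB hc IH
  · intro b hbB v hv hvB hv1 hv2 hv3 hbv
    obtain ⟨g0, g1, g2, g3, g4⟩ := mem_bset.mp hbB
    apply hvB
    exact mem_bset.mpr ⟨hv, hv1, hv2, hv3, by
      rw [← g4]; exact (hb.e b g0 g1 g2 g3 v hv hv1 hv2 hv3 hbv).symm⟩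
  · intro b hbB hadj
    obtain ⟨g0, g1, g2, g3, g4⟩ := mem_bset.mp hbB
    have := hb.n b g0 g1 g2 g3
    rw [g4] at this
    exact this hadj.symm

/-- A special vertex cannot have all its neighbours among two vertices. -/
theorem Good.two_nbr (h : Good W m f k r F) {u x y : V} (hu : u ∈ W)
    (hn : ∀ v ∈ W, F.Adj (some u) (some v) → v = x ∨ v = y) : k u = 0 := by
  by_contra hk
  obtain ⟨_, T, hT, hTc, hTa, _⟩ := h.sp u hu hk
  have hsub : T ⊆ {x, y} := by
    intro v hv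
    have := hn v (hT hv) ((hTa v (hT hv)).mpr hv)
    simpa using this
  have h1 := Finset.card_le_card hsub
  have h2 := Finset.card_insert_le x ({y} : Finset V)
  simp only [Finset.card_singleton] at h2
  omega

theorem Br3.bc1 (h : Good W m f k r F) {q1 q2 q3 : V} {β : V → Option V}
    (hb : Br3 F W q1 q2 q3 β) (hBz : (bset W q1 q2 q3 β none).card ≤ 1)
    (hB1 : (bset W q1 q2 q3 β (some q1)).card ≤ 1) (hB2 : (bset W q1 q2 q3 β (some q2)).card ≤ 1)
    (hB3 : (bset W q1 q2 q3 β (some q3)).card ≤ 1) (IH : IHr W r) : Dec W m f r := by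
  have hcard := hb.card
  have hone : ∀ q : Option V, (bset W q1 q2 q3 β q).card ≤ 1 := by
    intro q
    by_cases hq : q = none ∨ q = some q1 ∨ q = some q2 ∨ q = some q3
    · rcases hq with rfl | rfl | rfl | rfl <;> assumption
    · have : bset W q1 q2 q3 β q = ∅ := by
        ext v
        simp only [mem_bset, Finset.notMem_empty, iff_false]
        rintro ⟨g0, g1, g2, g3, g4⟩
        apply hq
        rw [← g4]
        exact hb.q v g0 g1 g2 g3
      rw [this]; simp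
  have hinj : ∀ u ∈ W, u ≠ q1 → u ≠ q2 → u ≠ q3 → ∀ v ∈ W, v ≠ q1 → v ≠ q2 → v ≠ q3 →
      β u = β v → u = v := by
    intro u hu g1 g2 g3 v hv g1' g2' g3' huv
    exact Finset.card_le_one.mp (hone (β u)) u (mem_bset.mpr ⟨hu, g1, g2, g3, rfl⟩) v
      (mem_bset.mpr ⟨hv, g1', g2', g3', huv.symm⟩)
  -- neighbours of a vertex outside the bag lie in the bag
  have hnb : ∀ u ∈ W, u ≠ q1 → u ≠ q2 → u ≠ q3 → ∀ v ∈ W, F.Adj (some u) (some v) →
      v = q1 ∨ v = q2 ∨ v = q3 := by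
    intro u hu g1 g2 g3 v hv huv
    by_contra hcon
    push Not at hcon
    have h1 := hb.e u hu g1 g2 g3 v hv hcon.1 hcon.2.1 hcon.2.2 huv
    have h2 := hinj u hu g1 g2 g3 v hv hcon.1 hcon.2.1 hcon.2.2 h1
    exact adj_ne huv h2
  have hkz : ∀ u ∈ W, k u ≠ 0 → u ≠ q1 ∧ u ≠ q2 ∧ u ≠ q3 ∧ β u = none := by
    intro u hu hk
    have g1 : u ≠ q1 := by rintro rfl; exact hk (h.k_eq_zero hu hb.z1)
    have g2 : u ≠ q2 := by rintro rfl; exact hk (h.k_eq_zero hu hb.z2)
    have g3 : u ≠ q3 := by rintro rfl; exact hk (h.k_eq_zero hu hb.z3)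
    refine ⟨g1, g2, g3, ?_⟩
    have hn := hb.n u hu g1 g2 g3
    rcases hb.q u hu g1 g2 g3 with hh | hh | hh | hh
    · exact hh
    · exfalso; apply hk
      apply h.two_nbr (x := q2) (y := q3) hu
      intro v hv huv
      rcases hnb u hu g1 g2 g3 v hv huv with rfl | rfl | rfl
      · rw [hh] at hn; exact absurd huv hn
      · exact Or.inl rfl
      · exact Or.inr rfl
    · exfalso; apply hk
      apply h.two_nbr (x := q1) (y := q3) hu
      intro v hv huv
      rcases hnb u hu g1 g2 g3 v hv huv with rfl | rfl | rfl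
      · exact Or.inl rfl
      · rw [hh] at hn; exact absurd huv hn
      · exact Or.inr rfl
    · exfalso; apply hk
      apply h.two_nbr (x := q1) (y := q2) hu
      intro v hv huv
      rcases hnb u hu g1 g2 g3 v hv huv with rfl | rfl | rfl
      · exact Or.inl rfl
      · exact Or.inr rfl
      · rw [hh] at hn; exact absurd huv hn
  by_cases hall : ∀ v ∈ W, k v = 0
  · exact h.dec_small (by omega) hall
  push Not at hall
  obtain ⟨a, ha, hka⟩ := hall
  obtain ⟨ga1, ga2, ga3, gaz⟩ := hkz a ha hka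
  have hsp := (h.sp a ha hka).1
  set D : Finset V := W.filter (fun v => v ≠ q1 ∧ v ≠ q2 ∧ v ≠ q3 ∧ v ≠ a) with hD
  have hmemD : ∀ v, v ∈ D ↔ v ∈ W ∧ v ≠ q1 ∧ v ≠ q2 ∧ v ≠ q3 ∧ v ≠ a := by
    intro v; simp [hD]
  have hm0 : ∀ u ∈ W, ∀ v ∈ W, ¬ F.Adj (some u) (some v) → m u v = 0 := by
    intro u hu v hv huv
    by_contra hne
    exact huv (h.madj u hu v hv hne)
  refine h.dec_of_reducible (BC1 h.zg (q1 := q1) (q2 := q2) (q3 := q3) (a := a) (D := D) ?_
    (adj_ne hb.a12) (adj_ne hb.a13) (adj_ne hb.a23) (Ne.symm ga1) (Ne.symm ga2) (Ne.symm ga3)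
    ?_ ?_ ?_ ?_ ?_ ?_ ?_ ?_ ?_ hka) IH
  · ext v
    simp only [Finset.mem_insert, hmemD]
    constructor
    · intro hv
      by_cases h1 : v = q1
      · exact Or.inl h1
      · by_cases h2 : v = q2
        · exact Or.inr (Or.inl h2)
        · by_cases h3 : v = q3
          · exact Or.inr (Or.inr (Or.inl h3))
          · by_cases h4 : v = a
            · exact Or.inr (Or.inr (Or.inr (Or.inl h4)))
            · exact Or.inr (Or.inr (Or.inr (Or.inr ⟨hv, h1, h2, h3, h4⟩)))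
    · rintro (rfl | rfl | rfl | rfl | hv)
      · exact hb.m1
      · exact hb.m2
      · exact hb.m3
      · exact ha
      · exact hv.1
  · intro hh; exact ((hmemD _).mp hh).2.1 rfl
  · intro hh; exact ((hmemD _).mp hh).2.2.1 rfl
  · intro hh; exact ((hmemD _).mp hh).2.2.2.1 rfl
  · intro hh; exact ((hmemD _).mp hh).2.2.2.2 rfl
  · intro d hd e he
    obtain ⟨d0, d1, d2, d3, d4⟩ := (hmemD d).mp hd
    obtain ⟨e0, e1, e2, e3, e4⟩ := (hmemD e).mp he
    apply hm0 d d0 e e0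
    intro hde
    rcases hnb d d0 d1 d2 d3 e e0 hde with rfl | rfl | rfl
    · exact e1 rfl
    · exact e2 rfl
    · exact e3 rfl
  · intro d hd
    obtain ⟨d0, d1, d2, d3, d4⟩ := (hmemD d).mp hd
    apply hm0 a ha d d0
    intro hde
    rcases hnb a ha ga1 ga2 ga3 d d0 hde with rfl | rfl | rfl
    · exact d1 rfl
    · exact d2 rfl
    · exact d3 rfl
  · by_contra hfa
    exact hsp (h.fadj a ha hfa)
  · intro d hd
    obtain ⟨d0, d1, d2, d3, d4⟩ := (hmemD d).mp hd
    have hn := hb.n d d0 d1 d2 d3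
    rcases hb.q d d0 d1 d2 d3 with hh | hh | hh | hh
    · exact absurd (hinj d d0 d1 d2 d3 a ha ga1 ga2 ga3 (by rw [hh, gaz])) d4
    · rw [hh] at hn; exact Or.inl (hm0 d d0 q1 hb.m1 hn)
    · rw [hh] at hn; exact Or.inr (Or.inl (hm0 d d0 q2 hb.m2 hn))
    · rw [hh] at hn; exact Or.inr (Or.inr (hm0 d d0 q3 hb.m3 hn))
  · intro v hv hva
    by_contra hkv
    obtain ⟨g1, g2, g3, gz⟩ := hkz v hv hkv
    exact hva (hinj v hv g1 g2 g3 a ha ga1 ga2 ga3 (by rw [gz, gaz]))

end PStar
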