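import Pool.Agent.PStar.MainB

set_option autoImplicit false

namespace PStar

open Finset

variable {V : Type*} [DecidableEq V] {W : Finset V} {m : V → V → ℕ} {f k : V → ℕ} {r : ℕ}
  {F : SimpleGraph (Option V)}

theorem Br3.c2 (h : Good W m f k r F) {q1 q2 q3 : V} {β : V → Option V}
    (hb : Br3 F W q1 q2 q3 β) (hB : 2 ≤ (bset W q1 q2 q3 β (some q1)).card)
    (hc : W.card ≤ (bset W q1 q2 q3 β (some q1)).card + 3) (IH : IHW W r) (IHs : IHr W r) :
    Dec W m f r := by
  have hcard := hb.card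
  have hempty : ∀ q : Option V, (bset W q1 q2 q3 β q).card = 0 →
      ∀ v ∈ W, v ≠ q1 → v ≠ q2 → v ≠ q3 → β v ≠ q := by
    intro q hq v hv g1 g2 g3 hh
    have : v ∈ bset W q1 q2 q3 β q := mem_bset.mpr ⟨hv, g1, g2, g3, hh⟩
    rw [Finset.card_eq_zero] at hq
    rw [hq] at this
    exact absurd this (Finset.notMem_empty v)
  have hall : ∀ v ∈ W, v ≠ q1 → v ≠ q2 → v ≠ q3 → β v = some q1 := by
    intro v hv g1 g2 g3
    rcases hb.q v hv g1 g2 g3 with hh | hh | hh | hh
    · exact absurd hh (hempty none (by omega) v hv g1 g2 g3)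
    · exact hh
    · exact absurd hh (hempty (some q2) (by omega) v hv g1 g2 g3)
    · exact absurd hh (hempty (some q3) (by omega) v hv g1 g2 g3)
  have hq1n : ∀ v ∈ W, F.Adj (some q1) (some v) → v = q2 ∨ v = q3 := by
    intro v hv hadj
    by_contra hcon
    push Not at hcon
    have g1 : v ≠ q1 := (adj_ne hadj).symm
    have hn := hb.n v hv g1 hcon.1 hcon.2
    rw [hall v hv g1 hcon.1 hcon.2] at hn
    exact hn hadj.symm
  obtain ⟨u, hu⟩ : (bset W q1 q2 q3 β (some q1)).Nonempty := Finset.card_pos.mp (by omega)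
  obtain ⟨hu0, hu1, hu2, hu3, hu4⟩ := mem_bset.mp hu
  obtain ⟨q', hq', g1, g2, g3, g4, g5, g6, g7, g8⟩ := hb.w u hu0 hu1 hu2 hu3
  rw [hu4] at g4 g5 g6 g7 g8
  have hzq' : F.Adj none (some q') := (g5 (by simp)).symm
  have h2q' : F.Adj (some q2) (some q') :=
    (g7 (by simp only [ne_eq, Option.some.injEq]; exact (adj_ne hb.a12).symm)).symm
  have h3q' : F.Adj (some q3) (some q') :=
    (g8 (by simp only [ne_eq, Option.some.injEq]; exact (adj_ne hb.a13).symm)).symm
  obtain ⟨β', hb'⟩ := exists_Br3 h.t3 hb.m2 hb.m3 hq' hb.z2 hb.z3 hzq' hb.a23 h2q' h3q'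
  have h12 := adj_ne hb.a12
  have h13 := adj_ne hb.a13
  have hβq1 : β' q1 = some q' := by
    have hn := hb'.n q1 hb.m1 h12 h13 (Ne.symm g1)
    rcases hb'.q q1 hb.m1 h12 h13 (Ne.symm g1) with hh | hh | hh | hh
    · rw [hh] at hn; exact absurd hb.z1.symm hn
    · rw [hh] at hn; exact absurd hb.a12 hn
    · rw [hh] at hn; exact absurd hb.a13 hn
    · exact hh
  have hq1B : q1 ∈ bset W q2 q3 q' β' (some q') :=
    mem_bset.mpr ⟨hb.m1, h12, h13, Ne.symm g1, hβq1⟩
  have hq1pos : 1 ≤ (bset W q2 q3 q' β' (some q')).card := Finset.card_pos.mpr ⟨q1, hq1B⟩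
  have hcard' := hb'.card
  by_cases ha : 2 ≤ (bset W q2 q3 q' β' (some q')).card
  · by_cases ha4 : (bset W q2 q3 q' β' (some q')).card + 4 ≤ W.card
    · have hb'' := hb'.swap23.swap12
      have heq : bset W q' q2 q3 β' (some q') = bset W q2 q3 q' β' (some q') := by
        rw [bset_swap12, bset_swap23]
      exact hb''.red1 h (by rw [heq]; exact ha) (by rw [heq]; exact ha4) IH
    · set B' := bset W q2 q3 q' β' (some q') with hB'
      have hW1c : (B'.erase q1).card = B'.card - 1 := Finset.card_erase_of_mem hq1B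
      by_cases h2 : 2 ≤ (B'.erase q1).card
      · refine h.red_z (B := B'.erase q1) hb.m2 hb.m3 (adj_ne hb.a23) hb.z2 hb.z3 hb.a23
          ((Finset.erase_subset _ _).trans (Finset.filter_subset _ _)) ?_ ?_ ?_ h2
          (by omega) IH
        · intro hh; exact (mem_bset.mp (Finset.mem_of_mem_erase hh)).2.1 rfl
        · intro hh; exact (mem_bset.mp (Finset.mem_of_mem_erase hh)).2.2.1 rfl
        · intro b hbB v hv hvB hv2 hv3 hadj
          obtain ⟨b0, b2, b3, b4, b5⟩ := mem_bset.mp (Finset.mem_of_mem_erase hbB)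
          by_cases hv1 : v = q1
          · subst hv1
            rcases hq1n b b0 hadj.symm with rfl | rfl
            · exact b2 rfl
            · exact b3 rfl
          · by_cases hvq' : v = q'
            · subst hvq'
              have := hb'.n b b0 b2 b3 b4
              rw [b5] at this
              exact this hadj
            · apply hvB
              rw [Finset.mem_erase]
              refine ⟨hv1, mem_bset.mpr ⟨hv, hv2, hv3, hvq', ?_⟩⟩
              rw [← b5]
              exact (hb'.e b b0 b2 b3 b4 v hv hv2 hv3 hvq' hadj).symm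
      · -- at most five vertices
        have hempty' : ∀ q : Option V, (bset W q2 q3 q' β' q).card = 0 →
            ∀ v ∈ W, v ≠ q2 → v ≠ q3 → v ≠ q' → β' v ≠ q := by
          intro q hq v hv g1 g2 g3 hh
          have : v ∈ bset W q2 q3 q' β' q := mem_bset.mpr ⟨hv, g1, g2, g3, hh⟩
          rw [Finset.card_eq_zero] at hq
          rw [hq] at this
          exact absurd this (Finset.notMem_empty v)
        have hall' : ∀ v ∈ W, v ≠ q2 → v ≠ q3 → v ≠ q' → v ∈ B' := by
          intro v hv g1 g2 g3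
          rcases hb'.q v hv g1 g2 g3 with hh | hh | hh | hh
          · exact absurd hh (hempty' none (by omega) v hv g1 g2 g3)
          · exact absurd hh (hempty' (some q2) (by omega) v hv g1 g2 g3)
          · exact absurd hh (hempty' (some q3) (by omega) v hv g1 g2 g3)
          · exact mem_bset.mpr ⟨hv, g1, g2, g3, hh⟩
        apply h.dec_small (by omega)
        intro v hv
        by_cases e1 : v = q1
        · subst e1; exact h.k_eq_zero hv hb.z1
        by_cases e2 : v = q2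
        · subst e2; exact h.k_eq_zero hv hb.z2
        by_cases e3 : v = q3
        · subst e3; exact h.k_eq_zero hv hb.z3
        by_cases e4 : v = q'
        · subst e4; exact h.k_eq_zero hv hzq'
        apply h.two_nbr (x := q2) (y := q3) hv
        intro t ht hadj
        by_contra hcon
        push Not at hcon
        have hvB' := hall' v hv e2 e3 e4
        have hβv := (mem_bset.mp hvB').2.2.2.2
        by_cases t1 : t = q1
        · subst t1
          rcases hq1n v hv hadj.symm with rfl | rfl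
          · exact e2 rfl
          · exact e3 rfl
        by_cases t4 : t = q'
        · subst t4
          have := hb'.n v hv e2 e3 e4
          rw [hβv] at this
          exact this hadj
        have htB := hall' t ht hcon.1 hcon.2 t4
        have h1 : (B'.erase q1).card ≤ 1 := by omega
        have := Finset.card_le_one.mp h1 v (Finset.mem_erase.mpr ⟨e1, hvB'⟩) t
          (Finset.mem_erase.mpr ⟨t1, htB⟩)
        exact adj_ne hadj this
  · -- the branch of `q'` is `{q1}`
    by_cases hx2 : 2 ≤ (bset W q2 q3 q' β' (some q2)).card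
    · exact hb'.red1 h hx2 (by omega) IH
    by_cases hx3 : 2 ≤ (bset W q2 q3 q' β' (some q3)).card
    · exact hb'.swap12.red1 h (by rw [bset_swap12]; exact hx3) (by rw [bset_swap12]; omega) IH
    by_cases hxz : 2 ≤ (bset W q2 q3 q' β' none).card
    · exact hb'.redz h hxz (by omega) IH
    exact hb'.bc1 h (by omega) (by omega) (by omega) (by omega) IHs

/-- Branch data at a 4-clique not containing `z`, all of whose vertices are ordinary. -/
structure Br4 (F : SimpleGraph (Option V)) (W : Finset V) (k : V → ℕ) (q1 q2 q3 q4 : V)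
    (β : V → Option V) : Prop where
  m1 : q1 ∈ W
  m2 : q2 ∈ W
  m3 : q3 ∈ W
  m4 : q4 ∈ W
  k1 : k q1 = 0
  k2 : k q2 = 0
  k3 : k q3 = 0
  k4 : k q4 = 0
  a12 : F.Adj (some q1) (some q2)
  a13 : F.Adj (some q1) (some q3)
  a14 : F.Adj (some q1) (some q4)
  a23 : F.Adj (some q2) (some q3)
  a24 : F.Adj (some q2) (some q4)
  a34 : F.Adj (some q3) (some q4)
  z : ∀ v ∈ W, v ≠ q1 → v ≠ q2 → v ≠ q3 → v ≠ q4 → ¬ F.Adj none (some v)
  q : ∀ v ∈ W, v ≠ q1 → v ≠ q2 → v ≠ q3 → v ≠ q4 →
    β v = some q1 ∨ β v = some q2 ∨ β v = some q3 ∨ β v = some q4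
  n : ∀ v ∈ W, v ≠ q1 → v ≠ q2 → v ≠ q3 → v ≠ q4 → ¬ F.Adj (some v) (β v)
  e : ∀ u ∈ W, u ≠ q1 → u ≠ q2 → u ≠ q3 → u ≠ q4 → ∀ v ∈ W, v ≠ q1 → v ≠ q2 → v ≠ q3 →
    v ≠ q4 → F.Adj (some u) (some v) → β u = β v

theorem Br4.swap12 {q1 q2 q3 q4 : V} {β : V → Option V} (h : Br4 F W k q1 q2 q3 q4 β) :
    Br4 F W k q2 q1 q3 q4 β := by
  refine ⟨h.m2, h.m1, h.m3, h.m4, h.k2, h.k1, h.k3, h.k4, h.a12.symm, h.a23, h.a24, h.a13,
    h.a14, h.a34, ?_, ?_, ?_, ?_⟩
  · intro v hv h1 h2 h3 h4; exact h.z v hv h2 h1 h3 h4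
  · intro v hv h1 h2 h3 h4
    rcases h.q v hv h2 h1 h3 h4 with hh | hh | hh | hh <;> tauto
  · intro v hv h1 h2 h3 h4; exact h.n v hv h2 h1 h3 h4
  · intro u hu h1 h2 h3 h4 v hv h1' h2' h3' h4'
    exact h.e u hu h2 h1 h3 h4 v hv h2' h1' h3' h4'

theorem Br4.swap23 {q1 q2 q3 q4 : V} {β : V → Option V} (h : Br4 F W k q1 q2 q3 q4 β) :
    Br4 F W k q1 q3 q2 q4 β := by
  refine ⟨h.m1, h.m3, h.m2, h.m4, h.k1, h.k3, h.k2, h.k4, h.a13, h.a12, h.a14, h.a23.symm,
    h.a34, h.a24, ?_, ?_, ?_, ?_⟩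
  · intro v hv h1 h2 h3 h4; exact h.z v hv h1 h3 h2 h4
  · intro v hv h1 h2 h3 h4
    rcases h.q v hv h1 h3 h2 h4 with hh | hh | hh | hh <;> tauto
  · intro v hv h1 h2 h3 h4; exact h.n v hv h1 h3 h2 h4
  · intro u hu h1 h2 h3 h4 v hv h1' h2' h3' h4'
    exact h.e u hu h1 h3 h2 h4 v hv h1' h3' h2' h4'

theorem Br4.swap34 {q1 q2 q3 q4 : V} {β : V → Option V} (h : Br4 F W k q1 q2 q3 q4 β) :
    Br4 F W k q1 q2 q4 q3 β := by
  refine ⟨h.m1, h.m2, h.m4, h.m3, h.k1, h.k2, h.k4, h.k3, h.a12, h.a14, h.a13, h.a24,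
    h.a23, h.a34.symm, ?_, ?_, ?_, ?_⟩
  · intro v hv h1 h2 h3 h4; exact h.z v hv h1 h2 h4 h3
  · intro v hv h1 h2 h3 h4
    rcases h.q v hv h1 h2 h4 h3 with hh | hh | hh | hh <;> tauto
  · intro v hv h1 h2 h3 h4; exact h.n v hv h1 h2 h4 h3
  · intro u hu h1 h2 h3 h4 v hv h1' h2' h3' h4'
    exact h.e u hu h1 h2 h4 h3 v hv h1' h2' h4' h3'

def bset4 (W : Finset V) (q1 q2 q3 q4 : V) (β : V → Option V) (q : Option V) : Finset V :=
  W.filter (fun v => v ≠ q1 ∧ v ≠ q2 ∧ v ≠ q3 ∧ v ≠ q4 ∧ β v = q)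

theorem mem_bset4 {q1 q2 q3 q4 : V} {β : V → Option V} {q : Option V} {v : V} :
    v ∈ bset4 W q1 q2 q3 q4 β q ↔
      v ∈ W ∧ v ≠ q1 ∧ v ≠ q2 ∧ v ≠ q3 ∧ v ≠ q4 ∧ β v = q := by
  simp [bset4]

theorem bset4_swap12 {q1 q2 q3 q4 : V} {β : V → Option V} {q : Option V} :
    bset4 W q2 q1 q3 q4 β q = bset4 W q1 q2 q3 q4 β q := by
  ext v; simp only [mem_bset4]; tauto

theorem bset4_swap23 {q1 q2 q3 q4 : V} {β : V → Option V} {q : Option V} :
    bset4 W q1 q3 q2 q4 β q = bset4 W q1 q2 q3 q4 β q := by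
  ext v; simp only [mem_bset4]; tauto

theorem bset4_swap34 {q1 q2 q3 q4 : V} {β : V → Option V} {q : Option V} :
    bset4 W q1 q2 q4 q3 β q = bset4 W q1 q2 q3 q4 β q := by
  ext v; simp only [mem_bset4]; tauto

theorem Br4.card {q1 q2 q3 q4 : V} {β : V → Option V} (h : Br4 F W k q1 q2 q3 q4 β) :
    W.card = 4 + ((bset4 W q1 q2 q3 q4 β (some q1)).card +
      (bset4 W q1 q2 q3 q4 β (some q2)).card +
      (bset4 W q1 q2 q3 q4 β (some q3)).card + (bset4 W q1 q2 q3 q4 β (some q4)).card) := by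
  have h12 := adj_ne h.a12
  have h13 := adj_ne h.a13
  have h14 := adj_ne h.a14
  have h23 := adj_ne h.a23
  have h24 := adj_ne h.a24
  have h34 := adj_ne h.a34
  have hsub : ({q1, q2, q3, q4} : Finset V) ⊆ W := by
    intro v hv
    simp only [Finset.mem_insert, Finset.mem_singleton] at hv
    rcases hv with rfl | rfl | rfl | rfl
    · exact h.m1
    · exact h.m2
    · exact h.m3
    · exact h.m4
  have hc3 : ({q1, q2, q3, q4} : Finset V).card = 4 := by
    rw [Finset.card_insert_of_notMem, Finset.card_insert_of_notMem,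
      Finset.card_insert_of_notMem, Finset.card_singleton] <;>
      simp [h12, h13, h23, h14, h24, h34]
  have hmem : ∀ v, v ∈ W \ {q1, q2, q3, q4} ↔
      v ∈ W ∧ v ≠ q1 ∧ v ≠ q2 ∧ v ≠ q3 ∧ v ≠ q4 := by
    intro v; simp
  have hfib := Finset.card_eq_sum_card_fiberwise (f := β) (s := W \ {q1, q2, q3, q4})
    (t := ({some q1, some q2, some q3, some q4} : Finset (Option V))) (by
      intro v hv
      have hv' := (hmem v).mp hv
      have := h.q v hv'.1 hv'.2.1 hv'.2.2.1 hv'.2.2.2.1 hv'.2.2.2.2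
      simp only [Finset.coe_insert, Finset.coe_singleton, Set.mem_insert_iff,
        Set.mem_singleton_iff]
      exact this)
  have hbs : ∀ q : Option V, (W \ {q1, q2, q3, q4}).filter (fun v => β v = q) =
      bset4 W q1 q2 q3 q4 β q := by
    intro q
    ext v
    simp only [Finset.mem_filter, hmem, mem_bset4]
    tauto
  rw [Finset.sum_insert, Finset.sum_insert, Finset.sum_insert, Finset.sum_singleton] at hfib
  · simp only [hbs] at hfib
    have := Finset.card_sdiff_of_subset hsub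
    have := Finset.card_le_card hsub
    omega
  · simp [h34]
  · simp [h23, h24]
  · simp [h12, h13, h14]

theorem Br4.red1 (h : Good W m f k r F) {q1 q2 q3 q4 : V} {β : V → Option V}
    (hb : Br4 F W k q1 q2 q3 q4 β) (hB : 2 ≤ (bset4 W q1 q2 q3 q4 β (some q1)).card)
    (IH : IHW W r) : Dec W m f r := by
  have hcard := hb.card
  refine h.red_nz (B := bset4 W q1 q2 q3 q4 β (some q1)) hb.m2 hb.m3 hb.m4 hb.a23 hb.a24 hb.a34
    hb.k2 hb.k3 hb.k4 (Finset.filter_subset _ _) (fun hh => (mem_bset4.mp hh).2.2.1 rfl)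
    (fun hh => (mem_bset4.mp hh).2.2.2.1 rfl) (fun hh => (mem_bset4.mp hh).2.2.2.2.1 rfl)
    ?_ ?_ hB (by omega) IH
  · intro b hbB v hv hvB hv2 hv3 hv4 hbv
    obtain ⟨g0, g1, g2, g3, g4, g5⟩ := mem_bset4.mp hbB
    by_cases hv1 : v = q1
    · subst hv1
      have := hb.n b g0 g1 g2 g3 g4
      rw [g5] at this
      exact this hbv
    · apply hvB
      exact mem_bset4.mpr ⟨hv, hv1, hv2, hv3, hv4, by
        rw [← g5]; exact (hb.e b g0 g1 g2 g3 g4 v hv hv1 hv2 hv3 hv4 hbv).symm⟩
  · intro b hbB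
    obtain ⟨g0, g1, g2, g3, g4, g5⟩ := mem_bset4.mp hbB
    exact hb.z b g0 g1 g2 g3 g4

theorem Br4.bc2 (h : Good W m f k r F) {q1 q2 q3 q4 : V} {β : V → Option V}
    (hb : Br4 F W k q1 q2 q3 q4 β) (hB1 : (bset4 W q1 q2 q3 q4 β (some q1)).card ≤ 1)
    (hB2 : (bset4 W q1 q2 q3 q4 β (some q2)).card ≤ 1)
    (hB3 : (bset4 W q1 q2 q3 q4 β (some q3)).card ≤ 1)
    (hB4 : (bset4 W q1 q2 q3 q4 β (some q4)).card ≤ 1) (IH : IHr W r) : Dec W m f r := by
  have hcard := hb.card
  by_cases hall : ∀ v ∈ W, k v = 0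
  · exact h.dec_small (by omega) hall
  push Not at hall
  obtain ⟨a, ha, hka⟩ := hall
  have h12 := adj_ne hb.a12
  have h13 := adj_ne hb.a13
  have h14 := adj_ne hb.a14
  have h23 := adj_ne hb.a23
  have h24 := adj_ne hb.a24
  have h34 := adj_ne hb.a34
  have hone : ∀ q : Option V, q = some q1 ∨ q = some q2 ∨ q = some q3 ∨ q = some q4 →
      (bset4 W q1 q2 q3 q4 β q).card ≤ 1 := by
    intro q hq
    rcases hq with rfl | rfl | rfl | rfl <;> assumption
  have hinj : ∀ u ∈ W, u ≠ q1 → u ≠ q2 → u ≠ q3 → u ≠ q4 → ∀ v ∈ W, v ≠ q1 → v ≠ q2 →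
      v ≠ q3 → v ≠ q4 → β u = β v → u = v := by
    intro u hu g1 g2 g3 g4 v hv g1' g2' g3' g4' huv
    exact Finset.card_le_one.mp (hone (β u) (hb.q u hu g1 g2 g3 g4)) u
      (mem_bset4.mpr ⟨hu, g1, g2, g3, g4, rfl⟩) v
      (mem_bset4.mpr ⟨hv, g1', g2', g3', g4', huv.symm⟩)
  have hm0 : ∀ u ∈ W, ∀ v ∈ W, ¬ F.Adj (some u) (some v) → m u v = 0 := by
    intro u hu v hv huv
    by_contra hne
    exact huv (h.madj u hu v hv hne)
  have hmemP : ∀ v, v ∈ W \ {q1, q2, q3, q4} ↔
      v ∈ W ∧ v ≠ q1 ∧ v ≠ q2 ∧ v ≠ q3 ∧ v ≠ q4 := by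
    intro v; simp
  have hsub : ({q1, q2, q3, q4} : Finset V) ⊆ W := by
    intro v hv
    simp only [Finset.mem_insert, Finset.mem_singleton] at hv
    rcases hv with rfl | rfl | rfl | rfl
    · exact hb.m1
    · exact hb.m2
    · exact hb.m3
    · exact hb.m4
  have hβτ : ∀ p, p ∈ W \ ({q1, q2, q3, q4} : Finset V) → β p = some ((β p).getD q1) := by
    intro p hp
    obtain ⟨p0, p1, p2, p3, p4⟩ := (hmemP p).mp hp
    rcases hb.q p p0 p1 p2 p3 p4 with hh | hh | hh | hh <;> rw [hh] <;> rfl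
  refine h.dec_of_reducible (BC2 h.zg (Q := {q1, q2, q3, q4}) (P := W \ {q1, q2, q3, q4})
    (Finset.union_sdiff_of_subset hsub).symm Finset.disjoint_sdiff ?_ ?_ ?_ ?_
    (fun p => (β p).getD q1) ?_ ?_ ?_) IH
  · rw [Finset.card_insert_of_notMem, Finset.card_insert_of_notMem,
      Finset.card_insert_of_notMem, Finset.card_singleton] <;>
      simp [h12, h13, h23, h14, h24, h34]
  · intro q hq
    simp only [Finset.mem_insert, Finset.mem_singleton] at hq
    rcases hq with rfl | rfl | rfl | rfl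
    · exact hb.k1
    · exact hb.k2
    · exact hb.k3
    · exact hb.k4
  · intro p hp p' hp'
    obtain ⟨p0, p1, p2, p3, p4⟩ := (hmemP p).mp hp
    obtain ⟨p0', p1', p2', p3', p4'⟩ := (hmemP p').mp hp'
    apply hm0 p p0 p' p0'
    intro hadj
    have h1 := hb.e p p0 p1 p2 p3 p4 p' p0' p1' p2' p3' p4' hadj
    exact adj_ne hadj (hinj p p0 p1 p2 p3 p4 p' p0' p1' p2' p3' p4' h1)
  · intro p hp
    obtain ⟨p0, p1, p2, p3, p4⟩ := (hmemP p).mp hp
    by_contra hne
    exact hb.z p p0 p1 p2 p3 p4 (h.fadj p p0 hne)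
  · intro p hp
    obtain ⟨p0, p1, p2, p3, p4⟩ := (hmemP p).mp hp
    have hn := hb.n p p0 p1 p2 p3 p4
    have hτ := hβτ p hp
    rcases hb.q p p0 p1 p2 p3 p4 with hh | hh | hh | hh
    · simp only [hh, Option.getD_some] at hn ⊢
      exact ⟨by simp, hm0 p p0 q1 hb.m1 hn⟩
    · simp only [hh, Option.getD_some] at hn ⊢
      exact ⟨by simp, hm0 p p0 q2 hb.m2 hn⟩
    · simp only [hh, Option.getD_some] at hn ⊢
      exact ⟨by simp, hm0 p p0 q3 hb.m3 hn⟩
    · simp only [hh, Option.getD_some] at hn ⊢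
      exact ⟨by simp, hm0 p p0 q4 hb.m4 hn⟩
  · intro p hp p' hp' hpp
    obtain ⟨p0, p1, p2, p3, p4⟩ := (hmemP p).mp hp
    obtain ⟨p0', p1', p2', p3', p4'⟩ := (hmemP p').mp hp'
    apply hinj p p0 p1 p2 p3 p4 p' p0' p1' p2' p3' p4'
    rw [hβτ p hp, hβτ p' hp']
    exact congrArg some hpp
  · refine ⟨a, (hmemP a).mpr ⟨ha, ?_, ?_, ?_, ?_⟩, hka⟩
    · rintro rfl; exact hka hb.k1
    · rintro rfl; exact hka hb.k2
    · rintro rfl; exact hka hb.k3
    · rintro rfl; exact hka hb.k4

theorem Br4.dec (h : Good W m f k r F) {q1 q2 q3 q4 : V} {β : V → Option V}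
    (hb : Br4 F W k q1 q2 q3 q4 β) (IH : IHW W r) (IHs : IHr W r) : Dec W m f r := by
  by_cases h1 : 2 ≤ (bset4 W q1 q2 q3 q4 β (some q1)).card
  · exact hb.red1 h h1 IH
  by_cases h2 : 2 ≤ (bset4 W q1 q2 q3 q4 β (some q2)).card
  · exact hb.swap12.red1 h (by rw [bset4_swap12]; exact h2) IH
  by_cases h3 : 2 ≤ (bset4 W q1 q2 q3 q4 β (some q3)).card
  · exact hb.swap23.swap12.red1 h (by rw [bset4_swap12, bset4_swap23]; exact h3) IH
  by_cases h4 : 2 ≤ (bset4 W q1 q2 q3 q4 β (some q4)).card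
  · exact hb.swap34.swap23.swap12.red1 h
      (by rw [bset4_swap12, bset4_swap23, bset4_swap34]; exact h4) IH
  exact hb.bc2 h (by omega) (by omega) (by omega) (by omega) IHs

theorem Br3.c3 (h : Good W m f k r F) {q1 q2 q3 : V} {β : V → Option V}
    (hb : Br3 F W q1 q2 q3 β) (hB : 2 ≤ (bset W q1 q2 q3 β none).card)
    (hc : W.card ≤ (bset W q1 q2 q3 β none).card + 3) (IH : IHW W r) (IHs : IHr W r) :
    Dec W m f r := by
  have hcard := hb.card
  have hempty : ∀ q : Option V, (bset W q1 q2 q3 β q).card = 0 →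
      ∀ v ∈ W, v ≠ q1 → v ≠ q2 → v ≠ q3 → β v ≠ q := by
    intro q hq v hv g1 g2 g3 hh
    have : v ∈ bset W q1 q2 q3 β q := mem_bset.mpr ⟨hv, g1, g2, g3, hh⟩
    rw [Finset.card_eq_zero] at hq
    rw [hq] at this
    exact absurd this (Finset.notMem_empty v)
  have hall : ∀ v ∈ W, v ≠ q1 → v ≠ q2 → v ≠ q3 → β v = none := by
    intro v hv g1 g2 g3
    rcases hb.q v hv g1 g2 g3 with hh | hh | hh | hh
    · exact hh
    · exact absurd hh (hempty (some q1) (by omega) v hv g1 g2 g3)
    · exact absurd hh (hempty (some q2) (by omega) v hv g1 g2 g3)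
    · exact absurd hh (hempty (some q3) (by omega) v hv g1 g2 g3)
  have hz : ∀ v ∈ W, v ≠ q1 → v ≠ q2 → v ≠ q3 → ¬ F.Adj none (some v) := by
    intro v hv g1 g2 g3 hadj
    have hn := hb.n v hv g1 g2 g3
    rw [hall v hv g1 g2 g3] at hn
    exact hn hadj.symm
  obtain ⟨u, hu⟩ : (bset W q1 q2 q3 β none).Nonempty := Finset.card_pos.mp (by omega)
  obtain ⟨hu0, hu1, hu2, hu3, hu4⟩ := mem_bset.mp hu
  obtain ⟨q', hq', g1, g2, g3, g4, g5, g6, g7, g8⟩ := hb.w u hu0 hu1 hu2 hu3
  rw [hu4] at g4 g5 g6 g7 g8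
  have h1q' : F.Adj (some q1) (some q') := (g6 (by simp)).symm
  have h2q' : F.Adj (some q2) (some q') := (g7 (by simp)).symm
  have h3q' : F.Adj (some q3) (some q') := (g8 (by simp)).symm
  have h12 := adj_ne hb.a12
  have h13 := adj_ne hb.a13
  have h23 := adj_ne hb.a23
  have hk1 := h.k_eq_zero hb.m1 hb.z1
  have hk2 := h.k_eq_zero hb.m2 hb.z2
  have hk3 := h.k_eq_zero hb.m3 hb.z3
  have hf0 : ∀ v ∈ W, v ≠ q1 → v ≠ q2 → v ≠ q3 → f v = 0 := by
    intro v hv e1 e2 e3
    by_contra hne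
    exact hz v hv e1 e2 e3 (h.fadj v hv hne)
  by_cases hkq' : k q' = 0
  · -- the 4-clique `{q1, q2, q3, q'}`
    have hmem : ∀ v : V, some v ∉ ({some q1, some q2, some q3, some q'} : Finset (Option V)) ↔
        (v ≠ q1 ∧ v ≠ q2 ∧ v ≠ q3 ∧ v ≠ q') := by
      intro v; simp
    obtain ⟨br, hb1, hb2, _⟩ := h.t3.branch
      ({some q1, some q2, some q3, some q'} : Finset (Option V))
      (by
        intro v hv
        simp only [Finset.mem_insert, Finset.mem_singleton] at hv
        rcases hv with rfl | rfl | rfl | rfl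
        · exact Finset.some_mem_insertNone.mpr hb.m1
        · exact Finset.some_mem_insertNone.mpr hb.m2
        · exact Finset.some_mem_insertNone.mpr hb.m3
        · exact Finset.some_mem_insertNone.mpr hq')
      (by
        rw [Finset.card_insert_of_notMem, Finset.card_insert_of_notMem,
          Finset.card_insert_of_notMem, Finset.card_singleton] <;>
          simp [h12, h13, h23, g1.symm, g2.symm, g3.symm])
      (by
        intro a ha b hb' hab
        have a12 := hb.a12
        have a13 := hb.a13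
        have a23 := hb.a23
        simp only [Finset.mem_insert, Finset.mem_singleton] at ha hb'
        rcases ha with rfl | rfl | rfl | rfl <;> rcases hb' with rfl | rfl | rfl | rfl <;>
          first
            | exact absurd rfl hab
            | assumption
            | (apply F.symm.symm; assumption))
    have hB4 : Br4 F W k q1 q2 q3 q' (fun v => br (some v)) := by
      refine ⟨hb.m1, hb.m2, hb.m3, hq', hk1, hk2, hk3, hkq', hb.a12, hb.a13, h1q', hb.a23, h2q',
        h3q', ?_, ?_, ?_, ?_⟩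
      · intro v hv e1 e2 e3 _; exact hz v hv e1 e2 e3
      · intro v hv e1 e2 e3 e4
        have := (hb1 (some v) (Finset.some_mem_insertNone.mpr hv)
          ((hmem v).mpr ⟨e1, e2, e3, e4⟩)).1
        simpa only [Finset.mem_insert, Finset.mem_singleton] using this
      · intro v hv e1 e2 e3 e4
        exact (hb1 (some v) (Finset.some_mem_insertNone.mpr hv)
          ((hmem v).mpr ⟨e1, e2, e3, e4⟩)).2
      · intro u hu e1 e2 e3 e4 v hv e1' e2' e3' e4' huv
        exact hb2 (some u) (Finset.some_mem_insertNone.mpr hu) (some v)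
          (Finset.some_mem_insertNone.mpr hv) ((hmem u).mpr ⟨e1, e2, e3, e4⟩)
          ((hmem v).mpr ⟨e1', e2', e3', e4'⟩) huv
    exact hB4.dec h IH IHs
  · -- `q'` is special: its neighbours are exactly `q1, q2, q3`
    obtain ⟨_, T, hT, hTc, hTa, _⟩ := h.sp q' hq' hkq'
    have hTeq : ({q1, q2, q3} : Finset V) = T := by
      apply Finset.eq_of_subset_of_card_le
      · intro v hv
        simp only [Finset.mem_insert, Finset.mem_singleton] at hv
        rcases hv with rfl | rfl | rfl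
        · exact (hTa _ hb.m1).mp h1q'.symm
        · exact (hTa _ hb.m2).mp h2q'.symm
        · exact (hTa _ hb.m3).mp h3q'.symm
      · rw [hTc, Finset.card_insert_of_notMem, Finset.card_insert_of_notMem,
          Finset.card_singleton] <;> simp [h12, h13, h23]
    have hnq' : ∀ v ∈ W, F.Adj (some q') (some v) → v = q1 ∨ v = q2 ∨ v = q3 := by
      intro v hv hadj
      have := (hTa v hv).mp hadj
      rw [← hTeq] at this
      simpa using this
    have hq'B : q' ∈ bset W q1 q2 q3 β none := mem_bset.mpr ⟨hq', g1, g2, g3, g4⟩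
    have hec := Finset.card_erase_of_mem hq'B
    by_cases h2 : 2 ≤ ((bset W q1 q2 q3 β none).erase q').card
    · refine h.red_nz (B := (bset W q1 q2 q3 β none).erase q') hb.m1 hb.m2 hb.m3 hb.a12 hb.a13
        hb.a23 hk1 hk2 hk3 ((Finset.erase_subset _ _).trans (Finset.filter_subset _ _))
        (fun hh => (mem_bset.mp (Finset.mem_of_mem_erase hh)).2.1 rfl)
        (fun hh => (mem_bset.mp (Finset.mem_of_mem_erase hh)).2.2.1 rfl)
        (fun hh => (mem_bset.mp (Finset.mem_of_mem_erase hh)).2.2.2.1 rfl) ?_ ?_ h2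
        (by omega) IH
      · intro b hbB v hv hvB e1 e2 e3 hadj
        obtain ⟨b0, b1, b2, b3, b4⟩ := mem_bset.mp (Finset.mem_of_mem_erase hbB)
        have hvq' : v = q' := by
          by_contra hne
          exact hvB (Finset.mem_erase.mpr ⟨hne, mem_bset.mpr ⟨hv, e1, e2, e3, hall v hv e1 e2 e3⟩⟩)
        subst hvq'
        rcases hnq' b b0 hadj.symm with rfl | rfl | rfl
        · exact b1 rfl
        · exact b2 rfl
        · exact b3 rfl
      · intro b hbB
        obtain ⟨b0, b1, b2, b3, b4⟩ := mem_bset.mp (Finset.mem_of_mem_erase hbB)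
        exact hz b b0 b1 b2 b3
    · exfalso
      apply hkq'
      obtain ⟨b, hbe⟩ := Finset.card_eq_one.mp
        (show ((bset W q1 q2 q3 β none).erase q').card = 1 by omega)
      have hbmem : b ∈ (bset W q1 q2 q3 β none).erase q' := by rw [hbe]; simp
      have hbq' : b ≠ q' := Finset.ne_of_mem_erase hbmem
      obtain ⟨b0, b1, b2, b3, b4⟩ := mem_bset.mp (Finset.mem_of_mem_erase hbmem)
      apply BC3 h.zg (q1 := q1) (q2 := q2) (q3 := q3) (a := q') (b := b) _ (by omega) _
        (hf0 q' hq' g1 g2 g3) (hf0 b b0 b1 b2 b3) hk1 hk2 hk3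
      · ext v
        simp only [Finset.mem_insert, Finset.mem_singleton]
        constructor
        · intro hv
          by_cases e1 : v = q1
          · exact Or.inl e1
          by_cases e2 : v = q2
          · exact Or.inr (Or.inl e2)
          by_cases e3 : v = q3
          · exact Or.inr (Or.inr (Or.inl e3))
          by_cases e4 : v = q'
          · exact Or.inr (Or.inr (Or.inr (Or.inl e4)))
          have : v ∈ (bset W q1 q2 q3 β none).erase q' :=
            Finset.mem_erase.mpr ⟨e4, mem_bset.mpr ⟨hv, e1, e2, e3, hall v hv e1 e2 e3⟩⟩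
          rw [hbe, Finset.mem_singleton] at this
          exact Or.inr (Or.inr (Or.inr (Or.inr this)))
        · rintro (rfl | rfl | rfl | rfl | rfl)
          · exact hb.m1
          · exact hb.m2
          · exact hb.m3
          · exact hq'
          · exact b0
      · by_contra hne
        rcases hnq' b b0 (h.madj q' hq' b b0 hne) with rfl | rfl | rfl
        · exact b1 rfl
        · exact b2 rfl
        · exact b3 rfl

theorem Good.step (h : Good W m f k r F) (IH : IHW W r) (IHs : IHr W r) : Dec W m f r := by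
  obtain ⟨Q, hQ, hnQ, hQc, hQcl⟩ := h.t3.extend {none} (by
      intro v hv
      rw [Finset.mem_singleton] at hv
      subst hv
      exact Finset.none_mem_insertNone) (by simp) (by
      intro a ha b hb hab
      rw [Finset.mem_singleton] at ha hb
      exact absurd (ha.trans hb.symm) hab)
  have hnone : none ∈ Q := hnQ (Finset.mem_singleton_self _)
  obtain ⟨x, y, w, hxy, hxw, hyw, hxyw⟩ := Finset.card_eq_three.mp
    (show (Q.erase none).card = 3 by rw [Finset.card_erase_of_mem hnone, hQc])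
  have hx : x ∈ Q.erase none := by rw [hxyw]; simp
  have hy : y ∈ Q.erase none := by rw [hxyw]; simp
  have hw : w ∈ Q.erase none := by rw [hxyw]; simp
  rw [Finset.mem_erase] at hx hy hw
  obtain ⟨q1, rfl⟩ := Option.ne_none_iff_exists'.mp hx.1
  obtain ⟨q2, rfl⟩ := Option.ne_none_iff_exists'.mp hy.1
  obtain ⟨q3, rfl⟩ := Option.ne_none_iff_exists'.mp hw.1
  obtain ⟨β, hb⟩ := exists_Br3 h.t3 (Finset.some_mem_insertNone.mp (hQ hx.2))
    (Finset.some_mem_insertNone.mp (hQ hy.2)) (Finset.some_mem_insertNone.mp (hQ hw.2))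
    (hQcl none hnone _ hx.2 (by simp)) (hQcl none hnone _ hy.2 (by simp))
    (hQcl none hnone _ hw.2 (by simp)) (hQcl _ hx.2 _ hy.2 hxy) (hQcl _ hx.2 _ hw.2 hxw)
    (hQcl _ hy.2 _ hw.2 hyw)
  by_cases h1 : 2 ≤ (bset W q1 q2 q3 β (some q1)).card
  · by_cases hc : (bset W q1 q2 q3 β (some q1)).card + 4 ≤ W.card
    · exact hb.red1 h h1 hc IH
    · exact hb.c2 h h1 (by omega) IH IHs
  by_cases h2 : 2 ≤ (bset W q1 q2 q3 β (some q2)).card
  · have heq : bset W q2 q1 q3 β (some q2) = bset W q1 q2 q3 β (some q2) := bset_swap12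
    by_cases hc : (bset W q1 q2 q3 β (some q2)).card + 4 ≤ W.card
    · exact hb.swap12.red1 h (by rw [heq]; exact h2) (by rw [heq]; exact hc) IH
    · exact hb.swap12.c2 h (by rw [heq]; exact h2) (by rw [heq]; omega) IH IHs
  by_cases h3 : 2 ≤ (bset W q1 q2 q3 β (some q3)).card
  · have heq : bset W q3 q1 q2 β (some q3) = bset W q1 q2 q3 β (some q3) := by
      rw [bset_swap12, bset_swap23]
    by_cases hc : (bset W q1 q2 q3 β (some q3)).card + 4 ≤ W.card
    · exact hb.swap23.swap12.red1 h (by rw [heq]; exact h3) (by rw [heq]; exact hc) IH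
    · exact hb.swap23.swap12.c2 h (by rw [heq]; exact h3) (by rw [heq]; omega) IH IHs
  by_cases hz : 2 ≤ (bset W q1 q2 q3 β none).card
  · by_cases hc : (bset W q1 q2 q3 β none).card + 3 < W.card
    · exact hb.redz h hz hc IH
    · exact hb.c3 h hz (by omega) IH IHs
  exact hb.bc1 h (by omega) (by omega) (by omega) (by omega) IHs

/-- z-graphs supported on 3-trees decompose. -/
theorem Good.dec (h : Good W m f k r F) : Dec W m f r := by
  suffices H : ∀ n : ℕ, ∀ (W : Finset V) (m : V → V → ℕ) (f k : V → ℕ) (r : ℕ)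
      (F : SimpleGraph (Option V)), W.card + r = n → Good W m f k r F → Dec W m f r from
    H _ W m f k r F rfl h
  intro n
  induction n using Nat.strong_induction_on with
  | _ n ih =>
    intro W m f k r F hn hG
    apply hG.step
    · intro W' m' f' k' F' hlt hG'
      exact ih (W'.card + r) (by omega) W' m' f' k' r F' rfl hG'
    · intro s m' f' k' F' hlt hG'
      exact ih (W.card + s) (by omega) W m' f' k' s F' rfl hG'

end PStar
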