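import Pool.Agent.PStar.Defs

set_option autoImplicit false

namespace PStar

open Finset

private theorem pm_aux {α : Type*} [Fintype α] [DecidableEq α] (M : α → α → ℕ)
    (hs : ∀ u v, M u v = M v u) (r : ℕ) (hr : 1 ≤ r)
    (heven : Even (Fintype.card α)) (hdeg : ∀ v, ∑ u, M v u ≤ r) (u0 : α)
    (hcut : ∀ C : Finset α, Odd C.card → u0 ∉ C → r ≤ ∑ x ∈ C, ∑ y ∈ Cᶜ, M x y)
    (G : SimpleGraph α) (hG : ∀ u v, u ≠ v → 1 ≤ M u v → G.Adj u v) (T : Set α)
    (hT : G.IsTutteViolator T) : False := by
  classical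
  set H := (⊤ : G.Subgraph).deleteVerts T with hH
  have hverts : ∀ x : α, x ∈ H.verts ↔ x ∉ T := by
    intro x
    simp [hH]
  have hT' : T.ncard < H.coe.oddComponents.ncard := hT
  -- the components as finsets of `α`
  let C : H.coe.ConnectedComponent → Finset α := fun c =>
    univ.filter (fun x => ∃ hx : x ∈ H.verts, H.coe.connectedComponentMk ⟨x, hx⟩ = c)
  have hmemC : ∀ c x, x ∈ C c ↔ ∃ hx : x ∈ H.verts, H.coe.connectedComponentMk ⟨x, hx⟩ = c := by
    intro c x
    simp [C]
  have hCcard : ∀ c, (C c).card = c.supp.ncard := by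
    intro c
    have h1 : ((C c : Finset α) : Set α) = Subtype.val '' c.supp := by
      ext x
      rw [Finset.mem_coe, hmemC]
      constructor
      · rintro ⟨hx, hx2⟩
        exact ⟨⟨x, hx⟩, hx2, rfl⟩
      · rintro ⟨⟨y, hy⟩, hy2, rfl⟩
        exact ⟨hy, hy2⟩
    rw [← Set.ncard_coe_finset, h1, Set.ncard_image_of_injective _ Subtype.val_injective]
  have hCdisj : ∀ c c', c ≠ c' → Disjoint (C c) (C c') := by
    intro c c' hcc
    rw [Finset.disjoint_left]
    intro x hx hx'
    rw [hmemC] at hx hx'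
    obtain ⟨h1, h2⟩ := hx
    obtain ⟨h3, h4⟩ := hx'
    exact hcc (h2.symm.trans h4)
  let O : Finset H.coe.ConnectedComponent := univ.filter (fun c => Odd (C c).card)
  have hO : H.coe.oddComponents.ncard = O.card := by
    rw [← Set.ncard_coe_finset]
    congr 1
    ext c
    simp [O, hCcard]
  let TT : Finset α := univ.filter (fun x => x ∈ T)
  have hTT : T.ncard = TT.card := by
    rw [← Set.ncard_coe_finset]
    congr 1
    ext c
    simp [TT]
  -- edges leaving an odd component
  have key : ∀ c ∈ O, u0 ∉ C c → r ≤ ∑ x ∈ C c, ∑ y ∈ TT, M x y := by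
    intro c hc hu
    have h1 := hcut (C c) (by simpa [O] using hc) hu
    refine h1.trans ?_
    apply Finset.sum_le_sum
    intro x hx
    rw [← Finset.sum_subset (s₁ := TT) (s₂ := (C c)ᶜ)]
    · intro y hy
      rw [Finset.mem_compl, hmemC]
      rintro ⟨hy1, _⟩
      rw [hverts] at hy1
      exact hy1 (by simpa [TT] using hy)
    · intro y hy hyT
      by_contra hne
      have hyT' : y ∈ H.verts := by
        rw [hverts]
        simpa [TT] using hyT
      rw [hmemC] at hx
      obtain ⟨hx1, hx2⟩ := hx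
      rw [Finset.mem_compl, hmemC] at hy
      apply hy
      refine ⟨hyT', ?_⟩
      rw [← hx2]
      apply SimpleGraph.ConnectedComponent.sound
      by_cases hxy : x = y
      · subst hxy
        exact SimpleGraph.Reachable.refl _
      have hadj : G.Adj x y := hG x y hxy (by omega)
      apply SimpleGraph.Adj.reachable
      rw [SimpleGraph.Subgraph.coe_adj]
      simp only [hH, SimpleGraph.Subgraph.deleteVerts_adj]
      refine ⟨by simp, (hverts y).1 hyT', by simp, (hverts x).1 hx1, ?_⟩
      simpa using hadj.symm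
  let O1 : Finset H.coe.ConnectedComponent := O.filter (fun c => u0 ∉ C c)
  have hO1 : O1.card * r ≤ TT.card * r := by
    calc O1.card * r = ∑ c ∈ O1, r := by simp
      _ ≤ ∑ c ∈ O1, ∑ x ∈ C c, ∑ y ∈ TT, M x y := by
          apply Finset.sum_le_sum
          intro c hc
          rw [Finset.mem_filter] at hc
          exact key c hc.1 hc.2
      _ = ∑ x ∈ O1.biUnion C, ∑ y ∈ TT, M x y := by
          rw [Finset.sum_biUnion]
          intro c _ c' _ hcc
          exact hCdisj c c' hcc
      _ ≤ ∑ x, ∑ y ∈ TT, M x y := by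
          apply Finset.sum_le_sum_of_subset
          exact Finset.subset_univ _
      _ = ∑ y ∈ TT, ∑ x, M y x := by
          rw [Finset.sum_comm]
          apply Finset.sum_congr rfl
          intro y _
          apply Finset.sum_congr rfl
          intro x _
          exact hs x y
      _ ≤ ∑ y ∈ TT, r := Finset.sum_le_sum (fun y _ => hdeg y)
      _ = TT.card * r := by simp
  have hO1' : O1.card ≤ TT.card := Nat.le_of_mul_le_mul_right hO1 hr
  have hO2 : O.card ≤ O1.card + 1 := by
    have h1 : O.card = O1.card + (O.filter (fun c => ¬ (u0 ∉ C c))).card :=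
      (Finset.card_filter_add_card_filter_not (s := O) (fun c => u0 ∉ C c)).symm
    have h2 : (O.filter (fun c => ¬ (u0 ∉ C c))).card ≤ 1 := by
      rw [Finset.card_le_one]
      intro c hc c' hc'
      simp only [Finset.mem_filter, not_not] at hc hc'
      by_contra hne
      exact (Finset.disjoint_left.1 (hCdisj c c' hne)) hc.2 hc'.2
    omega
  -- parity
  have hpar := H.coe.odd_ncard_oddComponents
  have hcardH : Nat.card H.verts = Fintype.card α - TT.card := by
    have h1 : Nat.card H.verts = (TTᶜ).card := by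
      rw [Nat.card_coe_set_eq, ← Set.ncard_coe_finset]
      congr 1
      ext x
      rw [hverts]
      simp [TT]
    rw [h1, Finset.card_compl]
  have hTle : TT.card ≤ Fintype.card α := Finset.card_le_univ _
  have hOeq : O.card = TT.card + 1 := by omega
  have hc2 : Odd H.coe.oddComponents.ncard ↔ Odd (Nat.card H.verts) := hpar
  rw [hO, hcardH, hOeq] at hc2
  obtain ⟨n, hn⟩ := heven
  rcases Nat.even_or_odd TT.card with ht | ht
  · obtain ⟨k, hk⟩ := ht
    have h1 : Odd (TT.card + 1) := ⟨k, by omega⟩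
    obtain ⟨l, hl⟩ := hc2.1 h1
    omega
  · obtain ⟨k, hk⟩ := ht
    have h1 : Odd (Fintype.card α - TT.card) := ⟨n - k - 1, by omega⟩
    obtain ⟨l, hl⟩ := hc2.2 h1
    omega

/-- Perfect matchings from Tutte's theorem: all degrees at most `r`, and every odd set avoiding
the exceptional vertex `u0` has at least `r` edges leaving it. -/
theorem exists_pm {α : Type*} [Fintype α] [DecidableEq α] (M : α → α → ℕ)
    (hs : ∀ u v, M u v = M v u) (hl : ∀ v, M v v = 0) (r : ℕ) (hr : 1 ≤ r)
    (heven : Even (Fintype.card α)) (hdeg : ∀ v, ∑ u, M v u ≤ r) (u0 : α)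
    (hcut : ∀ C : Finset α, Odd C.card → u0 ∉ C → r ≤ ∑ x ∈ C, ∑ y ∈ Cᶜ, M x y) :
    ∃ p : α → α, (∀ v, p (p v) = v) ∧ ∀ v, 1 ≤ M v (p v) := by
  classical
  let G : SimpleGraph α :=
    { Adj := fun u v => u ≠ v ∧ 1 ≤ M u v
      symm := ⟨fun u v h => ⟨h.1.symm, by rw [hs v u]; exact h.2⟩⟩
      loopless := ⟨fun u h => h.1 rfl⟩ }
  have hpm : ∃ N : G.Subgraph, N.IsPerfectMatching := by
    rw [SimpleGraph.tutte]
    intro T hT
    exact pm_aux M hs r hr heven hdeg u0 hcut G (fun u v h1 h2 => ⟨h1, h2⟩) T hT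
  obtain ⟨N, hN⟩ := hpm
  rw [SimpleGraph.Subgraph.isPerfectMatching_iff] at hN
  choose p hp hp2 using hN
  refine ⟨p, ?_, ?_⟩
  · intro v
    exact (hp2 (p v) v (hp v).symm).symm
  · intro v
    exact (N.adj_sub (hp v)).2

end PStar
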