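import Pool.Agent.PStar.Basic0

set_option autoImplicit false

namespace PStar

open Finset

variable {V : Type*} [DecidableEq V] {W : Finset V} {m : V → V → ℕ} {f k : V → ℕ} {r : ℕ}
  {x y : V} {A B : Finset V}

/-- Cuts by indicator functions. -/
private theorem R1Piece_cut {P X : Finset V} (M : V → V → ℕ) (F : V → ℕ) (hX : X ⊆ P) :
    cut P M F X = ∑ u ∈ P, ∑ v ∈ P, (if u ∈ X ∧ v ∉ X then M u v else 0) +
      ∑ u ∈ P, (if u ∈ X then F u else 0) := by
  unfold cut E
  congr 1
  · have h1 : ∑ u ∈ P, ∑ v ∈ P, (if u ∈ X ∧ v ∉ X then M u v else 0) =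
        ∑ u ∈ P, (if u ∈ X then ∑ v ∈ P, (if v ∉ X then M u v else 0) else 0) := by
      apply sum_congr rfl
      intro u _
      by_cases hu : u ∈ X
      · simp [hu]
      · simp [hu]
    rw [h1, ← sum_filter]
    have h2 : P.filter (fun u => u ∈ X) = X := by
      ext u
      simp only [mem_filter]
      exact ⟨fun h => h.2, fun h => ⟨hX h, h⟩⟩
    rw [h2]
    apply sum_congr rfl
    intro u _
    rw [← sum_filter]
    apply sum_congr
    · ext v
      simp only [mem_filter, mem_sdiff]
    · intros; rfl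
  · rw [← sum_filter]
    apply sum_congr
    · ext u
      simp only [mem_filter]
      exact ⟨fun h => ⟨hX h, h⟩, fun h => h.2⟩
    · intros; rfl

private theorem R1Piece_card {P X : Finset V} (hX : X ⊆ P) :
    X.card = ∑ u ∈ P, (if u ∈ X then 1 else 0) := by
  rw [card_eq_sum_ones, ← sum_filter]
  apply sum_congr
  · ext u
    simp only [mem_filter]
    exact ⟨fun h => ⟨hX h, h⟩, fun h => h.2⟩
  · intros; rfl

/-- The piece on the side of `B`. -/
theorem R1_piece (h : IsZG W m f k r) (hs : Sep2 W m k x y A B) {t : ℕ}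
    (ht : Rng m f r x y B t) {a : V} (ha : a ∉ insert x (insert y B)) :
    IsZG (p1W x y a B) (pieceM m r x y a B t) (pieceF m f r x y a B t) (p1K a k) r := by
  have hax : a ≠ x := fun h1 => ha (h1 ▸ mem_insert_self _ _)
  have hay : a ≠ y := fun h1 => ha (h1 ▸ mem_insert_of_mem (mem_insert_self _ _))
  have haB : a ∉ B := fun h1 => ha (mem_insert_of_mem (mem_insert_of_mem h1))
  have hxy := hs.hxy
  have hbx : ∀ b ∈ B, b ≠ x := fun b hb h1 => hs.hxB (h1 ▸ hb)
  have hby : ∀ b ∈ B, b ≠ y := fun b hb h1 => hs.hyB (h1 ▸ hb)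
  have hba : ∀ b ∈ B, b ≠ a := fun b hb h1 => haB (h1 ▸ hb)
  have hxW : x ∈ W := by rw [hs.hW]; simp
  have hyW : y ∈ W := by rw [hs.hW]; simp
  have hBW : ∀ b ∈ B, b ∈ W := by
    intro b hb
    rw [hs.hW]
    simp [hb]
  have hAW : ∀ b ∈ A, b ∈ W := by
    intro b hb
    rw [hs.hW]
    simp [hb]
  -- sums
  have sumW : ∀ g : V → ℕ, ∑ u ∈ W, g u = g x + (g y + (∑ u ∈ A, g u + ∑ u ∈ B, g u)) := by
    intro g
    rw [hs.hW, sum_insert, sum_insert, sum_union hs.hAB]
    · simp [hs.hyA, hs.hyB]
    · simp [hs.hxA, hs.hxB, hxy]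
  have sumP : ∀ g : V → ℕ, ∑ u ∈ p1W x y a B, g u = g a + (g x + (g y + ∑ u ∈ B, g u)) := by
    intro g
    unfold p1W
    rw [sum_insert ha, sum_insert, sum_insert hs.hyB]
    simp [hs.hxB, hxy]
  -- the numbers
  set bx := bet m B x with hbxd
  set by' := bet m B y with hbyd
  obtain ⟨j, hj⟩ : ∃ j, j = r + t - bx - by' := ⟨_, rfl⟩
  obtain ⟨p, hp⟩ : ∃ p, p = by' - t := ⟨_, rfl⟩
  obtain ⟨q, hq⟩ : ∃ q, q = bx - t := ⟨_, rfl⟩
  obtain ⟨s, hs'⟩ : ∃ s, s = r + 2 * t - bx - by' := ⟨_, rfl⟩
  have ht1 := ht.lex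
  have ht2 := ht.ley
  have ht3 := ht.ge
  rw [← hbxd] at ht1 ht3
  rw [← hbyd] at ht2 ht3
  have hMeq : pieceM m r x y a B t = p1M x y a j p q m := by
    unfold pieceM
    rw [← hbxd, ← hbyd, ← hj, ← hp, ← hq]
  have hFeq : pieceF m f r x y a B t = p1F x y a s f := by
    unfold pieceF
    rw [← hbxd, ← hbyd, ← hs']
  rw [hMeq, hFeq]
  set M := p1M x y a j p q m with hMd
  set F := p1F x y a s f with hFd
  -- the values of M
  have Maa : M a a = 0 := by simp [hMd, p1M, hax, hay]
  have Max : M a x = p := by simp [hMd, p1M, hax, hay]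
  have May : M a y = q := by simp [hMd, p1M, hax, hay, hxy.symm]
  have Mab : ∀ b ∈ B, M a b = 0 := by
    intro b hb
    simp [hMd, p1M, hax, hay, hbx b hb, hby b hb]
  have Mxa : M x a = p := by simp [hMd, p1M, hax, hay, hxy]
  have Mxx : M x x = 0 := by simp [hMd, p1M, hax.symm, hxy, h.loopless x hxW]
  have Mxy : M x y = j := by simp [hMd, p1M]
  have Mxb : ∀ b ∈ B, M x b = m x b := by
    intro b hb
    simp [hMd, p1M, hax.symm, hxy, hbx b hb, hby b hb, hba b hb]
  have Mya : M y a = q := by simp [hMd, p1M, hax, hay, hxy.symm]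
  have Myx : M y x = j := by simp [hMd, p1M]
  have Myy : M y y = 0 := by simp [hMd, p1M, hay.symm, hxy.symm, h.loopless y hyW]
  have Myb : ∀ b ∈ B, M y b = m y b := by
    intro b hb
    simp [hMd, p1M, hay.symm, hxy.symm, hbx b hb, hby b hb, hba b hb]
  have Mba : ∀ b ∈ B, M b a = 0 := by
    intro b hb
    simp [hMd, p1M, hax, hay, hbx b hb, hby b hb]
  have Mbx : ∀ b ∈ B, M b x = m x b := by
    intro b hb
    rw [h.symm x hxW b (hBW b hb)]
    simp [hMd, p1M, hax.symm, hxy, hbx b hb, hby b hb, hba b hb]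
  have Mby : ∀ b ∈ B, M b y = m y b := by
    intro b hb
    rw [h.symm y hyW b (hBW b hb)]
    simp [hMd, p1M, hay.symm, hxy.symm, hbx b hb, hby b hb, hba b hb]
  have Mbb : ∀ b ∈ B, ∀ c ∈ B, M b c = m b c := by
    intro b hb c hc
    simp [hMd, p1M, hbx b hb, hby b hb, hba b hb, hbx c hc, hby c hc, hba c hc]
  have Fa : F a = s := by simp [hFd, p1F]
  have Fx : F x = 0 := by simp [hFd, p1F, hax.symm]
  have Fy : F y = 0 := by simp [hFd, p1F, hay.symm]
  have Fb : ∀ b ∈ B, F b = f b := by
    intro b hb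
    simp [hFd, p1F, hbx b hb, hby b hb, hba b hb]
  have mBA : ∀ b ∈ B, ∀ c ∈ A, m b c = 0 := by
    intro b hb c hc
    rw [h.symm b (hBW b hb) c (hAW c hc)]
    exact hs.hm c hc b hb
  have hmem : ∀ u, u ∈ p1W x y a B → u = a ∨ u = x ∨ u = y ∨ u ∈ B := by
    intro u hu
    simpa [p1W] using hu
  have mxs : ∀ b ∈ B, m b x = m x b := fun b hb => h.symm b (hBW b hb) x hxW
  have mys : ∀ b ∈ B, m b y = m y b := fun b hb => h.symm b (hBW b hb) y hyW
  refine ⟨?_, ?_, ?_, ?_⟩
  · -- symmetry
    intro u hu0 v hv0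
    rcases hmem u hu0 with e1 | e1 | e1 | hu <;> rcases hmem v hv0 with e2 | e2 | e2 | hv <;>
      (try rw [e1]) <;> (try rw [e2])
    · rw [Max, Mxa]
    · rw [May, Mya]
    · rw [Mab v hv, Mba v hv]
    · rw [Max, Mxa]
    · rw [Mxy, Myx]
    · rw [Mxb v hv, Mbx v hv]
    · rw [May, Mya]
    · rw [Mxy, Myx]
    · rw [Myb v hv, Mby v hv]
    · rw [Mab u hu, Mba u hu]
    · rw [Mxb u hu, Mbx u hu]
    · rw [Myb u hu, Mby u hu]
    · rw [Mbb u hu v hv, Mbb v hv u hu]
      exact h.symm u (hBW u hu) v (hBW v hv)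
  · -- loopless
    intro v hv0
    rcases hmem v hv0 with e1 | e1 | e1 | hv
    · rw [e1]; exact Maa
    · rw [e1]; exact Mxx
    · rw [e1]; exact Myy
    · rw [Mbb v hv v hv]
      exact h.loopless v (hBW v hv)
  · -- degrees
    intro v hv0
    rw [sumP]
    rcases hmem v hv0 with e1 | e1 | e1 | hv
    · rw [e1, Maa, Max, May, Fa, sum_congr rfl (fun b hb => Mab b hb), sum_const_zero]
      have : p1K a k a = 0 := by simp [p1K]
      rw [this]
      omega
    · rw [e1, Mxa, Mxx, Mxy, Fx, sum_congr rfl (fun b hb => Mxb b hb)]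
      have h1 : p1K a k x = 0 := by simp [p1K, hs.hkx]
      have h2 : ∑ b ∈ B, m x b = bx := rfl
      rw [h1, h2]
      omega
    · rw [e1, Mya, Myx, Myy, Fy, sum_congr rfl (fun b hb => Myb b hb)]
      have h1 : p1K a k y = 0 := by simp [p1K, hs.hky]
      have h2 : ∑ b ∈ B, m y b = by' := rfl
      rw [h1, h2]
      omega
    · have h3 : ∑ b ∈ B, M v b = ∑ b ∈ B, m v b := sum_congr rfl (Mbb v hv)
      rw [Mba v hv, Mbx v hv, Mby v hv, Fb v hv, h3]
      have h1 : p1K a k v = k v := by simp [p1K, hba v hv]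
      have h2 := h.degree v (hBW v hv)
      rw [sumW, sum_congr rfl (fun b hb => mBA v hv b hb), sum_const_zero, mxs v hv,
        mys v hv] at h2
      rw [h1]
      omega
  · -- cuts
    intro X hX hodd
    -- atoms
    obtain ⟨e0, he0⟩ : ∃ e0, e0 = ∑ u ∈ B, ∑ v ∈ B, (if u ∈ X ∧ v ∉ X then m u v else 0) :=
      ⟨_, rfl⟩
    obtain ⟨φ, hφ⟩ : ∃ φ, φ = ∑ u ∈ B, (if u ∈ X then f u else 0) := ⟨_, rfl⟩
    obtain ⟨α, hα⟩ : ∃ α, α = ∑ u ∈ B, (if u ∈ X then m x u else 0) := ⟨_, rfl⟩
    obtain ⟨α', hα'⟩ : ∃ α', α' = ∑ u ∈ B, (if u ∉ X then m x u else 0) := ⟨_, rfl⟩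
    obtain ⟨β, hβ⟩ : ∃ β, β = ∑ u ∈ B, (if u ∈ X then m y u else 0) := ⟨_, rfl⟩
    obtain ⟨β', hβ'⟩ : ∃ β', β' = ∑ u ∈ B, (if u ∉ X then m y u else 0) := ⟨_, rfl⟩
    obtain ⟨n, hn⟩ : ∃ n, n = ∑ u ∈ B, (if u ∈ X then 1 else 0) := ⟨_, rfl⟩
    have hbxs : bx = α + α' := by
      rw [hα, hα', ← sum_add_distrib]
      apply sum_congr rfl
      intro u _
      by_cases hu : u ∈ X <;> simp [hu]
    have hbys : by' = β + β' := by
      rw [hβ, hβ', ← sum_add_distrib]
      apply sum_congr rfl
      intro u _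
      by_cases hu : u ∈ X <;> simp [hu]
    have hcard : X.card = (if a ∈ X then 1 else 0) + ((if x ∈ X then 1 else 0) +
        ((if y ∈ X then 1 else 0) + n)) := by
      rw [R1Piece_card hX, sumP, hn]
    have hcardB : (X ∩ B).card = n := by
      rw [R1Piece_card (inter_subset_right : X ∩ B ⊆ B), hn]
      apply sum_congr rfl
      intro u hu
      simp [hu]
    -- the cut of the piece
    have hcutP : cut (p1W x y a B) M F X =
        (if a ∈ X ∧ x ∉ X then p else 0) + (if a ∈ X ∧ y ∉ X then q else 0) +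
        (if x ∈ X ∧ a ∉ X then p else 0) + (if x ∈ X ∧ y ∉ X then j else 0) +
        (if x ∈ X then α' else 0) +
        (if y ∈ X ∧ a ∉ X then q else 0) + (if y ∈ X ∧ x ∉ X then j else 0) +
        (if y ∈ X then β' else 0) +
        (if x ∉ X then α else 0) + (if y ∉ X then β else 0) + e0 + (if a ∈ X then s else 0) +
        φ := by
      rw [R1Piece_cut M F hX, sumP, sumP, sumP, sumP, sumP, Maa, Max, May, Mxa, Mxx, Mxy, Mya,
        Myx, Myy, Fa, Fx, Fy]
      have c1 : ∑ v ∈ B, (if a ∈ X ∧ v ∉ X then M a v else 0) = 0 := by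
        apply sum_eq_zero
        intro v hv
        rw [Mab v hv, ite_self]
      have c2 : ∑ v ∈ B, (if x ∈ X ∧ v ∉ X then M x v else 0) = (if x ∈ X then α' else 0) := by
        by_cases hx : x ∈ X
        · simp only [hx, true_and, if_true]
          rw [hα']
          apply sum_congr rfl
          intro v hv
          rw [Mxb v hv]
        · simp [hx]
      have c3 : ∑ v ∈ B, (if y ∈ X ∧ v ∉ X then M y v else 0) = (if y ∈ X then β' else 0) := by
        by_cases hy : y ∈ X
        · simp only [hy, true_and, if_true]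
          rw [hβ']
          apply sum_congr rfl
          intro v hv
          rw [Myb v hv]
        · simp [hy]
      have c4 : ∑ u ∈ B, ∑ v ∈ p1W x y a B, (if u ∈ X ∧ v ∉ X then M u v else 0) =
          (if x ∉ X then α else 0) + ((if y ∉ X then β else 0) + e0) := by
        have d1 : ∀ u ∈ B, ∑ v ∈ p1W x y a B, (if u ∈ X ∧ v ∉ X then M u v else 0) =
            (if u ∈ X ∧ x ∉ X then m x u else 0) + ((if u ∈ X ∧ y ∉ X then m y u else 0) +
              ∑ v ∈ B, (if u ∈ X ∧ v ∉ X then m u v else 0)) := by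
          intro u hu
          rw [sumP, Mba u hu, Mbx u hu, Mby u hu, ite_self, zero_add]
          congr 2
          apply sum_congr rfl
          intro v hv
          rw [Mbb u hu v hv]
        rw [sum_congr rfl d1, sum_add_distrib, sum_add_distrib]
        congr 1
        · by_cases hx : x ∈ X
          · simp [hx]
          · simp [hx, hα]
        · rw [← he0]
          congr 1
          by_cases hy : y ∈ X
          · simp [hy]
          · simp [hy, hβ]
      have c5 : ∑ u ∈ B, (if u ∈ X then F u else 0) = φ := by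
        rw [hφ]
        apply sum_congr rfl
        intro v hv
        rw [Fb v hv]
      rw [c1, c2, c3, c4, c5]
      simp only [ite_self, zero_add, add_zero]
      ring
    -- cuts of W
    have hcutW0 : cut W m f (X ∩ B) = e0 + φ + α + β := by
      rw [R1Piece_cut m f (fun u hu => hBW u (mem_of_mem_inter_right hu)),
        sumW (fun u => ∑ v ∈ W, (if u ∈ X ∩ B ∧ v ∉ X ∩ B then m u v else 0)),
        sumW (fun u => (if u ∈ X ∩ B then f u else 0))]
      have z1 : ∀ u, u ∉ B → ∑ v ∈ W, (if u ∈ X ∩ B ∧ v ∉ X ∩ B then m u v else 0) = 0 := by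
        intro u hu
        apply sum_eq_zero
        intro v _
        rw [if_neg]
        rintro ⟨h1, _⟩
        exact hu (mem_of_mem_inter_right h1)
      have z2 : ∀ u, u ∉ B → (if u ∈ X ∩ B then f u else 0) = 0 := by
        intro u hu
        rw [if_neg]
        intro h1
        exact hu (mem_of_mem_inter_right h1)
      rw [z1 x hs.hxB, z1 y hs.hyB, z2 x hs.hxB, z2 y hs.hyB,
        sum_congr rfl (fun u hu => z1 u (fun h2 => disjoint_left.mp hs.hAB hu h2)),
        sum_congr rfl (fun u hu => z2 u (fun h2 => disjoint_left.mp hs.hAB hu h2)),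
        sum_const_zero]
      have d1 : ∀ u ∈ B, ∑ v ∈ W, (if u ∈ X ∩ B ∧ v ∉ X ∩ B then m u v else 0) =
          (if u ∈ X then m x u else 0) + ((if u ∈ X then m y u else 0) +
            ∑ v ∈ B, (if u ∈ X ∧ v ∉ X then m u v else 0)) := by
        intro u hu
        rw [sumW]
        have e1 : ∑ v ∈ A, (if u ∈ X ∩ B ∧ v ∉ X ∩ B then m u v else 0) = 0 := by
          apply sum_eq_zero
          intro v hv
          rw [mBA u hu v hv, ite_self]
        have e2 : ∑ v ∈ B, (if u ∈ X ∩ B ∧ v ∉ X ∩ B then m u v else 0) =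
            ∑ v ∈ B, (if u ∈ X ∧ v ∉ X then m u v else 0) := by
          apply sum_congr rfl
          intro v hv
          simp [hu, hv]
        rw [e1, e2, mxs u hu, mys u hu]
        simp [hu, hs.hxB, hs.hyB]
      rw [sum_congr rfl d1, sum_add_distrib, sum_add_distrib]
      have e3 : ∑ u ∈ B, (if u ∈ X ∩ B then f u else 0) = φ := by
        rw [hφ]
        apply sum_congr rfl
        intro u hu
        simp [hu]
      rw [e3, ← hα, ← hβ, ← he0]
      ring
    have hcutWx : cut W m f (insert x (X ∩ B)) + bx = e0 + φ + β + α' + r := by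
      have hdx := h.degree x hxW
      rw [sumW, h.loopless x hxW, hs.hkx] at hdx
      have hsub : insert x (X ∩ B) ⊆ W := by
        intro u hu
        rcases mem_insert.mp hu with rfl | hu
        · exact hxW
        · exact hBW u (mem_of_mem_inter_right hu)
      rw [R1Piece_cut m f hsub,
        sumW (fun u => ∑ v ∈ W, (if u ∈ insert x (X ∩ B) ∧ v ∉ insert x (X ∩ B) then m u v
          else 0)),
        sumW (fun u => (if u ∈ insert x (X ∩ B) then f u else 0))]
      have hyn : y ∉ insert x (X ∩ B) := by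
        simp [hxy.symm, hs.hyB]
      have hxi : x ∈ insert x (X ∩ B) := mem_insert_self _ _
      have hAn : ∀ u ∈ A, u ∉ insert x (X ∩ B) := by
        intro u hu h1
        rcases mem_insert.mp h1 with rfl | h1
        · exact hs.hxA hu
        · exact disjoint_left.mp hs.hAB hu (mem_of_mem_inter_right h1)
      have hBi : ∀ u ∈ B, (u ∈ insert x (X ∩ B) ↔ u ∈ X) := by
        intro u hu
        simp [hbx u hu, hu]
      have z1 : ∀ u, u ∉ insert x (X ∩ B) →
          ∑ v ∈ W, (if u ∈ insert x (X ∩ B) ∧ v ∉ insert x (X ∩ B) then m u v else 0) = 0 := by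
        intro u hu
        apply sum_eq_zero
        intro v _
        rw [if_neg]
        rintro ⟨h1, _⟩
        exact hu h1
      rw [z1 y hyn, if_neg hyn, if_pos hxi,
        sum_congr rfl (fun u hu => z1 u (hAn u hu)),
        sum_congr rfl (fun u hu => if_neg (hAn u hu)), sum_const_zero]
      have e0' : ∑ v ∈ W, (if x ∈ insert x (X ∩ B) ∧ v ∉ insert x (X ∩ B) then m x v else 0) =
          m x y + (∑ v ∈ A, m x v + α') := by
        rw [sumW, if_neg (fun h1 => h1.2 hxi), if_pos ⟨hxi, hyn⟩, zero_add]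
        congr 2
        · apply sum_congr rfl
          intro v hv
          rw [if_pos ⟨hxi, hAn v hv⟩]
        · rw [hα']
          apply sum_congr rfl
          intro v hv
          simp only [hBi v hv, hxi, true_and]
      have d1 : ∀ u ∈ B, ∑ v ∈ W,
          (if u ∈ insert x (X ∩ B) ∧ v ∉ insert x (X ∩ B) then m u v else 0) =
          (if u ∈ X then m y u else 0) +
            ∑ v ∈ B, (if u ∈ X ∧ v ∉ X then m u v else 0) := by
        intro u hu
        rw [sumW]
        have e1 : ∑ v ∈ A, (if u ∈ insert x (X ∩ B) ∧ v ∉ insert x (X ∩ B) then m u v else 0) =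
            0 := by
          apply sum_eq_zero
          intro v hv
          rw [mBA u hu v hv, ite_self]
        have e2 : ∑ v ∈ B, (if u ∈ insert x (X ∩ B) ∧ v ∉ insert x (X ∩ B) then m u v else 0) =
            ∑ v ∈ B, (if u ∈ X ∧ v ∉ X then m u v else 0) := by
          apply sum_congr rfl
          intro v hv
          simp only [hBi u hu, hBi v hv]
        rw [e1, e2, mys u hu, if_neg (fun h1 => h1.2 hxi), zero_add, zero_add]
        congr 1
        simp only [hBi u hu, hyn, not_false_eq_true, and_true]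
      rw [e0', sum_congr rfl d1, sum_add_distrib]
      have e3 : ∑ u ∈ B, (if u ∈ insert x (X ∩ B) then f u else 0) = φ := by
        rw [hφ]
        apply sum_congr rfl
        intro u hu
        simp only [hBi u hu]
      have e4 : ∑ u ∈ B, m x u = bx := rfl
      rw [e3, ← hβ, ← he0]
      rw [e4] at hdx
      omega
    have hcutWy : cut W m f (insert y (X ∩ B)) + by' = e0 + φ + α + β' + r := by
      have hdy := h.degree y hyW
      rw [sumW, h.loopless y hyW, hs.hky] at hdy
      have hsub : insert y (X ∩ B) ⊆ W := by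
        intro u hu
        rcases mem_insert.mp hu with rfl | hu
        · exact hyW
        · exact hBW u (mem_of_mem_inter_right hu)
      rw [R1Piece_cut m f hsub,
        sumW (fun u => ∑ v ∈ W, (if u ∈ insert y (X ∩ B) ∧ v ∉ insert y (X ∩ B) then m u v
          else 0)),
        sumW (fun u => (if u ∈ insert y (X ∩ B) then f u else 0))]
      have hxn : x ∉ insert y (X ∩ B) := by
        simp [hxy, hs.hxB]
      have hyi : y ∈ insert y (X ∩ B) := mem_insert_self _ _
      have hAn : ∀ u ∈ A, u ∉ insert y (X ∩ B) := by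
        intro u hu h1
        rcases mem_insert.mp h1 with rfl | h1
        · exact hs.hyA hu
        · exact disjoint_left.mp hs.hAB hu (mem_of_mem_inter_right h1)
      have hBi : ∀ u ∈ B, (u ∈ insert y (X ∩ B) ↔ u ∈ X) := by
        intro u hu
        simp [hby u hu, hu]
      have z1 : ∀ u, u ∉ insert y (X ∩ B) →
          ∑ v ∈ W, (if u ∈ insert y (X ∩ B) ∧ v ∉ insert y (X ∩ B) then m u v else 0) = 0 := by
        intro u hu
        apply sum_eq_zero
        intro v _
        rw [if_neg]
        rintro ⟨h1, _⟩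
        exact hu h1
      rw [z1 x hxn, if_neg hxn, if_pos hyi,
        sum_congr rfl (fun u hu => z1 u (hAn u hu)),
        sum_congr rfl (fun u hu => if_neg (hAn u hu)), sum_const_zero]
      have e0' : ∑ v ∈ W, (if y ∈ insert y (X ∩ B) ∧ v ∉ insert y (X ∩ B) then m y v else 0) =
          m y x + (∑ v ∈ A, m y v + β') := by
        rw [sumW, if_neg (c := y ∈ insert y (X ∩ B) ∧ y ∉ insert y (X ∩ B))
          (fun h1 => h1.2 hyi), if_pos ⟨hyi, hxn⟩, zero_add]
        congr 2
        · apply sum_congr rfl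
          intro v hv
          rw [if_pos ⟨hyi, hAn v hv⟩]
        · rw [hβ']
          apply sum_congr rfl
          intro v hv
          simp only [hBi v hv, hyi, true_and]
      have d1 : ∀ u ∈ B, ∑ v ∈ W,
          (if u ∈ insert y (X ∩ B) ∧ v ∉ insert y (X ∩ B) then m u v else 0) =
          (if u ∈ X then m x u else 0) +
            ∑ v ∈ B, (if u ∈ X ∧ v ∉ X then m u v else 0) := by
        intro u hu
        rw [sumW]
        have e1 : ∑ v ∈ A, (if u ∈ insert y (X ∩ B) ∧ v ∉ insert y (X ∩ B) then m u v else 0) =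
            0 := by
          apply sum_eq_zero
          intro v hv
          rw [mBA u hu v hv, ite_self]
        have e2 : ∑ v ∈ B, (if u ∈ insert y (X ∩ B) ∧ v ∉ insert y (X ∩ B) then m u v else 0) =
            ∑ v ∈ B, (if u ∈ X ∧ v ∉ X then m u v else 0) := by
          apply sum_congr rfl
          intro v hv
          simp only [hBi u hu, hBi v hv]
        rw [e1, e2, mxs u hu, if_neg (c := u ∈ insert y (X ∩ B) ∧ y ∉ insert y (X ∩ B))
          (fun h1 => h1.2 hyi), zero_add, zero_add]
        congr 1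
        simp only [hBi u hu, hxn, not_false_eq_true, and_true]
      rw [e0', sum_congr rfl d1, sum_add_distrib]
      have e3 : ∑ u ∈ B, (if u ∈ insert y (X ∩ B) then f u else 0) = φ := by
        rw [hφ]
        apply sum_congr rfl
        intro u hu
        simp only [hBi u hu]
      have e4 : ∑ u ∈ B, m y u = by' := rfl
      rw [e3, ← hα, ← he0]
      rw [e4] at hdy
      omega
    have hcutB : cutB m f x y B (X ∩ B) = e0 + φ + (α' + β') := by
      have h1 := R1Piece_cut m f (inter_subset_right : X ∩ B ⊆ B)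
      unfold cut at h1
      unfold cutB
      rw [h1]
      congr 2
      · rw [he0]
        apply sum_congr rfl
        intro u hu
        apply sum_congr rfl
        intro v hv
        simp [hu, hv]
      · rw [hφ]
        apply sum_congr rfl
        intro u hu
        simp [hu]
      · rw [hα', hβ', ← sum_add_distrib]
        have h2 : B \ (X ∩ B) = B.filter (fun u => u ∉ X) := by
          ext u
          simp only [mem_sdiff, mem_inter, mem_filter]
          tauto
        rw [h2, sum_filter]
        apply sum_congr rfl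
        intro u _
        by_cases hu : u ∈ X <;> simp [hu]
    have hXB : X ∩ B ⊆ W := fun u hu => hBW u (mem_of_mem_inter_right hu)
    have q0 : Odd n → r ≤ e0 + φ + α + β := by
      intro h1
      rw [← hcutW0]
      exact h.cuts _ hXB (by rwa [hcardB])
    have qx : ¬ Odd n → bx ≤ e0 + φ + β + α' := by
      intro h1
      have hc : Odd (insert x (X ∩ B)).card := by
        rw [card_insert_of_notMem (fun h2 => hs.hxB (mem_of_mem_inter_right h2)), hcardB]
        rw [Nat.not_odd_iff_even] at h1
        exact h1.add_one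
      have hsub : insert x (X ∩ B) ⊆ W := by
        intro u hu
        rcases mem_insert.mp hu with rfl | hu
        · exact hxW
        · exact hXB hu
      have := h.cuts _ hsub hc
      omega
    have qy : ¬ Odd n → by' ≤ e0 + φ + α + β' := by
      intro h1
      have hc : Odd (insert y (X ∩ B)).card := by
        rw [card_insert_of_notMem (fun h2 => hs.hyB (mem_of_mem_inter_right h2)), hcardB]
        rw [Nat.not_odd_iff_even] at h1
        exact h1.add_one
      have hsub : insert y (X ∩ B) ⊆ W := by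
        intro u hu
        rcases mem_insert.mp hu with rfl | hu
        · exact hyW
        · exact hXB hu
      have := h.cuts _ hsub hc
      omega
    have qup : Odd n → 2 * t + r ≤ e0 + φ + (α' + β') + bx + by' := by
      intro h1
      have := ht.up (X ∩ B) inter_subset_right (by rwa [hcardB])
      rw [hcutB] at this
      exact this
    have qlow : ¬ Odd n → bx + by' ≤ e0 + φ + (α' + β') + 2 * t := by
      intro h1
      rw [Nat.not_odd_iff_even] at h1
      have := ht.low (X ∩ B) inter_subset_right (by rwa [hcardB])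
      rw [hcutB] at this
      exact this
    rw [hcutP]
    rw [hcard] at hodd
    rw [Nat.odd_iff] at hodd q0 qx qy qup qlow
    by_cases hA : a ∈ X <;> by_cases hx : x ∈ X <;> by_cases hy : y ∈ X <;>
      simp only [hA, hx, hy, not_true_eq_false, not_false_eq_true, and_true, and_false,
        if_true, if_false, and_self] at hodd ⊢ <;> omega

end PStar
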