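import Pool.Agent.PStar.Basic0

set_option autoImplicit false

namespace PStar

open Finset

variable {V : Type*} [DecidableEq V] {W : Finset V} {m : V → V → ℕ} {f k : V → ℕ} {r : ℕ}
  {x y w : V} {A B : Finset V}

private theorem O_union_right {X Y Z : Finset V} (h : Disjoint Y Z) :
    E m X (Y ∪ Z) = E m X Y + E m X Z := by
  unfold E
  rw [← sum_add_distrib]
  exact sum_congr rfl fun _ _ => sum_union h

private theorem O_union_left {X Y Z : Finset V} (h : Disjoint X Y) :
    E m (X ∪ Y) Z = E m X Z + E m Y Z := sum_union h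

private theorem O_comm (h : IsZG W m f k r) {X Y : Finset V} (hX : X ⊆ W) (hY : Y ⊆ W) :
    E m X Y = E m Y X := by
  unfold E
  rw [sum_comm]
  exact sum_congr rfl fun y hy => sum_congr rfl fun x hx => h.symm x (hX hx) y (hY hy)

private theorem O_cut (X : Finset V) : cut W m f X = ∑ u ∈ X, (∑ v ∈ W \ X, m u v + f u) := by
  unfold cut E
  rw [sum_add_distrib]

private theorem O_W (hs : Sep3 W m f k x y w A B) :
    W = insert x (insert y (insert w A)) ∪ B := by
  rw [hs.hW]
  ext v
  simp only [mem_insert, mem_union]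
  tauto

private theorem O_disj (hs : Sep3 W m f k x y w A B) :
    Disjoint (insert x (insert y (insert w A))) B := by
  rw [disjoint_left]
  intro v hv hB
  simp only [mem_insert] at hv
  rcases hv with rfl | rfl | rfl | hv
  · exact hs.hxB hB
  · exact hs.hyB hB
  · exact hs.hwB hB
  · exact (disjoint_left.1 hs.hAB) hv hB

private theorem O_subB (hs : Sep3 W m f k x y w A B) : B ⊆ W := by
  rw [O_W hs]
  exact subset_union_right

private theorem O_subA (hs : Sep3 W m f k x y w A B) :
    insert x (insert y (insert w A)) ⊆ W := by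
  rw [O_W hs]
  exact subset_union_left

private theorem O_betA (hs : Sep3 W m f k x y w A B) {a : V} (ha : a ∈ A) : bet m B a = 0 :=
  sum_eq_zero fun b hb => hs.hm a ha b hb

/-- number of edges between `X` and `B` -/
private theorem O_XB (hs : Sep3 W m f k x y w A B) {X : Finset V}
    (hX : X ⊆ insert x (insert y (insert w A))) :
    E m X B = (if x ∈ X then bet m B x else 0) + (if y ∈ X then bet m B y else 0) +
      (if w ∈ X then bet m B w else 0) := by
  have h1 : E m X B = ∑ u ∈ insert x (insert y (insert w A)), if u ∈ X then bet m B u else 0 := by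
    rw [← sum_filter]
    have h2 : (insert x (insert y (insert w A))).filter (fun u => u ∈ X) = X := by
      ext u
      rw [mem_filter]
      exact ⟨fun h => h.2, fun h => ⟨hX h, h⟩⟩
    rw [h2]
    rfl
  have hx : x ∉ insert y (insert w A) := by
    simp only [mem_insert, not_or]
    exact ⟨hs.hxy, hs.hxw, hs.hxA⟩
  have hy : y ∉ insert w A := by
    simp only [mem_insert, not_or]
    exact ⟨hs.hyw, hs.hyA⟩
  have hA : ∑ u ∈ A, (if u ∈ X then bet m B u else 0) = 0 :=
    sum_eq_zero fun a ha => by rw [O_betA hs ha]; simp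
  rw [h1, sum_insert hx, sum_insert hy, sum_insert hs.hwA, hA]
  omega

/-- the cut of `X` not meeting `B` -/
private theorem O_cut1 (hs : Sep3 W m f k x y w A B) {X : Finset V}
    (hX : X ⊆ insert x (insert y (insert w A))) :
    cut W m f X = E m X (insert x (insert y (insert w A)) \ X) +
      ((if x ∈ X then bet m B x else 0) + (if y ∈ X then bet m B y else 0) +
      (if w ∈ X then bet m B w else 0)) + ∑ v ∈ X, f v := by
  have h1 : W \ X = (insert x (insert y (insert w A)) \ X) ∪ B := by
    rw [O_W hs]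
    ext v
    simp only [mem_sdiff, mem_union]
    constructor
    · rintro ⟨h2 | h2, h3⟩
      · exact Or.inl ⟨h2, h3⟩
      · exact Or.inr h2
    · rintro (⟨h2, h3⟩ | h2)
      · exact ⟨Or.inl h2, h3⟩
      · exact ⟨Or.inr h2, fun h3 => disjoint_left.1 (O_disj hs) (hX h3) h2⟩
  unfold cut
  rw [h1, O_union_right, O_XB hs hX]
  exact disjoint_of_subset_left sdiff_subset (O_disj hs)

/-- the cut of `X ∪ B` -/
private theorem O_cut2 (h : IsZG W m f k r) (hs : Sep3 W m f k x y w A B) {X : Finset V}
    (hX : X ⊆ insert x (insert y (insert w A))) :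
    cut W m f (X ∪ B) = E m X (insert x (insert y (insert w A)) \ X) +
      ((if x ∈ X then 0 else bet m B x) + (if y ∈ X then 0 else bet m B y) +
      (if w ∈ X then 0 else bet m B w)) + ∑ v ∈ X, f v := by
  have hd := O_disj hs
  have hXB : Disjoint X B := disjoint_of_subset_left hX hd
  have h1 : W \ (X ∪ B) = insert x (insert y (insert w A)) \ X := by
    rw [O_W hs]
    ext v
    simp only [mem_sdiff, mem_union, not_or]
    constructor
    · rintro ⟨h2 | h2, h3, h4⟩
      · exact ⟨h2, h3⟩
      · exact absurd h2 h4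
    · rintro ⟨h2, h3⟩
      exact ⟨Or.inl h2, h3, fun h4 => disjoint_left.1 hd h2 h4⟩
  have hsub : insert x (insert y (insert w A)) \ X ⊆ insert x (insert y (insert w A)) :=
    sdiff_subset
  have h2 : E m B (insert x (insert y (insert w A)) \ X) =
      (if x ∈ X then 0 else bet m B x) + (if y ∈ X then 0 else bet m B y) +
      (if w ∈ X then 0 else bet m B w) := by
    rw [O_comm h (O_subB hs) (hsub.trans (O_subA hs)), O_XB hs hsub]
    have e : ∀ v, v ∈ insert x (insert y (insert w A)) →
        (if v ∈ insert x (insert y (insert w A)) \ X then bet m B v else 0) =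
        if v ∈ X then 0 else bet m B v := by
      intro v hv
      by_cases hvX : v ∈ X
      · rw [if_neg (fun h3 => (mem_sdiff.1 h3).2 hvX), if_pos hvX]
      · rw [if_pos (mem_sdiff.2 ⟨hv, hvX⟩), if_neg hvX]
    rw [e x (by simp), e y (by simp), e w (by simp)]
  have h3 : ∑ v ∈ B, f v = 0 := sum_eq_zero fun b hb => hs.hf b hb
  unfold cut
  rw [h1, O_union_left hXB, sum_union hXB, h2, h3]
  omega

private theorem O_deg (h : IsZG W m f k r) (hs : Sep3 W m f k x y w A B) {v : V} (hv : v ∈ W) :
    ∑ u ∈ insert x (insert y (insert w A)), m v u + bet m B v + f v = r + 2 * k v := by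
  have h1 := h.degree v hv
  rw [← h1]
  congr 1
  conv_rhs => rw [O_W hs]
  rw [sum_union (O_disj hs)]
  rfl

/-- one of the three even case inequalities -/
private theorem O_even (h : IsZG W m f k r) (hs : Sep3 W m f k x y w A B) (he : Even B.card)
    {v : V} (hv : v = x ∨ v = y ∨ v = w) :
    2 * bet m B v ≤ bet m B x + bet m B y + bet m B w := by
  have hvI : v ∈ insert x (insert y (insert w A)) := by
    simp only [mem_insert]
    tauto
  have hvW : v ∈ W := O_subA hs hvI
  have hX : ({v} : Finset V) ⊆ insert x (insert y (insert w A)) := singleton_subset_iff.2 hvI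
  have hkv : k v = 0 := by
    rcases hv with rfl | rfl | rfl
    · exact hs.hkx
    · exact hs.hky
    · exact hs.hkw
  have hodd : Odd ({v} ∪ B).card := by
    rw [card_union_of_disjoint (disjoint_of_subset_left hX (O_disj hs)), card_singleton]
    rcases he with ⟨t, ht⟩
    exact ⟨t, by omega⟩
  have h1 := h.cuts ({v} ∪ B) (union_subset (hX.trans (O_subA hs)) (O_subB hs)) hodd
  rw [O_cut2 h hs hX] at h1
  have h2 := O_deg h hs hvW
  have h3 : E m {v} (insert x (insert y (insert w A)) \ {v}) =
      ∑ u ∈ insert x (insert y (insert w A)), m v u := by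
    unfold E
    rw [sum_singleton]
    rw [← sum_sdiff hX, sum_singleton, h.loopless v hvW, add_zero]
  rw [h3, sum_singleton] at h1
  rw [hkv] at h2
  simp only [mem_singleton] at h1
  rcases hv with rfl | rfl | rfl
  · rw [if_pos rfl, if_neg (Ne.symm hs.hxy), if_neg (Ne.symm hs.hxw)] at h1
    omega
  · rw [if_pos rfl, if_neg hs.hxy, if_neg (Ne.symm hs.hyw)] at h1
    omega
  · rw [if_pos rfl, if_neg hs.hxw, if_neg hs.hyw] at h1
    omega

private theorem O_pair (c : ℕ) {a b : V} (hab : a ≠ b) (X Y : Finset V) :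
    E (fun u v => if (u = a ∧ v = b) ∨ (u = b ∧ v = a) then c else 0) X Y =
      (if a ∈ X ∧ b ∈ Y then c else 0) + (if b ∈ X ∧ a ∈ Y then c else 0) := by
  have h1 : ∀ u v : V, (if (u = a ∧ v = b) ∨ (u = b ∧ v = a) then c else 0) =
      (if u = a ∧ v = b then c else 0) + (if u = b ∧ v = a then c else 0) := by
    intro u v
    by_cases h2 : u = a ∧ v = b
    · have h3 : ¬ (u = b ∧ v = a) := fun h4 => hab (h2.1.symm.trans h4.1)
      rw [if_pos (Or.inl h2), if_pos h2, if_neg h3, add_zero]
    · by_cases h3 : u = b ∧ v = a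
      · rw [if_pos (Or.inr h3), if_neg h2, if_pos h3, zero_add]
      · rw [if_neg (by tauto), if_neg h2, if_neg h3]
  have h2 : ∀ (a b : V), ∑ u ∈ X, ∑ v ∈ Y, (if u = a ∧ v = b then c else 0) =
      if a ∈ X ∧ b ∈ Y then c else 0 := by
    intro a b
    simp only [ite_and]
    have h3 : ∀ u : V, ∑ v ∈ Y, (if u = a then (if v = b then c else 0) else 0) =
        if u = a then (if b ∈ Y then c else 0) else 0 := by
      intro u
      by_cases h4 : u = a
      · simp [h4]
      · simp [h4]
    simp only [h3]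
    rw [sum_ite_eq']
  unfold E
  simp only [h1, sum_add_distrib, h2]

private theorem O_triE (pxy pxw pyw : ℕ) (hxy : x ≠ y) (hxw : x ≠ w) (hyw : y ≠ w)
    (X Y : Finset V) :
    E (fun u v => m u v + (if (u = x ∧ v = y) ∨ (u = y ∧ v = x) then pxy else 0) +
      (if (u = x ∧ v = w) ∨ (u = w ∧ v = x) then pxw else 0) +
      (if (u = y ∧ v = w) ∨ (u = w ∧ v = y) then pyw else 0)) X Y =
    E m X Y + ((if x ∈ X ∧ y ∈ Y then pxy else 0) + (if y ∈ X ∧ x ∈ Y then pxy else 0)) +
      ((if x ∈ X ∧ w ∈ Y then pxw else 0) + (if w ∈ X ∧ x ∈ Y then pxw else 0)) +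
      ((if y ∈ X ∧ w ∈ Y then pyw else 0) + (if w ∈ X ∧ y ∈ Y then pyw else 0)) := by
  have e1 := O_pair pxy hxy X Y
  have e2 := O_pair pxw hxw X Y
  have e3 := O_pair pyw hyw X Y
  rw [← e1, ← e2, ← e3]
  unfold E
  simp only [sum_add_distrib]

theorem R2_q3 (h : IsZG W m f k r) (hs : Sep3 W m f k x y w A B) :
    IsZG (insert x (insert y (insert w B))) (q3M B m) (q3F B m r) k r := by
  have hsubW : insert x (insert y (insert w B)) ⊆ W := by
    rw [hs.hW]
    intro v hv
    simp only [mem_insert, mem_union] at hv ⊢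
    tauto
  have hcov : ∀ v ∈ W, v ∉ insert x (insert y (insert w B)) → v ∈ A := by
    intro v hv hv'
    rw [hs.hW] at hv
    simp only [mem_insert, mem_union] at hv hv'
    tauto
  have hBA : ∀ b ∈ B, ∀ v ∈ W, v ∉ insert x (insert y (insert w B)) → m b v = 0 := by
    intro b hb v hv hv'
    rw [h.symm b (O_subB hs hb) v hv]
    exact hs.hm v (hcov v hv hv') b hb
  -- vertices outside `B`
  have hS : ∀ v ∈ insert x (insert y (insert w B)), v ∉ B →
      v ∈ insert x (insert y (insert w A)) ∧ k v = 0 := by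
    intro v hv hvB
    simp only [mem_insert] at hv ⊢
    rcases hv with rfl | rfl | rfl | hv
    · exact ⟨by tauto, hs.hkx⟩
    · exact ⟨by tauto, hs.hky⟩
    · exact ⟨by tauto, hs.hkw⟩
    · exact absurd hv hvB
  have hdeg : ∀ v ∈ insert x (insert y (insert w B)), v ∉ B →
      r = bet m B v + (∑ u ∈ W \ B, m v u + f v) := by
    intro v hv hvB
    have h1 := h.degree v (hsubW hv)
    rw [(hS v hv hvB).2, mul_zero, add_zero] at h1
    rw [← h1, ← sum_sdiff (O_subB hs)]
    unfold bet
    omega
  refine ⟨?_, ?_, ?_, ?_⟩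
  · intro u hu v hv
    unfold q3M
    rw [h.symm u (hsubW hu) v (hsubW hv)]
    by_cases h1 : u ∈ B ∨ v ∈ B
    · rw [if_pos h1, if_pos h1.symm]
    · rw [if_neg h1, if_neg (fun h2 => h1 h2.symm)]
  · intro v hv
    unfold q3M
    rw [h.loopless v (hsubW hv)]
    simp
  · intro v hv
    by_cases hvB : v ∈ B
    · have h1 := h.degree v (hsubW hv)
      have h2 : ∑ u ∈ insert x (insert y (insert w B)), q3M B m v u = ∑ u ∈ W, m v u := by
        rw [← sum_subset hsubW (fun u hu hu' => hBA v hvB u hu hu')]
        refine sum_congr rfl fun u _ => ?_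
        unfold q3M
        rw [if_pos (Or.inl hvB)]
      have h3 : q3F B m r v = 0 := by
        unfold q3F
        rw [if_pos hvB]
      rw [h2, h3, ← h1, hs.hf v hvB]
    · have h1 := hdeg v hv hvB
      have h2 : ∑ u ∈ insert x (insert y (insert w B)), q3M B m v u = bet m B v := by
        unfold bet
        have hBsub : B ⊆ insert x (insert y (insert w B)) := by
          intro b hb
          simp only [mem_insert]
          tauto
        rw [← sum_subset hBsub]
        · refine sum_congr rfl fun u hu => ?_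
          unfold q3M
          rw [if_pos (Or.inr hu)]
        · intro u _ hu
          unfold q3M
          rw [if_neg (by tauto)]
      have h3 : q3F B m r v = r - bet m B v := by
        unfold q3F
        rw [if_neg hvB]
      rw [h2, h3, (hS v hv hvB).2]
      omega
  · intro X hX hodd
    refine (h.cuts X (hX.trans hsubW) hodd).trans ?_
    rw [O_cut, O_cut]
    refine sum_le_sum fun u hu => ?_
    by_cases huB : u ∈ B
    · have h1 : ∑ v ∈ W \ X, m u v =
          ∑ v ∈ insert x (insert y (insert w B)) \ X, q3M B m u v := by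
        rw [← sum_subset (sdiff_subset_sdiff hsubW (Subset.refl X))]
        · refine sum_congr rfl fun v _ => ?_
          unfold q3M
          rw [if_pos (Or.inl huB)]
        · intro v hv hv'
          rw [mem_sdiff] at hv hv'
          exact hBA u huB v hv.1 (fun h2 => hv' ⟨h2, hv.2⟩)
      rw [h1, hs.hf u huB]
      omega
    · have h1 := hdeg u (hX hu) huB
      have h3 : q3F B m r u = r - bet m B u := by
        unfold q3F
        rw [if_neg huB]
      have h4 : ∑ v ∈ B \ X, m u v ≤
          ∑ v ∈ insert x (insert y (insert w B)) \ X, q3M B m u v := by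
        have hsub : B \ X ⊆ insert x (insert y (insert w B)) \ X := by
          intro b hb
          rw [mem_sdiff] at hb ⊢
          refine ⟨?_, hb.2⟩
          simp only [mem_insert]
          tauto
        refine le_trans (le_of_eq ?_) (sum_le_sum_of_subset hsub)
        refine sum_congr rfl fun v hv => ?_
        unfold q3M
        rw [if_pos (Or.inr (mem_sdiff.1 hv).1)]
      have h5 : ∑ v ∈ W \ X, m u v ≤ ∑ v ∈ B \ X, m u v + ∑ v ∈ W \ B, m u v := by
        have hsub : W \ X ⊆ (B \ X) ∪ (W \ B) := by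
          intro v hv
          rw [mem_sdiff] at hv
          rw [mem_union, mem_sdiff, mem_sdiff]
          by_cases hvB : v ∈ B
          · exact Or.inl ⟨hvB, hv.2⟩
          · exact Or.inr ⟨hv.1, hvB⟩
        refine (sum_le_sum_of_subset hsub).trans (le_of_eq ?_)
        refine sum_union ?_
        rw [disjoint_left]
        intro v hv hv'
        exact (mem_sdiff.1 hv').2 (mem_sdiff.1 hv).1
      rw [h3]
      omega

/-- basic arithmetic of the edges between `{x,y,w}` and `B` -/
theorem R2_arith (h : IsZG W m f k r) (hs : Sep3 W m f k x y w A B) :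
    cut W m f B = bet m B x + bet m B y + bet m B w ∧
    (bet m B x + bet m B y + bet m B w) % 2 = (r * B.card) % 2 ∧
    (Odd B.card → r ≤ bet m B x + bet m B y + bet m B w) ∧
    (Even B.card → bet m B x ≤ bet m B y + bet m B w ∧ bet m B y ≤ bet m B x + bet m B w ∧
      bet m B w ≤ bet m B x + bet m B y) := by
  have hcutB : cut W m f B = bet m B x + bet m B y + bet m B w := by
    have h1 := O_cut2 h hs (empty_subset (insert x (insert y (insert w A))))
    rw [empty_union] at h1
    rw [h1]
    simp [E]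
  refine ⟨hcutB, ?_, ?_, ?_⟩
  · rw [← hcutB]
    exact h.cut_parity (O_subB hs)
  · intro hodd
    rw [← hcutB]
    exact h.cuts B (O_subB hs) hodd
  · intro he
    have h1 := O_even h hs he (v := x) (by tauto)
    have h2 := O_even h hs he (v := y) (by tauto)
    have h3 := O_even h hs he (v := w) (by tauto)
    refine ⟨by omega, by omega, by omega⟩

theorem R2_tri (h : IsZG W m f k r) (hs : Sep3 W m f k x y w A B) (he : Even B.card) :
    IsZG (insert x (insert y (insert w A))) (triM x y w B m) f k r := by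
  obtain ⟨-, hpar, -, hev⟩ := R2_arith h hs
  obtain ⟨i1, i2, i3⟩ := hev he
  have hpar2 : (bet m B x + bet m B y + bet m B w) % 2 = 0 := by
    rw [hpar]
    obtain ⟨t, ht⟩ := he
    rw [ht, show r * (t + t) = 2 * (r * t) by ring]
    exact Nat.mul_mod_right 2 _
  obtain ⟨bx, hbx⟩ : ∃ bx, bx = bet m B x := ⟨_, rfl⟩
  obtain ⟨by', hby⟩ : ∃ by', by' = bet m B y := ⟨_, rfl⟩
  obtain ⟨bw, hbw⟩ : ∃ bw, bw = bet m B w := ⟨_, rfl⟩
  obtain ⟨pxy, hpxy⟩ : ∃ p, p = (bx + by' - bw) / 2 := ⟨_, rfl⟩
  obtain ⟨pxw, hpxw⟩ : ∃ p, p = (bx + bw - by') / 2 := ⟨_, rfl⟩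
  obtain ⟨pyw, hpyw⟩ : ∃ p, p = (by' + bw - bx) / 2 := ⟨_, rfl⟩
  have htri : triM x y w B m = fun u v =>
      m u v + (if (u = x ∧ v = y) ∨ (u = y ∧ v = x) then pxy else 0) +
      (if (u = x ∧ v = w) ∨ (u = w ∧ v = x) then pxw else 0) +
      (if (u = y ∧ v = w) ∨ (u = w ∧ v = y) then pyw else 0) := by
    funext u v
    unfold triM
    rw [← hbx, ← hby, ← hbw, ← hpxy, ← hpxw, ← hpyw]
  rw [← hbx, ← hby, ← hbw] at i1 i2 i3 hpar2
  have q1 : pxy + pxw = bx := by omega
  have q2 : pxy + pyw = by' := by omega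
  have q3 : pxw + pyw = bw := by omega
  have hxW : x ∈ insert x (insert y (insert w A)) := by simp
  have hyW : y ∈ insert x (insert y (insert w A)) := by simp
  have hwW : w ∈ insert x (insert y (insert w A)) := by simp
  have hxy := hs.hxy
  have hxw := hs.hxw
  have hyw := hs.hyw
  rw [htri]
  refine ⟨?_, ?_, ?_, ?_⟩
  · intro u hu v hv
    rw [h.symm u (O_subA hs hu) v (O_subA hs hv)]
    congr 1
    · congr 1
      · congr 1
        exact if_congr (by tauto) rfl rfl
      · exact if_congr (by tauto) rfl rfl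
    · exact if_congr (by tauto) rfl rfl
  · intro v hv
    rw [h.loopless v (O_subA hs hv), if_neg, if_neg, if_neg]
    · rintro (⟨h1, h2⟩ | ⟨h1, h2⟩)
      · exact hyw (h1.symm.trans h2)
      · exact hyw (h2.symm.trans h1)
    · rintro (⟨h1, h2⟩ | ⟨h1, h2⟩)
      · exact hxw (h1.symm.trans h2)
      · exact hxw (h2.symm.trans h1)
    · rintro (⟨h1, h2⟩ | ⟨h1, h2⟩)
      · exact hxy (h1.symm.trans h2)
      · exact hxy (h2.symm.trans h1)
  · intro v hv
    have h1 := O_deg h hs (O_subA hs hv)
    have h2 := O_triE (m := m) pxy pxw pyw hxy hxw hyw {v} (insert x (insert y (insert w A)))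
    simp only [E, sum_singleton, mem_singleton, hxW, hyW, hwW, and_true] at h2
    rw [h2]
    have hv' := hv
    simp only [mem_insert] at hv'
    rcases hv' with rfl | rfl | rfl | hv'
    · rw [if_pos rfl, if_neg hxy.symm, if_pos rfl, if_neg hxw.symm, if_neg hxy.symm,
        if_neg hxw.symm]
      omega
    · rw [if_neg hxy, if_pos rfl, if_neg hxy, if_neg hyw.symm, if_pos rfl, if_neg hyw.symm]
      omega
    · rw [if_neg hxw, if_neg hyw, if_neg hxw, if_pos rfl, if_neg hyw, if_pos rfl]
      omega
    · have n1 : ¬ x = v := fun e => hs.hxA (e ▸ hv')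
      have n2 : ¬ y = v := fun e => hs.hyA (e ▸ hv')
      have n3 : ¬ w = v := fun e => hs.hwA (e ▸ hv')
      rw [if_neg n1, if_neg n2, if_neg n1, if_neg n3, if_neg n2, if_neg n3]
      rw [O_betA hs hv'] at h1
      omega
  · intro X hX hodd
    have hc0 := O_triE (m := m) pxy pxw pyw hxy hxw hyw X (insert x (insert y (insert w A)) \ X)
    have hc1 := h.cuts X (hX.trans (O_subA hs)) hodd
    rw [O_cut1 hs hX] at hc1
    have hodd2 : Odd (X ∪ B).card := by
      rw [card_union_of_disjoint (disjoint_of_subset_left hX (O_disj hs))]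
      exact hodd.add_even he
    have hc2 := h.cuts (X ∪ B) (union_subset (hX.trans (O_subA hs)) (O_subB hs)) hodd2
    rw [O_cut2 h hs hX] at hc2
    rw [← hbx, ← hby, ← hbw] at hc1 hc2
    unfold cut
    rw [hc0]
    simp only [mem_sdiff, hxW, hyW, hwW, true_and]
    by_cases c1 : x ∈ X <;> by_cases c2 : y ∈ X <;> by_cases c3 : w ∈ X <;>
      simp only [c1, c2, c3, if_true, if_false, not_true_eq_false, not_false_eq_true, and_true,
        and_false] at hc1 hc2 ⊢ <;> omega

end PStar
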