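import Pool.Agent.PStar.Basic0
import Pool.Agent.PStar.PM

set_option autoImplicit false

namespace PStar

open Finset

variable {V : Type*} [DecidableEq V] {W : Finset V} {m : V → V → ℕ} {f k : V → ℕ} {r : ℕ}

/-- the matching edges of a partner function -/
def stepJ (Q : V → Option V) : V → V → ℕ := fun u v => if Q u = some v then 1 else 0

/-- the `z`-edges of a partner function -/
def stepG (Q : V → Option V) : V → ℕ := fun u => if Q u = none then 1 else 0

private theorem step_row (Q : V → Option V) (Y : Finset V) (u : V) :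
    ∑ v ∈ Y, stepJ Q u v + stepG Q u ≤ 1 := by
  unfold stepJ stepG
  cases hQ : Q u with
  | none => simp
  | some w =>
    simp only [Option.some.injEq, reduceCtorEq, if_false, add_zero]
    rw [Finset.sum_ite_eq Y w (fun _ => 1)]
    split_ifs <;> omega

private theorem step_row_eq (Q : V → Option V) {u : V}
    (h : ∀ v, Q u = some v → v ∈ W) :
    ∑ v ∈ W, stepJ Q u v + stepG Q u = 1 := by
  unfold stepJ stepG
  cases hQ : Q u with
  | none => simp
  | some w =>
    simp only [Option.some.injEq, reduceCtorEq, if_false, add_zero]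
    rw [Finset.sum_ite_eq W w (fun _ => 1), if_pos (h w hQ)]

private theorem step_cut_le (Q : V → Option V) (X : Finset V) :
    cut W (stepJ Q) (stepG Q) X ≤ X.card := by
  unfold cut E
  rw [← Finset.sum_add_distrib, Finset.card_eq_sum_ones]
  exact Finset.sum_le_sum fun x _ => step_row Q _ x

private theorem step_E_le (Q : V → Option V)
    (hs : ∀ u ∈ W, ∀ v ∈ W, stepJ Q u v = stepJ Q v u) {X : Finset V} (hX : X ⊆ W) :
    E (stepJ Q) X (W \ X) ≤ W.card - X.card := by
  unfold E
  rw [Finset.sum_comm, ← Finset.card_sdiff_of_subset hX, Finset.card_eq_sum_ones]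
  refine Finset.sum_le_sum fun y hy => ?_
  have hyW : y ∈ W := (Finset.mem_sdiff.1 hy).1
  calc ∑ x ∈ X, stepJ Q x y = ∑ x ∈ X, stepJ Q y x :=
        Finset.sum_congr rfl fun x hx => hs x (hX hx) y hyW
    _ ≤ ∑ x ∈ X, stepJ Q y x + stepG Q y := Nat.le_add_right _ _
    _ ≤ 1 := step_row Q _ y

private theorem step_sym (Q : V → Option V)
    (hQ : ∀ u ∈ W, ∀ v ∈ W, Q u = some v → Q v = some u) :
    ∀ u ∈ W, ∀ v ∈ W, stepJ Q u v = stepJ Q v u := by
  intro u hu v hv
  unfold stepJ
  have : (Q u = some v) ↔ (Q v = some u) := ⟨hQ u hu v hv, hQ v hv u hu⟩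
  simp only [this]

private theorem step_aux {s : ℕ} (h : IsZG W m f (fun _ => 0) (s + 1)) (Q : V → Option V)
    (hQ : ∀ u ∈ W, ∀ v ∈ W, Q u = some v → Q v = some u)
    (hQW : ∀ u ∈ W, ∀ v, Q u = some v → v ∈ W ∧ 1 ≤ m u v)
    (hQn : ∀ u ∈ W, Q u = none → 1 ≤ f u)
    (hcut : ∀ X ⊆ W, Odd X.card → s + cut W (stepJ Q) (stepG Q) X ≤ cut W m f X) :
    ∃ (m' : V → V → ℕ) (f' : V → ℕ), IsZG W m' f' (fun _ => 0) s ∧
      (Dec W m' f' s → Dec W m f (s + 1)) := by
  have hs := step_sym (W := W) Q hQ
  have hJ : ∀ u ∈ W, ∀ v ∈ W, stepJ Q u v ≤ m u v := by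
    intro u hu v hv
    unfold stepJ
    split_ifs with h1
    · exact (hQW u hu v h1).2
    · exact Nat.zero_le _
  have hg : ∀ v ∈ W, stepG Q v ≤ f v := by
    intro v hv
    unfold stepG
    split_ifs with h1
    · exact hQn v hv h1
    · exact Nat.zero_le _
  have hrow : ∀ v ∈ W, ∑ u ∈ W, stepJ Q v u + stepG Q v = 1 := fun v hv =>
    step_row_eq Q fun w hw => (hQW v hv w hw).1
  refine ⟨fun u v => m u v - stepJ Q u v, fun v => f v - stepG Q v, ?_, ?_⟩
  · have := h.removal (stepJ Q) (stepG Q) (fun _ => 0) hs hJ hg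
      (fun v hv => by rw [hrow v hv]) (fun v _ => le_refl _) hcut
    simpa using this
  · intro hd
    exact Dec.of_removal (stepJ Q) (stepG Q) hs hJ hg
      (fun v hv => by rw [hrow v hv]; exact odd_one) hd

private theorem step_par {s c : ℕ} (h : IsZG W m f (fun _ => 0) (s + 1)) {X : Finset V}
    (hX : X ⊆ W) (ho : Odd X.card) (hc : c = cut W m f X) (h1 : s + 1 < c) : s + 3 ≤ c := by
  have h2 := h.cut_parity hX
  rw [← hc] at h2
  have h3 : ((s + 1) * X.card) % 2 = (s + 1) % 2 := by
    rw [Nat.mul_mod, Nat.odd_iff.1 ho, mul_one, Nat.mod_mod]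
  omega

/-- Removing a perfect matching from a z-graph on an even number `≤ 8` of vertices without
nontrivial tight sets and with at most one vertex adjacent to `z`. -/
theorem IsZG.step_even {s : ℕ} (h : IsZG W m f (fun _ => 0) (s + 1)) (hc : W.card ≤ 8)
    (he : Even W.card) (u0 : V) (hu0 : u0 ∈ W) (hdef : ∀ v ∈ W, v ≠ u0 → f v = 0)
    (hnt : ∀ X ⊆ W, Odd X.card → 1 < X.card → s + 1 < cut W m f X) :
    ∃ (m' : V → V → ℕ) (f' : V → ℕ), IsZG W m' f' (fun _ => 0) s ∧
      (Dec W m' f' s → Dec W m f (s + 1)) := by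
  classical
  obtain ⟨p, hpp, hpm⟩ := exists_pm (α := {x // x ∈ W}) (fun u v => m u.1 v.1)
    (fun u v => h.symm u.1 u.2 v.1 v.2) (fun v => h.loopless v.1 v.2) (s + 1) (by omega)
    (by rw [Fintype.card_coe]; exact he)
    (fun v => by
      have h1 := h.degree v.1 v.2
      rw [← Finset.sum_coe_sort W (fun u => m v.1 u)] at h1
      omega) ⟨u0, hu0⟩
    (fun C hC hu => by
      have hmem : ∀ x : {x // x ∈ W}, x.1 ∈ C.map (Function.Embedding.subtype _) ↔ x ∈ C := by
        intro x
        simp
      have hsub : C.map (Function.Embedding.subtype _) ⊆ W := by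
        intro x hx
        obtain ⟨y, _, rfl⟩ := Finset.mem_map.1 hx
        exact y.2
      have h1 := h.cuts _ hsub (by rw [Finset.card_map]; exact hC)
      have h2 : ∑ v ∈ C.map (Function.Embedding.subtype _), f v = 0 := by
        refine Finset.sum_eq_zero fun v hv => ?_
        refine hdef v (hsub hv) ?_
        rintro rfl
        exact hu ((hmem ⟨v, hu0⟩).1 hv)
      have h3 : W \ C.map (Function.Embedding.subtype _) =
          (Cᶜ).map (Function.Embedding.subtype _) := by
        ext x
        simp only [Finset.mem_sdiff, Finset.mem_map, Finset.mem_compl,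
          Function.Embedding.coe_subtype, Subtype.exists, exists_and_right, exists_eq_right]
        constructor
        · rintro ⟨hx, hn⟩
          exact ⟨hx, fun h4 => hn ⟨hx, h4⟩⟩
        · rintro ⟨hx, hn⟩
          exact ⟨hx, fun ⟨_, h4⟩ => hn h4⟩
      unfold cut E at h1
      rw [h2, h3, add_zero, Finset.sum_map] at h1
      refine h1.trans (le_of_eq ?_)
      refine Finset.sum_congr rfl fun x _ => ?_
      rw [Finset.sum_map]
      rfl)
  have hne : ∀ v, p v ≠ v := by
    intro v hv
    have := hpm v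
    rw [hv] at this
    have h2 := h.loopless v.1 v.2
    omega
  let Q : V → Option V := fun u => if hu : u ∈ W then some (p ⟨u, hu⟩).1 else none
  have hQdef : ∀ u (hu : u ∈ W), Q u = some (p ⟨u, hu⟩).1 := fun u hu => dif_pos hu
  have hQ : ∀ u ∈ W, ∀ v ∈ W, Q u = some v → Q v = some u := by
    intro u hu v hv h1
    rw [hQdef u hu, Option.some.injEq] at h1
    rw [hQdef v hv, Option.some.injEq]
    have h2 : p ⟨u, hu⟩ = ⟨v, hv⟩ := Subtype.ext h1
    rw [← h2, hpp]
  have hQW : ∀ u ∈ W, ∀ v, Q u = some v → v ∈ W ∧ 1 ≤ m u v := by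
    intro u hu v h1
    rw [hQdef u hu, Option.some.injEq] at h1
    subst h1
    exact ⟨(p ⟨u, hu⟩).2, hpm ⟨u, hu⟩⟩
  have hQn : ∀ u ∈ W, Q u = none → 1 ≤ f u := by
    intro u hu h1
    rw [hQdef u hu] at h1
    exact absurd h1 (by simp)
  have hg0 : ∀ u ∈ W, stepG Q u = 0 := by
    intro u hu
    unfold stepG
    rw [hQdef u hu]
    simp
  refine step_aux h Q hQ hQW hQn fun X hX ho => ?_
  have h1 := step_cut_le (W := W) Q X
  have h2 := step_E_le (W := W) Q (step_sym Q hQ) hX
  have h3 : ∑ x ∈ X, stepG Q x = 0 := Finset.sum_eq_zero fun x hx => hg0 x (hX hx)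
  have h4 : cut W (stepJ Q) (stepG Q) X ≤ W.card - X.card := by
    unfold cut
    omega
  have h5 := h.cuts X hX ho
  have h6 : X.card ≤ W.card := Finset.card_le_card hX
  rcases Nat.lt_or_ge 1 X.card with h7 | h7
  · have h8 := step_par h hX ho rfl (hnt X hX ho h7)
    rcases Nat.lt_or_ge 3 X.card with h9 | h9
    · have h10 := Nat.odd_iff.1 ho
      omega
    · omega
  · omega

/-- The same for an odd number `≤ 7` of vertices when `z` has degree exactly `r`. -/
theorem IsZG.step_odd {s : ℕ} (h : IsZG W m f (fun _ => 0) (s + 1)) (hc : W.card ≤ 7)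
    (he : Odd W.card) (hD : ∑ v ∈ W, f v = s + 1)
    (hnt : ∀ X ⊆ W, Odd X.card → 1 < X.card → X ≠ W → s + 1 < cut W m f X) :
    ∃ (m' : V → V → ℕ) (f' : V → ℕ), IsZG W m' f' (fun _ => 0) s ∧
      (Dec W m' f' s → Dec W m f (s + 1)) := by
  classical
  let M : Option {x // x ∈ W} → Option {x // x ∈ W} → ℕ := fun a b =>
    match a, b with
    | none, none => 0
    | none, some v => f v.1
    | some u, none => f u.1
    | some u, some v => m u.1 v.1
  obtain ⟨p, hpp, hpm⟩ := exists_pm (α := Option {x // x ∈ W}) M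
    (fun u v => by
      rcases u with _ | u <;> rcases v with _ | v
      · rfl
      · rfl
      · rfl
      · exact h.symm u.1 u.2 v.1 v.2)
    (fun v => by
      rcases v with _ | v
      · rfl
      · exact h.loopless v.1 v.2) (s + 1) (by omega)
    (by rw [Fintype.card_option, Fintype.card_coe]; exact he.add_one)
    (fun v => by
      rw [Fintype.sum_option]
      rcases v with _ | v
      · have h1 : ∑ u : {x // x ∈ W}, M none (some u) = ∑ u ∈ W, f u :=
          Finset.sum_coe_sort W f
        have h2 : M none none = 0 := rfl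
        omega
      · have h1 := h.degree v.1 v.2
        have h2 : ∑ u : {x // x ∈ W}, M (some v) (some u) = ∑ u ∈ W, m v.1 u :=
          Finset.sum_coe_sort W (fun u => m v.1 u)
        have h3 : M (some v) none = f v.1 := rfl
        omega) none
    (fun C hC hu => by
      let X : Finset V := W.filter fun x => ∃ hx : x ∈ W, (some ⟨x, hx⟩ : Option {x // x ∈ W}) ∈ C
      have hXW : X ⊆ W := Finset.filter_subset _ _
      have hmemX : ∀ x (hx : x ∈ W), x ∈ X ↔ (some ⟨x, hx⟩ : Option {x // x ∈ W}) ∈ C := by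
        intro x hx
        constructor
        · intro h1
          exact (Finset.mem_filter.1 h1).2.2
        · intro h1
          exact Finset.mem_filter.2 ⟨hx, hx, h1⟩
      have hsumC : ∀ g : Option {x // x ∈ W} → ℕ,
          ∑ x ∈ C, g x = ∑ x ∈ X.attach, g (some ⟨x.1, hXW x.2⟩) := by
        intro g
        refine (Finset.sum_bij (fun x _ => some ⟨x.1, hXW x.2⟩) ?_ ?_ ?_ ?_).symm
        · intro x _
          exact (hmemX x.1 (hXW x.2)).1 x.2
        · intro x _ y _ hxy
          simp only [Option.some.injEq, Subtype.mk.injEq] at hxy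
          exact Subtype.ext hxy
        · intro b hb
          rcases b with _ | b
          · exact absurd hb hu
          · exact ⟨⟨b.1, (hmemX b.1 b.2).2 hb⟩, Finset.mem_attach _ _, rfl⟩
        · intro x _
          rfl
      have hsumC' : ∀ g : Option {x // x ∈ W} → ℕ,
          ∑ x ∈ Cᶜ, g x = g none + ∑ x ∈ (W \ X).attach,
            g (some ⟨x.1, (Finset.mem_sdiff.1 x.2).1⟩) := by
        intro g
        have hn : none ∈ Cᶜ := Finset.mem_compl.2 hu
        rw [← Finset.add_sum_erase _ _ hn]
        congr 1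
        refine (Finset.sum_bij (fun x _ => some ⟨x.1, (Finset.mem_sdiff.1 x.2).1⟩) ?_ ?_ ?_ ?_).symm
        · intro x _
          refine Finset.mem_erase.2 ⟨by simp, Finset.mem_compl.2 fun h1 => ?_⟩
          exact (Finset.mem_sdiff.1 x.2).2 ((hmemX x.1 _).2 h1)
        · intro x _ y _ hxy
          simp only [Option.some.injEq, Subtype.mk.injEq] at hxy
          exact Subtype.ext hxy
        · intro b hb
          rcases b with _ | b
          · exact absurd rfl (Finset.mem_erase.1 hb).1
          · have hb' := Finset.mem_compl.1 (Finset.mem_erase.1 hb).2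
            exact ⟨⟨b.1, Finset.mem_sdiff.2 ⟨b.2, fun h1 => hb' ((hmemX b.1 b.2).1 h1)⟩⟩,
              Finset.mem_attach _ _, rfl⟩
        · intro x _
          rfl
      have hcard : X.card = C.card := by
        have := hsumC (fun _ => 1)
        simpa using this.symm
      have h1 := h.cuts X hXW (by rw [hcard]; exact hC)
      have h2 : ∑ x ∈ C, ∑ y ∈ Cᶜ, M x y = cut W m f X := by
        rw [hsumC]
        have h3 : ∀ x : {x // x ∈ X}, ∑ y ∈ Cᶜ, M (some ⟨x.1, hXW x.2⟩) y =
            f x.1 + ∑ y ∈ W \ X, m x.1 y := by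
          intro x
          rw [hsumC']
          congr 1
          exact Finset.sum_attach (W \ X) (fun y => m x.1 y)
        simp only [h3]
        rw [Finset.sum_attach X (fun x => f x + ∑ y ∈ W \ X, m x y), Finset.sum_add_distrib]
        unfold cut E
        omega
      rw [h2]
      exact h1)
  let Q : V → Option V := fun u =>
    if hu : u ∈ W then (p (some ⟨u, hu⟩)).map Subtype.val else none
  have hQdef : ∀ u (hu : u ∈ W), Q u = (p (some ⟨u, hu⟩)).map Subtype.val :=
    fun u hu => dif_pos hu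
  have hQs : ∀ u (hu : u ∈ W) v, Q u = some v →
      ∃ hv : v ∈ W, p (some ⟨u, hu⟩) = some ⟨v, hv⟩ := by
    intro u hu v h1
    rw [hQdef u hu, Option.map_eq_some_iff] at h1
    obtain ⟨a, ha, rfl⟩ := h1
    exact ⟨a.2, ha⟩
  have hQnn : ∀ u (hu : u ∈ W), Q u = none → p (some ⟨u, hu⟩) = none := by
    intro u hu h1
    rw [hQdef u hu, Option.map_eq_none_iff] at h1
    exact h1
  have hQ : ∀ u ∈ W, ∀ v ∈ W, Q u = some v → Q v = some u := by
    intro u hu v hv h1
    obtain ⟨hv', h2⟩ := hQs u hu v h1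
    rw [hQdef v hv, ← h2, hpp]
    rfl
  have hQW : ∀ u ∈ W, ∀ v, Q u = some v → v ∈ W ∧ 1 ≤ m u v := by
    intro u hu v h1
    obtain ⟨hv', h2⟩ := hQs u hu v h1
    refine ⟨hv', ?_⟩
    have := hpm (some ⟨u, hu⟩)
    rw [h2] at this
    exact this
  have hQn : ∀ u ∈ W, Q u = none → 1 ≤ f u := by
    intro u hu h1
    have := hpm (some ⟨u, hu⟩)
    rw [hQnn u hu h1] at this
    exact this
  have hnone : ∃ v0 : {x // x ∈ W}, p none = some v0 := by
    rcases hp : p none with _ | v0
    · have := hpm none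
      rw [hp] at this
      exact absurd this (by show ¬ 1 ≤ 0; omega)
    · exact ⟨v0, rfl⟩
  obtain ⟨v0, hv0⟩ := hnone
  have hG : ∀ u ∈ W, stepG Q u = if u = v0.1 then 1 else 0 := by
    intro u hu
    unfold stepG
    have : (Q u = none) ↔ (u = v0.1) := by
      constructor
      · intro h1
        have h2 := hQnn u hu h1
        have h3 : p none = some ⟨u, hu⟩ := by rw [← h2, hpp]
        rw [hv0] at h3
        have h4 := Option.some.inj h3
        rw [h4]
      · rintro rfl
        rw [hQdef v0.1 hu]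
        have h3 : p (some v0) = none := by rw [← hv0, hpp]
        have h4 : (⟨v0.1, hu⟩ : {x // x ∈ W}) = v0 := rfl
        rw [h4, h3]
        rfl
    simp only [this]
  refine step_aux h Q hQ hQW hQn fun X hX ho => ?_
  have h1 := step_cut_le (W := W) Q X
  have h2 := step_E_le (W := W) Q (step_sym Q hQ) hX
  have h3 : ∑ x ∈ X, stepG Q x ≤ 1 := by
    rw [Finset.sum_congr rfl fun x hx => hG x (hX hx), Finset.sum_ite_eq' X v0.1 (fun _ => 1)]
    split_ifs <;> omega
  have h4 : cut W (stepJ Q) (stepG Q) X ≤ W.card - X.card + 1 := by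
    unfold cut
    omega
  have h5 := h.cuts X hX ho
  have h6 : X.card ≤ W.card := Finset.card_le_card hX
  rcases Nat.lt_or_ge 1 X.card with h7 | h7
  · by_cases hXW : X = W
    · subst hXW
      omega
    · have h8 := step_par h hX ho rfl (hnt X hX ho h7 hXW)
      rcases Nat.lt_or_ge 3 X.card with h9 | h9
      · have h10 := Nat.odd_iff.1 ho
        omega
      · omega
  · omega

end PStar
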