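import Pool.Agent.PStar.Tight
import Pool.Agent.PStar.AddEdge
import Pool.Agent.PStar.Step

set_option autoImplicit false

namespace PStar

open Finset

variable {V : Type*} [DecidableEq V] {W : Finset V} {m : V → V → ℕ} {f k : V → ℕ} {r : ℕ}

private theorem small_step (h : IsZG W m f (fun _ => 0) r) (hc : W.card ≤ 8)
    (ih1 : ∀ (W' : Finset V) (m' : V → V → ℕ) (f' : V → ℕ), W'.card < W.card →
      IsZG W' m' f' (fun _ => 0) r → Dec W' m' f' r)
    (ih2 : ∀ (s : ℕ) (m' : V → V → ℕ) (f' : V → ℕ), r = s + 1 →
      IsZG W m' f' (fun _ => 0) s → Dec W m' f' s)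
    (ih3 : ∀ (m' : V → V → ℕ) (f' : V → ℕ), ∑ x ∈ W, f' x < ∑ x ∈ W, f x →
      IsZG W m' f' (fun _ => 0) r → Dec W m' f' r) : Dec W m f r := by
  rcases Nat.eq_zero_or_pos r with hr | hr
  · subst hr
    refine ⟨fun _ _ _ => 0, fun _ _ => 0, fun _ _ _ _ _ => rfl, ?_, ?_, fun c => c.elim0⟩
    · intro u hu v hv
      have h1 := h.degree u hu
      simp only [mul_zero, add_zero] at h1
      have h2 : m u v ≤ ∑ x ∈ W, m u x :=
        Finset.single_le_sum (f := fun x => m u x) (fun _ _ => Nat.zero_le _) hv
      simp only [Finset.univ_eq_empty, Finset.sum_empty]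
      omega
    · intro v hv
      have h1 := h.degree v hv
      simp only [mul_zero, add_zero] at h1
      simp only [Finset.univ_eq_empty, Finset.sum_empty]
      omega
  obtain ⟨s, rfl⟩ : ∃ s, r = s + 1 := ⟨r - 1, by omega⟩
  by_cases htight : ∃ X ⊆ W, Odd X.card ∧ X ≠ W ∧ 1 < X.card ∧ cut W m f X = s + 1
  · obtain ⟨X, hX, hodd, hne, hcard, hcut⟩ := htight
    obtain ⟨x0, hx0⟩ : X.Nonempty := Finset.card_pos.1 (by omega)
    have k1 := h.contract hX hx0 hodd 0 (by rw [hcut])
    have k2 := h.inside hX
    have hK : conK x0 0 (fun _ : V => 0) = fun _ => 0 := by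
      funext v
      simp [conK]
    rw [hK] at k1
    refine h.glue_tight hX hx0 hodd hcut (ih1 _ _ _ ?_ k1) (ih1 _ _ _ ?_ k2)
    · have h1 := Finset.card_insert_le x0 (W \ X)
      have h2 := Finset.card_sdiff_add_card_eq_card hX
      omega
    · exact Finset.card_lt_card (Finset.ssubset_iff_subset_ne.2 ⟨hX, hne⟩)
  · push Not at htight
    have hnt : ∀ X ⊆ W, Odd X.card → 1 < X.card → X ≠ W → s + 1 + 2 ≤ cut W m f X := by
      intro X hX hodd hcard hne
      have h1 := htight X hX hodd hne hcard
      have h2 := h.cuts X hX hodd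
      have h3 := h.cut_parity hX
      obtain ⟨q, hq⟩ := hodd
      rw [hq] at h3
      have h4 : ((s + 1) * (2 * q + 1)) % 2 = (s + 1) % 2 := by
        have : (s + 1) * (2 * q + 1) = (s + 1) + 2 * (q * (s + 1)) := by ring
        rw [this, Nat.add_mul_mod_self_left]
      rw [h4] at h3
      omega
    have hpair : ∀ u v : V, ∀ X : Finset V, u ≠ v → u ∈ X → v ∈ X → 1 < X.card :=
      fun u v X huv hu hv => Finset.one_lt_card.2 ⟨u, hu, v, hv, huv⟩
    -- adding an edge
    have hadd : ∀ u ∈ W, ∀ v ∈ W, u ≠ v → 1 ≤ f u → 1 ≤ f v →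
        (Odd W.card → s + 1 + 2 ≤ ∑ x ∈ W, f x) → Dec W m f (s + 1) := by
      intro u hu v hv huv hfu hfv hW
      obtain ⟨k1, k2, k3⟩ := h.add_edge hu hv huv hfu hfv (by
        intro X hX hodd huX hvX
        by_cases hXW : X = W
        · subst hXW
          have h1 := hW hodd
          unfold cut
          omega
        · exact hnt X hX hodd (hpair u v X huv huX hvX) hXW)
      exact k2 (ih3 _ _ (by omega) k1)
    rcases Nat.even_or_odd W.card with he | ho
    · by_cases hex : ∃ u ∈ W, ∃ v ∈ W, u ≠ v ∧ 1 ≤ f u ∧ 1 ≤ f v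
      · obtain ⟨u, hu, v, hv, huv, h1, h2⟩ := hex
        exact hadd u hu v hv huv h1 h2 (fun ho => absurd he (Nat.not_even_iff_odd.2 ho))
      · push Not at hex
        rcases W.eq_empty_or_nonempty with hW | hW
        · subst hW
          exact ⟨fun _ _ _ => 0, fun _ _ => 0, fun _ _ hu => absurd hu (notMem_empty _),
            fun _ hu => absurd hu (notMem_empty _), fun _ hu => absurd hu (notMem_empty _),
            fun _ _ hu => absurd hu (notMem_empty _)⟩
        · obtain ⟨u0, hu0, hdef⟩ : ∃ u0 ∈ W, ∀ v ∈ W, v ≠ u0 → f v = 0 := by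
            by_cases h1 : ∃ u ∈ W, 1 ≤ f u
            · obtain ⟨u, hu, hfu⟩ := h1
              refine ⟨u, hu, fun v hv hvu => ?_⟩
              have := hex u hu v hv (Ne.symm hvu) hfu
              omega
            · push Not at h1
              obtain ⟨u, hu⟩ := hW
              refine ⟨u, hu, fun v hv _ => ?_⟩
              have := h1 v hv
              omega
          obtain ⟨m', f', k1, k2⟩ := h.step_even hc he u0 hu0 hdef (by
            intro X hX hodd hcard
            have hne : X ≠ W := by
              rintro rfl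
              exact absurd he (Nat.not_even_iff_odd.2 hodd)
            have := hnt X hX hodd hcard hne
            omega)
          exact k2 (ih2 s m' f' rfl k1)
    · have hc7 : W.card ≤ 7 := by
        obtain ⟨q, hq⟩ := ho
        omega
      have hWcut : cut W m f W = ∑ x ∈ W, f x := by
        simp [cut, E]
      have hge : s + 1 ≤ ∑ x ∈ W, f x := by
        rw [← hWcut]
        exact h.cuts W (Finset.Subset.refl W) ho
      by_cases hD : ∑ x ∈ W, f x = s + 1
      · obtain ⟨m', f', k1, k2⟩ := h.step_odd hc7 ho hD (by
          intro X hX hodd hcard hne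
          have := hnt X hX hodd hcard hne
          omega)
        exact k2 (ih2 s m' f' rfl k1)
      · have hge2 : s + 1 + 2 ≤ ∑ x ∈ W, f x := by
          have h3 := h.cut_parity (Finset.Subset.refl W)
          rw [hWcut] at h3
          obtain ⟨q, hq⟩ := ho
          rw [hq] at h3
          have h4 : ((s + 1) * (2 * q + 1)) % 2 = (s + 1) % 2 := by
            have : (s + 1) * (2 * q + 1) = (s + 1) + 2 * (q * (s + 1)) := by ring
            rw [this, Nat.add_mul_mod_self_left]
          rw [h4] at h3
          omega
        obtain ⟨u, hu, hfu⟩ : ∃ u ∈ W, 1 ≤ f u := by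
          by_contra hno
          push Not at hno
          have : ∑ x ∈ W, f x = 0 := Finset.sum_eq_zero fun x hx => by
            have := hno x hx
            omega
          omega
        obtain ⟨v, hv, hvu, hfv⟩ : ∃ v ∈ W, v ≠ u ∧ 1 ≤ f v := by
          by_contra hno
          push Not at hno
          have h5 : ∑ x ∈ W, f x = f u := Finset.sum_eq_single_of_mem u hu fun x hx hxu => by
            have := hno x hx hxu
            omega
          have h6 := h.degree u hu
          simp only [mul_zero, add_zero] at h6
          omega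
        exact hadd u hu v hv (Ne.symm hvu) hfu hfv (fun _ => hge2)

private theorem small_aux (n : ℕ) : ∀ (r F : ℕ) (W : Finset V) (m : V → V → ℕ) (f : V → ℕ),
    W.card = n → W.card ≤ 8 → ∑ x ∈ W, f x = F → IsZG W m f (fun _ => 0) r → Dec W m f r := by
  induction n using Nat.strong_induction_on with
  | _ n ihn =>
    intro r
    induction r with
    | zero =>
      intro F
      induction F using Nat.strong_induction_on with
      | _ F ihF =>
        intro W m f hW hc hF h
        refine small_step h hc ?_ ?_ ?_
        · intro W' m' f' hlt h'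
          exact ihn W'.card (hW ▸ hlt) 0 _ W' m' f' rfl (by omega) rfl h'
        · intro s m' f' hs _
          omega
        · intro m' f' hlt h'
          exact ihF _ (hF ▸ hlt) W m' f' hW hc rfl h'
    | succ r ihr =>
      intro F
      induction F using Nat.strong_induction_on with
      | _ F ihF =>
        intro W m f hW hc hF h
        refine small_step h hc ?_ ?_ ?_
        · intro W' m' f' hlt h'
          exact ihn W'.card (hW ▸ hlt) (r + 1) _ W' m' f' rfl (by omega) rfl h'
        · intro s m' f' hs h'
          obtain rfl : s = r := by omega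
          exact ihr _ W m' f' hW hc rfl h'
        · intro m' f' hlt h'
          exact ihF _ (hF ▸ hlt) W m' f' hW hc rfl h'

/-- All z-graphs with at most 8 vertices besides `z` decompose. -/
theorem IsZG.small (h : IsZG W m f (fun _ => 0) r) (hc : W.card ≤ 8) : Dec W m f r :=
  small_aux W.card r _ W m f rfl hc rfl h

end PStar
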