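import Pool.Agent.PStar.BasicC
import Pool.Agent.PStar.Perm
import Pool.Agent.PStar.Contract

set_option autoImplicit false

namespace PStar

open Finset

variable {V : Type*} [DecidableEq V] {W : Finset V} {m : V → V → ℕ} {f k : V → ℕ} {r : ℕ}

private theorem tight_one {ι : Type*} [Fintype ι] [DecidableEq ι] (a : ι → ℕ)
    (h : ∑ i, a i = 1) : ∃ i, ∀ j, a j = if i = j then 1 else 0 := by
  obtain ⟨i, hi⟩ : ∃ i, a i ≠ 0 := by
    by_contra hno
    push Not at hno
    rw [Finset.sum_eq_zero (fun i _ => hno i)] at h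
    omega
  refine ⟨i, fun j => ?_⟩
  have h1 := Finset.add_sum_erase Finset.univ a (Finset.mem_univ i)
  rw [h] at h1
  by_cases hij : i = j
  · subst hij
    rw [if_pos rfl]
    omega
  · rw [if_neg hij]
    have h2 : a j ≤ ∑ x ∈ Finset.univ.erase i, a x :=
      Finset.single_le_sum (f := a) (fun _ _ => Nat.zero_le _)
        (Finset.mem_erase.2 ⟨Ne.symm hij, Finset.mem_univ j⟩)
    omega

private theorem tight_even {X : Finset V} (J : V → V → ℕ) (hs : ∀ u ∈ X, ∀ v ∈ X, J u v = J v u)
    (hl : ∀ v ∈ X, J v v = 0) : Even (∑ x ∈ X, ∑ u ∈ X, J x u) := by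
  induction X using Finset.induction_on with
  | empty => simp
  | insert a X ha ih =>
    have ih' := ih (fun u hu v hv => hs u (mem_insert_of_mem hu) v (mem_insert_of_mem hv))
      (fun v hv => hl v (mem_insert_of_mem hv))
    rw [sum_insert ha, sum_insert ha, hl a (mem_insert_self a X)]
    have h1 : ∑ x ∈ X, ∑ u ∈ insert a X, J x u = ∑ x ∈ X, J a x + ∑ x ∈ X, ∑ u ∈ X, J x u := by
      rw [← sum_add_distrib]
      refine sum_congr rfl fun x hx => ?_
      rw [sum_insert ha, hs x (mem_insert_of_mem hx) a (mem_insert_self a X)]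
    rw [h1]
    obtain ⟨q, hq⟩ := ih'
    exact ⟨∑ x ∈ X, J a x + q, by rw [hq]; ring⟩

private theorem tight_ind {ι : Type*} [Fintype ι] [DecidableEq ι] {r : ℕ} (P : Fin r → ι → Prop)
    [∀ c i, Decidable (P c i)] (i : ι) :
    (univ.filter (fun c => P c i)).card = ∑ c, if P c i then 1 else 0 := by
  rw [Finset.card_filter]

/-- Gluing along a tight odd set. -/
theorem IsZG.glue_tight (h : IsZG W m f (fun _ => 0) r) {X : Finset V} {x0 : V} (hX : X ⊆ W)
    (hx0 : x0 ∈ X) (hodd : Odd X.card) (ht : cut W m f X = r)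
    (h1 : Dec (insert x0 (W \ X)) (conM X x0 m) (conF X x0 f) r)
    (h2 : Dec X m (fun x => f x + ∑ u ∈ W \ X, m x u) r) : Dec W m f r := by
  obtain ⟨J1, g1, s1, m1, f1, o1⟩ := h1
  obtain ⟨J2, g2, s2, m2, f2, o2⟩ := h2
  obtain ⟨P, hP⟩ : ∃ P, P = W \ X := ⟨_, rfl⟩
  rw [← hP] at s1 m1 f1 o1 f2
  have hx0P : x0 ∉ P := by rw [hP]; simp [hx0]
  have hPW : P ⊆ W := by rw [hP]; exact sdiff_subset
  have hdis : Disjoint P X := by rw [hP]; exact sdiff_disjoint
  have hW : W = P ∪ X := by rw [hP]; exact (sdiff_union_of_subset hX).symm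
  have hPne : ∀ u ∈ P, u ≠ x0 := fun u hu he => hx0P (he ▸ hu)
  have hPX : ∀ u ∈ P, u ∉ X := fun u hu hu' => Finset.disjoint_left.1 hdis hu hu'
  have hcP : ∀ u ∈ P, ∀ v ∈ P, conM X x0 m u v = m u v := by
    intro u hu v hv
    simp only [conM, if_neg (hPne u hu), if_neg (hPne v hv)]
  have hcx : ∀ v ∈ P, conM X x0 m x0 v = ∑ x ∈ X, m x v := by
    intro v hv
    simp [conM, hPne v hv]
  have hcxx : conM X x0 m x0 x0 = 0 := by simp [conM]
  have hfx : conF X x0 f x0 = ∑ x ∈ X, f x := by simp [conF]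
  have hfP : ∀ v ∈ P, conF X x0 f v = f v := by
    intro v hv
    simp only [conF, if_neg (hPne v hv)]
  have hcut : ∑ x ∈ X, (f x + ∑ u ∈ P, m x u) = r := by
    rw [← ht, sum_add_distrib, add_comm]
    simp only [cut, E, ← hP]
  -- the labels of the first decomposition
  have hself1 : ∀ c, J1 c x0 x0 = 0 := by
    intro c
    have h3 := m1 x0 (mem_insert_self _ _) x0 (mem_insert_self _ _)
    rw [hcxx] at h3
    exact (Finset.sum_eq_zero_iff.1 h3) c (mem_univ c)
  have hdeg1 : ∑ u ∈ insert x0 P, conM X x0 m x0 u + conF X x0 f x0 = r := by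
    rw [sum_insert hx0P, hcxx, hfx, zero_add, sum_congr rfl hcx, ← hcut, sum_add_distrib,
      sum_comm, add_comm]
  have hone1 : ∀ c, g1 c x0 + ∑ u : {u // u ∈ P}, J1 c x0 u = 1 := by
    intro c
    have h3 := dec_one (W := insert x0 P) (m := conM X x0 m) (f := conF X x0 f) (J := J1)
      (g := g1) (mem_insert_self x0 P) hdeg1 (fun u hu => m1 x0 (mem_insert_self _ _) u hu)
      (f1 x0 (mem_insert_self _ _)) (fun c => o1 c x0 (mem_insert_self _ _)) c
    rw [sum_insert hx0P, hself1 c, zero_add] at h3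
    rw [← h3, add_comm]
    congr 1
    exact (Finset.sum_coe_sort P (fun u => J1 c x0 u))
  have hS : ∀ c, ∃ i : Option {u // u ∈ P}, ∀ j : Option {u // u ∈ P},
      (j.elim (g1 c x0) (fun u => J1 c x0 u)) = if i = j then 1 else 0 := by
    intro c
    refine tight_one _ ?_
    rw [Fintype.sum_option]
    exact hone1 c
  choose S hS using hS
  -- the labels of the second decomposition
  have hself2 : ∀ c, ∀ x ∈ X, J2 c x x = 0 := by
    intro c x hx
    have h3 := m2 x hx x hx
    rw [h.loopless x (hX hx)] at h3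
    exact (Finset.sum_eq_zero_iff.1 h3) c (mem_univ c)
  have hdeg2 : ∀ x ∈ X, ∑ u ∈ X, m x u + (f x + ∑ u ∈ P, m x u) = r := by
    intro x hx
    have h3 := h.degree x (hX hx)
    rw [hW, sum_union hdis] at h3
    simp only [mul_zero, add_zero] at h3
    omega
  have hone2 : ∀ c, ∀ x ∈ X, ∑ u ∈ X, J2 c x u + g2 c x = 1 := by
    intro c x hx
    exact dec_one (W := X) (m := m) (f := fun x => f x + ∑ u ∈ P, m x u) (J := J2)
      (g := g2) hx (hdeg2 x hx) (fun u hu => m2 x hx u hu) (f2 x hx) (fun c => o2 c x hx) c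
  have hpos2 : ∀ c, 1 ≤ ∑ x ∈ X, g2 c x := by
    intro c
    have h3 : ∑ x ∈ X, (∑ u ∈ X, J2 c x u + g2 c x) = X.card := by
      rw [sum_congr rfl (hone2 c)]
      simp
    rw [sum_add_distrib] at h3
    obtain ⟨q, hq⟩ := tight_even (J2 c) (s2 c) (hself2 c)
    obtain ⟨p, hp⟩ := hodd
    omega
  have hsum2 : ∑ c, ∑ x ∈ X, g2 c x = r := by
    rw [sum_comm]
    exact (sum_congr rfl f2).trans hcut
  have hg2 : ∀ c, ∑ x : {x // x ∈ X}, g2 c x = 1 := by
    intro c
    rw [Finset.sum_coe_sort X (fun x => g2 c x)]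
    have h3 : ∑ _c : Fin r, 1 = ∑ c, ∑ x ∈ X, g2 c x := by
      rw [hsum2]; simp
    exact ((Finset.sum_eq_sum_iff_of_le (fun c _ => hpos2 c)).1 h3 c (mem_univ c)).symm
  have hT : ∀ c, ∃ i : {x // x ∈ X}, ∀ j : {x // x ∈ X}, g2 c j = if i = j then 1 else 0 :=
    fun c => tight_one _ (hg2 c)
  choose T hT using hT
  -- the coupling
  have hrow : ∀ i : Option {u // u ∈ P}, ∑ j : {x // x ∈ X},
      (i.elim (f j) (fun u => m j u)) = (univ.filter (fun c => S c = i)).card := by
    intro i
    rw [Finset.card_filter, ← sum_congr rfl (fun c _ => hS c i)]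
    rcases i with _ | ⟨u, hu⟩
    · simp only [Option.elim_none]
      rw [f1 x0 (mem_insert_self _ _), hfx, Finset.sum_coe_sort X (fun x => f x)]
    · simp only [Option.elim_some]
      rw [m1 x0 (mem_insert_self _ _) u (mem_insert_of_mem hu), hcx u hu,
        Finset.sum_coe_sort X (fun x => m x u)]
  have hcol : ∀ j : {x // x ∈ X}, ∑ i : Option {u // u ∈ P},
      (i.elim (f j) (fun u => m j u)) = (univ.filter (fun c => T c = j)).card := by
    intro j
    rw [Finset.card_filter, ← sum_congr rfl (fun c _ => hT c j), f2 j j.2, Fintype.sum_option]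
    simp only [Option.elim_none, Option.elim_some]
    rw [Finset.sum_coe_sort P (fun u => m j u)]
  obtain ⟨σ, hσ⟩ := exists_coupling S T
    (fun (i : Option {u // u ∈ P}) (j : {x // x ∈ X}) => i.elim (f j) (fun u => m j u)) hrow hcol
  set L : Fin r → V → V → ℕ := fun c u x =>
    if (S (σ c)).map Subtype.val = some u ∧ (T c : V) = x then 1 else 0 with hL
  have hLP : ∀ c u x, ∀ (hu : u ∈ P) (hx : x ∈ X),
      L c u x = if S (σ c) = some ⟨u, hu⟩ ∧ T c = ⟨x, hx⟩ then 1 else 0 := by
    intro c u x hu hx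
    simp only [hL]
    congr 1
    apply propext
    constructor
    · rintro ⟨h3, h4⟩
      refine ⟨?_, Subtype.ext h4⟩
      rw [Option.map_eq_some_iff] at h3
      obtain ⟨a, ha, hau⟩ := h3
      rw [ha]
      congr 1
      exact Subtype.ext hau
    · rintro ⟨h3, h4⟩
      rw [h3, h4]
      exact ⟨rfl, rfl⟩
  set JB : Fin r → V → V → ℕ := fun c u v =>
    if u ∈ X then (if v ∈ X then J2 c u v else L c v u) else L c u v with hJB
  set gB : Fin r → V → ℕ := fun c v =>
    if S (σ c) = none ∧ (T c : V) = v then 1 else 0 with hgB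
  have hgBX : ∀ c x, ∀ hx : x ∈ X, gB c x = if S (σ c) = none ∧ T c = ⟨x, hx⟩ then 1 else 0 := by
    intro c x hx
    simp only [hgB, Subtype.ext_iff]
  refine Dec.glue (P := P) (B := X) hW hdis (fun c => J1 (σ c)) JB (fun c => g1 (σ c)) gB
    ?_ ?_ ?_ ?_ h.symm ?_ ?_ ?_ ?_
  · intro c u hu v hv
    exact s1 (σ c) u (mem_insert_of_mem hu) v (mem_insert_of_mem hv)
  · intro c u hu v hv
    by_cases huX : u ∈ X
    · simp only [hJB, if_pos huX, if_pos hv]
      exact s2 c u huX v hv
    · simp only [hJB, if_neg huX, if_pos hv]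
  · intro u hu v hv
    rw [Equiv.sum_comp σ (fun c => J1 c u v), m1 u (mem_insert_of_mem hu) v (mem_insert_of_mem hv),
      hcP u hu v hv]
  · intro u hu v hv
    by_cases huX : u ∈ X
    · simp only [hJB, if_pos huX, if_pos hv]
      exact m2 u huX v hv
    · simp only [hJB, if_neg huX]
      have huP : u ∈ P := by rw [hP]; exact mem_sdiff.2 ⟨hu, huX⟩
      rw [sum_congr rfl (fun c _ => hLP c u v huP hv), ← Finset.card_filter,
        hσ (some ⟨u, huP⟩) ⟨v, hv⟩]
      simp only [Option.elim_some]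
      exact h.symm v (hX hv) u hu
  · intro v hv
    rw [Equiv.sum_comp σ (fun c => g1 c v), f1 v (mem_insert_of_mem hv), hfP v hv]
  · intro v hv
    rw [sum_congr rfl (fun c _ => hgBX c v hv), ← Finset.card_filter, hσ none ⟨v, hv⟩]
    simp only [Option.elim_none]
  · intro c v hv
    have hvX := hPX v hv
    have h3 : ∑ b ∈ X, JB c v b = J1 (σ c) v x0 := by
      rw [s1 (σ c) v (mem_insert_of_mem hv) x0 (mem_insert_self _ _)]
      have h4 := hS (σ c) (some ⟨v, hv⟩)
      simp only [Option.elim_some] at h4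
      rw [h4]
      simp only [hJB, if_neg hvX]
      by_cases h5 : S (σ c) = some ⟨v, hv⟩
      · rw [if_pos h5, Finset.sum_eq_single (T c : V)]
        · rw [hLP c v (T c) hv (T c).2, if_pos ⟨h5, rfl⟩]
        · intro b hb hne
          rw [hLP c v b hv hb, if_neg]
          rintro ⟨-, h6⟩
          exact hne (by rw [h6])
        · intro hno
          exact absurd (T c).2 hno
      · rw [if_neg h5]
        refine Finset.sum_eq_zero fun b hb => ?_
        rw [hLP c v b hv hb, if_neg (fun h6 => h5 h6.1)]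
    have h4 := o1 (σ c) v (mem_insert_of_mem hv)
    rw [sum_insert hx0P] at h4
    rw [h3]
    have e : ∑ u ∈ P, J1 (σ c) v u + J1 (σ c) v x0 + g1 (σ c) v =
        J1 (σ c) v x0 + ∑ x ∈ P, J1 (σ c) v x + g1 (σ c) v := by ring
    rw [e]
    exact h4
  · intro c v hv
    have h3 : ∑ u ∈ P, JB c v u + gB c v = g2 c v := by
      have e1 : ∀ u ∈ P, JB c v u = L c u v := by
        intro u hu
        simp only [hJB, if_pos hv, if_neg (hPX u hu)]
      rw [sum_congr rfl e1]
      have h4 := hT c ⟨v, hv⟩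
      simp only at h4
      rw [h4, hgBX c v hv]
      by_cases h5 : T c = ⟨v, hv⟩
      · rw [if_pos h5]
        rcases hSc : S (σ c) with _ | ⟨u0, hu0⟩
        · rw [if_pos ⟨rfl, h5⟩, Finset.sum_eq_zero]
          intro u hu
          rw [hLP c u v hu hv, if_neg]
          rintro ⟨h6, -⟩
          rw [hSc] at h6
          exact Option.some_ne_none _ h6.symm
        · rw [if_neg (fun h6 => Option.some_ne_none _ h6.1), add_zero, Finset.sum_eq_single u0]
          · rw [hLP c u0 v hu0 hv, if_pos ⟨hSc, h5⟩]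
          · intro u hu hne
            rw [hLP c u v hu hv, if_neg]
            rintro ⟨h6, -⟩
            rw [hSc] at h6
            have h7 := Option.some_injective _ h6
            exact hne (congrArg Subtype.val h7).symm
          · intro hno
            exact absurd hu0 hno
      · rw [if_neg h5, if_neg (fun h6 => h5 h6.2), add_zero]
        refine Finset.sum_eq_zero fun u hu => ?_
        rw [hLP c u v hu hv, if_neg (fun h6 => h5 h6.2)]
    have h4 : ∑ u ∈ X, JB c v u = ∑ u ∈ X, J2 c v u := by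
      refine sum_congr rfl fun u hu => ?_
      simp only [hJB, if_pos hv, if_pos hu]
    rw [hW, sum_union hdis, h4]
    have e : ∑ u ∈ P, JB c v u + ∑ u ∈ X, J2 c v u + gB c v =
        ∑ u ∈ X, J2 c v u + (∑ u ∈ P, JB c v u + gB c v) := by ring
    rw [e, h3]
    exact o2 c v hv

end PStar
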