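import Pool.Agent.PStar.Defs

set_option autoImplicit false

namespace PStar

open Finset

variable {Ω : Type*} [DecidableEq Ω] {F F' : SimpleGraph Ω} {U : Finset Ω}

theorem T3.four_le (h : T3 F U) : 4 ≤ U.card := by
  induction h with
  | base Q hcard hc => exact hcard.ge
  | add U v P hv hP hcard hc hadj h ih =>
    rw [Finset.card_insert_of_notMem hv]
    omega

theorem T3.congr (h : T3 F U) (hF : ∀ u ∈ U, ∀ v ∈ U, F.Adj u v ↔ F'.Adj u v) : T3 F' U := by
  revert hF
  induction h with
  | base Q hcard hc =>
    intro hF
    exact T3.base Q hcard (fun a ha b hb hab => (hF a ha b hb).1 (hc a ha b hb hab))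
  | add U v P hv hP hcard hc hadj h ih =>
    intro hF
    have hU : ∀ u ∈ U, u ∈ insert v U := fun u hu => Finset.mem_insert_of_mem hu
    refine T3.add U v P hv hP hcard (fun a ha b hb hab => ?_) (fun u hu => ?_)
      (ih (fun u hu w hw => hF u (hU u hu) w (hU w hw)))
    · exact (hF a (hU a (hP ha)) b (hU b (hP hb))).1 (hc a ha b hb hab)
    · rw [← hF v (Finset.mem_insert_self v U) u (hU u hu)]
      exact hadj u hu

/-- Every clique with at most three vertices lies in a clique with four vertices. -/
theorem T3.extend (h : T3 F U) (K : Finset Ω) (hK : K ⊆ U) (hc : K.card ≤ 3)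
    (hcl : ∀ a ∈ K, ∀ b ∈ K, a ≠ b → F.Adj a b) :
    ∃ Q ⊆ U, K ⊆ Q ∧ Q.card = 4 ∧ ∀ a ∈ Q, ∀ b ∈ Q, a ≠ b → F.Adj a b := by
  revert hK
  induction h with
  | base Q hcard hc' =>
    intro hK
    exact ⟨Q, Finset.Subset.refl Q, hK, hcard, hc'⟩
  | add U v P hv hP hcard hcP hadj h ih =>
    intro hK
    by_cases hvK : v ∈ K
    · have hvP : v ∉ P := fun hvP => hv (hP hvP)
      refine ⟨insert v P, Finset.insert_subset_insert v hP, ?_, ?_, ?_⟩
      · intro a ha
        by_cases hav : a = v
        · rw [hav]
          exact Finset.mem_insert_self v P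
        · have haU : a ∈ U := by
            rcases Finset.mem_insert.1 (hK ha) with e | e
            · exact absurd e hav
            · exact e
          have hva : F.Adj v a := hcl v hvK a ha (fun e => hav e.symm)
          exact Finset.mem_insert_of_mem ((hadj a haU).1 hva)
      · rw [Finset.card_insert_of_notMem hvP, hcard]
      · intro a ha b hb hab
        rcases Finset.mem_insert.1 ha with ea | ea <;> rcases Finset.mem_insert.1 hb with eb | eb
        · exact absurd (ea.trans eb.symm) hab
        · rw [ea]
          exact (hadj b (hP eb)).2 eb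
        · rw [eb]
          exact ((hadj a (hP ea)).2 ea).symm
        · exact hcP a ea b eb hab
    · have hKU : K ⊆ U := by
        intro a ha
        rcases Finset.mem_insert.1 (hK ha) with e | e
        · exact absurd (by rw [← e]; exact ha) hvK
        · exact e
      obtain ⟨Q, h1, h2, h3, h4⟩ := ih hKU
      exact ⟨Q, h1.trans (Finset.subset_insert v U), h2, h3, h4⟩

/-- 3-trees are 3-connected. -/
theorem T3.conn (h : T3 F U) {C A B : Finset Ω} (hU : U = C ∪ (A ∪ B)) (hC : C.card ≤ 2)
    (hA : A.Nonempty) (hB : B.Nonempty) (hAB : Disjoint A B) (hCA : Disjoint C A)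
    (hCB : Disjoint C B) : ∃ a ∈ A, ∃ b ∈ B, F.Adj a b := by
  revert C A B
  induction h with
  | base Q hcard hc =>
    intro C A B hU hC hA hB hAB hCA hCB
    obtain ⟨a, ha⟩ := hA
    obtain ⟨b, hb⟩ := hB
    refine ⟨a, ha, b, hb, hc a ?_ b ?_ ?_⟩
    · rw [hU]
      exact Finset.mem_union_right _ (Finset.mem_union_left _ ha)
    · rw [hU]
      exact Finset.mem_union_right _ (Finset.mem_union_right _ hb)
    · intro e
      exact Finset.disjoint_left.1 hAB ha (by rw [e]; exact hb)
  | add U v P hv hP hcard hcP hadj h ih =>
    intro C A B hU hC hA hB hAB hCA hCB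
    have key : ∀ x, x ∈ U ↔ x ≠ v ∧ (x ∈ C ∨ x ∈ A ∨ x ∈ B) := by
      intro x
      constructor
      · intro hx
        refine ⟨fun e => hv (by rw [← e]; exact hx), ?_⟩
        have : x ∈ insert v U := Finset.mem_insert_of_mem hx
        rw [hU, Finset.mem_union, Finset.mem_union] at this
        exact this
      · rintro ⟨hxv, hx⟩
        have : x ∈ insert v U := by
          rw [hU, Finset.mem_union, Finset.mem_union]
          exact hx
        rcases Finset.mem_insert.1 this with e | e
        · exact absurd e hxv
        · exact e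
    have hvU : v ∈ C ∨ v ∈ A ∨ v ∈ B := by
      have : v ∈ insert v U := Finset.mem_insert_self v U
      rw [hU, Finset.mem_union, Finset.mem_union] at this
      exact this
    rcases hvU with hvC | hvA | hvB
    · have hvA : v ∉ A := Finset.disjoint_left.1 hCA hvC
      have hvB : v ∉ B := Finset.disjoint_left.1 hCB hvC
      refine ih (C := C.erase v) (A := A) (B := B) ?_ ?_ hA hB hAB ?_ ?_
      · ext x
        rw [key, Finset.mem_union, Finset.mem_union, Finset.mem_erase]
        constructor
        · rintro ⟨h1, h2 | h2 | h2⟩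
          · exact Or.inl ⟨h1, h2⟩
          · exact Or.inr (Or.inl h2)
          · exact Or.inr (Or.inr h2)
        · rintro (⟨h1, h2⟩ | h2 | h2)
          · exact ⟨h1, Or.inl h2⟩
          · exact ⟨fun e => hvA (by rw [← e]; exact h2), Or.inr (Or.inl h2)⟩
          · exact ⟨fun e => hvB (by rw [← e]; exact h2), Or.inr (Or.inr h2)⟩
      · exact (Finset.card_erase_le).trans hC
      · exact hCA.mono_left (Finset.erase_subset v C)
      · exact hCB.mono_left (Finset.erase_subset v C)
    · have hvC : v ∉ C := Finset.disjoint_right.1 hCA hvA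
      have hvB : v ∉ B := Finset.disjoint_left.1 hAB hvA
      by_cases hne : (A.erase v).Nonempty
      · obtain ⟨a, ha, b, hb, hab⟩ := ih (C := C) (A := A.erase v) (B := B) (by
          ext x
          rw [key, Finset.mem_union, Finset.mem_union, Finset.mem_erase]
          constructor
          · rintro ⟨h1, h2 | h2 | h2⟩
            · exact Or.inl h2
            · exact Or.inr (Or.inl ⟨h1, h2⟩)
            · exact Or.inr (Or.inr h2)
          · rintro (h2 | ⟨h1, h2⟩ | h2)
            · exact ⟨fun e => hvC (by rw [← e]; exact h2), Or.inl h2⟩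
            · exact ⟨h1, Or.inr (Or.inl h2)⟩
            · exact ⟨fun e => hvB (by rw [← e]; exact h2), Or.inr (Or.inr h2)⟩) hC hne hB
          (hAB.mono_left (Finset.erase_subset v A)) (hCA.mono_right (Finset.erase_subset v A)) hCB
        exact ⟨a, Finset.mem_of_mem_erase ha, b, hb, hab⟩
      · rw [Finset.not_nonempty_iff_eq_empty] at hne
        obtain ⟨p, hpP, hpC⟩ : ∃ p ∈ P, p ∉ C := by
          by_contra hcon
          push Not at hcon
          have := Finset.card_le_card (show P ⊆ C from fun x hx => hcon x hx)
          omega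
        obtain ⟨hpv, hp⟩ := (key p).1 (hP hpP)
        have hpB : p ∈ B := by
          rcases hp with e | e | e
          · exact absurd e hpC
          · have : p ∈ A.erase v := Finset.mem_erase.2 ⟨hpv, e⟩
            rw [hne] at this
            exact absurd this (Finset.notMem_empty p)
          · exact e
        exact ⟨v, hvA, p, hpB, (hadj p (hP hpP)).2 hpP⟩
    · have hvC : v ∉ C := Finset.disjoint_right.1 hCB hvB
      have hvA : v ∉ A := Finset.disjoint_right.1 hAB hvB
      by_cases hne : (B.erase v).Nonempty
      · obtain ⟨a, ha, b, hb, hab⟩ := ih (C := C) (A := A) (B := B.erase v) (by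
          ext x
          rw [key, Finset.mem_union, Finset.mem_union, Finset.mem_erase]
          constructor
          · rintro ⟨h1, h2 | h2 | h2⟩
            · exact Or.inl h2
            · exact Or.inr (Or.inl h2)
            · exact Or.inr (Or.inr ⟨h1, h2⟩)
          · rintro (h2 | h2 | ⟨h1, h2⟩)
            · exact ⟨fun e => hvC (by rw [← e]; exact h2), Or.inl h2⟩
            · exact ⟨fun e => hvA (by rw [← e]; exact h2), Or.inr (Or.inl h2)⟩
            · exact ⟨h1, Or.inr (Or.inr h2)⟩) hC hA hne
          (hAB.mono_right (Finset.erase_subset v B)) hCA (hCB.mono_right (Finset.erase_subset v B))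
        exact ⟨a, ha, b, Finset.mem_of_mem_erase hb, hab⟩
      · rw [Finset.not_nonempty_iff_eq_empty] at hne
        obtain ⟨p, hpP, hpC⟩ : ∃ p ∈ P, p ∉ C := by
          by_contra hcon
          push Not at hcon
          have := Finset.card_le_card (show P ⊆ C from fun x hx => hcon x hx)
          omega
        obtain ⟨hpv, hp⟩ := (key p).1 (hP hpP)
        have hpA : p ∈ A := by
          rcases hp with e | e | e
          · exact absurd e hpC
          · exact e
          · have : p ∈ B.erase v := Finset.mem_erase.2 ⟨hpv, e⟩
            rw [hne] at this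
            exact absurd this (Finset.notMem_empty p)
        exact ⟨p, hpA, v, hvB, ((hadj p (hP hpP)).2 hpP).symm⟩

end PStar
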